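import Pool.Agent.Lib.MP_68391b_lc.Defs

/-! Anticoncentration of quadratic polynomials along one coordinate. -/

namespace Pool.Agent.KWI

open MeasureTheory ProbabilityTheory

private theorem ANTI_pdf_le (x : ℝ) : gaussianPDFReal 0 1 x ≤ 1 / 2 := by
  unfold gaussianPDFReal
  have h1 : (2 : ℝ) ≤ Real.sqrt (2 * Real.pi * ((1 : NNReal) : ℝ)) := by
    apply Real.le_sqrt_of_sq_le
    have := Real.pi_gt_three
    simp only [NNReal.coe_one, mul_one]
    linarith
  have h2 : Real.exp (-(x - 0) ^ 2 / (2 * ((1 : NNReal) : ℝ))) ≤ 1 := by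
    rw [Real.exp_le_one_iff]
    have := sq_nonneg (x - 0)
    simp only [NNReal.coe_one, mul_one]
    linarith
  have h3 : (Real.sqrt (2 * Real.pi * ((1 : NNReal) : ℝ)))⁻¹ ≤ 1 / 2 := by
    rw [inv_eq_one_div]
    exact one_div_le_one_div_of_le (by norm_num) h1
  have h4 : 0 ≤ Real.exp (-(x - 0) ^ 2 / (2 * ((1 : NNReal) : ℝ))) := (Real.exp_pos _).le
  calc _ ≤ 1 / 2 * 1 := mul_le_mul h3 h2 h4 (by norm_num)
    _ = 1 / 2 := by norm_num

private theorem ANTI_Icc (a δ : ℝ) (hδ : 0 ≤ δ) :
    (gaussianReal 0 1).real (Set.Icc (a - δ) (a + δ)) ≤ δ := by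
  have h1 : gaussianReal 0 1 (Set.Icc (a - δ) (a + δ)) ≤ ENNReal.ofReal δ := by
    rw [gaussianReal_apply 0 one_ne_zero]
    calc ∫⁻ x in Set.Icc (a - δ) (a + δ), gaussianPDF 0 1 x
        ≤ ∫⁻ _ in Set.Icc (a - δ) (a + δ), ENNReal.ofReal (1 / 2) := by
          refine lintegral_mono fun x => ?_
          exact ENNReal.ofReal_le_ofReal (ANTI_pdf_le x)
      _ = ENNReal.ofReal δ := by
          rw [setLIntegral_const, Real.volume_Icc, ← ENNReal.ofReal_mul (by norm_num)]
          congr 1
          ring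
  unfold Measure.real
  exact ENNReal.toReal_le_of_le_ofReal hδ h1

private theorem ANTI_abs (a δ : ℝ) (hδ : 0 ≤ δ) (S : Set ℝ) (hS : ∀ z ∈ S, |z - a| ≤ δ) :
    (gaussianReal 0 1).real S ≤ δ := by
  refine (measureReal_mono (fun z hz => ?_)).trans (ANTI_Icc a δ hδ)
  have := abs_le.1 (hS z hz)
  exact ⟨by linarith [this.1], by linarith [this.2]⟩

private theorem ANTI_key (t D η : ℝ) (hη : 0 ≤ η) (h : |t ^ 2 - D| ≤ 2 * η * |t| + η ^ 2) :
    |t - Real.sqrt D| ≤ 3 * η ∨ |t + Real.sqrt D| ≤ 3 * η := by
  have h1 := abs_le.1 h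
  set r := Real.sqrt D with hr
  have hr0 : 0 ≤ r := Real.sqrt_nonneg D
  have hu0 : 0 ≤ |t| := abs_nonneg t
  have hsq : |t| ^ 2 = t ^ 2 := sq_abs t
  -- `| |t| - r | ≤ 3 η`
  have hlow : r ≤ |t| + 3 * η := by
    rcases le_or_gt D 0 with hD | hD
    · have : r = 0 := Real.sqrt_eq_zero_of_nonpos hD
      rw [this]; positivity
    · have hrr : r ^ 2 = D := Real.sq_sqrt hD.le
      by_contra hcon
      push Not at hcon
      have h2 : (|t| + 3 * η) ^ 2 < r ^ 2 := by
        apply sq_lt_sq' _ hcon
        nlinarith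
      nlinarith [h1.1, mul_nonneg hη hu0]
  have hupp : |t| ≤ r + 3 * η := by
    have hDr : D ≤ r ^ 2 := by
      rcases le_or_gt D 0 with hD | hD
      · exact hD.trans (sq_nonneg r)
      · exact (Real.sq_sqrt hD.le).ge
    by_contra hcon
    push Not at hcon
    have h2 : (|t| - η) ^ 2 ≤ r ^ 2 + 2 * η ^ 2 := by nlinarith [h1.2]
    have h3 : r + 2 * η < |t| - η := by linarith
    have h4 : (r + 2 * η) ^ 2 < (|t| - η) ^ 2 := by
      apply sq_lt_sq' _ h3
      nlinarith
    nlinarith [mul_nonneg hr0 hη, sq_nonneg η]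
  rcases le_total 0 t with ht | ht
  · rw [abs_of_nonneg ht] at hlow hupp
    left
    rw [abs_le]
    constructor <;> linarith
  · rw [abs_of_nonpos ht] at hlow hupp
    right
    rw [abs_le]
    constructor <;> linarith

theorem anti_one (lam b c η : ℝ) (h : lam ≠ 0 ∨ b ≠ 0) (hη : 0 ≤ η) :
    (gaussianReal 0 1).real
      {z | |lam * z ^ 2 + b * z + c| ≤ η * |2 * lam * z + b| + η ^ 2 * |lam|} ≤ 8 * η := by
  by_cases hl : lam = 0
  · have hb : b ≠ 0 := by
      rcases h with h | h
      · exact absurd hl h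
      · exact h
    refine (ANTI_abs (-c / b) η hη _ ?_).trans (by linarith)
    intro z hz
    have hz' : |lam * z ^ 2 + b * z + c| ≤ η * |2 * lam * z + b| + η ^ 2 * |lam| := hz
    rw [hl] at hz'
    have hz2 : |b * z + c| ≤ η * |b| := by
      have e1 : (0 : ℝ) * z ^ 2 + b * z + c = b * z + c := by ring
      have e2 : η * |2 * 0 * z + b| + η ^ 2 * |(0 : ℝ)| = η * |b| := by simp
      rw [e1, e2] at hz'
      exact hz'
    have e3 : z - -c / b = (b * z + c) / b := by field_simp; ring
    rw [e3, abs_div]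
    rw [div_le_iff₀ (abs_pos.2 hb)]
    exact hz2
  · have hl' : 0 < |lam| := abs_pos.2 hl
    set D : ℝ := b ^ 2 / (4 * lam ^ 2) - c / lam with hD
    set r := Real.sqrt D with hr
    have hsub : {z | |lam * z ^ 2 + b * z + c| ≤ η * |2 * lam * z + b| + η ^ 2 * |lam|} ⊆
        {z : ℝ | |z - (-(b / (2 * lam)) + r)| ≤ 3 * η} ∪
          {z : ℝ | |z - (-(b / (2 * lam)) - r)| ≤ 3 * η} := by
      intro z hz
      have hz' : |lam * z ^ 2 + b * z + c| ≤ η * |2 * lam * z + b| + η ^ 2 * |lam| := hz
      set t := z + b / (2 * lam) with ht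
      have e1 : lam * z ^ 2 + b * z + c = lam * (t ^ 2 - D) := by
        rw [ht, hD]; field_simp; ring
      have e2 : 2 * lam * z + b = lam * (2 * t) := by
        rw [ht]; field_simp
      rw [e1, e2, abs_mul, abs_mul] at hz'
      have e3 : |2 * t| = 2 * |t| := by rw [abs_mul]; norm_num
      rw [e3] at hz'
      have h2 : |lam| * |t ^ 2 - D| ≤ |lam| * (2 * η * |t| + η ^ 2) := by
        calc |lam| * |t ^ 2 - D| ≤ _ := hz'
          _ = _ := by ring
      have h3 := le_of_mul_le_mul_left h2 hl'
      rcases ANTI_key t D η hη h3 with h4 | h4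
      · left
        show |z - (-(b / (2 * lam)) + r)| ≤ 3 * η
        have : z - (-(b / (2 * lam)) + r) = t - r := by rw [ht]; ring
        rw [this]; exact h4
      · right
        show |z - (-(b / (2 * lam)) - r)| ≤ 3 * η
        have : z - (-(b / (2 * lam)) - r) = t + r := by rw [ht]; ring
        rw [this]; exact h4
    have h3η : 0 ≤ 3 * η := by linarith
    calc _ ≤ (gaussianReal 0 1).real ({z : ℝ | |z - (-(b / (2 * lam)) + r)| ≤ 3 * η} ∪
          {z : ℝ | |z - (-(b / (2 * lam)) - r)| ≤ 3 * η}) := measureReal_mono hsub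
      _ ≤ _ := measureReal_union_le _ _
      _ ≤ 3 * η + 3 * η := add_le_add (ANTI_abs _ _ h3η _ fun z hz => hz)
          (ANTI_abs _ _ h3η _ fun z hz => hz)
      _ ≤ 8 * η := by linarith

variable {ι : Type} [Fintype ι]

theorem anti_pi (j : ι) (lam b η : ℝ) (h : lam ≠ 0 ∨ b ≠ 0) (hη : 0 ≤ η)
    (G : (ι → ℝ) → ℝ) (hG : Measurable G)
    (hGj : ∀ x y : ι → ℝ, (∀ i, i ≠ j → x i = y i) → G x = G y) :
    (gam ι).real {x | |lam * x j ^ 2 + b * x j + G x| ≤
      η * |2 * lam * x j + b| + η ^ 2 * |lam|} ≤ 8 * η := by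
  classical
  set S : Set (ι → ℝ) := {x | |lam * x j ^ 2 + b * x j + G x| ≤
      η * |2 * lam * x j + b| + η ^ 2 * |lam|} with hS
  have hmeas : MeasurableSet S := by
    apply measurableSet_le
    · fun_prop
    · fun_prop
  have hmain : gam ι S ≤ ENNReal.ofReal (8 * η) := by
    have h1 : ∫⁻ x, S.indicator 1 x ∂(gam ι) ≤
        ∫⁻ _, ENNReal.ofReal (8 * η) ∂(gam ι) := by
      unfold gam
      refine lintegral_le_of_lmarginal_le {j} (measurable_one.indicator hmeas)
        measurable_const ?_
      intro x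
      rw [lmarginal_singleton, lmarginal_singleton]
      show ∫⁻ t, S.indicator 1 (Function.update x j t) ∂(gaussianReal 0 1) ≤
        ∫⁻ _, ENNReal.ofReal (8 * η) ∂(gaussianReal 0 1)
      rw [lintegral_const, measure_univ, mul_one]
      have h2 : (fun t : ℝ => S.indicator (1 : (ι → ℝ) → ENNReal) (Function.update x j t)) =
          (({z : ℝ | |lam * z ^ 2 + b * z + G x| ≤
            η * |2 * lam * z + b| + η ^ 2 * |lam|}).indicator (1 : ℝ → ENNReal)) := by
        funext t
        have hGt : G (Function.update x j t) = G x :=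
          hGj _ _ fun i hi => Function.update_of_ne hi _ _
        have hiff : Function.update x j t ∈ S ↔ t ∈ {z : ℝ | |lam * z ^ 2 + b * z + G x| ≤
            η * |2 * lam * z + b| + η ^ 2 * |lam|} := by
          rw [hS]
          simp only [Set.mem_ofPred_eq, Function.update_self, hGt]
        by_cases ht : Function.update x j t ∈ S
        · rw [Set.indicator_of_mem ht, Set.indicator_of_mem (hiff.1 ht)]
          rfl
        · rw [Set.indicator_of_notMem ht, Set.indicator_of_notMem (fun h => ht (hiff.2 h))]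
      rw [h2, lintegral_indicator_one]
      · have h3 := anti_one lam b (G x) η h hη
        rw [Measure.real] at h3
        rw [← ENNReal.ofReal_toReal (measure_ne_top (gaussianReal 0 1) _)]
        exact ENNReal.ofReal_le_ofReal h3
      · apply measurableSet_le
        · fun_prop
        · fun_prop
    rw [lintegral_indicator_one hmeas, lintegral_const, measure_univ, mul_one] at h1
    exact h1
  unfold Measure.real
  exact ENNReal.toReal_le_of_le_ofReal (by linarith) hmain

private theorem ANTI_tail (t : ℝ) (ht : 0 < t) :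
    (gaussianReal 0 1).real {z | t ≤ |z|} ≤ 1 / t ^ 2 := by
  have h1 := meas_ge_le_variance_div_sq (μ := gaussianReal 0 1) (X := id)
    (memLp_id_gaussianReal 2) ht
  have h2 : (gaussianReal 0 1)[id] = 0 := by
    show ∫ x, x ∂(gaussianReal 0 1) = 0
    rw [integral_id_gaussianReal]
  rw [h2, variance_id_gaussianReal] at h1
  have h3 : {ω : ℝ | t ≤ |id ω - 0|} = {z | t ≤ |z|} := by
    ext z; simp
  rw [h3] at h1
  unfold Measure.real
  refine ENNReal.toReal_le_of_le_ofReal (by positivity) ?_
  simpa using h1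

private theorem ANTI_small (lam b s : ℝ) (hV : 1 / 4 ≤ lam ^ 2 + b ^ 2) (hs : 0 ≤ s)
    (hs2 : s < 1 / 20) :
    (gaussianReal 0 1).real {z | |2 * lam * z + b| < s * Real.sqrt s} ≤ 2 * s := by
  rcases hs.eq_or_lt with rfl | hs0
  · have : {z : ℝ | |2 * lam * z + b| < 0 * Real.sqrt 0} = ∅ := by
      ext z
      simp only [Set.mem_ofPred_eq, zero_mul, Set.mem_empty_iff_false, iff_false, not_lt]
      exact abs_nonneg _
    rw [this]
    simp
  · have hq0 : 0 < Real.sqrt s := Real.sqrt_pos.2 hs0
    have hqq : Real.sqrt s * Real.sqrt s = s := Real.mul_self_sqrt hs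
    have hq1 : Real.sqrt s < 1 / 4 := by
      rw [Real.sqrt_lt' (by norm_num)]
      norm_num
      linarith
    rcases le_or_gt (Real.sqrt s / 2) |2 * lam| with hx | hx
    · have hx0 : 0 < |2 * lam| := by linarith
      have hne : 2 * lam ≠ 0 := abs_pos.1 hx0
      refine (ANTI_abs (-b / (2 * lam)) (2 * s) (by linarith) _ ?_)
      intro z hz
      have hz' : |2 * lam * z + b| < s * Real.sqrt s := hz
      have e3 : z - -b / (2 * lam) = (2 * lam * z + b) / (2 * lam) := by
        have : lam ≠ 0 := fun h => hne (by rw [h, mul_zero])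
        field_simp
        ring
      rw [e3, abs_div, div_le_iff₀ hx0]
      nlinarith
    · -- here `|b|` is large
      have hlam : lam ^ 2 < 1 / 100 := by
        have h1 : |2 * lam| < 1 / 8 := by linarith
        have h2 := abs_lt.1 h1
        nlinarith
      have hb : 0.48 ≤ |b| := by
        apply abs_le_of_sq_le_sq' _ (abs_nonneg b) |>.2
        rw [sq_abs]
        norm_num
        nlinarith
      have ha : s * Real.sqrt s < 0.02 := by nlinarith
      by_cases hl : lam = 0
      · have : {z : ℝ | |2 * lam * z + b| < s * Real.sqrt s} = ∅ := by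
          ext z
          simp only [Set.mem_ofPred_eq, Set.mem_empty_iff_false, iff_false, not_lt]
          rw [hl]
          have e1 : 2 * (0 : ℝ) * z + b = b := by ring
          rw [e1]
          linarith
        rw [this]
        simp only [measureReal_empty]
        linarith
      · have hx0 : 0 < |2 * lam| := abs_pos.2 (mul_ne_zero two_ne_zero hl)
        have hsub : {z : ℝ | |2 * lam * z + b| < s * Real.sqrt s} ⊆
            {z | 0.4 / |2 * lam| ≤ |z|} := by
          intro z hz
          have hz' : |2 * lam * z + b| < s * Real.sqrt s := hz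
          show 0.4 / |2 * lam| ≤ |z|
          rw [div_le_iff₀ hx0, mul_comm |z|, ← abs_mul]
          have h5 : |b| ≤ |2 * lam * z + b| + |2 * lam * z| := by
            have : b = (2 * lam * z + b) - 2 * lam * z := by ring
            calc |b| = |(2 * lam * z + b) - 2 * lam * z| := by rw [← this]
              _ ≤ _ := abs_sub _ _
          linarith
        refine (measureReal_mono hsub).trans ((ANTI_tail _ (by positivity)).trans ?_)
        rw [div_pow, one_div_div, div_le_iff₀ (by positivity)]
        nlinarith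

theorem anti_abs (j : ι) (lam b s : ℝ) (hV : 1 / 4 ≤ lam ^ 2 + b ^ 2) (hs : 0 ≤ s)
    (G : (ι → ℝ) → ℝ) (hG : Measurable G)
    (hGj : ∀ x y : ι → ℝ, (∀ i, i ≠ j → x i = y i) → G x = G y) :
    (gam ι).real {x | |lam * x j ^ 2 + b * x j + G x| ≤ s ^ 3} ≤ 20 * s := by
  rcases le_or_gt (1 / 20) s with hs1 | hs1
  · exact measureReal_le_one.trans (by linarith)
  · have hne : lam ≠ 0 ∨ b ≠ 0 := by
      by_contra hcon
      push Not at hcon
      rw [hcon.1, hcon.2] at hV
      norm_num at hV
    set η := s * Real.sqrt s with hηdef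
    have hq0 : 0 ≤ Real.sqrt s := Real.sqrt_nonneg s
    have hqq : Real.sqrt s * Real.sqrt s = s := Real.mul_self_sqrt hs
    have hη : 0 ≤ η := by positivity
    have hηs : η ≤ s := by
      have : Real.sqrt s ≤ 1 := by
        rw [Real.sqrt_le_one]
        linarith
      nlinarith
    have hηη : η * η = s ^ 3 := by
      rw [hηdef]
      calc s * Real.sqrt s * (s * Real.sqrt s) = s * s * (Real.sqrt s * Real.sqrt s) := by ring
        _ = s ^ 3 := by rw [hqq]; ring
    have hsub : {x : ι → ℝ | |lam * x j ^ 2 + b * x j + G x| ≤ s ^ 3} ⊆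
        {x | |lam * x j ^ 2 + b * x j + G x| ≤ η * |2 * lam * x j + b| + η ^ 2 * |lam|} ∪
          (Function.eval j) ⁻¹' {z | |2 * lam * z + b| < s * Real.sqrt s} := by
      intro x hx
      have hx' : |lam * x j ^ 2 + b * x j + G x| ≤ s ^ 3 := hx
      rcases lt_or_ge |2 * lam * x j + b| η with hc | hc
      · right
        exact hc
      · left
        show |lam * x j ^ 2 + b * x j + G x| ≤ η * |2 * lam * x j + b| + η ^ 2 * |lam|
        have h1 : η * η ≤ η * |2 * lam * x j + b| := mul_le_mul_of_nonneg_left hc hη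
        have h2 : 0 ≤ η ^ 2 * |lam| := by positivity
        linarith
    have hev : (gam ι).real ((Function.eval j) ⁻¹' {z | |2 * lam * z + b| < s * Real.sqrt s}) ≤
        2 * s := by
      have hmp : MeasurePreserving (Function.eval j) (gam ι) (gaussianReal 0 1) := by
        unfold gam
        exact measurePreserving_eval (fun _ : ι => gaussianReal 0 1) j
      have hms : MeasurableSet {z : ℝ | |2 * lam * z + b| < s * Real.sqrt s} := by
        apply measurableSet_lt
        · fun_prop
        · fun_prop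
      rw [hmp.measureReal_preimage hms.nullMeasurableSet]
      exact ANTI_small lam b s hV hs hs1
    calc _ ≤ _ := measureReal_mono hsub
      _ ≤ _ := measureReal_union_le _ _
      _ ≤ 8 * η + 2 * s := add_le_add (anti_pi j lam b η hne hη G hG hGj) hev
      _ ≤ 20 * s := by linarith

end Pool.Agent.KWI
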