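import Pool.Agent.Lib.MP_68391b_lc.ExpSum

/-! Bounded finite exponential sums that agree with a quadratic chirp on a long interval. -/

namespace Pool.Agent.KWI

/-- Central binomial coefficient divided by the power of four. -/
noncomputable def chirpB (j : ℕ) : ℝ := (Nat.centralBinom j : ℝ) / 4 ^ j

theorem chirpB_nonneg (j : ℕ) : 0 ≤ chirpB j := by unfold chirpB; positivity

theorem chirpB_zero : chirpB 0 = 1 := by simp [chirpB]

theorem chirpB_succ (j : ℕ) : (2 * (j : ℝ) + 2) * chirpB (j + 1) = (2 * j + 1) * chirpB j := by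
  have h := Nat.succ_mul_centralBinom_succ j
  have h' : ((j : ℝ) + 1) * (Nat.centralBinom (j + 1) : ℝ) =
      2 * (2 * (j : ℝ) + 1) * (Nat.centralBinom j : ℝ) := by exact_mod_cast h
  unfold chirpB
  rw [pow_succ]
  have h4 : (4 : ℝ) ^ j ≠ 0 := by positivity
  field_simp
  nlinarith [h']

theorem chirpB_le_one (j : ℕ) : chirpB j ≤ 1 := by
  induction j with
  | zero => rw [chirpB_zero]
  | succ j ih =>
    have h := chirpB_succ j
    have h0 := chirpB_nonneg (j + 1)
    have hj : (0 : ℝ) ≤ j := Nat.cast_nonneg j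
    by_contra hc
    push Not at hc
    nlinarith [chirpB_nonneg j]

/-- Partial sum of the arcsine series. -/
noncomputable def chirpP (q : ℕ) (s : ℝ) : ℝ :=
  ∑ j ∈ Finset.range q, chirpB j / (2 * j + 1) * s ^ (2 * j + 1)

/-- Derivative of `y ↦ chirpP q (sin y)`. -/
noncomputable def chirpG (q : ℕ) (y : ℝ) : ℝ :=
  ∑ j ∈ Finset.range q, chirpB j * (Real.cos y * Real.sin y ^ (2 * j))

theorem chirpP_hasDerivAt (q : ℕ) (y : ℝ) :
    HasDerivAt (fun y => chirpP q (Real.sin y)) (chirpG q y) y := by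
  unfold chirpP chirpG
  apply HasDerivAt.fun_sum
  intro j _
  have h1 : HasDerivAt (fun y => Real.sin y ^ (2 * j + 1))
      (((2 * j + 1 : ℕ) : ℝ) * Real.sin y ^ (2 * j + 1 - 1) * Real.cos y) y :=
    (Real.hasDerivAt_sin y).pow (2 * j + 1)
  have h2 := h1.const_mul (chirpB j / (2 * (j : ℝ) + 1))
  refine h2.congr_deriv ?_
  have hj : (2 * (j : ℝ) + 1) ≠ 0 := by positivity
  push_cast
  field_simp

theorem chirpG_hasDerivAt (q : ℕ) (y : ℝ) :
    HasDerivAt (chirpG (q + 1))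
      (-((2 * (q : ℝ) + 1) * chirpB q * Real.sin y ^ (2 * q + 1))) y := by
  induction q with
  | zero =>
    unfold chirpG
    simp only [Finset.range_one, Finset.sum_singleton, zero_add, mul_zero, pow_zero, mul_one,
      chirpB_zero, one_mul, pow_one, Nat.cast_zero]
    exact Real.hasDerivAt_cos y
  | succ q ih =>
    have hsplit : chirpG (q + 1 + 1) = fun y => chirpG (q + 1) y +
        chirpB (q + 1) * (Real.cos y * Real.sin y ^ (2 * (q + 1))) := by
      funext z
      unfold chirpG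
      rw [Finset.sum_range_succ _ (q + 1)]
    rw [hsplit]
    have h1 : HasDerivAt (fun y => Real.sin y ^ (2 * (q + 1)))
        (((2 * (q + 1) : ℕ) : ℝ) * Real.sin y ^ (2 * (q + 1) - 1) * Real.cos y) y :=
      (Real.hasDerivAt_sin y).pow (2 * (q + 1))
    have h2 := (((Real.hasDerivAt_cos y).mul h1).const_mul (chirpB (q + 1)))
    have h3 := ih.add h2
    refine h3.congr_deriv ?_
    have hb := chirpB_succ q
    have hsub : 2 * (q + 1) - 1 = 2 * q + 1 := by omega
    rw [hsub]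
    have hcos : Real.cos y ^ 2 = 1 - Real.sin y ^ 2 := by
      nlinarith [Real.sin_sq_add_cos_sq y]
    push_cast
    have e1 : Real.cos y * (2 * ((q : ℝ) + 1) * Real.sin y ^ (2 * q + 1) * Real.cos y) =
        2 * ((q : ℝ) + 1) * Real.sin y ^ (2 * q + 1) * (1 - Real.sin y ^ 2) := by
      rw [← hcos]; ring
    rw [e1]
    have e2 : Real.sin y ^ (2 * (q + 1)) = Real.sin y ^ (2 * q + 1) * Real.sin y := by ring
    have e3 : Real.sin y ^ (2 * (q + 1) + 1) = Real.sin y ^ (2 * q + 1) * Real.sin y ^ 2 := by ring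
    rw [e2, e3]
    linear_combination (Real.sin y ^ (2 * q + 1)) * hb

theorem chirpG_zero (q : ℕ) : chirpG (q + 1) 0 = 1 := by
  unfold chirpG
  rw [Finset.sum_range_succ']
  simp [chirpB_zero]

theorem chirpP_zero (q : ℕ) : chirpP q 0 = 0 := by
  unfold chirpP
  simp

theorem chirpP_neg (q : ℕ) (s : ℝ) : chirpP q (-s) = -chirpP q s := by
  unfold chirpP
  rw [← Finset.sum_neg_distrib]
  apply Finset.sum_congr rfl
  intro j _
  have : Odd (2 * j + 1) := ⟨j, rfl⟩
  rw [this.neg_pow]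
  ring

theorem chirpP_nonneg (q : ℕ) (s : ℝ) (hs : 0 ≤ s) : 0 ≤ chirpP q s := by
  unfold chirpP
  apply Finset.sum_nonneg
  intro j _
  have := chirpB_nonneg j
  positivity

theorem chirp_sub_le {f f' g g' : ℝ → ℝ} {b : ℝ}
    (hf : ∀ y, HasDerivAt f (f' y) y) (hg : ∀ y, HasDerivAt g (g' y) y) (h0 : f 0 = g 0)
    (hle : ∀ y, 0 < y → y < b → f' y ≤ g' y) : ∀ y, 0 ≤ y → y ≤ b → f y ≤ g y := by
  intro y hy0 hyb
  have hmono : MonotoneOn (fun y => g y - f y) (Set.Icc 0 b) := by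
    apply monotoneOn_of_deriv_nonneg (convex_Icc 0 b)
    · apply Continuous.continuousOn
      exact (continuous_iff_continuousAt.mpr fun z => (hg z).continuousAt).sub
        (continuous_iff_continuousAt.mpr fun z => (hf z).continuousAt)
    · intro z _
      exact ((hg z).sub (hf z)).differentiableAt.differentiableWithinAt
    · intro z hz
      rw [interior_Icc] at hz
      have : deriv (fun y => g y - f y) z = g' z - f' z := ((hg z).sub (hf z)).deriv
      rw [this]
      linarith [hle z hz.1 hz.2]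
  have h := hmono ⟨le_refl 0, hy0.trans hyb⟩ ⟨hy0, hyb⟩ hy0
  simp only at h
  linarith

theorem chirpG_le_one (q : ℕ) (y : ℝ) (hy : 0 ≤ y) (hy' : y ≤ Real.pi / 2) :
    chirpG (q + 1) y ≤ 1 := by
  refine chirp_sub_le (f := chirpG (q + 1)) (g := fun _ => 1) (g' := fun _ => 0)
    (b := Real.pi / 2) (fun y => chirpG_hasDerivAt q y) (fun y => hasDerivAt_const y (1 : ℝ))
    (chirpG_zero q) ?_ y hy hy'
  intro z hz hz'
  have h1 : 0 ≤ Real.sin z := Real.sin_nonneg_of_nonneg_of_le_pi hz.le (by linarith [Real.pi_pos])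
  have h2 := chirpB_nonneg q
  have : 0 ≤ (2 * (q : ℝ) + 1) * chirpB q * Real.sin z ^ (2 * q + 1) := by positivity
  linarith

theorem one_sub_chirpG_le (q : ℕ) (y : ℝ) (hy : 0 ≤ y) (hy' : y ≤ Real.pi / 2) :
    1 - y ^ (2 * q + 2) ≤ chirpG (q + 1) y := by
  refine chirp_sub_le (f := fun y => 1 - y ^ (2 * q + 2))
    (f' := fun y => -(((2 * q + 2 : ℕ) : ℝ) * y ^ (2 * q + 2 - 1))) (g := chirpG (q + 1))
    (b := Real.pi / 2) ?_ (fun y => chirpG_hasDerivAt q y) ?_ ?_ y hy hy'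
  · intro z
    exact ((hasDerivAt_pow (2 * q + 2) z).const_sub 1)
  · simp [chirpG_zero]
  · intro z hz hz'
    have h1 : 0 ≤ Real.sin z := Real.sin_nonneg_of_nonneg_of_le_pi hz.le (by linarith [Real.pi_pos])
    have h2 := chirpB_nonneg q
    have h3 := chirpB_le_one q
    have h4 : Real.sin z ≤ z := Real.sin_le hz.le
    have h5 : Real.sin z ^ (2 * q + 1) ≤ z ^ (2 * q + 1) := pow_le_pow_left₀ h1 h4 _
    have hsub : 2 * q + 2 - 1 = 2 * q + 1 := by omega
    simp only [hsub]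
    push_cast
    have h6 : 0 ≤ Real.sin z ^ (2 * q + 1) := by positivity
    have h7 : chirpB q * Real.sin z ^ (2 * q + 1) ≤ 1 * z ^ (2 * q + 1) :=
      mul_le_mul h3 h5 h6 zero_le_one
    have h8 : (2 * (q : ℝ) + 1) * (chirpB q * Real.sin z ^ (2 * q + 1)) ≤
        (2 * (q : ℝ) + 2) * (1 * z ^ (2 * q + 1)) := by
      apply mul_le_mul _ h7 (by positivity) (by positivity)
      linarith
    nlinarith [h8]

theorem chirpP_sin_le (q : ℕ) (y : ℝ) (hy : 0 ≤ y) (hy' : y ≤ Real.pi / 2) :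
    chirpP (q + 1) (Real.sin y) ≤ y := by
  refine chirp_sub_le (f := fun y => chirpP (q + 1) (Real.sin y)) (g := fun y => y)
    (g' := fun _ => 1) (b := Real.pi / 2) (fun y => chirpP_hasDerivAt (q + 1) y)
    (fun y => hasDerivAt_id y) ?_ ?_ y hy hy'
  · simp [chirpP_zero]
  · intro z hz hz'
    exact chirpG_le_one q z hz.le hz'.le

theorem le_chirpP_sin (q : ℕ) (y : ℝ) (hy : 0 ≤ y) (hy' : y ≤ Real.pi / 2) :
    y - y ^ (2 * q + 3) ≤ chirpP (q + 1) (Real.sin y) := by
  refine chirp_sub_le (f := fun y => y - y ^ (2 * q + 3))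
    (f' := fun y => 1 - ((2 * q + 3 : ℕ) : ℝ) * y ^ (2 * q + 3 - 1))
    (g := fun y => chirpP (q + 1) (Real.sin y)) (b := Real.pi / 2) ?_
    (fun y => chirpP_hasDerivAt (q + 1) y) ?_ ?_ y hy hy'
  · intro z
    exact (hasDerivAt_id z).sub (hasDerivAt_pow (2 * q + 3) z)
  · simp [chirpP_zero]
  · intro z hz hz'
    have h := one_sub_chirpG_le q z hz.le hz'.le
    have hsub : 2 * q + 3 - 1 = 2 * q + 2 := by omega
    simp only [hsub]
    push_cast
    have : 0 ≤ z ^ (2 * q + 2) := by positivity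
    nlinarith [Nat.cast_nonneg (α := ℝ) q, mul_nonneg (Nat.cast_nonneg (α := ℝ) q) this]

theorem chirpP_one_le (q : ℕ) : chirpP q 1 ≤ Real.pi / 2 := by
  cases q with
  | zero => simp only [chirpP, Finset.range_zero, Finset.sum_empty]; positivity
  | succ q =>
    have h := chirpP_sin_le q (Real.pi / 2) (by positivity) le_rfl
    rwa [Real.sin_pi_div_two] at h

theorem chirp_theta_bound (q : ℕ) (y : ℝ) (hy : |y| ≤ 1 / 2) :
    |y - chirpP (q + 1) (Real.sin y)| ≤ 1 / (2 * 4 ^ (q + 1)) ∧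
      |chirpP (q + 1) (Real.sin y)| ≤ |y| := by
  wlog h0 : 0 ≤ y generalizing y
  · push Not at h0
    have h := this (-y) (by rwa [abs_neg]) (by linarith)
    rw [Real.sin_neg, chirpP_neg, abs_neg, abs_neg] at h
    refine ⟨?_, h.2⟩
    have e : y - chirpP (q + 1) (Real.sin y) = -(-y - -chirpP (q + 1) (Real.sin y)) := by ring
    rw [e, abs_neg]
    exact h.1
  · rw [abs_of_nonneg h0] at hy
    have hpi : (3 : ℝ) < Real.pi := Real.pi_gt_three
    have hy2 : y ≤ Real.pi / 2 := by linarith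
    have h1 := chirpP_sin_le q y h0 hy2
    have h2 := le_chirpP_sin q y h0 hy2
    have h3 : 0 ≤ Real.sin y := Real.sin_nonneg_of_nonneg_of_le_pi h0 (by linarith)
    have h4 := chirpP_nonneg (q + 1) _ h3
    refine ⟨?_, ?_⟩
    · rw [abs_of_nonneg (by linarith)]
      have h5 : y ^ (2 * q + 3) ≤ (1 / 2) ^ (2 * q + 3) := pow_le_pow_left₀ h0 hy _
      have h6 : ((1 : ℝ) / 2) ^ (2 * q + 3) = 1 / (2 * 4 ^ (q + 1)) := by
        have : (2 * q + 3) = 2 * (q + 1) + 1 := by ring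
        rw [this, pow_succ, pow_mul, div_pow, div_pow]
        norm_num
      linarith
    · rw [abs_of_nonneg h4, abs_of_nonneg h0]
      exact h1

theorem norm_exp_sub_exp_le (a b : ℝ) :
    ‖Complex.exp (Complex.I * (a : ℂ)) - Complex.exp (Complex.I * (b : ℂ))‖ ≤ |a - b| := by
  have h1 : Complex.exp (Complex.I * (a : ℂ)) - Complex.exp (Complex.I * (b : ℂ)) =
      Complex.exp (Complex.I * (b : ℂ)) * (Complex.exp (Complex.I * ((a - b : ℝ) : ℂ)) - 1) := by
    rw [mul_sub, ← Complex.exp_add, mul_one]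
    congr 2
    push_cast
    ring
  rw [h1, norm_mul, Complex.norm_exp_I_mul_ofReal, one_mul]
  exact Real.norm_exp_I_mul_ofReal_sub_one_le

theorem chirp_fac (K : ℕ) (Φ : ℝ) (h0 : 0 ≤ Φ) (hK : 8 * Φ ≤ K) :
    Φ ^ K / (K.factorial : ℝ) ≤ Real.exp (-K) := by
  have h1 : (K : ℝ) ^ K / (K.factorial : ℝ) ≤ Real.exp K := by
    exact Real.pow_div_factorial_le_exp (K : ℝ) (Nat.cast_nonneg K) K
  have h2 : Φ ^ K ≤ ((K : ℝ) / 8) ^ K := pow_le_pow_left₀ h0 (by linarith) K
  have h3 : Φ ^ K / (K.factorial : ℝ) ≤ (1 / 8) ^ K * ((K : ℝ) ^ K / (K.factorial : ℝ)) := by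
    rw [← mul_div_assoc, ← mul_pow]
    have : (1 / 8 * (K : ℝ)) = (K : ℝ) / 8 := by ring
    rw [this]
    gcongr
  have h4 : ((1 : ℝ) / 8) ^ K * ((K : ℝ) ^ K / (K.factorial : ℝ)) ≤
      (1 / 8) ^ K * Real.exp K := by gcongr
  have h5 : ((1 : ℝ) / 8) ^ K * Real.exp K ≤ Real.exp (-K) := by
    have he : Real.exp 1 < 2.7182818286 := Real.exp_one_lt_d9
    have hK1 : Real.exp (K : ℝ) = Real.exp 1 ^ K := by
      rw [← Real.exp_nat_mul, mul_one]
    have hK2 : Real.exp (-(K : ℝ)) = (Real.exp 1 ^ K)⁻¹ := by rw [Real.exp_neg, hK1]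
    rw [hK2, hK1, ← mul_pow, ← inv_pow]
    apply pow_le_pow_left₀ (by positivity)
    have hp : 0 < Real.exp 1 := Real.exp_pos 1
    rw [← one_div, le_div_iff₀ hp]
    nlinarith
  linarith

theorem chirp_es (α β L : ℝ) (hL : 1 ≤ L) (q : ℕ) (hq : 1 ≤ q) (Φ : ℝ)
    (hΦ : 3 * |α| * L ^ 2 + 2 * |β| * L ≤ Φ) :
    ES Φ (4 * q / L) (fun x => ((α * (L * chirpP q (Real.sin (x / L))) ^ 2 +
      β * (L * chirpP q (Real.sin (x / L))) : ℝ) : ℂ)) := by
  have hL0 : 0 < L := by linarith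
  have h1 := ES_sin L hL0
  have h2 : ES (∑ j ∈ Finset.range q, ‖((chirpB j / (2 * j + 1) : ℝ) : ℂ)‖ * 1 ^ (2 * j + 1))
      ((2 * q : ℝ) * (1 / L)) (fun x => ∑ j ∈ Finset.range q, ((chirpB j / (2 * j + 1) : ℝ) : ℂ) *
        ((Real.sin (x / L) : ℝ) : ℂ) ^ (2 * j + 1)) := by
    apply ES.sum _ (by positivity)
    intro j hj
    have hjq : j + 1 ≤ q := Finset.mem_range.mp hj
    have hjq' : (j : ℝ) + 1 ≤ q := by exact_mod_cast hjq
    refine ((h1.pow (2 * j + 1)).smul _).mono le_rfl ?_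
    push_cast
    apply mul_le_mul_of_nonneg_right _ (by positivity)
    linarith
  have hsum : (∑ j ∈ Finset.range q, ‖((chirpB j / (2 * j + 1) : ℝ) : ℂ)‖ * 1 ^ (2 * j + 1)) ≤
      Real.pi / 2 := by
    refine le_trans (le_of_eq ?_) (chirpP_one_le q)
    unfold chirpP
    apply Finset.sum_congr rfl
    intro j _
    have hj := chirpB_nonneg j
    rw [Complex.norm_real, Real.norm_of_nonneg (by positivity)]
  have h3 := (h2.mono hsum le_rfl).smul (L : ℂ)
  have h4 := (h3.mul h3).smul (α : ℂ)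
  have h5 := (h3.smul (β : ℂ)).mono le_rfl
    (show (2 * q : ℝ) * (1 / L) ≤ (2 * q : ℝ) * (1 / L) + (2 * q : ℝ) * (1 / L) by
      have : 0 ≤ (2 * q : ℝ) * (1 / L) := by positivity
      linarith)
  have h6 := h4.add h5
  have hpi : Real.pi < 3.1416 := Real.pi_lt_d4
  have hpi0 : 0 < Real.pi := Real.pi_pos
  have hC : ‖(α : ℂ)‖ * (‖(L : ℂ)‖ * (Real.pi / 2) * (‖(L : ℂ)‖ * (Real.pi / 2))) +
      ‖(β : ℂ)‖ * (‖(L : ℂ)‖ * (Real.pi / 2)) ≤ Φ := by
    rw [Complex.norm_real, Complex.norm_real, Complex.norm_real, Real.norm_of_nonneg hL0.le,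
      Real.norm_eq_abs, Real.norm_eq_abs]
    have ha := abs_nonneg α
    have hb := abs_nonneg β
    have e1 : (Real.pi / 2) ^ 2 ≤ 3 := by nlinarith
    have e2 : |α| * (L * (Real.pi / 2) * (L * (Real.pi / 2))) ≤ 3 * |α| * L ^ 2 := by
      have : |α| * (L * (Real.pi / 2) * (L * (Real.pi / 2))) =
          (|α| * L ^ 2) * (Real.pi / 2) ^ 2 := by ring
      rw [this]
      have h7 : 0 ≤ |α| * L ^ 2 := by positivity
      nlinarith
    have e3 : |β| * (L * (Real.pi / 2)) ≤ 2 * |β| * L := by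
      have h7 : 0 ≤ |β| * L := by positivity
      nlinarith
    linarith
  have hR : (2 * q : ℝ) * (1 / L) + (2 * q : ℝ) * (1 / L) ≤ 4 * q / L := by
    apply le_of_eq
    ring
  have h7 := h6.mono hC hR
  convert h7 using 2 with x
  unfold chirpP
  push_cast
  ring

theorem chirp (α β L : ℝ) (hL : 1 ≤ L) (q K : ℕ) (hq : 1 ≤ q) (Φ : ℝ)
    (hΦ : 3 * |α| * L ^ 2 + 2 * |β| * L ≤ Φ) (hK : 8 * Φ ≤ K) :
    ∃ f : ℝ → ℂ, ES (Real.exp Φ) (4 * q * K / L) f ∧
      (∀ x, ‖f x‖ ≤ 1 + Real.exp (-K)) ∧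
      ∀ x, |x| ≤ L / 2 →
        ‖f x - Complex.exp (Complex.I * ((α * x ^ 2 + β * x : ℝ) : ℂ))‖ ≤
          Real.exp (-K) + Φ * q / 4 ^ q := by
  have hL0 : 0 < L := by linarith
  have hΦ0 : 0 ≤ Φ := le_trans (by positivity) hΦ
  have hes := chirp_es α β L hL q hq Φ hΦ
  set φ : ℝ → ℝ := fun x => α * (L * chirpP q (Real.sin (x / L))) ^ 2 +
      β * (L * chirpP q (Real.sin (x / L))) with hφ
  have hφb : ∀ x, |φ x| ≤ Φ := by
    intro x
    have := hes.norm_le x
    rwa [Complex.norm_real, Real.norm_eq_abs] at this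
  have hdist : ∀ x, ‖tay K (φ x) - Complex.exp (Complex.I * (φ x : ℂ))‖ ≤ Real.exp (-K) := by
    intro x
    rw [norm_sub_rev]
    refine (tay_bound K (φ x)).trans ?_
    refine le_trans ?_ (chirp_fac K Φ hΦ0 hK)
    have := hφb x
    gcongr
  refine ⟨fun x => tay K (φ x), ?_, ?_, ?_⟩
  · have h1 : ES (∑ k ∈ Finset.range K, ‖Complex.I ^ k / (k.factorial : ℂ)‖ * Φ ^ k)
        (4 * q * K / L) (fun x => ∑ k ∈ Finset.range K,
          Complex.I ^ k / (k.factorial : ℂ) * ((φ x : ℝ) : ℂ) ^ k) := by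
      apply ES.sum _ (by positivity)
      intro k hk
      have hkK : (k : ℝ) ≤ K := by exact_mod_cast (Finset.mem_range.mp hk).le
      refine ((hes.pow k).smul _).mono le_rfl ?_
      have : (k : ℝ) * (4 * q / L) ≤ K * (4 * q / L) := by gcongr
      refine this.trans (le_of_eq ?_)
      ring
    have h2 : (∑ k ∈ Finset.range K, ‖Complex.I ^ k / (k.factorial : ℂ)‖ * Φ ^ k) ≤
        Real.exp Φ := by
      have h3 := Real.sum_le_exp_of_nonneg hΦ0 K
      refine le_trans (le_of_eq ?_) h3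
      apply Finset.sum_congr rfl
      intro k _
      rw [norm_div, norm_pow, Complex.norm_I, one_pow, Complex.norm_natCast]
      ring
    have h4 := h1.mono h2 le_rfl
    convert h4 using 2 with x
    unfold tay
    apply Finset.sum_congr rfl
    intro k _
    rw [mul_pow]
    ring
  · intro x
    have h1 := hdist x
    have h2 : ‖Complex.exp (Complex.I * (φ x : ℂ))‖ = 1 := Complex.norm_exp_I_mul_ofReal _
    have h3 : tay K (φ x) = (tay K (φ x) - Complex.exp (Complex.I * (φ x : ℂ))) +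
        Complex.exp (Complex.I * (φ x : ℂ)) := by ring
    simp only
    rw [h3]
    refine (norm_add_le _ _).trans ?_
    rw [h2]
    linarith
  · intro x hx
    have h1 := hdist x
    have h2 := norm_exp_sub_exp_le (φ x) (α * x ^ 2 + β * x)
    obtain ⟨p, rfl⟩ : ∃ p, q = p + 1 := ⟨q - 1, by omega⟩
    have hy : |x / L| ≤ 1 / 2 := by
      rw [abs_div, abs_of_pos hL0, div_le_iff₀ hL0]
      linarith
    obtain ⟨hb1, hb2⟩ := chirp_theta_bound p (x / L) hy
    set P := chirpP (p + 1) (Real.sin (x / L)) with hP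
    have hθ1 : |L * P - x| ≤ L * (1 / (2 * 4 ^ (p + 1))) := by
      have e : L * P - x = -(L * (x / L - P)) := by
        field_simp
        ring
      rw [e, abs_neg, abs_mul, abs_of_pos hL0]
      gcongr
    have hθ2 : |L * P| ≤ L / 2 := by
      rw [abs_mul, abs_of_pos hL0]
      nlinarith
    have hdiff : |φ x - (α * x ^ 2 + β * x)| ≤ Φ * ((p + 1 : ℕ) : ℝ) / 4 ^ (p + 1) := by
      have e : φ x - (α * x ^ 2 + β * x) = (L * P - x) * (α * (L * P + x) + β) := by
        simp only [hφ, ← hP]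
        ring
      rw [e, abs_mul]
      have h3 : |α * (L * P + x) + β| ≤ |α| * L + |β| := by
        refine (abs_add_le _ _).trans ?_
        rw [abs_mul]
        have : |L * P + x| ≤ L := by
          refine (abs_add_le _ _).trans ?_
          linarith
        gcongr
      have h4 : |L * P - x| * |α * (L * P + x) + β| ≤
          (L * (1 / (2 * 4 ^ (p + 1)))) * (|α| * L + |β|) := by gcongr
      refine h4.trans ?_
      have h5 : L * (1 / (2 * 4 ^ (p + 1))) * (|α| * L + |β|) =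
          (|α| * L ^ 2 + |β| * L) / 2 / 4 ^ (p + 1) := by
        field_simp
      rw [h5]
      have h6 : (|α| * L ^ 2 + |β| * L) / 2 ≤ Φ := by
        have := abs_nonneg α
        have := abs_nonneg β
        have h7 : 0 ≤ |α| * L ^ 2 := by positivity
        have h8 : 0 ≤ |β| * L := by positivity
        nlinarith
      have h9 : (1 : ℝ) ≤ ((p + 1 : ℕ) : ℝ) := by exact_mod_cast hq
      have h10 : (|α| * L ^ 2 + |β| * L) / 2 ≤ Φ * ((p + 1 : ℕ) : ℝ) := by nlinarith
      gcongr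
    have h3 : tay K (φ x) - Complex.exp (Complex.I * ((α * x ^ 2 + β * x : ℝ) : ℂ)) =
        (tay K (φ x) - Complex.exp (Complex.I * (φ x : ℂ))) +
        (Complex.exp (Complex.I * (φ x : ℂ)) -
          Complex.exp (Complex.I * ((α * x ^ 2 + β * x : ℝ) : ℂ))) := by ring
    simp only
    rw [h3]
    refine (norm_add_le _ _).trans ?_
    exact add_le_add h1 (h2.trans hdiff)

end Pool.Agent.KWI
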