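import Pool.Agent.Lib.MP_68391b_lc.Poly

/-! Gaussian moment estimates and tails. -/


namespace Pool.Agent.KWI

open MeasureTheory ProbabilityTheory

theorem moments_density (a d : ℝ) (ha : a < 1 / 2) (x : ℝ) :
    gaussianPDFReal 0 1 x * Real.exp (a * x ^ 2 + d * x) =
      ((√(2 * Real.pi))⁻¹ * Real.exp (d ^ 2 / (2 * (1 - 2 * a)))) *
        Real.exp (-((1 - 2 * a) / 2) * (x - d / (1 - 2 * a)) ^ 2) := by
  have hb : (1 - 2 * a) ≠ 0 := by linarith
  rw [gaussianPDFReal_def]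
  simp only [NNReal.coe_one, mul_one, sub_zero]
  rw [mul_assoc, mul_assoc, ← Real.exp_add, ← Real.exp_add]
  congr 2
  field_simp
  ring

theorem moments_exp (a d : ℝ) (ha : a < 1 / 2) :
    Integrable (fun x : ℝ => Real.exp (a * x ^ 2 + d * x)) (gaussianReal 0 1) ∧
    ∫ x, Real.exp (a * x ^ 2 + d * x) ∂(gaussianReal 0 1) =
      (√(1 - 2 * a))⁻¹ * Real.exp (d ^ 2 / (2 * (1 - 2 * a))) := by
  have hb : 0 < (1 - 2 * a) / 2 := by linarith
  have hb' : 0 < 1 - 2 * a := by linarith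
  have hI : Integrable (fun x : ℝ => Real.exp (-((1 - 2 * a) / 2) * (x - d / (1 - 2 * a)) ^ 2)) :=
    (integrable_exp_neg_mul_sq hb).comp_sub_right (d / (1 - 2 * a))
  constructor
  · rw [gaussianReal_of_var_ne_zero _ one_ne_zero,
      integrable_withDensity_iff_integrable_smul' (measurable_gaussianPDF _ _)
        (Filter.Eventually.of_forall fun x => gaussianPDF_lt_top)]
    simp only [toReal_gaussianPDF, smul_eq_mul, moments_density a d ha]
    exact hI.const_mul _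
  · rw [integral_gaussianReal_eq_integral_smul one_ne_zero]
    simp only [smul_eq_mul, moments_density a d ha]
    rw [integral_const_mul, integral_sub_right_eq_self
      (fun x : ℝ => Real.exp (-((1 - 2 * a) / 2) * x ^ 2)) (d / (1 - 2 * a)), integral_gaussian]
    have h1 : √(Real.pi / ((1 - 2 * a) / 2)) = √(2 * Real.pi) * (√(1 - 2 * a))⁻¹ := by
      rw [← Real.sqrt_inv, ← Real.sqrt_mul (by positivity)]
      congr 1
      field_simp
    rw [h1]
    have h2 : √(2 * Real.pi) ≠ 0 := by positivity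
    field_simp

theorem moments_bound (a d : ℝ) (ha : |a| ≤ 1 / 4) :
    Integrable (fun x : ℝ => Real.exp (a * (x ^ 2 - 1) + d * x)) (gaussianReal 0 1) ∧
    ∫ x, Real.exp (a * (x ^ 2 - 1) + d * x) ∂(gaussianReal 0 1) ≤
      Real.exp (2 * a ^ 2 + d ^ 2) := by
  obtain ⟨ha1, ha2⟩ := abs_le.1 ha
  obtain ⟨h1, h2⟩ := moments_exp a d (by linarith)
  have e : (fun x : ℝ => Real.exp (a * (x ^ 2 - 1) + d * x)) =
      fun x => Real.exp (-a) * Real.exp (a * x ^ 2 + d * x) := by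
    funext x
    rw [← Real.exp_add]
    congr 1
    ring
  constructor
  · rw [e]; exact h1.const_mul _
  · rw [e, integral_const_mul, h2, ← mul_assoc]
    have hb' : 0 < 1 - 2 * a := by linarith
    have k1 : Real.exp (-a) * (√(1 - 2 * a))⁻¹ ≤ Real.exp (2 * a ^ 2) := by
      have hs : 0 < √(1 - 2 * a) := Real.sqrt_pos.2 hb'
      rw [← div_eq_mul_inv, div_le_iff₀ hs]
      apply le_of_sq_le_sq _ (by positivity)
      rw [mul_pow, Real.sq_sqrt hb'.le, ← Real.exp_nat_mul, ← Real.exp_nat_mul]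
      have key : 1 ≤ (1 - 2 * a) * Real.exp (2 * a + 4 * a ^ 2) := by
        rcases le_total 0 a with h | h
        · have h3 := Real.quadratic_le_exp_of_nonneg
            (x := 2 * a + 4 * a ^ 2) (by positivity)
          have h4 : 1 ≤ (1 - 2 * a) * (1 + (2 * a + 4 * a ^ 2) + (2 * a + 4 * a ^ 2) ^ 2 / 2) := by
            have h6 : 0 ≤ 1 - 2 * a - 4 * a ^ 2 - 8 * a ^ 3 := by
              nlinarith [mul_nonneg h h, mul_nonneg (mul_nonneg h h) (by linarith : 0 ≤ 1/4 - a)]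
            nlinarith [mul_nonneg (mul_nonneg h h) h6]
          refine h4.trans ?_
          exact mul_le_mul_of_nonneg_left h3 hb'.le
        · have h3 := Real.add_one_le_exp (2 * a + 4 * a ^ 2)
          have h4 : 1 ≤ (1 - 2 * a) * (2 * a + 4 * a ^ 2 + 1) := by
            nlinarith [pow_nonneg (by linarith : 0 ≤ -a) 3]
          refine h4.trans ?_
          exact mul_le_mul_of_nonneg_left h3 hb'.le
      have e1 : Real.exp (((2 : ℕ) : ℝ) * (2 * a ^ 2)) * (1 - 2 * a) =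
          Real.exp (((2 : ℕ) : ℝ) * (-a)) * ((1 - 2 * a) * Real.exp (2 * a + 4 * a ^ 2)) := by
        rw [mul_left_comm (Real.exp _) (1 - 2 * a), ← Real.exp_add, mul_comm]
        congr 2
        push_cast
        ring
      rw [e1]
      exact le_mul_of_one_le_right (by positivity) key
    have k2 : Real.exp (d ^ 2 / (2 * (1 - 2 * a))) ≤ Real.exp (d ^ 2) := by
      apply Real.exp_le_exp.2
      apply div_le_self (sq_nonneg d)
      linarith
    calc _ ≤ Real.exp (2 * a ^ 2) * Real.exp (d ^ 2) := by gcongr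
      _ = _ := by rw [← Real.exp_add]


theorem moments_int_pow (n : ℕ) : Integrable (fun x : ℝ => x ^ n) (gaussianReal 0 1) := by
  have h := integrable_pow_of_mem_interior_integrableExpSet (X := id) (μ := gaussianReal 0 1)
    (by simp) n
  exact h

theorem moments_one : ∫ x, x ∂(gaussianReal 0 1) = 0 := integral_id_gaussianReal

theorem moments_two : ∫ x, x ^ 2 ∂(gaussianReal 0 1) = 1 := by
  have h := variance_fun_id_gaussianReal (μ := 0) (v := 1)
  rw [variance_eq_integral (by fun_prop)] at h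
  rw [moments_one] at h
  simpa using h

theorem moments_three : ∫ x, x ^ 3 ∂(gaussianReal 0 1) = 0 := by
  have h := gaussianReal_map_neg (μ := 0) (v := 1)
  rw [neg_zero] at h
  have h2 : ∫ x, x ^ 3 ∂(gaussianReal 0 1) = ∫ x, (-x) ^ 3 ∂(gaussianReal 0 1) := by
    conv_lhs => rw [← h]
    rw [integral_map (by fun_prop) (by fun_prop)]
  have h3 : ∫ x : ℝ, (-x) ^ 3 ∂(gaussianReal 0 1) = - ∫ x, x ^ 3 ∂(gaussianReal 0 1) := by
    rw [← integral_neg]
    congr 1
    funext x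
    ring
  linarith

theorem moments_four : ∫ x, x ^ 4 ∂(gaussianReal 0 1) = 3 := by
  rw [integral_gaussianReal_eq_integral_smul one_ne_zero]
  have e : (fun x : ℝ => gaussianPDFReal 0 1 x • x ^ 4) =
      fun x => (√(2 * Real.pi))⁻¹ * (fun y : ℝ => y ^ (4 : ℝ) * Real.exp (-(1 / 2) * y ^ (2 : ℝ))) |x| := by
    funext x
    rw [gaussianPDFReal_def]
    simp only [smul_eq_mul, NNReal.coe_one, mul_one, sub_zero]
    have h4 : |x| ^ (4 : ℝ) = x ^ 4 := by
      rw [show (4 : ℝ) = ((4 : ℕ) : ℝ) by norm_num, Real.rpow_natCast]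
      exact Even.pow_abs (by decide) x
    have h2 : |x| ^ (2 : ℝ) = x ^ 2 := by
      rw [show (2 : ℝ) = ((2 : ℕ) : ℝ) by norm_num, Real.rpow_natCast, sq_abs]
    rw [h4, h2, mul_assoc, mul_comm (Real.exp _)]
    congr 3
    ring
  rw [e, integral_const_mul,
    integral_comp_abs (f := fun y : ℝ => y ^ (4 : ℝ) * Real.exp (-(1 / 2) * y ^ (2 : ℝ))),
    integral_rpow_mul_exp_neg_mul_rpow (by norm_num) (by norm_num) (by norm_num)]
  have g1 : Real.Gamma ((4 + 1) / 2) = 3 / 4 * √Real.pi := by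
    rw [show ((4 : ℝ) + 1) / 2 = (1 / 2 + 1) + 1 by norm_num, Real.Gamma_add_one (by norm_num),
      Real.Gamma_add_one (by norm_num), Real.Gamma_one_half_eq]
    ring
  have g2 : (1 / 2 : ℝ) ^ (-((4 : ℝ) + 1) / 2) = 4 * √2 := by
    rw [show (-((4 : ℝ) + 1) / 2) = -(5 / 2) by norm_num, Real.rpow_neg (by norm_num),
      Real.div_rpow (by norm_num) (by norm_num), Real.one_rpow, one_div, inv_inv,
      show (5 / 2 : ℝ) = 2 + 1 / 2 by norm_num, Real.rpow_add (by norm_num),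
      ← Real.sqrt_eq_rpow]
    norm_num
  rw [g1, g2, Real.sqrt_mul (by norm_num)]
  have h2 : √(2 : ℝ) ≠ 0 := by positivity
  have h3 : √Real.pi ≠ 0 := by positivity
  field_simp


theorem moments_q_int (a b : ℝ) :
    Integrable (fun x : ℝ => a * (x ^ 2 - 1) + b * x) (gaussianReal 0 1) ∧
    Integrable (fun x : ℝ => (a * (x ^ 2 - 1) + b * x) ^ 2) (gaussianReal 0 1) := by
  have i1 : Integrable (fun x : ℝ => x) (gaussianReal 0 1) := by
    simpa using moments_int_pow 1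
  have i2 := moments_int_pow 2
  have i3 := moments_int_pow 3
  have i4 := moments_int_pow 4
  have ic : Integrable (fun _ : ℝ => (1 : ℝ)) (gaussianReal 0 1) := integrable_const _
  constructor
  · have e : (fun x : ℝ => a * (x ^ 2 - 1) + b * x) = fun x => a * x ^ 2 + (b * x + (-a) * 1) := by
      funext x; ring
    rw [e]
    exact (i2.const_mul a).add ((i1.const_mul b).add (ic.const_mul (-a)))
  · have e : (fun x : ℝ => (a * (x ^ 2 - 1) + b * x) ^ 2) = fun x =>
        a ^ 2 * x ^ 4 + ((2 * a * b) * x ^ 3 + ((b ^ 2 - 2 * a ^ 2) * x ^ 2 +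
          ((-2 * a * b) * x + a ^ 2 * 1))) := by
      funext x; ring
    rw [e]
    exact (i4.const_mul _).add ((i3.const_mul _).add ((i2.const_mul _).add
        ((i1.const_mul _).add (ic.const_mul _))))

theorem moments_q (a b : ℝ) :
    ∫ x, (a * (x ^ 2 - 1) + b * x) ∂(gaussianReal 0 1) = 0 ∧
    ∫ x, (a * (x ^ 2 - 1) + b * x) ^ 2 ∂(gaussianReal 0 1) = 2 * a ^ 2 + b ^ 2 := by
  have i1 : Integrable (fun x : ℝ => x) (gaussianReal 0 1) := by
    simpa using moments_int_pow 1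
  have i2 := moments_int_pow 2
  have i3 := moments_int_pow 3
  have i4 := moments_int_pow 4
  have ic : Integrable (fun _ : ℝ => (1 : ℝ)) (gaussianReal 0 1) := integrable_const _
  constructor
  · have e : (fun x : ℝ => a * (x ^ 2 - 1) + b * x) = fun x => a * x ^ 2 + (b * x + (-a) * 1) := by
      funext x; ring
    have j1 : Integrable (fun x : ℝ => b * x + (-a) * 1) (gaussianReal 0 1) :=
      (i1.const_mul b).add (ic.const_mul (-a))
    rw [e, integral_add (i2.const_mul a) j1,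
      integral_add (i1.const_mul b) (ic.const_mul (-a)), integral_const_mul, integral_const_mul,
      integral_const_mul, moments_two, moments_one]
    simp
  · have e : (fun x : ℝ => (a * (x ^ 2 - 1) + b * x) ^ 2) = fun x =>
        a ^ 2 * x ^ 4 + ((2 * a * b) * x ^ 3 + ((b ^ 2 - 2 * a ^ 2) * x ^ 2 +
          ((-2 * a * b) * x + a ^ 2 * 1))) := by
      funext x; ring
    have j1 : Integrable (fun x : ℝ => (-2 * a * b) * x + a ^ 2 * 1) (gaussianReal 0 1) :=
      (i1.const_mul _).add (ic.const_mul _)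
    have j2 : Integrable (fun x : ℝ => (b ^ 2 - 2 * a ^ 2) * x ^ 2 +
          ((-2 * a * b) * x + a ^ 2 * 1)) (gaussianReal 0 1) := (i2.const_mul _).add j1
    have j3 : Integrable (fun x : ℝ => (2 * a * b) * x ^ 3 + ((b ^ 2 - 2 * a ^ 2) * x ^ 2 +
          ((-2 * a * b) * x + a ^ 2 * 1))) (gaussianReal 0 1) := (i3.const_mul _).add j2
    rw [e, integral_add (i4.const_mul _) j3, integral_add (i3.const_mul _) j2,
      integral_add (i2.const_mul _) j1,
      integral_add (i1.const_mul _) (ic.const_mul _), integral_const_mul, integral_const_mul,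
      integral_const_mul, integral_const_mul, integral_const_mul, moments_four, moments_three,
      moments_two, moments_one]
    simp
    ring

variable {ι : Type} [Fintype ι]

theorem moments_prod (S : Finset ι) (f : ι → ℝ → ℝ)
    (hf : ∀ i ∈ S, Integrable (f i) (gaussianReal 0 1)) :
    Integrable (fun x : ι → ℝ => ∏ i ∈ S, f i (x i)) (gam ι) ∧
      ∫ x, ∏ i ∈ S, f i (x i) ∂(gam ι) = ∏ i ∈ S, ∫ y, f i y ∂(gaussianReal 0 1) := by
  classical
  have e : (fun x : ι → ℝ => ∏ i ∈ S, f i (x i)) =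
      fun x => ∏ i, (if i ∈ S then f i else fun _ => 1) (x i) := by
    funext x
    rw [← Finset.prod_subset (Finset.subset_univ S)]
    · exact Finset.prod_congr rfl fun i hi => by rw [if_pos hi]
    · intro i _ hi
      rw [if_neg hi]
  have e2 : ∏ i ∈ S, ∫ y, f i y ∂(gaussianReal 0 1) =
      ∏ i, ∫ y, (if i ∈ S then f i else fun _ => 1) y ∂(gaussianReal 0 1) := by
    rw [← Finset.prod_subset (Finset.subset_univ S)]
    · exact Finset.prod_congr rfl fun i hi => by rw [if_pos hi]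
    · intro i _ hi
      rw [if_neg hi]
      simp
  constructor
  · rw [e]
    unfold gam
    refine Integrable.fintype_prod (f := fun i => if i ∈ S then f i else fun _ => 1) fun i => ?_
    by_cases hi : i ∈ S
    · simp only [hi, if_true]; exact hf i hi
    · simp only [hi, if_false]; exact integrable_const _
  · rw [e, e2]
    unfold gam
    exact integral_fintype_prod_eq_prod (fun i => if i ∈ S then f i else fun _ => 1)

/-- `E (∑_{i ∈ S} x_i^2)^N ≤ N! 4^N 2^|S|`. Proof: `(y/4)^N/N! ≤ exp (y/4)` and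
`E exp (x^2/4) = √2`. -/
theorem sumsq_pow (S : Finset ι) (N : ℕ) :
    ∫ x, (∑ i ∈ S, x i ^ 2) ^ N ∂(gam ι) ≤ (N.factorial : ℝ) * 4 ^ N * 2 ^ S.card := by
  obtain ⟨h1, h2⟩ := moments_exp (1 / 4) 0 (by norm_num)
  obtain ⟨h3, h4⟩ := moments_prod S (fun _ y => Real.exp (1 / 4 * y ^ 2 + 0 * y))
    (fun _ _ => h1)
  have hpt : ∀ x : ι → ℝ, (∑ i ∈ S, x i ^ 2) ^ N ≤
      ((N.factorial : ℝ) * 4 ^ N) * ∏ i ∈ S, Real.exp (1 / 4 * x i ^ 2 + 0 * x i) := by
    intro x
    have hy : 0 ≤ (∑ i ∈ S, x i ^ 2) / 4 :=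
      div_nonneg (Finset.sum_nonneg fun i _ => sq_nonneg _) (by norm_num)
    have h5 := Real.pow_div_factorial_le_exp _ hy N
    have h6 : ∏ i ∈ S, Real.exp (1 / 4 * x i ^ 2 + 0 * x i) = Real.exp ((∑ i ∈ S, x i ^ 2) / 4) := by
      rw [← Real.exp_sum, Finset.sum_div]
      congr 1
      exact Finset.sum_congr rfl fun i _ => by ring
    rw [h6]
    rw [div_le_iff₀ (by positivity), div_pow, div_le_iff₀ (by positivity)] at h5
    calc _ ≤ _ := h5
      _ = _ := by ring
  calc ∫ x, (∑ i ∈ S, x i ^ 2) ^ N ∂(gam ι)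
      ≤ ∫ x, ((N.factorial : ℝ) * 4 ^ N) * ∏ i ∈ S, Real.exp (1 / 4 * x i ^ 2 + 0 * x i)
          ∂(gam ι) := by
        refine integral_mono_of_nonneg (Filter.Eventually.of_forall fun x => ?_)
          (h3.const_mul _) (Filter.Eventually.of_forall hpt)
        exact pow_nonneg (Finset.sum_nonneg fun i _ => sq_nonneg _) N
    _ = ((N.factorial : ℝ) * 4 ^ N) * (√2) ^ S.card := by
        rw [integral_const_mul, h4, Finset.prod_const, h2]
        congr 2
        have : (√(1 - 2 * (1 / 4) : ℝ))⁻¹ = √2 := by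
          rw [← Real.sqrt_inv]
          norm_num
        rw [this]
        simp
    _ ≤ ((N.factorial : ℝ) * 4 ^ N) * 2 ^ S.card := by
        have : √2 ≤ 2 := by
          rw [Real.sqrt_le_left (by norm_num)]
          norm_num
        gcongr

/-- Moments of a quadratic form with small eigenvalues. Proof: `y^(2M)/(2M)! ≤ cosh y` at
`y = 8 s`, and `E exp (a (x^2-1) + d x) ≤ exp (2 a^2 + d^2)` for `|a| ≤ 1/4`. -/
theorem good_moment (G : Finset ι) (α β : ι → ℝ) (hα : ∀ i ∈ G, |α i| ≤ 1 / 32) (T2 : ℝ)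
    (hT : ∑ i ∈ G, (α i ^ 2 + β i ^ 2) ≤ T2) (M : ℕ) :
    ∫ x, (∑ i ∈ G, (α i * (x i ^ 2 - 1) + β i * x i)) ^ (2 * M) ∂(gam ι) ≤
      ((2 * M).factorial : ℝ) / 8 ^ (2 * M) * Real.exp (128 * T2) := by
  have hs : ∀ s : ℝ, |s| = 8 → Integrable (fun x : ι → ℝ => Real.exp (s * ∑ i ∈ G,
      (α i * (x i ^ 2 - 1) + β i * x i))) (gam ι) ∧
      ∫ x, Real.exp (s * ∑ i ∈ G, (α i * (x i ^ 2 - 1) + β i * x i)) ∂(gam ι) ≤
        Real.exp (128 * T2) := by
    intro s hs
    have hs2 : s ^ 2 = 64 := by rw [← sq_abs, hs]; norm_num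
    have e : (fun x : ι → ℝ => Real.exp (s * ∑ i ∈ G, (α i * (x i ^ 2 - 1) + β i * x i))) =
        fun x => ∏ i ∈ G, Real.exp (s * α i * (x i ^ 2 - 1) + s * β i * x i) := by
      funext x
      rw [← Real.exp_sum, Finset.mul_sum]
      congr 1
      exact Finset.sum_congr rfl fun i _ => by ring
    have hb : ∀ i ∈ G, |s * α i| ≤ 1 / 4 := by
      intro i hi
      rw [abs_mul, hs]
      have := hα i hi
      linarith
    obtain ⟨h3, h4⟩ := moments_prod G
      (fun i y => Real.exp (s * α i * (y ^ 2 - 1) + s * β i * y))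
      (fun i hi => (moments_bound _ _ (hb i hi)).1)
    rw [e]
    refine ⟨h3, ?_⟩
    rw [h4]
    calc ∏ i ∈ G, ∫ y, Real.exp (s * α i * (y ^ 2 - 1) + s * β i * y) ∂(gaussianReal 0 1)
        ≤ ∏ i ∈ G, Real.exp (2 * (s * α i) ^ 2 + (s * β i) ^ 2) := by
          refine Finset.prod_le_prod (fun i _ => ?_) (fun i hi => (moments_bound _ _ (hb i hi)).2)
          exact integral_nonneg fun y => (Real.exp_pos _).le
      _ = Real.exp (∑ i ∈ G, (2 * (s * α i) ^ 2 + (s * β i) ^ 2)) := by rw [Real.exp_sum]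
      _ ≤ Real.exp (128 * T2) := by
          apply Real.exp_le_exp.2
          calc ∑ i ∈ G, (2 * (s * α i) ^ 2 + (s * β i) ^ 2)
              ≤ ∑ i ∈ G, 128 * (α i ^ 2 + β i ^ 2) := by
                refine Finset.sum_le_sum fun i _ => ?_
                rw [mul_pow, mul_pow, hs2]
                nlinarith [sq_nonneg (β i)]
            _ = 128 * ∑ i ∈ G, (α i ^ 2 + β i ^ 2) := by rw [Finset.mul_sum]
            _ ≤ 128 * T2 := by linarith
  obtain ⟨p1, p2⟩ := hs 8 (by norm_num)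
  obtain ⟨m1, m2⟩ := hs (-8) (by norm_num)
  have hpt : ∀ x : ι → ℝ, (∑ i ∈ G, (α i * (x i ^ 2 - 1) + β i * x i)) ^ (2 * M) ≤
      (((2 * M).factorial : ℝ) / 8 ^ (2 * M)) *
        ((Real.exp (8 * ∑ i ∈ G, (α i * (x i ^ 2 - 1) + β i * x i)) +
          Real.exp (-8 * ∑ i ∈ G, (α i * (x i ^ 2 - 1) + β i * x i))) / 2) := by
    intro x
    set s := ∑ i ∈ G, (α i * (x i ^ 2 - 1) + β i * x i)
    have hc : (8 * s) ^ (2 * M) / ((2 * M).factorial : ℝ) ≤ Real.cosh (8 * s) := by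
      have h5 := Real.hasSum_cosh (8 * s)
      exact le_hasSum h5 M fun j _ => by
        rw [pow_mul]
        positivity
    rw [Real.cosh_eq, div_le_iff₀ (by positivity), mul_pow] at hc
    rw [div_mul_eq_mul_div, le_div_iff₀ (by positivity)]
    have e1 : -(8 * s) = -8 * s := by ring
    rw [e1] at hc
    linarith
  calc ∫ x, (∑ i ∈ G, (α i * (x i ^ 2 - 1) + β i * x i)) ^ (2 * M) ∂(gam ι)
      ≤ ∫ x, (((2 * M).factorial : ℝ) / 8 ^ (2 * M)) *
        ((Real.exp (8 * ∑ i ∈ G, (α i * (x i ^ 2 - 1) + β i * x i)) +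
          Real.exp (-8 * ∑ i ∈ G, (α i * (x i ^ 2 - 1) + β i * x i))) / 2) ∂(gam ι) := by
        refine integral_mono_of_nonneg (Filter.Eventually.of_forall fun x => ?_)
          (((p1.add m1).div_const 2).const_mul _) (Filter.Eventually.of_forall hpt)
        show 0 ≤ (∑ i ∈ G, (α i * (x i ^ 2 - 1) + β i * x i)) ^ (2 * M)
        rw [pow_mul]
        positivity
    _ ≤ ((2 * M).factorial : ℝ) / 8 ^ (2 * M) * Real.exp (128 * T2) := by
        rw [integral_const_mul, integral_div, integral_add p1 m1]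
        refine mul_le_mul_of_nonneg_left ?_ (by positivity)
        linarith

/-- Tail of one coordinate under moment matching. -/
theorem tail_coord {N : ℕ} (μ : Measure (ι → ℝ)) [IsProbabilityMeasure μ] (hμ : MM N μ) (t : ℕ)
    (ht : 2 * t ≤ N) (i : ι) (r : ℝ) (hr : 0 < r) :
    μ.real {x | r ≤ |x i|} ≤ 2 * (4 * t / r ^ 2) ^ t := by
  have hp : PolyC N (fun x : ι → ℝ => ((x i ^ (2 * t) : ℝ) : ℂ)) := by
    have h := ((PolyC.coord i).pow (2 * t)).mono (M := N) (by omega)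
    simpa using h
  have hI : Integrable (fun x : ι → ℝ => x i ^ (2 * t)) μ := hμ.integrable_real hp
  have hE : ∫ x, x i ^ (2 * t) ∂μ = ∫ x, x i ^ (2 * t) ∂(gam ι) := hμ.integral_eq_real hp
  have h1 := sumsq_pow ({i} : Finset ι) t
  simp only [Finset.sum_singleton, Finset.card_singleton, pow_one, ← pow_mul] at h1
  have h2 := mul_meas_ge_le_integral_of_nonneg (μ := μ)
    (Filter.Eventually.of_forall fun x : ι → ℝ => show 0 ≤ x i ^ (2 * t) by
      rw [pow_mul]; positivity) hI (r ^ (2 * t))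
  have hset : {x : ι → ℝ | r ≤ |x i|} ⊆ {x | r ^ (2 * t) ≤ x i ^ (2 * t)} := by
    intro x hx
    have hx' : r ≤ |x i| := hx
    show r ^ (2 * t) ≤ x i ^ (2 * t)
    calc r ^ (2 * t) ≤ |x i| ^ (2 * t) := pow_le_pow_left₀ hr.le hx' _
      _ = x i ^ (2 * t) := by rw [pow_mul, pow_mul, sq_abs]
  have h3 : μ.real {x | r ≤ |x i|} ≤ μ.real {x | r ^ (2 * t) ≤ x i ^ (2 * t)} :=
    measureReal_mono hset
  have h4 : (t.factorial : ℝ) ≤ (t : ℝ) ^ t := by exact_mod_cast Nat.factorial_le_pow t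
  have hr2 : 0 < r ^ (2 * t) := by positivity
  have h5 : r ^ (2 * t) * μ.real {x | r ≤ |x i|} ≤ 2 * (4 * t) ^ t := by
    calc r ^ (2 * t) * μ.real {x | r ≤ |x i|}
        ≤ r ^ (2 * t) * μ.real {x | r ^ (2 * t) ≤ x i ^ (2 * t)} := by gcongr
      _ ≤ ∫ x, x i ^ (2 * t) ∂μ := h2
      _ ≤ (t.factorial : ℝ) * 4 ^ t * 2 := by rw [hE]; exact h1
      _ ≤ (t : ℝ) ^ t * 4 ^ t * 2 := by gcongr
      _ = 2 * (4 * t) ^ t := by rw [mul_pow]; ring
  rw [div_pow, ← pow_mul, ← mul_div_assoc, le_div_iff₀ hr2]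
  linarith

theorem moments_quad (G : Finset ι) (α β : ι → ℝ) :
    ∫ x, (∑ i ∈ G, (α i * (x i ^ 2 - 1) + β i * x i)) ^ 2 ∂(gam ι) =
      ∑ i ∈ G, (2 * α i ^ 2 + β i ^ 2) := by
  classical
  have h1 : ∀ i j, Integrable (fun x : ι → ℝ => (α i * (x i ^ 2 - 1) + β i * x i) *
      (α j * (x j ^ 2 - 1) + β j * x j)) (gam ι) ∧
      ∫ x, (α i * (x i ^ 2 - 1) + β i * x i) * (α j * (x j ^ 2 - 1) + β j * x j) ∂(gam ι) =
        if i = j then 2 * α i ^ 2 + β i ^ 2 else 0 := by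
    intro i j
    by_cases hij : i = j
    · subst hij
      obtain ⟨a1, a2⟩ := moments_prod ({i} : Finset ι)
        (fun i y => (α i * (y ^ 2 - 1) + β i * y) ^ 2) (fun i _ => (moments_q_int _ _).2)
      simp only [Finset.prod_singleton] at a1 a2
      have e : (fun x : ι → ℝ => (α i * (x i ^ 2 - 1) + β i * x i) *
          (α i * (x i ^ 2 - 1) + β i * x i)) =
          fun x => (α i * (x i ^ 2 - 1) + β i * x i) ^ 2 := by
        funext x; ring
      rw [if_pos rfl, e]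
      exact ⟨a1, by rw [a2, (moments_q _ _).2]⟩
    · obtain ⟨a1, a2⟩ := moments_prod ({i, j} : Finset ι)
        (fun i y => α i * (y ^ 2 - 1) + β i * y) (fun i _ => (moments_q_int _ _).1)
      simp only [Finset.prod_pair hij] at a1 a2
      rw [if_neg hij]
      exact ⟨a1, by rw [a2, (moments_q _ _).1, zero_mul]⟩
  have e : (fun x : ι → ℝ => (∑ i ∈ G, (α i * (x i ^ 2 - 1) + β i * x i)) ^ 2) =
      fun x => ∑ i ∈ G, ∑ j ∈ G, (α i * (x i ^ 2 - 1) + β i * x i) *
        (α j * (x j ^ 2 - 1) + β j * x j) := by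
    funext x
    rw [sq, Finset.sum_mul_sum]
  rw [e, integral_finsetSum _ fun i _ => integrable_finsetSum _ fun j _ => (h1 i j).1]
  refine Finset.sum_congr rfl fun i hi => ?_
  rw [integral_finsetSum _ fun j _ => (h1 i j).1]
  rw [Finset.sum_congr rfl fun j _ => (h1 i j).2]
  simp [hi]

/-- Chebyshev's inequality for a centred quadratic form under moment matching. -/
theorem tail_quad {N : ℕ} (μ : Measure (ι → ℝ)) [IsProbabilityMeasure μ] (hμ : MM N μ)
    (hN : 4 ≤ N) (G : Finset ι) (α β : ι → ℝ) (r : ℝ) (hr : 0 < r) :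
    μ.real {x | r ≤ |∑ i ∈ G, (α i * (x i ^ 2 - 1) + β i * x i)|} ≤
      2 * (∑ i ∈ G, (α i ^ 2 + β i ^ 2)) / r ^ 2 := by
  have hp : PolyC N (fun x : ι → ℝ =>
      (((∑ i ∈ G, (α i * (x i ^ 2 - 1) + β i * x i)) ^ 2 : ℝ) : ℂ)) := by
    have h2 : ∀ i ∈ G, PolyC 2 (fun x : ι → ℝ =>
        (((α i * (x i ^ 2 - 1) + β i * x i : ℝ)) : ℂ)) := by
      intro i _
      have a1 := (PolyC.coord (ι := ι) i).pow 2
      have a2 : PolyC 2 (fun x : ι → ℝ => ((x i : ℝ) : ℂ) ^ 2 + ((-1 : ℂ))) :=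
        PolyC.add (by simpa using a1) ((PolyC.const (-1)).mono (by omega))
      have a3 : PolyC 2 (fun x : ι → ℝ => ((α i : ℝ) : ℂ) * (((x i : ℝ) : ℂ) ^ 2 + ((-1 : ℂ)))) := by
        simpa using (PolyC.const ((α i : ℝ) : ℂ)).mul a2
      have a4 : PolyC 2 (fun x : ι → ℝ => ((β i : ℝ) : ℂ) * ((x i : ℝ) : ℂ)) :=
        ((PolyC.const ((β i : ℝ) : ℂ)).mul (PolyC.coord i)).mono (by omega)
      have a5 := a3.add a4
      have e : (fun x : ι → ℝ => (((α i * (x i ^ 2 - 1) + β i * x i : ℝ)) : ℂ)) =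
          fun x => ((α i : ℝ) : ℂ) * (((x i : ℝ) : ℂ) ^ 2 + ((-1 : ℂ))) +
            ((β i : ℝ) : ℂ) * ((x i : ℝ) : ℂ) := by
        funext x
        push_cast
        ring
      rw [e]
      exact a5
    have h3 := ((PolyC.sum G h2).pow 2).mono (M := N) (by omega)
    have e : (fun x : ι → ℝ =>
      (((∑ i ∈ G, (α i * (x i ^ 2 - 1) + β i * x i)) ^ 2 : ℝ) : ℂ)) =
        fun x => (∑ i ∈ G, ((α i * (x i ^ 2 - 1) + β i * x i : ℝ) : ℂ)) ^ 2 := by
      funext x
      push_cast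
      ring
    rw [e]
    exact h3
  have hI := hμ.integrable_real hp
  have hE := hμ.integral_eq_real hp
  rw [moments_quad] at hE
  have h2 := mul_meas_ge_le_integral_of_nonneg (μ := μ)
    (Filter.Eventually.of_forall fun x : ι → ℝ =>
      show 0 ≤ (∑ i ∈ G, (α i * (x i ^ 2 - 1) + β i * x i)) ^ 2 from sq_nonneg _) hI (r ^ 2)
  have hset : {x : ι → ℝ | r ≤ |∑ i ∈ G, (α i * (x i ^ 2 - 1) + β i * x i)|} ⊆
      {x | r ^ 2 ≤ (∑ i ∈ G, (α i * (x i ^ 2 - 1) + β i * x i)) ^ 2} := by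
    intro x hx
    have hx' : r ≤ |∑ i ∈ G, (α i * (x i ^ 2 - 1) + β i * x i)| := hx
    show r ^ 2 ≤ (∑ i ∈ G, (α i * (x i ^ 2 - 1) + β i * x i)) ^ 2
    rw [← sq_abs (∑ i ∈ G, (α i * (x i ^ 2 - 1) + β i * x i))]
    exact pow_le_pow_left₀ hr.le hx' _
  have h3 := measureReal_mono (μ := μ) hset
  have h4 : r ^ 2 * μ.real {x | r ≤ |∑ i ∈ G, (α i * (x i ^ 2 - 1) + β i * x i)|} ≤
      2 * (∑ i ∈ G, (α i ^ 2 + β i ^ 2)) := by
    calc _ ≤ r ^ 2 * μ.real {x | r ^ 2 ≤ (∑ i ∈ G, (α i * (x i ^ 2 - 1) + β i * x i)) ^ 2} := by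
          gcongr
      _ ≤ _ := h2
      _ = ∑ i ∈ G, (2 * α i ^ 2 + β i ^ 2) := hE
      _ ≤ ∑ i ∈ G, 2 * (α i ^ 2 + β i ^ 2) := by
          refine Finset.sum_le_sum fun i _ => ?_
          nlinarith [sq_nonneg (β i)]
      _ = _ := by rw [Finset.mul_sum]
  rw [le_div_iff₀ (by positivity)]
  linarith

end Pool.Agent.KWI
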