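import Pool.Agent.Lib.MP_68391b_lc.ExpSum
import Pool.Agent.Lib.MP_68391b_lc.Moments

/-! A finite exponential sum times the exponential of a quadratic form with small eigenvalues has
almost the same mean under a moment matching law as under the Gaussian law. -/

namespace Pool.Agent.KWI

open MeasureTheory ProbabilityTheory

variable {ι : Type} [Fintype ι]

theorem comb_pow_le_exp_mul_factorial (n : ℕ) :
    (n : ℝ) ^ n ≤ Real.exp n * (n.factorial : ℝ) := by
  have h := Real.pow_div_factorial_le_exp (n : ℝ) (Nat.cast_nonneg n) n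
  have hf : (0 : ℝ) < (n.factorial : ℝ) := by exact_mod_cast Nat.factorial_pos n
  rwa [div_le_iff₀ hf] at h

theorem comb_exp_five : Real.exp 5 ≤ 150 := by
  have h1 : Real.exp 1 < 2.7182818286 := Real.exp_one_lt_d9
  have h2 : Real.exp 5 = Real.exp 1 ^ 5 := by
    rw [← Real.exp_nat_mul]; norm_num
  rw [h2]
  have h0 : 0 ≤ Real.exp 1 := (Real.exp_pos 1).le
  calc Real.exp 1 ^ 5 ≤ (2.7182818286 : ℝ) ^ 5 := by gcongr
    _ ≤ 150 := by norm_num

omit [Fintype ι] in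
theorem comb_quad_poly (G : Finset ι) (α β : ι → ℝ) :
    PolyC 2 (fun x : ι → ℝ => ((∑ i ∈ G, (α i * (x i ^ 2 - 1) + β i * x i) : ℝ) : ℂ)) := by
  have h : PolyC 2 (fun x : ι → ℝ => ∑ i ∈ G, ((((α i : ℝ) : ℂ) * ((((x i : ℝ) : ℂ)) ^ 2 + (-1))
      + ((β i : ℝ) : ℂ) * ((x i : ℝ) : ℂ)))) := by
    refine PolyC.sum G (fun i _ => ?_)
    refine PolyC.add ?_ ?_
    · have h1 : PolyC (0 + 2 * 1) (fun x : ι → ℝ => ((α i : ℝ) : ℂ) *
          ((((x i : ℝ) : ℂ)) ^ 2 + (-1))) :=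
        PolyC.mul (PolyC.const _) (PolyC.add (PolyC.pow (PolyC.coord i) 2)
          ((PolyC.const (-1)).mono (by norm_num)))
      exact h1.mono (by norm_num)
    · exact (PolyC.mul (PolyC.const _) (PolyC.coord i)).mono (by norm_num)
  convert h using 2 with x
  push_cast
  simp [sub_eq_add_neg]

omit [Fintype ι] in
theorem comb_tay_poly (M : ℕ) {N : ℕ} {F : (ι → ℝ) → ℝ} (hF : PolyC N (fun x => ((F x : ℝ) : ℂ))) :
    PolyC (M * N) (fun x => tay M (F x)) := by
  unfold tay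
  refine PolyC.sum _ (fun k hk => ?_)
  have hk' : k ≤ M := (Finset.mem_range.1 hk).le
  have h1 : PolyC (0 + N) (fun x => Complex.I * ((F x : ℝ) : ℂ)) :=
    PolyC.mul (PolyC.const _) hF
  have h2 : PolyC (k * (0 + N) + 0) (fun x => (Complex.I * ((F x : ℝ) : ℂ)) ^ k *
      ((k.factorial : ℂ))⁻¹) := PolyC.mul (h1.pow k) (PolyC.const _)
  have h3 : PolyC (M * N) (fun x => (Complex.I * ((F x : ℝ) : ℂ)) ^ k *
      ((k.factorial : ℂ))⁻¹) := h2.mono (by
        rw [zero_add, add_zero]; exact Nat.mul_le_mul_right N hk')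
  simpa [div_eq_mul_inv] using h3

omit [Fintype ι] in
theorem comb_sumsq_poly (S : Finset ι) (n : ℕ) :
    PolyC (n * 2) (fun x : ι → ℝ => (((∑ i ∈ S, x i ^ 2) ^ n : ℝ) : ℂ)) := by
  have h : PolyC (n * 2) (fun x : ι → ℝ => (∑ i ∈ S, (((x i : ℝ) : ℂ)) ^ 2) ^ n) :=
    PolyC.pow (PolyC.sum S (fun i _ => (PolyC.coord i).pow 2)) n
  convert h using 2 with x
  push_cast
  rfl

/-- Weighted arithmetic geometric mean. -/
theorem comb_amgm (a b l : ℝ) (hl : 0 < l) : a * b ≤ (l * a ^ 2 + b ^ 2 / l) / 2 := by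
  have h : 0 ≤ (l * a - b) ^ 2 / l := by positivity
  have h2 : (l * a - b) ^ 2 / l = l * a ^ 2 - 2 * (a * b) + b ^ 2 / l := by
    field_simp
    ring
  rw [h2] at h
  linarith

theorem comb_one {N N₁ M : ℕ} (μ : Measure (ι → ℝ)) [IsProbabilityMeasure μ] (hμ : MM N μ)
    (C : ℝ) (R : ι → ℝ) (S : Finset ι) (hRS : ∀ i, i ∉ S → R i = 0)
    (H T : (ι → ℝ) → ℂ) (hHm : Measurable H) (hHb : ∀ x, ‖H x‖ ≤ 2)
    (hTp : PolyC N₁ T)
    (hTb : ∀ x, ‖H x - T x‖ ≤ C * (∑ i, R i * |x i|) ^ N₁ / (N₁.factorial : ℝ))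
    (G : Finset ι) (α β : ι → ℝ) (hα : ∀ i ∈ G, |α i| ≤ 1 / 32) (T2 : ℝ)
    (hT : ∑ i ∈ G, (α i ^ 2 + β i ^ 2) ≤ T2) (hM : 128 * T2 ≤ M)
    (h1 : 2 * N₁ ≤ N) (h2 : 4 * M ≤ N) (h3 : N₁ + 2 * M ≤ N)
    (hN1 : 600 * ∑ i, R i ^ 2 ≤ N₁) (hC : C ^ 2 * 2 ^ S.card ≤ Real.exp (2 * N₁)) :
    ‖(∫ x, H x * Complex.exp (Complex.I *
          ((∑ i ∈ G, (α i * (x i ^ 2 - 1) + β i * x i) : ℝ) : ℂ)) ∂μ) -
      ∫ x, T x * tay M (∑ i ∈ G, (α i * (x i ^ 2 - 1) + β i * x i)) ∂μ‖ ≤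
      Real.exp (-N₁) + 4 * (1 / 2) ^ M := by
  set s : (ι → ℝ) → ℝ := fun x => ∑ i ∈ G, (α i * (x i ^ 2 - 1) + β i * x i) with hs
  have hsp : PolyC 2 (fun x => ((s x : ℝ) : ℂ)) := comb_quad_poly G α β
  have hsm : Measurable s := by
    refine Finset.measurable_sum _ (fun i _ => ?_)
    fun_prop
  -- integrability
  have hE : ∀ x, ‖Complex.exp (Complex.I * ((s x : ℝ) : ℂ))‖ = 1 := by
    intro x
    rw [mul_comm]
    exact Complex.norm_exp_ofReal_mul_I (s x)
  have hEm : Measurable (fun x => Complex.exp (Complex.I * ((s x : ℝ) : ℂ))) := by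
    fun_prop
  have hi1 : Integrable (fun x => H x * Complex.exp (Complex.I * ((s x : ℝ) : ℂ))) μ := by
    refine Integrable.of_bound (hHm.mul hEm).aestronglyMeasurable 2 ?_
    filter_upwards with x
    rw [norm_mul, hE, mul_one]
    exact hHb x
  have hTPp : PolyC N (fun x => T x * tay M (s x)) := by
    have : PolyC (N₁ + M * 2) (fun x => T x * tay M (s x)) := hTp.mul (comb_tay_poly M hsp)
    exact this.mono (by omega)
  have hi2 : Integrable (fun x => T x * tay M (s x)) μ := hμ.integrable hTPp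
  -- the majorants
  set R2 : ℝ := ∑ i, R i ^ 2 with hR2
  have hR2n : 0 ≤ R2 := Finset.sum_nonneg (fun i _ => sq_nonneg _)
  set A : (ι → ℝ) → ℝ := fun x => C ^ 2 * R2 ^ N₁ / (N₁.factorial : ℝ) ^ 2 *
    (∑ i ∈ S, x i ^ 2) ^ N₁ with hA
  set B : (ι → ℝ) → ℝ := fun x => 1 / (M.factorial : ℝ) ^ 2 * (s x) ^ (2 * M) with hB
  have hN1f : (0 : ℝ) < (N₁.factorial : ℝ) := by exact_mod_cast Nat.factorial_pos N₁
  have hMf : (0 : ℝ) < (M.factorial : ℝ) := by exact_mod_cast Nat.factorial_pos M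
  have hAi : Integrable A μ := by
    refine Integrable.const_mul ?_ _
    exact hμ.integrable_real ((comb_sumsq_poly S N₁).mono (by omega))
  have hspow : PolyC N (fun x => (((s x) ^ (2 * M) : ℝ) : ℂ)) := by
    have h := hsp.pow (2 * M)
    have h' : PolyC N (fun x => (((s x : ℝ) : ℂ)) ^ (2 * M)) := h.mono (by omega)
    convert h' using 2 with x
    push_cast
    rfl
  have hBi : Integrable B μ := by
    refine Integrable.const_mul ?_ _
    exact hμ.integrable_real hspow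
  have hAint : ∫ x, A x ∂μ ≤ Real.exp (-N₁) ^ 2 := by
    have e1 : ∫ x, A x ∂μ = C ^ 2 * R2 ^ N₁ / (N₁.factorial : ℝ) ^ 2 *
        ∫ x, (∑ i ∈ S, x i ^ 2) ^ N₁ ∂(gam ι) := by
      rw [hA, integral_const_mul]
      congr 1
      exact hμ.integral_eq_real ((comb_sumsq_poly S N₁).mono (by omega))
    rw [e1]
    have e2 := sumsq_pow S N₁
    calc C ^ 2 * R2 ^ N₁ / (N₁.factorial : ℝ) ^ 2 * ∫ x, (∑ i ∈ S, x i ^ 2) ^ N₁ ∂(gam ι)
        ≤ C ^ 2 * R2 ^ N₁ / (N₁.factorial : ℝ) ^ 2 *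
          ((N₁.factorial : ℝ) * 4 ^ N₁ * 2 ^ S.card) := by
          gcongr
      _ = (C ^ 2 * 2 ^ S.card) * ((4 * R2) ^ N₁ / (N₁.factorial : ℝ)) := by
          rw [mul_pow]; field_simp
      _ ≤ Real.exp (2 * N₁) * ((N₁ / 150 : ℝ) ^ N₁ / (N₁.factorial : ℝ)) := by
          gcongr
          linarith
      _ = Real.exp (2 * N₁) * ((N₁ : ℝ) ^ N₁ / (N₁.factorial : ℝ)) / 150 ^ N₁ := by
          rw [div_pow]; field_simp
      _ ≤ Real.exp (2 * N₁) * (Real.exp N₁) / 150 ^ N₁ := by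
          gcongr
          rw [div_le_iff₀ hN1f]
          exact comb_pow_le_exp_mul_factorial N₁
      _ ≤ Real.exp (2 * N₁) * (Real.exp N₁) / (Real.exp 5) ^ N₁ := by
          gcongr
          exact comb_exp_five
      _ = Real.exp (-N₁) ^ 2 := by
          rw [← Real.exp_nat_mul, ← Real.exp_add, ← Real.exp_sub, ← Real.exp_nat_mul]
          congr 1
          push_cast
          ring
  have hBint : ∫ x, B x ∂μ ≤ ((1 / 2 : ℝ) ^ M) ^ 2 := by
    have e1 : ∫ x, B x ∂μ = 1 / (M.factorial : ℝ) ^ 2 *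
        ∫ x, (s x) ^ (2 * M) ∂(gam ι) := by
      rw [hB, integral_const_mul]
      congr 1
      exact hμ.integral_eq_real hspow
    rw [e1]
    have e2 := good_moment G α β hα T2 hT M
    have e3 : ((2 * M).factorial : ℝ) ≤ 4 ^ M * (M.factorial : ℝ) ^ 2 := by
      have h5 : (2 * M).factorial = Nat.centralBinom M * (M.factorial * M.factorial) := by
        rw [Nat.centralBinom_eq_two_mul_choose]
        have := Nat.choose_mul_factorial_mul_factorial (n := 2 * M) (k := M) (by omega)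
        rw [show 2 * M - M = M by omega] at this
        rw [← this]; ring
      have h6 : Nat.centralBinom M ≤ 4 ^ M := by
        rw [Nat.centralBinom_eq_two_mul_choose]
        calc (2 * M).choose M ≤ 2 ^ (2 * M) := Nat.choose_le_two_pow _ _
          _ = 4 ^ M := by rw [pow_mul]; norm_num
      rw [h5]
      push_cast
      have h7 : (Nat.centralBinom M : ℝ) ≤ 4 ^ M := by exact_mod_cast h6
      calc (Nat.centralBinom M : ℝ) * ((M.factorial : ℝ) * (M.factorial : ℝ))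
          ≤ 4 ^ M * ((M.factorial : ℝ) * (M.factorial : ℝ)) := by gcongr
        _ = 4 ^ M * (M.factorial : ℝ) ^ 2 := by ring
    have e4 : Real.exp (128 * T2) ≤ 4 ^ M := by
      calc Real.exp (128 * T2) ≤ Real.exp M := Real.exp_le_exp.2 hM
        _ = Real.exp 1 ^ M := by rw [← Real.exp_nat_mul]; simp
        _ ≤ 4 ^ M := by
          have : Real.exp 1 < 2.7182818286 := Real.exp_one_lt_d9
          have h0 : 0 ≤ Real.exp 1 := (Real.exp_pos 1).le
          gcongr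
          linarith
    calc 1 / (M.factorial : ℝ) ^ 2 * ∫ x, (s x) ^ (2 * M) ∂(gam ι)
        ≤ 1 / (M.factorial : ℝ) ^ 2 * (((2 * M).factorial : ℝ) / 8 ^ (2 * M) *
          Real.exp (128 * T2)) := by
          gcongr
      _ ≤ 1 / (M.factorial : ℝ) ^ 2 * ((4 ^ M * (M.factorial : ℝ) ^ 2) / 8 ^ (2 * M) *
          4 ^ M) := by
          gcongr
      _ = 4 ^ M * 4 ^ M / 8 ^ (2 * M) := by field_simp
      _ = ((1 / 2 : ℝ) ^ M) ^ 2 := by
          rw [← pow_mul, mul_comm M 2, pow_mul, pow_mul, ← mul_pow, ← div_pow]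
          norm_num
  -- the pointwise bound
  set u : ℝ := (1 / 2 : ℝ) ^ M with hu
  set v : ℝ := Real.exp (-N₁) with hv
  have hu0 : 0 < u := by positivity
  have hv0 : 0 < v := Real.exp_pos _
  have hv1 : v ≤ 1 := by
    rw [hv, Real.exp_le_one_iff]
    have : (0 : ℝ) ≤ (N₁ : ℝ) := Nat.cast_nonneg _
    linarith
  have hpt : ∀ x, ‖H x * Complex.exp (Complex.I * ((s x : ℝ) : ℂ)) - T x * tay M (s x)‖ ≤
      (B x / u + u) + (A x / v + v) / 2 + ((u / v) * A x + (v / u) * B x) / 2 := by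
    intro x
    set a : ℝ := ‖H x - T x‖ with ha
    set b : ℝ := ‖Complex.exp (Complex.I * ((s x : ℝ) : ℂ)) - tay M (s x)‖ with hb
    have ha0 : 0 ≤ a := norm_nonneg _
    have hb0 : 0 ≤ b := norm_nonneg _
    have hbB : b ^ 2 ≤ B x := by
      have h := tay_bound M (s x)
      calc b ^ 2 ≤ (|s x| ^ M / (M.factorial : ℝ)) ^ 2 := by gcongr
        _ = B x := by
          rw [hB]
          simp only
          rw [div_pow, ← pow_mul, mul_comm M 2, pow_mul, sq_abs, ← pow_mul]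
          ring
    have haA : a ^ 2 ≤ A x := by
      have h := hTb x
      have hsum : (∑ i, R i * |x i|) ^ 2 ≤ R2 * ∑ i ∈ S, x i ^ 2 := by
        have e1 : ∑ i, R i * |x i| = ∑ i ∈ S, R i * |x i| := by
          symm
          apply Finset.sum_subset (Finset.subset_univ S)
          intro i _ hi
          rw [hRS i hi, zero_mul]
        rw [e1]
        calc (∑ i ∈ S, R i * |x i|) ^ 2 ≤ (∑ i ∈ S, R i ^ 2) * ∑ i ∈ S, |x i| ^ 2 :=
              Finset.sum_mul_sq_le_sq_mul_sq S R (fun i => |x i|)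
          _ = (∑ i ∈ S, R i ^ 2) * ∑ i ∈ S, x i ^ 2 := by simp only [sq_abs]
          _ ≤ R2 * ∑ i ∈ S, x i ^ 2 := by
              have : ∑ i ∈ S, R i ^ 2 ≤ R2 :=
                Finset.sum_le_sum_of_subset_of_nonneg (Finset.subset_univ S)
                  (fun i _ _ => sq_nonneg _)
              have h0 : 0 ≤ ∑ i ∈ S, x i ^ 2 := Finset.sum_nonneg (fun i _ => sq_nonneg _)
              exact mul_le_mul_of_nonneg_right this h0
      calc a ^ 2 ≤ (C * (∑ i, R i * |x i|) ^ N₁ / (N₁.factorial : ℝ)) ^ 2 := by gcongr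
        _ = C ^ 2 * ((∑ i, R i * |x i|) ^ 2) ^ N₁ / (N₁.factorial : ℝ) ^ 2 := by
          rw [div_pow, mul_pow, ← pow_mul, mul_comm N₁ 2, pow_mul]
        _ ≤ C ^ 2 * (R2 * ∑ i ∈ S, x i ^ 2) ^ N₁ / (N₁.factorial : ℝ) ^ 2 := by
          gcongr
        _ = A x := by
          rw [hA]
          simp only
          rw [mul_pow]
          ring
    have hmain : ‖H x * Complex.exp (Complex.I * ((s x : ℝ) : ℂ)) - T x * tay M (s x)‖ ≤
        2 * b + a + a * b := by
      have e1 : H x * Complex.exp (Complex.I * ((s x : ℝ) : ℂ)) - T x * tay M (s x) =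
          H x * (Complex.exp (Complex.I * ((s x : ℝ) : ℂ)) - tay M (s x)) +
          (H x - T x) * Complex.exp (Complex.I * ((s x : ℝ) : ℂ)) -
          (H x - T x) * (Complex.exp (Complex.I * ((s x : ℝ) : ℂ)) - tay M (s x)) := by ring
      rw [e1]
      refine (norm_sub_le _ _).trans ?_
      refine add_le_add ((norm_add_le _ _).trans ?_) (norm_mul _ _).le
      rw [norm_mul, norm_mul, hE, mul_one]
      have := hHb x
      gcongr
    have i1 : 2 * b ≤ b ^ 2 / u + u := by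
      have := comb_amgm 1 b u hu0
      have h' : (u * 1 ^ 2 + b ^ 2 / u) / 2 = (b ^ 2 / u + u) / 2 := by ring
      rw [h'] at this
      linarith
    have i2 : a ≤ (a ^ 2 / v + v) / 2 := by
      have := comb_amgm 1 a v hv0
      have h' : (v * 1 ^ 2 + a ^ 2 / v) / 2 = (a ^ 2 / v + v) / 2 := by ring
      rw [h'] at this
      linarith
    have i3 : a * b ≤ ((u / v) * a ^ 2 + (v / u) * b ^ 2) / 2 := by
      have := comb_amgm a b (u / v) (by positivity)
      have h' : b ^ 2 / (u / v) = (v / u) * b ^ 2 := by field_simp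
      rw [h'] at this
      exact this
    have j1 : b ^ 2 / u ≤ B x / u := by gcongr
    have j2 : a ^ 2 / v ≤ A x / v := by gcongr
    have j3 : (u / v) * a ^ 2 ≤ (u / v) * A x := by gcongr
    have j4 : (v / u) * b ^ 2 ≤ (v / u) * B x := by gcongr
    linarith
  have hbi : Integrable (fun x => (B x / u + u) + (A x / v + v) / 2 +
      ((u / v) * A x + (v / u) * B x) / 2) μ := by
    have c1 : Integrable (fun x => B x / u + u) μ :=
      (hBi.div_const u).add (integrable_const u)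
    have c2 : Integrable (fun x => (A x / v + v) / 2) μ :=
      ((hAi.div_const v).add (integrable_const v)).div_const 2
    have c3 : Integrable (fun x => ((u / v) * A x + (v / u) * B x) / 2) μ :=
      ((hAi.const_mul (u / v)).add (hBi.const_mul (v / u))).div_const 2
    exact (c1.add c2).add c3
  have hfin : ∫ x, ((B x / u + u) + (A x / v + v) / 2 +
      ((u / v) * A x + (v / u) * B x) / 2) ∂μ =
      ((∫ x, B x ∂μ) / u + u) + ((∫ x, A x ∂μ) / v + v) / 2 +
      ((u / v) * (∫ x, A x ∂μ) + (v / u) * ∫ x, B x ∂μ) / 2 := by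
    have e1 : (fun x => (B x / u + u) + (A x / v + v) / 2 +
      ((u / v) * A x + (v / u) * B x) / 2) = fun x => ((1 / (2 * v) + u / (2 * v)) * A x +
        (1 / u + v / (2 * u)) * B x) + (u + v / 2) := by
      funext x
      field_simp
      ring
    have c1 := hAi.const_mul (1 / (2 * v) + u / (2 * v))
    have c2 := hBi.const_mul (1 / u + v / (2 * u))
    have c3 : Integrable (fun x => (1 / (2 * v) + u / (2 * v)) * A x +
        (1 / u + v / (2 * u)) * B x) μ := c1.add c2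
    rw [e1, integral_add c3 (integrable_const _), integral_add c1 c2,
      integral_const_mul (1 / (2 * v) + u / (2 * v)) A,
      integral_const_mul (1 / u + v / (2 * u)) B, integral_const]
    simp only [probReal_univ, smul_eq_mul, one_mul]
    generalize (∫ x, A x ∂μ) = a1
    generalize (∫ x, B x ∂μ) = b1
    field_simp
    ring
  rw [← integral_sub hi1 hi2]
  calc ‖∫ x, (H x * Complex.exp (Complex.I * ((s x : ℝ) : ℂ)) - T x * tay M (s x)) ∂μ‖
      ≤ ∫ x, ((B x / u + u) + (A x / v + v) / 2 +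
      ((u / v) * A x + (v / u) * B x) / 2) ∂μ :=
        norm_integral_le_of_norm_le hbi (Filter.Eventually.of_forall hpt)
    _ = ((∫ x, B x ∂μ) / u + u) + ((∫ x, A x ∂μ) / v + v) / 2 +
      ((u / v) * (∫ x, A x ∂μ) + (v / u) * ∫ x, B x ∂μ) / 2 := hfin
    _ ≤ (u ^ 2 / u + u) + (v ^ 2 / v + v) / 2 +
      ((u / v) * v ^ 2 + (v / u) * u ^ 2) / 2 := by
        gcongr
    _ = v + (2 * u + u * v) := by field_simp; ring
    _ ≤ v + 4 * u := by nlinarith

theorem comb {N N₁ M : ℕ} (μ : Measure (ι → ℝ)) [IsProbabilityMeasure μ] (hμ : MM N μ)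
    (C : ℝ) (R : ι → ℝ) (hR : ∀ i, 0 ≤ R i) (S : Finset ι) (hRS : ∀ i, i ∉ S → R i = 0)
    (H : (ι → ℝ) → ℂ) (hH : MES C R H) (hHb : ∀ x, ‖H x‖ ≤ 2)
    (G : Finset ι) (α β : ι → ℝ) (hα : ∀ i ∈ G, |α i| ≤ 1 / 32) (T2 : ℝ)
    (hT : ∑ i ∈ G, (α i ^ 2 + β i ^ 2) ≤ T2) (hM : 128 * T2 ≤ M)
    (h1 : 2 * N₁ ≤ N) (h2 : 4 * M ≤ N) (h3 : N₁ + 2 * M ≤ N)
    (hN1 : 600 * ∑ i, R i ^ 2 ≤ N₁) (hC : C ^ 2 * 2 ^ S.card ≤ Real.exp (2 * N₁)) :
    ‖(∫ x, H x * Complex.exp (Complex.I *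
          ((∑ i ∈ G, (α i * (x i ^ 2 - 1) + β i * x i) : ℝ) : ℂ)) ∂μ) -
      ∫ x, H x * Complex.exp (Complex.I *
          ((∑ i ∈ G, (α i * (x i ^ 2 - 1) + β i * x i) : ℝ) : ℂ)) ∂(gam ι)‖ ≤
      2 * (Real.exp (-N₁) + 4 * (1 / 2) ^ M) := by
  obtain ⟨T, hTp, hTb⟩ := MES.taylor hR hH N₁
  have hm := hH.measurable
  have k1 := comb_one μ hμ C R S hRS H T hm hHb hTp hTb G α β hα T2 hT hM h1 h2 h3 hN1 hC
  have k2 := comb_one (gam ι) (MM_gam N ι) C R S hRS H T hm hHb hTp hTb G α β hα T2 hT hM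
    h1 h2 h3 hN1 hC
  have hsp := comb_quad_poly G α β
  have k3 : ∫ x, T x * tay M (∑ i ∈ G, (α i * (x i ^ 2 - 1) + β i * x i)) ∂μ =
      ∫ x, T x * tay M (∑ i ∈ G, (α i * (x i ^ 2 - 1) + β i * x i)) ∂(gam ι) := by
    apply hμ.integral_eq
    have : PolyC (N₁ + M * 2) (fun x => T x * tay M
        (∑ i ∈ G, (α i * (x i ^ 2 - 1) + β i * x i))) := hTp.mul (comb_tay_poly M hsp)
    exact this.mono (by omega)
  rw [k3] at k1
  rw [norm_sub_rev] at k2
  calc _ ≤ _ := norm_sub_le_norm_sub_add_norm_sub _ (∫ x, T x * tay M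
          (∑ i ∈ G, (α i * (x i ^ 2 - 1) + β i * x i)) ∂(gam ι)) _
    _ ≤ _ := by linarith

end Pool.Agent.KWI
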