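import Pool.Agent.Lib.MP_68391b_lc.CoreD

/-! The comparison theorem for diagonal quadratic polynomials. -/

namespace Pool.Agent.KWI

open MeasureTheory ProbabilityTheory

/-- constants -/
theorem core_norm : ∃ C₃ : ℝ, 0 < C₃ ∧ ∀ (Q : ℕ) (_ : 1 ≤ Q) (ι : Type) [Fintype ι]
    [DecidableEq ι]
    (μ : Measure (ι → ℝ)) [IsProbabilityMeasure μ] (N : ℕ) (_ : MM N μ)
    (_ : C₃ * (4 ^ Q * (Q : ℝ) ^ 9) ≤ N) (lam b : ι → ℝ) (c : ℝ)
    (_ : ∑ i, (lam i ^ 2 + b i ^ 2) = 1),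
    μ.real {x | 0 ≤ ∑ i, (lam i * x i ^ 2 + b i * x i) + c} ≤
      (gam ι).real {x | 0 ≤ ∑ i, (lam i * x i ^ 2 + b i * x i) + c} + (1 / 2) ^ Q := by
  obtain ⟨C₂, hC₂, K₀, hmain⟩ := main_lemma
  set a' : ℕ := max 8 K₀ with ha'
  have ha8 : 8 ≤ a' := le_max_left _ _
  have haK : K₀ ≤ a' := le_max_right _ _
  set C₃ : ℝ := C₂ * (3 * (10 * ((8 * a' : ℕ) : ℝ)) ^ 5 *
      (3840 * (((8 * a' : ℕ) : ℝ) + 2) ^ 2) ^ 2) + 1 with hC₃
  have hC1 : 1 ≤ C₃ := by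
    rw [hC₃]
    have : 0 ≤ C₂ * (3 * (10 * ((8 * a' : ℕ) : ℝ)) ^ 5 *
      (3840 * (((8 * a' : ℕ) : ℝ) + 2) ^ 2) ^ 2) := by positivity
    linarith
  refine ⟨C₃, by linarith, ?_⟩
  intro Q hQ ι _ _ μ _ N hμ hN lam b c hV
  have hQ1 : (1 : ℝ) ≤ Q := by exact_mod_cast hQ
  have hN4 : 4 ≤ N := by
    have h1 : (4 : ℝ) ≤ N := by
      have h2 : (4 : ℝ) ≤ 4 ^ Q := by
        calc (4 : ℝ) = 4 ^ 1 := by norm_num
          _ ≤ 4 ^ Q := pow_le_pow_right₀ (by norm_num) hQ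
      have h3 : (1 : ℝ) ≤ (Q : ℝ) ^ 9 := one_le_pow₀ hQ1
      have h4 : (4 : ℝ) ≤ 4 ^ Q * (Q : ℝ) ^ 9 := by nlinarith
      have h5 : 4 ^ Q * (Q : ℝ) ^ 9 ≤ C₃ * (4 ^ Q * (Q : ℝ) ^ 9) := by nlinarith
      linarith
    exact_mod_cast h1
  by_cases hfar : 2 ^ Q ≤ |c + ∑ i, lam i|
  · exact far_case μ N hμ hN4 Q hQ lam b c hV hfar
  have hnear : |c + ∑ i, lam i| < 2 ^ Q := not_le.1 hfar
  obtain ⟨A, hA, hA1, hA2⟩ := topset (fun i => lam i ^ 2 + b i ^ 2) (fun i => by positivity)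
    (5 * (8 * a' + 2) * Q)
  rw [hV] at hA1 hA2
  by_cases hsm : ∑ j ∈ Aᶜ, (lam j ^ 2 + b j ^ 2) ≤ (3 / 4 : ℝ) ^ (5 * (8 * a' + 2) * Q)
  · refine near_small C₂ hC₂ K₀ hmain a' Q N ha8 haK hQ hN μ hμ hN4 lam b c hV hnear A hA ?_ hsm
    rcases hA1 with hA1 | hA1
    · exfalso
      rw [hA1, Finset.compl_empty, hV] at hsm
      have : (3 / 4 : ℝ) ^ (5 * (8 * a' + 2) * Q) < 1 := by
        apply pow_lt_one₀ (by norm_num) (by norm_num)
        have : 0 < 5 * (8 * a' + 2) * Q := by positivity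
        omega
      linarith
    · exact hA1
  · have hbig := (not_le.1 hsm).le
    refine near_regular C₂ hC₂ K₀ hmain (8 * a') Q N (by omega) (by omega) hQ hN μ hμ lam b c
      hV hnear A hA ?_ hbig
    rcases hA2 with h | h
    · exact h
    · exfalso
      apply hsm
      rw [mul_one] at h
      exact h

theorem core : ∃ C₃ : ℝ, 0 < C₃ ∧ ∀ (Q : ℕ) (_ : 1 ≤ Q) (ι : Type) [Fintype ι] [DecidableEq ι]
    (μ : Measure (ι → ℝ)) [IsProbabilityMeasure μ] (N : ℕ) (_ : MM N μ)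
    (_ : C₃ * (4 ^ Q * (Q : ℝ) ^ 9) ≤ N) (lam b : ι → ℝ) (c : ℝ),
    μ.real {x | 0 ≤ ∑ i, (lam i * x i ^ 2 + b i * x i) + c} ≤
      (gam ι).real {x | 0 ≤ ∑ i, (lam i * x i ^ 2 + b i * x i) + c} + (1 / 2) ^ Q := by
  obtain ⟨C₃, hC₃, h⟩ := core_norm
  refine ⟨C₃, hC₃, ?_⟩
  intro Q hQ ι _ _ μ _ N hμ hN lam b c
  have hnn : 0 ≤ ∑ i, (lam i ^ 2 + b i ^ 2) := Finset.sum_nonneg fun i _ => by positivity
  rcases hnn.eq_or_lt with h0 | h0
  · -- constant polynomial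
    have hz : ∀ i, lam i = 0 ∧ b i = 0 := by
      intro i
      have := (Finset.sum_eq_zero_iff_of_nonneg (fun i _ => by positivity)).1 h0.symm i
        (Finset.mem_univ i)
      constructor <;> nlinarith [sq_nonneg (lam i), sq_nonneg (b i)]
    have hc : ∀ x : ι → ℝ, ∑ i, (lam i * x i ^ 2 + b i * x i) + c = c := by
      intro x
      rw [Finset.sum_eq_zero, zero_add]
      intro i _
      rw [(hz i).1, (hz i).2]; ring
    simp_rw [hc]
    have hp : (0 : ℝ) ≤ (1 / 2) ^ Q := by positivity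
    by_cases hcc : 0 ≤ c
    · have e : {x : ι → ℝ | 0 ≤ c} = Set.univ := by ext; simp [hcc]
      rw [e]; simp
    · have e : {x : ι → ℝ | 0 ≤ c} = ∅ := by ext; simp [hcc]
      rw [e]; simp
  · set V : ℝ := ∑ i, (lam i ^ 2 + b i ^ 2) with hV
    have hs : 0 < √V := Real.sqrt_pos.2 h0
    have hs2 : √V ^ 2 = V := Real.sq_sqrt h0.le
    have h1 := h Q hQ ι μ N hμ hN (fun i => lam i / √V) (fun i => b i / √V) (c / √V) (by
      have : ∀ i, (lam i / √V) ^ 2 + (b i / √V) ^ 2 = (lam i ^ 2 + b i ^ 2) / V := by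
        intro i; rw [div_pow, div_pow, hs2]; ring
      simp_rw [this, ← Finset.sum_div]
      rw [← hV]; exact div_self h0.ne')
    have e : ∀ x : ι → ℝ, (∑ i, (lam i / √V * x i ^ 2 + b i / √V * x i) + c / √V) =
        (∑ i, (lam i * x i ^ 2 + b i * x i) + c) / √V := by
      intro x
      rw [add_div, Finset.sum_div]
      congr 1
      apply Finset.sum_congr rfl
      intro i _; ring
    have e2 : ∀ x : ι → ℝ, (0 ≤ (∑ i, (lam i / √V * x i ^ 2 + b i / √V * x i) + c / √V)) ↔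
        0 ≤ ∑ i, (lam i * x i ^ 2 + b i * x i) + c := by
      intro x
      rw [e x]
      constructor
      · intro hx
        have := mul_nonneg hx hs.le
        rwa [div_mul_cancel₀ _ hs.ne'] at this
      · intro hx; positivity
    simp_rw [e2] at h1
    exact h1

end Pool.Agent.KWI
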