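import Pool.Agent.Lib.MP_68391b_lc.Defs

/-! Bounded density of a regular quadratic polynomial. -/

namespace Pool.Agent.KWI

open MeasureTheory ProbabilityTheory

variable {ι : Type} [Fintype ι] [DecidableEq ι]

theorem dens_one (l m : ℝ) :
    ‖∫ z, Complex.exp (Complex.I * ((l * z ^ 2 + m * z : ℝ) : ℂ)) ∂(gaussianReal 0 1)‖ ^ 4 *
      (1 + 2 * (l ^ 2 + m ^ 2)) ≤ 1 := by
  have hpos : (0 : ℝ) < 1 + 4 * l ^ 2 := by positivity
  set bb : ℂ := -(1 / 2) + Complex.I * l with hbb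
  have hre : bb.re < 0 := by simp [hbb]
  have h1 : (∫ z, Complex.exp (Complex.I * ((l * z ^ 2 + m * z : ℝ) : ℂ)) ∂(gaussianReal 0 1)) =
      ((√(2 * Real.pi))⁻¹ : ℝ) * ((Real.pi / -bb) ^ (1 / 2 : ℂ) *
        Complex.exp (0 - (Complex.I * m) ^ 2 / (4 * bb))) := by
    rw [integral_gaussianReal_eq_integral_smul (by norm_num), ← integral_cexp_quadratic hre,
      ← integral_const_mul]
    refine integral_congr_ae (ae_of_all _ fun z => ?_)
    simp only [gaussianPDFReal, Complex.real_smul]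
    push_cast
    rw [mul_assoc, ← Complex.exp_add]
    simp only [mul_one]
    congr 2
    rw [hbb]
    ring
  have h2 : ‖(Real.pi / -bb : ℂ)‖ = 2 * Real.pi / √(1 + 4 * l ^ 2) := by
    have hn : ‖(-bb : ℂ)‖ = √(1 + 4 * l ^ 2) / 2 := by
      have : ‖(-bb : ℂ)‖ ^ 2 = (√(1 + 4 * l ^ 2) / 2) ^ 2 := by
        rw [← Complex.normSq_eq_norm_sq, div_pow, Real.sq_sqrt hpos.le, Complex.normSq_apply]
        simp [hbb]
        ring
      exact (pow_left_inj₀ (norm_nonneg _) (by positivity) (by norm_num)).1 this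
    rw [norm_div, hn, Complex.norm_real, Real.norm_of_nonneg Real.pi_pos.le]
    field_simp
  have h3 : ‖(Real.pi / -bb : ℂ) ^ (1 / 2 : ℂ)‖ ^ 4 = (2 * Real.pi) ^ 2 / (1 + 4 * l ^ 2) := by
    have e : ((Real.pi / -bb : ℂ) ^ (1 / 2 : ℂ)) ^ 2 = Real.pi / -bb := by
      simp
    have : ‖(Real.pi / -bb : ℂ) ^ (1 / 2 : ℂ)‖ ^ 4 = ‖(Real.pi / -bb : ℂ)‖ ^ 2 := by
      conv_rhs => rw [← e]
      rw [norm_pow, ← pow_mul]
    rw [this, h2, div_pow, Real.sq_sqrt hpos.le]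
  have h4 : ‖Complex.exp (0 - (Complex.I * m) ^ 2 / (4 * bb))‖ ^ 4 =
      Real.exp (-(2 * m ^ 2 / (1 + 4 * l ^ 2))) := by
    rw [Complex.norm_exp, ← Real.exp_nat_mul]
    congr 1
    have : (0 - (Complex.I * m) ^ 2 / (4 * bb) : ℂ) =
        ((m ^ 2 : ℝ) : ℂ) / (((-2 : ℝ) : ℂ) + ((4 * l : ℝ) : ℂ) * Complex.I) := by
      rw [mul_pow, Complex.I_sq, hbb]
      push_cast
      rw [zero_sub, ← neg_div]
      congr 1 <;> ring
    rw [this, Complex.div_re]
    have e1 : (((m ^ 2 : ℝ) : ℂ)).re = m ^ 2 := Complex.ofReal_re _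
    have e2 : (((m ^ 2 : ℝ) : ℂ)).im = 0 := Complex.ofReal_im _
    have e3 : (((-2 : ℝ) : ℂ) + ((4 * l : ℝ) : ℂ) * Complex.I).re = -2 := by simp
    have e4 : (((-2 : ℝ) : ℂ) + ((4 * l : ℝ) : ℂ) * Complex.I).im = 4 * l := by simp
    rw [Complex.normSq_apply, e1, e2, e3, e4]
    have e5 : (-2 : ℝ) * -2 + 4 * l * (4 * l) = 4 * (1 + 4 * l ^ 2) := by ring
    rw [e5]
    field_simp
    norm_num
    ring
  rw [h1, norm_mul, norm_mul, mul_pow, mul_pow, h3, h4, Complex.norm_real, Real.norm_of_nonneg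
    (by positivity), inv_pow]
  have h5 : √(2 * Real.pi) ^ 4 = (2 * Real.pi) ^ 2 := by
    rw [show (4 : ℕ) = 2 * 2 from rfl, pow_mul, Real.sq_sqrt (by positivity)]
  rw [h5]
  have hpi : (0 : ℝ) < (2 * Real.pi) ^ 2 := by positivity
  have h6 : (((2 * Real.pi) ^ 2)⁻¹ * ((2 * Real.pi) ^ 2 / (1 + 4 * l ^ 2) *
      Real.exp (-(2 * m ^ 2 / (1 + 4 * l ^ 2))))) * (1 + 2 * (l ^ 2 + m ^ 2)) =
      (1 + 2 * (l ^ 2 + m ^ 2)) / (1 + 4 * l ^ 2) / Real.exp (2 * m ^ 2 / (1 + 4 * l ^ 2)) := by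
    rw [Real.exp_neg]
    field_simp
  rw [h6, div_le_one (Real.exp_pos _)]
  calc (1 + 2 * (l ^ 2 + m ^ 2)) / (1 + 4 * l ^ 2)
      ≤ 2 * m ^ 2 / (1 + 4 * l ^ 2) + 1 := by
        rw [div_add_one hpos.ne']
        apply div_le_div_of_nonneg_right _ hpos.le
        nlinarith [sq_nonneg l]
    _ ≤ _ := Real.add_one_le_exp _

theorem dens_prod_lower {κ : Type} (s : Finset κ) (x : κ → ℝ) (X : ℝ) (hX : 0 < X)
    (h0 : ∀ i ∈ s, 0 ≤ x i) (h1 : ∀ i ∈ s, x i ≤ X / 4) (hs : ∑ i ∈ s, x i = X) :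
    (1 + X / 4) ^ 4 ≤ ∏ i ∈ s, (1 + x i) := by
  have h2 : ∀ i ∈ s, (1 + X / 4) ^ (4 * x i / X) ≤ 1 + x i := by
    intro i hi
    have := rpow_one_add_le_one_add_mul_self (s := X / 4) (by linarith) (p := 4 * x i / X)
      (by have := h0 i hi; positivity) (by rw [div_le_one hX]; linarith [h1 i hi])
    refine this.trans (le_of_eq ?_)
    field_simp
  calc (1 + X / 4) ^ 4 = (1 + X / 4) ^ (∑ i ∈ s, 4 * x i / X) := by
        rw [← Finset.sum_div, ← Finset.mul_sum, hs, mul_div_assoc, div_self hX.ne']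
        norm_num
    _ = ∏ i ∈ s, (1 + X / 4) ^ (4 * x i / X) := by
        rw [Real.rpow_sum_of_pos (by linarith)]
    _ ≤ _ := Finset.prod_le_prod (fun i hi => Real.rpow_nonneg (by linarith) _) h2

/-- characteristic function bound -/
theorem dens_char (lam b : ι → ℝ) (c : ℝ) (A : Finset ι) (W : ℝ) (hW : 0 < W)
    (hsum : ∑ i ∈ Aᶜ, (lam i ^ 2 + b i ^ 2) = W)
    (hreg : ∀ i ∈ Aᶜ, 4 * (lam i ^ 2 + b i ^ 2) ≤ W) (t : ℝ) :
    ‖∫ x, Complex.exp (Complex.I * ((t * (∑ i, (lam i * x i ^ 2 + b i * x i) + c) : ℝ) : ℂ))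
      ∂(gam ι)‖ ≤ (1 + t ^ 2 * W / 2)⁻¹ := by
  set g : ι → ℂ := fun i => ∫ z, Complex.exp (Complex.I *
    ((t * lam i * z ^ 2 + t * b i * z : ℝ) : ℂ)) ∂(gaussianReal 0 1) with hg
  have hfub : (∫ x, Complex.exp (Complex.I *
      ((t * (∑ i, (lam i * x i ^ 2 + b i * x i) + c) : ℝ) : ℂ)) ∂(gam ι)) =
      Complex.exp (Complex.I * ((t * c : ℝ) : ℂ)) * ∏ i, g i := by
    rw [hg]
    simp only
    rw [← integral_fintype_prod_eq_prod (fun (i : ι) (z : ℝ) => Complex.exp (Complex.I *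
      ((t * lam i * z ^ 2 + t * b i * z : ℝ) : ℂ))), ← integral_const_mul]
    refine integral_congr_ae (ae_of_all _ fun x => ?_)
    simp only
    rw [← Complex.exp_sum, ← Complex.exp_add]
    congr 1
    rw [← Finset.mul_sum, ← mul_add]
    congr 1
    norm_cast
    rw [mul_add, Finset.mul_sum, add_comm]
    congr 1
    refine Finset.sum_congr rfl fun i _ => ?_
    ring
  have hg1 : ∀ i, ‖g i‖ ≤ 1 := by
    intro i
    have : ‖g i‖ ≤ ∫ z, (1 : ℝ) ∂(gaussianReal 0 1) := by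
      refine norm_integral_le_of_norm_le (integrable_const _) (ae_of_all _ fun z => ?_)
      rw [mul_comm, Complex.norm_exp_ofReal_mul_I]
    simpa using this
  rw [hfub, norm_mul, mul_comm Complex.I, Complex.norm_exp_ofReal_mul_I, one_mul, norm_prod]
  have hle : ∏ i, ‖g i‖ ≤ ∏ i ∈ Aᶜ, ‖g i‖ := by
    rw [← Finset.prod_mul_prod_compl A]
    have : ∏ i ∈ A, ‖g i‖ ≤ 1 := Finset.prod_le_one (fun i _ => norm_nonneg _) fun i _ => hg1 i
    have h0 : 0 ≤ ∏ i ∈ Aᶜ, ‖g i‖ := Finset.prod_nonneg fun i _ => norm_nonneg _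
    nlinarith
  refine hle.trans ?_
  rcases eq_or_ne t 0 with rfl | ht
  · have : ∏ i ∈ Aᶜ, ‖g i‖ ≤ 1 := Finset.prod_le_one (fun i _ => norm_nonneg _) fun i _ => hg1 i
    simpa using this
  have ht2 : 0 < t ^ 2 := by positivity
  have hX : 0 < 2 * t ^ 2 * W := by positivity
  have hlow := dens_prod_lower Aᶜ (fun i => 2 * t ^ 2 * (lam i ^ 2 + b i ^ 2)) (2 * t ^ 2 * W) hX
    (fun i _ => by positivity)
    (fun i hi => by
      have := hreg i hi
      nlinarith) (by rw [← Finset.mul_sum, hsum])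
  have h4 : (∏ i ∈ Aᶜ, ‖g i‖) ^ 4 * ∏ i ∈ Aᶜ, (1 + 2 * t ^ 2 * (lam i ^ 2 + b i ^ 2)) ≤ 1 := by
    rw [← Finset.prod_pow, ← Finset.prod_mul_distrib]
    refine Finset.prod_le_one (fun i _ => by positivity) fun i _ => ?_
    have := dens_one (t * lam i) (t * b i)
    refine le_trans (le_of_eq ?_) this
    have e : ‖g i‖ = ‖∫ (z : ℝ), Complex.exp (Complex.I *
        ((t * lam i * z ^ 2 + t * b i * z : ℝ) : ℂ)) ∂gaussianReal 0 1‖ := rfl
    rw [← e]
    ring
  have hP : 0 ≤ ∏ i ∈ Aᶜ, ‖g i‖ := Finset.prod_nonneg fun i _ => norm_nonneg _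
  have h5 : ((∏ i ∈ Aᶜ, ‖g i‖) * (1 + t ^ 2 * W / 2)) ^ 4 ≤ 1 ^ 4 := by
    rw [mul_pow, one_pow]
    refine le_trans ?_ h4
    refine mul_le_mul_of_nonneg_left ?_ (by positivity)
    refine le_trans (le_of_eq ?_) hlow
    ring
  have h6 := (pow_le_pow_iff_left₀ (by positivity) (by norm_num) (by norm_num)).1 h5
  rw [← one_div, le_div_iff₀ (by positivity)]
  exact h6

theorem dens_exp (h : ℝ) (_hh : 0 < h) (y : ℝ) :
    (∫ g, Complex.exp (Complex.I * ((g / h * y : ℝ) : ℂ)) ∂(gaussianReal 0 1)) =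
      ((Real.exp (-(y / h) ^ 2 / 2) : ℝ) : ℂ) := by
  have h1 := charFun_gaussianReal (μ := 0) (v := 1) (y / h)
  rw [charFun_apply_real] at h1
  have h2 : (∫ g, Complex.exp (Complex.I * ((g / h * y : ℝ) : ℂ)) ∂(gaussianReal 0 1)) =
      ∫ x, Complex.exp (((y / h : ℝ) : ℂ) * (x : ℂ) * Complex.I) ∂(gaussianReal 0 1) := by
    refine integral_congr_ae (ae_of_all _ fun z => ?_)
    simp only
    congr 1
    push_cast
    ring
  rw [h2, h1]
  push_cast
  congr 1
  simp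
  ring

theorem dens_int (a : ℝ) (ha : 0 < a) :
    ∫ g, (1 + (a * g) ^ 2)⁻¹ ∂(gaussianReal 0 1) ≤ (√(2 * Real.pi))⁻¹ * (Real.pi / a) := by
  rw [integral_gaussianReal_eq_integral_smul (by norm_num)]
  have hint : Integrable (fun g : ℝ => (√(2 * Real.pi))⁻¹ * (1 + (a * g) ^ 2)⁻¹) :=
    (integrable_inv_one_add_sq.comp_mul_left' ha.ne').const_mul _
  calc ∫ g, gaussianPDFReal 0 1 g • (1 + (a * g) ^ 2)⁻¹
      ≤ ∫ g, (√(2 * Real.pi))⁻¹ * (1 + (a * g) ^ 2)⁻¹ := by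
        refine integral_mono_of_nonneg (ae_of_all _ fun g => ?_) hint (ae_of_all _ fun g => ?_)
        · exact mul_nonneg (gaussianPDFReal_nonneg _ _ _) (by positivity)
        · simp only [smul_eq_mul]
          refine mul_le_mul_of_nonneg_right ?_ (by positivity)
          simp only [gaussianPDFReal]
          have : Real.exp (-(g - 0) ^ 2 / (2 * ((1 : NNReal) : ℝ))) ≤ 1 := by
            rw [Real.exp_le_one_iff]
            have : (0 : ℝ) ≤ (g - 0) ^ 2 := by positivity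
            simp only [NNReal.coe_one]
            linarith
          have h0 : (0 : ℝ) ≤ (√(2 * Real.pi))⁻¹ := by positivity
          simp only [NNReal.coe_one, mul_one] at this ⊢
          nlinarith
    _ = (√(2 * Real.pi))⁻¹ * (Real.pi / a) := by
        rw [integral_const_mul, Measure.integral_comp_mul_left (fun y => (1 + y ^ 2)⁻¹) a,
          integral_univ_inv_one_add_sq, smul_eq_mul, abs_of_pos (inv_pos.2 ha)]
        congr 1
        field_simp

theorem dens_pos (lam b : ι → ℝ) (c : ℝ) (A : Finset ι) (W : ℝ) (hW : 0 < W)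
    (hsum : ∑ i ∈ Aᶜ, (lam i ^ 2 + b i ^ 2) = W)
    (hreg : ∀ i ∈ Aᶜ, 4 * (lam i ^ 2 + b i ^ 2) ≤ W) (h : ℝ) (hh : 0 < h) :
    (gam ι).real {x | |∑ i, (lam i * x i ^ 2 + b i * x i) + c| ≤ h} ≤ 3 * h / √W := by
  set p : (ι → ℝ) → ℝ := fun x => ∑ i, (lam i * x i ^ 2 + b i * x i) + c with hp
  have hpm : Measurable p := by
    rw [hp]
    fun_prop
  have hset : MeasurableSet {x | |p x| ≤ h} := measurableSet_le (by fun_prop) measurable_const
  have hbd : Integrable (fun x => Real.exp (-(p x / h) ^ 2 / 2)) (gam ι) := by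
    refine Integrable.of_bound (by fun_prop) 1 (ae_of_all _ fun x => ?_)
    rw [Real.norm_of_nonneg (Real.exp_pos _).le, Real.exp_le_one_iff]
    have : 0 ≤ (p x / h) ^ 2 := by positivity
    linarith
  have h1 : (gam ι).real {x | |p x| ≤ h} ≤
      Real.exp (1 / 2) * ∫ x, Real.exp (-(p x / h) ^ 2 / 2) ∂(gam ι) := by
    rw [← integral_indicator_one hset, ← integral_const_mul]
    refine integral_mono_of_nonneg (ae_of_all _ fun x => ?_) (hbd.const_mul _)
      (ae_of_all _ fun x => ?_)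
    · exact Set.indicator_nonneg (fun _ _ => zero_le_one) _
    · simp only
      by_cases hx : x ∈ {x | |p x| ≤ h}
      · rw [Set.indicator_of_mem hx, ← Real.exp_add, Pi.one_apply, Real.one_le_exp_iff]
        have hx' : |p x| ≤ h := hx
        have : (p x / h) ^ 2 ≤ 1 := by
          rw [div_pow, div_le_one (by positivity)]
          exact sq_le_sq' (by linarith [abs_le.1 hx']) (abs_le.1 hx').2
        linarith
      · rw [Set.indicator_of_notMem hx]
        positivity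
  have h2 : (∫ x, Real.exp (-(p x / h) ^ 2 / 2) ∂(gam ι)) ≤
      ∫ g, (1 + (√W / (√2 * h) * g) ^ 2)⁻¹ ∂(gaussianReal 0 1) := by
    have e1 : (((∫ x, Real.exp (-(p x / h) ^ 2 / 2) ∂(gam ι)) : ℝ) : ℂ) =
        ∫ g, ∫ x, Complex.exp (Complex.I * ((g / h * p x : ℝ) : ℂ)) ∂(gam ι)
          ∂(gaussianReal 0 1) := by
      rw [integral_integral_swap, ← integral_complex_ofReal]
      · refine integral_congr_ae (ae_of_all _ fun x => ?_)
        simp only
        rw [dens_exp h hh]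
      · refine Integrable.of_bound (by
          apply Measurable.aestronglyMeasurable
          unfold Function.uncurry
          fun_prop) 1 (ae_of_all _ fun x => ?_)
        simp only [Function.uncurry]
        rw [mul_comm, Complex.norm_exp_ofReal_mul_I]
    have h0 : 0 ≤ ∫ x, Real.exp (-(p x / h) ^ 2 / 2) ∂(gam ι) :=
      integral_nonneg fun x => (Real.exp_pos _).le
    have e2 : (∫ x, Real.exp (-(p x / h) ^ 2 / 2) ∂(gam ι)) =
        ‖(((∫ x, Real.exp (-(p x / h) ^ 2 / 2) ∂(gam ι)) : ℝ) : ℂ)‖ := by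
      rw [Complex.norm_real, Real.norm_of_nonneg h0]
    rw [e2, e1]
    refine norm_integral_le_of_norm_le ?_ (ae_of_all _ fun g => ?_)
    · refine Integrable.of_bound (by
        apply Measurable.aestronglyMeasurable
        fun_prop) 1 (ae_of_all _ fun g => ?_)
      rw [Real.norm_of_nonneg (by positivity)]
      apply inv_le_one_of_one_le₀
      have : 0 ≤ (√W / (√2 * h) * g) ^ 2 := by positivity
      linarith
    · refine (dens_char lam b c A W hW hsum hreg (g / h)).trans (le_of_eq ?_)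
      congr 2
      have e3 : (√W / (√2 * h)) ^ 2 = W / (2 * h ^ 2) := by
        rw [div_pow, mul_pow, Real.sq_sqrt hW.le, Real.sq_sqrt (by norm_num)]
      rw [mul_pow, e3, div_pow]
      field_simp
  have h3 := dens_int (√W / (√2 * h)) (by positivity)
  have hsW : 0 < √W := Real.sqrt_pos.2 hW
  have h4 : (√(2 * Real.pi))⁻¹ * (Real.pi / (√W / (√2 * h))) = √Real.pi * h / √W := by
    rw [Real.sqrt_mul (by norm_num)]
    have hs2 : 0 < √(2 : ℝ) := by positivity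
    have hspi : 0 < √Real.pi := Real.sqrt_pos.2 Real.pi_pos
    have hpi : Real.pi = √Real.pi * √Real.pi := (Real.mul_self_sqrt Real.pi_pos.le).symm
    field_simp
    nlinarith [Real.mul_self_sqrt Real.pi_pos.le]
  rw [h4] at h3
  have h5 : Real.exp (1 / 2) * √Real.pi ≤ 3 := by
    have : (Real.exp (1 / 2) * √Real.pi) ^ 2 ≤ 3 ^ 2 := by
      rw [mul_pow, Real.sq_sqrt Real.pi_pos.le, ← Real.exp_nat_mul]
      have e1 : ((2 : ℕ) : ℝ) * (1 / 2) = 1 := by norm_num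
      rw [e1]
      have := Real.exp_one_lt_d9
      have := Real.pi_lt_d2
      nlinarith [Real.exp_pos 1, Real.pi_pos]
    exact (pow_le_pow_iff_left₀ (by positivity) (by norm_num) (by norm_num)).1 this
  calc (gam ι).real {x | |p x| ≤ h} ≤
      Real.exp (1 / 2) * ∫ x, Real.exp (-(p x / h) ^ 2 / 2) ∂(gam ι) := h1
    _ ≤ Real.exp (1 / 2) * (√Real.pi * h / √W) :=
        mul_le_mul_of_nonneg_left (h2.trans h3) (Real.exp_pos _).le
    _ = Real.exp (1 / 2) * √Real.pi * (h / √W) := by ring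
    _ ≤ 3 * (h / √W) := mul_le_mul_of_nonneg_right h5 (by positivity)
    _ = 3 * h / √W := by ring

theorem dens (lam b : ι → ℝ) (c : ℝ) (A : Finset ι) (W : ℝ) (hW : 0 < W)
    (hsum : ∑ i ∈ Aᶜ, (lam i ^ 2 + b i ^ 2) = W)
    (hreg : ∀ i ∈ Aᶜ, 4 * (lam i ^ 2 + b i ^ 2) ≤ W) (h : ℝ) (hh : 0 ≤ h) :
    (gam ι).real {x | |∑ i, (lam i * x i ^ 2 + b i * x i) + c| ≤ h} ≤ 3 * h / √W := by
  have hsW : 0 < √W := Real.sqrt_pos.2 hW
  refine le_of_forall_pos_le_add fun e he => ?_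
  have hh' : 0 < h + e * √W / 3 := by positivity
  calc (gam ι).real {x | |∑ i, (lam i * x i ^ 2 + b i * x i) + c| ≤ h}
      ≤ (gam ι).real {x | |∑ i, (lam i * x i ^ 2 + b i * x i) + c| ≤ h + e * √W / 3} := by
        refine measureReal_mono (fun x hx => ?_) (measure_ne_top _ _)
        have hx' : |∑ i, (lam i * x i ^ 2 + b i * x i) + c| ≤ h := hx
        have : 0 < e * √W / 3 := by positivity
        exact hx'.trans (by linarith)
    _ ≤ 3 * (h + e * √W / 3) / √W := dens_pos lam b c A W hW hsum hreg _ hh'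
    _ = 3 * h / √W + e := by field_simp

end Pool.Agent.KWI
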