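import Pool.Agent.Lib.MP_68391b_lc.Anti
import Pool.Agent.Lib.MP_68391b_lc.Dens

/-! Layer estimates used in the core comparison. -/

namespace Pool.Agent.KWI

open MeasureTheory ProbabilityTheory

variable {ι : Type} [Fintype ι] [DecidableEq ι]

theorem layer_cover (A : Finset ι) (g : ι → ℝ) (hg : ∀ i ∈ A, 0 ≤ g i) (h y : ℝ) (hh : 0 < h)
    (hy : y ≤ ∑ i ∈ A, g i + h) :
    (∃ j ∈ A, 0 < g j ∧ y ≤ (A.card + 1) * g j) ∨ y ≤ (A.card + 1) * h := by
  by_contra hcon
  push Not at hcon
  obtain ⟨h1, h2⟩ := hcon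
  have hc : (0 : ℝ) < A.card + 1 := by positivity
  have hyh : h < y / (A.card + 1) := by
    rw [lt_div_iff₀ hc]; linarith
  have hb : ∀ i ∈ A, g i ≤ y / (A.card + 1) := by
    intro i hi
    by_cases hgi : 0 < g i
    · have := h1 i hi hgi
      rw [le_div_iff₀ hc]; linarith
    · push Not at hgi
      linarith
  have hs : ∑ i ∈ A, g i ≤ A.card * (y / (A.card + 1)) := by
    have := Finset.sum_le_card_nsmul A g (y / (A.card + 1)) hb
    simpa [nsmul_eq_mul] using this
  have h3 : y < A.card * (y / (A.card + 1)) + y / (A.card + 1) := by linarith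
  have h4 : A.card * (y / (A.card + 1)) + y / (A.card + 1) = y := by
    field_simp
  linarith

theorem layer_measurable (lam b : ι → ℝ) (c : ℝ) :
    Measurable (fun x : ι → ℝ => ∑ i, (lam i * x i ^ 2 + b i * x i) + c) := by
  fun_prop

/-- The boundary layer along the coordinates of `A`. -/
theorem layer (lam b : ι → ℝ) (c : ℝ) (A : Finset ι) (δ h : ℝ) (hδ : 0 ≤ δ) (hh : 0 < h) :
    (gam ι).real {x | |∑ i, (lam i * x i ^ 2 + b i * x i) + c| ≤
      ∑ i ∈ A, (2 * δ * |2 * lam i * x i + b i| + 4 * δ ^ 2 * |lam i|) + h} ≤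
      16 * A.card * (A.card + 1) * δ +
        (gam ι).real {x | |∑ i, (lam i * x i ^ 2 + b i * x i) + c| ≤ (A.card + 1) * h} := by
  set P : (ι → ℝ) → ℝ := fun x => ∑ i, (lam i * x i ^ 2 + b i * x i) + c with hP
  set g : ι → (ι → ℝ) → ℝ := fun i x => 2 * δ * |2 * lam i * x i + b i| + 4 * δ ^ 2 * |lam i|
    with hg
  set η : ℝ := 2 * (A.card + 1) * δ with hη
  have hη0 : 0 ≤ η := by positivity
  set B : ι → Set (ι → ℝ) := fun j => {x | 0 < g j x ∧ |P x| ≤ (A.card + 1) * g j x} with hB
  have hsub : {x | |P x| ≤ ∑ i ∈ A, g i x + h} ⊆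
      (⋃ j ∈ A, B j) ∪ {x | |P x| ≤ (A.card + 1) * h} := by
    intro x hx
    rcases layer_cover A (fun i => g i x) (fun i _ => by positivity) h |P x| hh hx with h1 | h1
    · left
      obtain ⟨j, hj, h2, h3⟩ := h1
      exact Set.mem_biUnion hj ⟨h2, h3⟩
    · right; exact h1
  have hBj : ∀ j ∈ A, (gam ι).real (B j) ≤ 8 * η := by
    intro j hj
    by_cases hV : lam j ≠ 0 ∨ b j ≠ 0
    · set G : (ι → ℝ) → ℝ := fun x => ∑ i ∈ Finset.univ.erase j, (lam i * x i ^ 2 + b i * x i) + c
        with hG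
      have hPG : ∀ x, P x = lam j * x j ^ 2 + b j * x j + G x := by
        intro x
        simp only [hP, hG]
        rw [← Finset.add_sum_erase Finset.univ _ (Finset.mem_univ j)]
        ring
      have := anti_pi j (lam j) (b j) η hV hη0 G (by simp only [hG]; fun_prop) (by
        intro x y hxy
        simp only [hG]
        congr 1
        apply Finset.sum_congr rfl
        intro i hi
        rw [hxy i (Finset.ne_of_mem_erase hi)])
      refine le_trans (measureReal_mono ?_ (measure_ne_top _ _)) this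
      rintro x ⟨-, hx⟩
      have hxx : |lam j * x j ^ 2 + b j * x j + G x| ≤ (A.card + 1) * g j x := by
        rw [← hPG x]; exact hx
      refine le_trans hxx ?_
      have h1 : (0 : ℝ) ≤ A.card := by positivity
      have h2 : 0 ≤ |lam j| := abs_nonneg _
      have h3 : (A.card + 1 : ℝ) * (4 * δ ^ 2 * |lam j|) ≤ η ^ 2 * |lam j| := by
        rw [hη]
        have : (A.card + 1 : ℝ) * (4 * δ ^ 2) ≤ (2 * (A.card + 1) * δ) ^ 2 := by
          have h4 : (A.card + 1 : ℝ) ≤ (A.card + 1) ^ 2 := by nlinarith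
          nlinarith [sq_nonneg δ]
        nlinarith
      calc (A.card + 1 : ℝ) * g j x
          = η * |2 * lam j * x j + b j| + (A.card + 1) * (4 * δ ^ 2 * |lam j|) := by
            simp only [hg, hη]; ring
        _ ≤ _ := by linarith
    · push Not at hV
      have : B j = ∅ := by
        ext x
        simp only [hB, hg, hV.1, hV.2, Set.mem_setOf_eq, Set.mem_empty_iff_false, iff_false]
        simp
      rw [this]; simp; positivity
  calc (gam ι).real {x | |P x| ≤ ∑ i ∈ A, g i x + h}
      ≤ (gam ι).real ((⋃ j ∈ A, B j) ∪ {x | |P x| ≤ (A.card + 1) * h}) :=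
        measureReal_mono hsub (measure_ne_top _ _)
    _ ≤ (gam ι).real (⋃ j ∈ A, B j) + (gam ι).real {x | |P x| ≤ (A.card + 1) * h} :=
        measureReal_union_le _ _
    _ ≤ (∑ j ∈ A, (gam ι).real (B j)) + (gam ι).real {x | |P x| ≤ (A.card + 1) * h} := by
        gcongr
        exact measureReal_biUnion_finset_le _ _
    _ ≤ (∑ j ∈ A, 8 * η) + (gam ι).real {x | |P x| ≤ (A.card + 1) * h} := by
        gcongr with j hj
        exact hBj j hj
    _ = _ := by
        rw [Finset.sum_const, nsmul_eq_mul, hη]; ring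

end Pool.Agent.KWI
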