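import Mathlib

/-! The set of top coordinates. -/

namespace Pool.Agent.KWI

theorem topset {ι : Type} [Fintype ι] [DecidableEq ι] (V : ι → ℝ) (hV : ∀ i, 0 ≤ V i) (J : ℕ) :
    ∃ A : Finset ι, A.card ≤ J ∧ (A = ∅ ∨ ∃ i ∈ A, ∑ j, V j ≤ 4 * V i) ∧
      ((∀ i ∈ Aᶜ, 4 * V i ≤ ∑ j ∈ Aᶜ, V j) ∨
        ∑ j ∈ Aᶜ, V j ≤ (3 / 4) ^ J * ∑ j, V j) := by
  induction J with
  | zero => exact ⟨∅, by simp, Or.inl rfl, Or.inr (by simp)⟩
  | succ J ih =>
    obtain ⟨A, hc, hA, hB⟩ := ih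
    by_cases h : ∀ i ∈ Aᶜ, 4 * V i ≤ ∑ j ∈ Aᶜ, V j
    · exact ⟨A, by omega, hA, Or.inl h⟩
    · push Not at h
      obtain ⟨i, hi, hlt⟩ := h
      have hS : ∑ j ∈ Aᶜ, V j ≤ (3 / 4) ^ J * ∑ j, V j := by
        rcases hB with hB | hB
        · exact absurd (hB i hi) (not_le.mpr hlt)
        · exact hB
      have hi' : i ∉ A := by simpa using hi
      refine ⟨insert i A, ?_, Or.inr ?_, Or.inr ?_⟩
      · rw [Finset.card_insert_of_notMem hi']; omega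
      · rcases hA with hA | ⟨k, hk, hk2⟩
        · refine ⟨i, Finset.mem_insert_self i A, ?_⟩
          subst hA
          simp only [Finset.compl_empty] at hlt
          exact hlt.le
        · exact ⟨k, Finset.mem_insert_of_mem hk, hk2⟩
      · have e : (insert i A)ᶜ = Aᶜ.erase i := Finset.compl_insert
        have e2 : ∑ j ∈ Aᶜ.erase i, V j + V i = ∑ j ∈ Aᶜ, V j := Finset.sum_erase_add _ _ hi
        rw [e]
        calc ∑ j ∈ Aᶜ.erase i, V j ≤ (3 / 4) * ∑ j ∈ Aᶜ, V j := by linarith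
          _ ≤ (3 / 4) * ((3 / 4) ^ J * ∑ j, V j) := by linarith
          _ = (3 / 4) ^ (J + 1) * ∑ j, V j := by ring

end Pool.Agent.KWI
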