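import Pool.Agent.Lib.MP_68391b_lc.Main
import Pool.Agent.Lib.MP_68391b_lc.CoreA
import Pool.Agent.Lib.MP_68391b_lc.Top

/-! Parameter choices and the normalised core comparison. -/

namespace Pool.Agent.KWI

open MeasureTheory ProbabilityTheory

/-- `n ≤ 2 ^ n` over the reals. -/
theorem nat_le_two_pow (n : ℕ) : (n : ℝ) ≤ 2 ^ n := by
  exact_mod_cast (Nat.lt_two_pow_self).le

theorem three_quarter_pow_le (j : ℕ) : ((3 : ℝ) / 4) ^ (5 * j) ≤ (1 / 2) ^ (2 * j) := by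
  rw [pow_mul, pow_mul]
  exact pow_le_pow_left₀ (by positivity) (by norm_num) _

theorem le_three_quarter_pow (j : ℕ) : ((1 : ℝ) / 2) ^ (2 * j) ≤ (3 / 4) ^ (2 * j) :=
  pow_le_pow_left₀ (by positivity) (by norm_num) _

section Params

/-- The width parameter. -/
noncomputable def del (a Q : ℕ) : ℝ := (1 / 2) ^ Q / (3840 * (a + 2) ^ 2 * Q ^ 2)

theorem del_pos (a Q : ℕ) (hQ : 1 ≤ Q) : 0 < del a Q := by
  unfold del
  have : (0 : ℝ) < Q := by exact_mod_cast hQ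
  positivity

theorem del_le_one (a Q : ℕ) (hQ : 1 ≤ Q) : del a Q ≤ 1 := by
  unfold del
  have h1 : (1 : ℝ) ≤ Q := by exact_mod_cast hQ
  have h2 : (0 : ℝ) ≤ a := by positivity
  rw [div_le_one (by positivity)]
  have h3 : ((1 : ℝ) / 2) ^ Q ≤ 1 := pow_le_one₀ (by norm_num) (by norm_num)
  have h4 : (1 : ℝ) ≤ (a + 2) ^ 2 := by nlinarith
  have h5 : (1 : ℝ) ≤ (Q : ℝ) ^ 2 := by nlinarith
  have h6 : (1 : ℝ) ≤ (a + 2) ^ 2 * (Q : ℝ) ^ 2 := by nlinarith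
  nlinarith

/-- `del a Q ≥ 2 ^ (-(2 a + 16 + 3 Q))`. -/
theorem del_ge (a Q : ℕ) (hQ : 1 ≤ Q) : (1 / 2 : ℝ) ^ (2 * a + 16 + 3 * Q) ≤ del a Q := by
  unfold del
  have h1 : (0 : ℝ) < Q := by exact_mod_cast hQ
  rw [le_div_iff₀ (by positivity)]
  have h2 : ((a : ℝ) + 2) ≤ 2 ^ (a + 2) := by
    have := nat_le_two_pow (a + 2)
    push_cast at this; exact this
  have h3 : (Q : ℝ) ≤ 2 ^ Q := nat_le_two_pow Q
  have h4 : ((a : ℝ) + 2) ^ 2 ≤ (2 ^ (a + 2)) ^ 2 := by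
    apply pow_le_pow_left₀ (by positivity) h2
  have h5 : (Q : ℝ) ^ 2 ≤ (2 ^ Q) ^ 2 := by
    apply pow_le_pow_left₀ (by positivity) h3
  have h6 : (3840 : ℝ) * (a + 2) ^ 2 * Q ^ 2 ≤ 2 ^ 12 * (2 ^ (a + 2)) ^ 2 * (2 ^ Q) ^ 2 := by
    have : (3840 : ℝ) ≤ 2 ^ 12 := by norm_num
    gcongr
  calc (1 / 2 : ℝ) ^ (2 * a + 16 + 3 * Q) * (3840 * (a + 2) ^ 2 * Q ^ 2)
      ≤ (1 / 2 : ℝ) ^ (2 * a + 16 + 3 * Q) * (2 ^ 12 * (2 ^ (a + 2)) ^ 2 * (2 ^ Q) ^ 2) := by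
        gcongr
    _ = (1 / 2) ^ Q := by
        have h7 : (2 : ℝ) ^ 12 * (2 ^ (a + 2)) ^ 2 * (2 ^ Q) ^ 2 = 2 ^ (2 * a + 16 + 2 * Q) := by
          rw [← pow_mul, ← pow_mul, ← pow_add, ← pow_add]
          congr 1; ring
        rw [h7, show 2 * a + 16 + 3 * Q = (2 * a + 16 + 2 * Q) + Q by ring, pow_add, one_div,
          inv_pow, inv_pow]
        field_simp

theorem inv_del_sq (a Q : ℕ) :
    1 / del a Q ^ 2 = 4 ^ Q * (3840 * ((a : ℝ) + 2) ^ 2) ^ 2 * (Q : ℝ) ^ 4 := by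
  unfold del
  rw [div_pow, one_div_div, div_eq_mul_inv]
  have : (((1 : ℝ) / 2) ^ Q) ^ 2 = (4 ^ Q)⁻¹ := by
    rw [← pow_mul, mul_comm, pow_mul, ← inv_pow]; norm_num
  rw [this, inv_inv]; ring

theorem params_N (C₂ : ℝ) (hC₂ : 0 < C₂) (a Q N : ℕ) (ha : 1 ≤ a) (hQ : 1 ≤ Q)
    (hN : (C₂ * (3 * (10 * a) ^ 5 * (3840 * ((a : ℝ) + 2) ^ 2) ^ 2) + 1) *
      (4 ^ Q * (Q : ℝ) ^ 9) ≤ N) (X : ℝ) (hX : X ≤ 1 / del a Q ^ 2) :
    C₂ * (((10 * a * Q : ℕ) : ℝ) ^ 5 * (X + 1) +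
      ((10 * a * Q : ℕ) : ℝ) ^ 3 / del a Q ^ 2) ≤ N := by
  have hQ1 : (1 : ℝ) ≤ Q := by exact_mod_cast hQ
  have ha1 : (1 : ℝ) ≤ a := by exact_mod_cast ha
  set Y : ℝ := 1 / del a Q ^ 2 with hY
  have hd := del_pos a Q hQ
  have hd1 := del_le_one a Q hQ
  have hY1 : 1 ≤ Y := by
    rw [hY, le_div_iff₀ (by positivity), one_mul]
    exact pow_le_one₀ hd.le hd1
  set K : ℝ := ((10 * a * Q : ℕ) : ℝ) with hK
  have hKv : K = 10 * a * Q := by rw [hK]; push_cast; ring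
  have hK1 : 1 ≤ K := by
    rw [hKv]
    have : (1 : ℝ) ≤ a * Q := by nlinarith
    nlinarith
  have h35 : K ^ 3 ≤ K ^ 5 := pow_le_pow_right₀ hK1 (by norm_num)
  have h1 : K ^ 5 * (X + 1) + K ^ 3 / del a Q ^ 2 ≤ 3 * K ^ 5 * Y := by
    have e1 : K ^ 3 / del a Q ^ 2 = K ^ 3 * Y := by rw [hY]; ring
    rw [e1]
    have hK5 : 0 ≤ K ^ 5 := by positivity
    have e2 : K ^ 5 * (X + 1) ≤ K ^ 5 * (Y + Y) := by
      apply mul_le_mul_of_nonneg_left _ hK5; linarith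
    have e3 : K ^ 3 * Y ≤ K ^ 5 * Y := by
      apply mul_le_mul_of_nonneg_right h35; linarith
    linarith
  have h2 : 3 * K ^ 5 * Y = (3 * (10 * a) ^ 5 * (3840 * ((a : ℝ) + 2) ^ 2) ^ 2) *
      (4 ^ Q * (Q : ℝ) ^ 9) := by
    rw [hY, inv_del_sq, hKv]; ring
  calc C₂ * (K ^ 5 * (X + 1) + K ^ 3 / del a Q ^ 2) ≤ C₂ * (3 * K ^ 5 * Y) := by gcongr
    _ = (C₂ * (3 * (10 * a) ^ 5 * (3840 * ((a : ℝ) + 2) ^ 2) ^ 2)) *
      (4 ^ Q * (Q : ℝ) ^ 9) := by rw [h2]; ring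
    _ ≤ (C₂ * (3 * (10 * a) ^ 5 * (3840 * ((a : ℝ) + 2) ^ 2) ^ 2) + 1) *
      (4 ^ Q * (Q : ℝ) ^ 9) := by gcongr; linarith
    _ ≤ N := hN

end Params

section Far

variable {ι : Type} [Fintype ι] [DecidableEq ι]

theorem sum_center (lam b : ι → ℝ) (c : ℝ) (x : ι → ℝ) :
    ∑ i, (lam i * x i ^ 2 + b i * x i) + c =
      ∑ i, (lam i * (x i ^ 2 - 1) + b i * x i) + (c + ∑ i, lam i) := by
  have : ∑ i, (lam i * x i ^ 2 + b i * x i) =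
      ∑ i, (lam i * (x i ^ 2 - 1) + b i * x i) + ∑ i, lam i := by
    rw [← Finset.sum_add_distrib]
    apply Finset.sum_congr rfl
    intro i _; ring
  rw [this]; ring

theorem far_case (μ : Measure (ι → ℝ)) [IsProbabilityMeasure μ] (N : ℕ) (hμ : MM N μ)
    (hN : 4 ≤ N) (Q : ℕ) (hQ : 1 ≤ Q) (lam b : ι → ℝ) (c : ℝ)
    (hV : ∑ i, (lam i ^ 2 + b i ^ 2) = 1) (hfar : 2 ^ Q ≤ |c + ∑ i, lam i|) :
    μ.real {x | 0 ≤ ∑ i, (lam i * x i ^ 2 + b i * x i) + c} ≤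
      (gam ι).real {x | 0 ≤ ∑ i, (lam i * x i ^ 2 + b i * x i) + c} + (1 / 2) ^ Q := by
  have hr : (0 : ℝ) < 2 ^ Q := by positivity
  have hbd : 2 * (1 : ℝ) / (2 ^ Q) ^ 2 ≤ (1 / 2) ^ Q := by
    rw [div_le_iff₀ (by positivity), one_div, inv_pow, sq, ← mul_assoc,
      inv_mul_cancel₀ (by positivity), one_mul]
    calc (2 : ℝ) * 1 = 2 ^ 1 := by norm_num
      _ ≤ 2 ^ Q := pow_le_pow_right₀ (by norm_num) hQ
  rcases le_abs.1 hfar with h1 | h1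
  · -- the mean is large and positive
    have hg := tail_quad (gam ι) (MM_gam 4 ι) le_rfl Finset.univ lam b (2 ^ Q) hr
    rw [hV] at hg
    have hsub : {x : ι → ℝ | 0 ≤ ∑ i, (lam i * x i ^ 2 + b i * x i) + c}ᶜ ⊆
        {x | 2 ^ Q ≤ |∑ i, (lam i * (x i ^ 2 - 1) + b i * x i)|} := by
      intro x hx
      simp only [Set.mem_compl_iff, Set.mem_setOf_eq, not_le] at hx ⊢
      rw [sum_center] at hx
      rw [le_abs]; right; linarith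
    have hm : MeasurableSet {x : ι → ℝ | 0 ≤ ∑ i, (lam i * x i ^ 2 + b i * x i) + c} :=
      measurableSet_le measurable_const (layer_measurable lam b c)
    have h2 : (gam ι).real {x : ι → ℝ | 0 ≤ ∑ i, (lam i * x i ^ 2 + b i * x i) + c}ᶜ ≤
        (1 / 2) ^ Q := (measureReal_mono hsub (measure_ne_top _ _)).trans (hg.trans hbd)
    rw [probReal_compl_eq_one_sub hm] at h2
    have h3 : μ.real {x | 0 ≤ ∑ i, (lam i * x i ^ 2 + b i * x i) + c} ≤ 1 := measureReal_le_one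
    linarith
  · have hg := tail_quad μ hμ hN Finset.univ lam b (2 ^ Q) hr
    rw [hV] at hg
    have hsub : {x : ι → ℝ | 0 ≤ ∑ i, (lam i * x i ^ 2 + b i * x i) + c} ⊆
        {x | 2 ^ Q ≤ |∑ i, (lam i * (x i ^ 2 - 1) + b i * x i)|} := by
      intro x hx
      simp only [Set.mem_setOf_eq] at hx ⊢
      rw [sum_center] at hx
      rw [le_abs]; left; linarith
    have h2 := (measureReal_mono hsub (measure_ne_top μ _)).trans (hg.trans hbd)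
    have h3 : 0 ≤ (gam ι).real {x | 0 ≤ ∑ i, (lam i * x i ^ 2 + b i * x i) + c} :=
      measureReal_nonneg
    linarith

end Far

end Pool.Agent.KWI
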