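import Pool.Agent.Lib.MP_68391b_lc.CoreB

/-! The two cases of the core comparison. -/

namespace Pool.Agent.KWI

open MeasureTheory ProbabilityTheory

/-- The conclusion of the main lemma for fixed constants. -/
def MainProp (C₂ : ℝ) (K₀ : ℕ) : Prop := ∀ (K : ℕ) (_ : K₀ ≤ K)
    (ι : Type) [Fintype ι] [DecidableEq ι] (μ : Measure (ι → ℝ)) [IsProbabilityMeasure μ]
    (N : ℕ) (_ : MM N μ) (A : Finset ι) (_ : A.card ≤ K) (lam b : ι → ℝ)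
    (_ : ∀ i, |lam i| ≤ 1) (_ : ∀ i, |b i| ≤ 1) (c : ℝ) (_ : |c| ≤ 2 ^ K) (δ w : ℝ)
    (_ : (1 / 2) ^ K ≤ δ) (_ : δ ≤ 1) (_ : (1 / 2) ^ K ≤ w) (_ : w ≤ 1) (W : ℝ)
    (_ : ∑ i ∈ Aᶜ, (lam i ^ 2 + b i ^ 2) ≤ W) (_ : W ≤ 1)
    (_ : C₂ * ((K : ℝ) ^ 5 * (W / w ^ 2 + 1) + (K : ℝ) ^ 3 / δ ^ 2) ≤ N),
    μ.real {x | 0 ≤ ∑ i ∈ A, (lam i * x i ^ 2 + b i * x i) +
        ∑ i ∈ Aᶜ, (lam i * (x i ^ 2 - 1) + b i * x i) + c} ≤
      (gam ι).real {x | 0 ≤ ∑ i ∈ A, (lam i * x i ^ 2 + b i * x i) +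
        ∑ i ∈ Aᶜ, (lam i * (x i ^ 2 - 1) + b i * x i) + c +
        ∑ i ∈ A, (2 * δ * |2 * lam i * x i + b i| + 4 * δ ^ 2 * |lam i|) + 2 * w * K} +
      (1 / 2) ^ K

variable {ι : Type} [Fintype ι] [DecidableEq ι]

theorem sum_split_center (A : Finset ι) (lam b : ι → ℝ) (c : ℝ) (x : ι → ℝ) :
    ∑ i, (lam i * x i ^ 2 + b i * x i) + c =
      ∑ i ∈ A, (lam i * x i ^ 2 + b i * x i) +
        ∑ i ∈ Aᶜ, (lam i * (x i ^ 2 - 1) + b i * x i) + (c + ∑ i ∈ Aᶜ, lam i) := by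
  have h1 : ∑ i ∈ Aᶜ, (lam i * x i ^ 2 + b i * x i) =
      ∑ i ∈ Aᶜ, (lam i * (x i ^ 2 - 1) + b i * x i) + ∑ i ∈ Aᶜ, lam i := by
    rw [← Finset.sum_add_distrib]
    apply Finset.sum_congr rfl
    intro i _; ring
  rw [← Finset.sum_add_sum_compl A, h1]; ring

theorem abs_le_one_of_sum {lam b : ι → ℝ} (hV : ∑ i, (lam i ^ 2 + b i ^ 2) = 1) (i : ι) :
    |lam i| ≤ 1 ∧ |b i| ≤ 1 := by
  have h1 : lam i ^ 2 + b i ^ 2 ≤ 1 := by
    rw [← hV]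
    exact Finset.single_le_sum (f := fun i => lam i ^ 2 + b i ^ 2)
      (fun j _ => by positivity) (Finset.mem_univ i)
  constructor
  · apply abs_le_of_sq_le_sq _ zero_le_one
    nlinarith [sq_nonneg (b i)]
  · apply abs_le_of_sq_le_sq _ zero_le_one
    nlinarith [sq_nonneg (lam i)]

/-- bound for the constant term after centring the tail -/
theorem const_bound (a Q : ℕ) (ha : 30 ≤ a) (hQ : 1 ≤ Q) (A : Finset ι)
    (hA : A.card ≤ 5 * (a + 2) * Q) (lam b : ι → ℝ) (c : ℝ)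
    (hV : ∑ i, (lam i ^ 2 + b i ^ 2) = 1) (hnear : |c + ∑ i, lam i| < 2 ^ Q) :
    |c + ∑ i ∈ Aᶜ, lam i| + 1 ≤ 2 ^ (10 * a * Q) := by
  have h1 : c + ∑ i ∈ Aᶜ, lam i = (c + ∑ i, lam i) - ∑ i ∈ A, lam i := by
    rw [← Finset.sum_add_sum_compl A]; ring
  have h2 : |∑ i ∈ A, lam i| ≤ A.card := by
    calc |∑ i ∈ A, lam i| ≤ ∑ i ∈ A, |lam i| := Finset.abs_sum_le_sum_abs _ _
      _ ≤ ∑ i ∈ A, (1 : ℝ) := Finset.sum_le_sum fun i _ => (abs_le_one_of_sum hV i).1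
      _ = A.card := by simp
  have h3 : |c + ∑ i ∈ Aᶜ, lam i| ≤ 2 ^ Q + A.card := by
    rw [h1]
    calc |(c + ∑ i, lam i) - ∑ i ∈ A, lam i| ≤ |c + ∑ i, lam i| + |∑ i ∈ A, lam i| :=
        abs_sub _ _
      _ ≤ _ := by linarith
  have h4 : (A.card : ℝ) + 1 ≤ 2 ^ (5 * (a + 2) * Q) := by
    have h5 : A.card + 1 ≤ 2 ^ (5 * (a + 2) * Q) := by
      have := Nat.lt_two_pow_self (n := 5 * (a + 2) * Q)
      omega
    exact_mod_cast h5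
  have h6 : (2 : ℝ) ^ Q ≤ 2 ^ (5 * (a + 2) * Q) := by
    apply pow_le_pow_right₀ (by norm_num)
    nlinarith
  have h7 : (2 : ℝ) ^ (5 * (a + 2) * Q) + 2 ^ (5 * (a + 2) * Q) ≤ 2 ^ (10 * a * Q) := by
    have h8 : 5 * (a + 2) * Q + 1 ≤ 10 * a * Q := by nlinarith
    calc (2 : ℝ) ^ (5 * (a + 2) * Q) + 2 ^ (5 * (a + 2) * Q) = 2 ^ (5 * (a + 2) * Q + 1) := by
          rw [pow_succ]; ring
      _ ≤ _ := pow_le_pow_right₀ (by norm_num) h8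
  linarith

theorem half_pow_anti {m n : ℕ} (h : m ≤ n) : ((1 : ℝ) / 2) ^ n ≤ (1 / 2) ^ m :=
  pow_le_pow_of_le_one (by norm_num) (by norm_num) h

theorem del_ge_K (a Q : ℕ) (ha : 30 ≤ a) (hQ : 1 ≤ Q) :
    (1 / 2 : ℝ) ^ (10 * a * Q) ≤ del a Q := by
  refine le_trans (half_pow_anti ?_) (del_ge a Q hQ)
  nlinarith

/-- `16 J (J+1) δ ≤ 2^-Q / 8` -/
theorem layer_small (a Q n : ℕ) (hQ : 1 ≤ Q) (hn : n ≤ 5 * (a + 2) * Q) :
    16 * (n : ℝ) * (n + 1) * del a Q ≤ (1 / 2) ^ Q / 8 := by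
  have hQ1 : (1 : ℝ) ≤ Q := by exact_mod_cast hQ
  have ha : (0 : ℝ) ≤ a := by positivity
  have h1 : (n : ℝ) ≤ 5 * (a + 2) * Q := by exact_mod_cast hn
  have h2 : (n : ℝ) + 1 ≤ 6 * (a + 2) * Q := by nlinarith
  have h3 : (n : ℝ) * (n + 1) ≤ (5 * (a + 2) * Q) * (6 * (a + 2) * Q) := by
    apply mul_le_mul h1 h2 (by positivity) (by positivity)
  have hd := (del_pos a Q hQ).le
  calc 16 * (n : ℝ) * (n + 1) * del a Q = 16 * (n * (n + 1)) * del a Q := by ring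
    _ ≤ 16 * ((5 * (a + 2) * Q) * (6 * (a + 2) * Q)) * del a Q := by gcongr
    _ = (1 / 2) ^ Q / 8 := by
        unfold del
        have : ((a : ℝ) + 2) ≠ 0 := by positivity
        have : (Q : ℝ) ≠ 0 := by positivity
        field_simp
        ring

/-- `6 (J+1) K δ ≤ 2^-Q / 8` -/
theorem dens_small (a Q n : ℕ) (hQ : 1 ≤ Q) (hn : n ≤ 5 * (a + 2) * Q) :
    6 * ((n : ℝ) + 1) * ((10 * a * Q : ℕ) : ℝ) * del a Q ≤ (1 / 2) ^ Q / 8 := by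
  have hQ1 : (1 : ℝ) ≤ Q := by exact_mod_cast hQ
  have ha : (0 : ℝ) ≤ a := by positivity
  have h1 : (n : ℝ) ≤ 5 * (a + 2) * Q := by exact_mod_cast hn
  have h2 : (n : ℝ) + 1 ≤ 6 * (a + 2) * Q := by nlinarith
  have hK : ((10 * a * Q : ℕ) : ℝ) ≤ 10 * (a + 2) * Q := by push_cast; nlinarith
  have hd := (del_pos a Q hQ).le
  have h3 : ((n : ℝ) + 1) * ((10 * a * Q : ℕ) : ℝ) ≤ (6 * (a + 2) * Q) * (10 * (a + 2) * Q) :=
    mul_le_mul h2 hK (by positivity) (by positivity)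
  have h5 : (0 : ℝ) < (1 / 2) ^ Q := by positivity
  calc 6 * ((n : ℝ) + 1) * ((10 * a * Q : ℕ) : ℝ) * del a Q
      = 6 * (((n : ℝ) + 1) * ((10 * a * Q : ℕ) : ℝ)) * del a Q := by ring
    _ ≤ 6 * ((6 * (a + 2) * Q) * (10 * (a + 2) * Q)) * del a Q := by gcongr
    _ = (360 / 3840) * (1 / 2) ^ Q := by
        unfold del
        have h3 : ((a : ℝ) + 2) ≠ 0 := by positivity
        have h4 : (Q : ℝ) ≠ 0 := by positivity
        field_simp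
        ring
    _ ≤ _ := by linarith

theorem near_regular (C₂ : ℝ) (hC₂ : 0 < C₂) (K₀ : ℕ) (hmain : MainProp C₂ K₀) (a Q N : ℕ)
    (ha : 30 ≤ a) (haK : K₀ ≤ a) (hQ : 1 ≤ Q)
    (hN : (C₂ * (3 * (10 * a) ^ 5 * (3840 * ((a : ℝ) + 2) ^ 2) ^ 2) + 1) *
      (4 ^ Q * (Q : ℝ) ^ 9) ≤ N)
    (μ : Measure (ι → ℝ)) [IsProbabilityMeasure μ] (hμ : MM N μ) (lam b : ι → ℝ) (c : ℝ)
    (hV : ∑ i, (lam i ^ 2 + b i ^ 2) = 1) (hnear : |c + ∑ i, lam i| < 2 ^ Q)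
    (A : Finset ι) (hA : A.card ≤ 5 * (a + 2) * Q)
    (hreg : ∀ i ∈ Aᶜ, 4 * (lam i ^ 2 + b i ^ 2) ≤ ∑ j ∈ Aᶜ, (lam j ^ 2 + b j ^ 2))
    (hbig : (3 / 4 : ℝ) ^ (5 * (a + 2) * Q) ≤ ∑ j ∈ Aᶜ, (lam j ^ 2 + b j ^ 2)) :
    μ.real {x | 0 ≤ ∑ i, (lam i * x i ^ 2 + b i * x i) + c} ≤
      (gam ι).real {x | 0 ≤ ∑ i, (lam i * x i ^ 2 + b i * x i) + c} + (1 / 2) ^ Q := by
  set W : ℝ := ∑ j ∈ Aᶜ, (lam j ^ 2 + b j ^ 2) with hW
  have hQ1 : (1 : ℝ) ≤ Q := by exact_mod_cast hQ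
  have ha1 : (30 : ℝ) ≤ a := by exact_mod_cast ha
  have hWpos : 0 < W := lt_of_lt_of_le (by positivity) hbig
  have hW1 : W ≤ 1 := by
    rw [hW, ← hV]
    exact Finset.sum_le_sum_of_subset_of_nonneg (Finset.subset_univ _)
      (fun i _ _ => by positivity)
  have hd := del_pos a Q hQ
  have hd1 := del_le_one a Q hQ
  set K : ℕ := 10 * a * Q with hK
  set δ : ℝ := del a Q with hδ
  set w : ℝ := δ * √W with hw
  have hsW : 0 < √W := Real.sqrt_pos.2 hWpos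
  have hsW1 : √W ≤ 1 := (Real.sqrt_le_sqrt hW1).trans Real.sqrt_one.le
  have hwpos : 0 < w := by positivity
  have hw1 : w ≤ 1 := by nlinarith
  have hwK : (1 / 2 : ℝ) ^ K ≤ w := by
    have h1 : (1 / 2 : ℝ) ^ (5 * (a + 2) * Q) ≤ √W := by
      apply Real.le_sqrt_of_sq_le
      rw [← pow_mul]
      refine le_trans ?_ hbig
      rw [mul_comm _ 2]
      refine le_trans (le_three_quarter_pow _) ?_
      exact pow_le_pow_of_le_one (by norm_num) (by norm_num) (by omega)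
    have h2 : (1 / 2 : ℝ) ^ (2 * a + 16 + 3 * Q) ≤ δ := del_ge a Q hQ
    calc (1 / 2 : ℝ) ^ K ≤ (1 / 2) ^ ((2 * a + 16 + 3 * Q) + 5 * (a + 2) * Q) := by
          apply half_pow_anti
          rw [hK]; nlinarith
      _ = (1 / 2) ^ (2 * a + 16 + 3 * Q) * (1 / 2) ^ (5 * (a + 2) * Q) := pow_add _ _ _
      _ ≤ δ * √W := by gcongr
  have hAK : A.card ≤ K := by
    refine hA.trans ?_
    rw [hK]; nlinarith
  have hc := const_bound a Q ha hQ A hA lam b c hV hnear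
  have hWw : W / w ^ 2 = 1 / δ ^ 2 := by
    rw [hw, mul_pow, Real.sq_sqrt hWpos.le]
    field_simp
  have hNN := params_N C₂ hC₂ a Q N (by omega) hQ hN (W / w ^ 2) hWw.le
  have hKK : K₀ ≤ K := by rw [hK]; nlinarith
  have hm := hmain K hKK ι μ N hμ A hAK lam b (fun i => (abs_le_one_of_sum hV i).1)
    (fun i => (abs_le_one_of_sum hV i).2) (c + ∑ i ∈ Aᶜ, lam i) (by linarith) δ w
    (del_ge_K a Q ha hQ) hd1 hwK hw1 W le_rfl hW1 hNN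
  simp_rw [← sum_split_center A lam b c] at hm
  have hKpos : 0 < (K : ℝ) := by
    have : 0 < K := by rw [hK]; positivity
    exact_mod_cast this
  set h : ℝ := 2 * w * K with hh
  have hhpos : 0 < h := by positivity
  have hl := layer lam b c A δ h hd.le hhpos
  have hdens := dens lam b c A W hWpos rfl hreg ((A.card + 1) * h) (by positivity)
  have hsub : {x : ι → ℝ | 0 ≤ ∑ i, (lam i * x i ^ 2 + b i * x i) + c +
        ∑ i ∈ A, (2 * δ * |2 * lam i * x i + b i| + 4 * δ ^ 2 * |lam i|) + h} ⊆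
      {x | 0 ≤ ∑ i, (lam i * x i ^ 2 + b i * x i) + c} ∪
      {x | |∑ i, (lam i * x i ^ 2 + b i * x i) + c| ≤
      ∑ i ∈ A, (2 * δ * |2 * lam i * x i + b i| + 4 * δ ^ 2 * |lam i|) + h} := by
    intro x hx
    by_cases h0 : 0 ≤ ∑ i, (lam i * x i ^ 2 + b i * x i) + c
    · left; exact h0
    · right
      simp only [Set.mem_setOf_eq] at hx ⊢
      rw [abs_of_neg (not_le.1 h0)]
      linarith
  have hfin : 3 * ((A.card + 1) * h) / √W ≤ (1 / 2) ^ Q / 8 := by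
    have e1 : 3 * ((A.card + 1) * h) / √W = 6 * (A.card + 1) * K * δ := by
      rw [hh, hw]; field_simp; ring
    rw [e1]
    exact dens_small a Q A.card hQ hA
  have hKQ : (1 / 2 : ℝ) ^ K ≤ (1 / 2) ^ Q / 8 := by
    calc (1 / 2 : ℝ) ^ K ≤ (1 / 2) ^ (Q + 3) := by
          apply half_pow_anti; rw [hK]; nlinarith
      _ = _ := by rw [pow_add]; norm_num; ring
  have hls := layer_small a Q A.card hQ hA
  have hQpos : (0 : ℝ) < (1 / 2) ^ Q := by positivity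
  calc μ.real {x | 0 ≤ ∑ i, (lam i * x i ^ 2 + b i * x i) + c} ≤ _ := hm
    _ ≤ ((gam ι).real {x | 0 ≤ ∑ i, (lam i * x i ^ 2 + b i * x i) + c} +
      (gam ι).real {x | |∑ i, (lam i * x i ^ 2 + b i * x i) + c| ≤
      ∑ i ∈ A, (2 * δ * |2 * lam i * x i + b i| + 4 * δ ^ 2 * |lam i|) + h}) + (1 / 2) ^ K := by
        gcongr
        exact (measureReal_mono hsub (measure_ne_top _ _)).trans (measureReal_union_le _ _)
    _ ≤ _ := by linarith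

end Pool.Agent.KWI
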