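import Pool.Agent.Lib.MP_68391b_lc.CoreC

/-! The negligible tail case. -/

namespace Pool.Agent.KWI

open MeasureTheory ProbabilityTheory

variable {ι : Type} [Fintype ι] [DecidableEq ι]

/-- `(J+1)(1+2K) 2^(-aQ) ≤ 2^(-(6Q+24))` for `a = 8 a'`, `a' ≥ 8`. -/
theorem small_h (a' Q n : ℕ) (ha : 8 ≤ a') (hQ : 1 ≤ Q) (hn : n ≤ 5 * (8 * a' + 2) * Q) :
    ((n : ℝ) + 1) * ((1 / 2) ^ (8 * a' * Q) +
      2 * (1 / 2) ^ (8 * a' * Q) * ((10 * (8 * a') * Q : ℕ) : ℝ)) ≤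
      ((1 / 2) ^ (2 * Q + 8)) ^ 3 := by
  have hQ1 : (1 : ℝ) ≤ Q := by exact_mod_cast hQ
  have ha1 : (8 : ℝ) ≤ a' := by exact_mod_cast ha
  have h1 : (n : ℝ) + 1 ≤ 50 * a' * Q := by
    have : (n : ℝ) ≤ 5 * (8 * a' + 2) * Q := by exact_mod_cast hn
    nlinarith
  have h2 : 1 + 2 * ((10 * (8 * a') * Q : ℕ) : ℝ) ≤ 200 * a' * Q := by
    push_cast; nlinarith
  have h3 : ((n : ℝ) + 1) * (1 + 2 * ((10 * (8 * a') * Q : ℕ) : ℝ)) ≤
      (50 * a' * Q) * (200 * a' * Q) := mul_le_mul h1 h2 (by positivity) (by positivity)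
  have h4 : (a' : ℝ) ≤ 2 ^ a' := nat_le_two_pow a'
  have h5 : (Q : ℝ) ≤ 2 ^ Q := nat_le_two_pow Q
  have h6 : (50 * (a' : ℝ) * Q) * (200 * a' * Q) ≤ 2 ^ 14 * (2 ^ a') ^ 2 * (2 ^ Q) ^ 2 := by
    have e : (50 * (a' : ℝ) * Q) * (200 * a' * Q) = 10000 * (a' : ℝ) ^ 2 * (Q : ℝ) ^ 2 := by ring
    rw [e]
    have : (10000 : ℝ) ≤ 2 ^ 14 := by norm_num
    gcongr
  have h7 : (2 : ℝ) ^ 14 * (2 ^ a') ^ 2 * (2 ^ Q) ^ 2 = 2 ^ (14 + 2 * a' + 2 * Q) := by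
    rw [← pow_mul, ← pow_mul, ← pow_add, ← pow_add]; congr 1; ring
  have h8 : (14 + 2 * a' + 2 * Q) + (6 * Q + 24) ≤ 8 * a' * Q := by nlinarith
  calc ((n : ℝ) + 1) * ((1 / 2) ^ (8 * a' * Q) +
      2 * (1 / 2) ^ (8 * a' * Q) * ((10 * (8 * a') * Q : ℕ) : ℝ))
      = (((n : ℝ) + 1) * (1 + 2 * ((10 * (8 * a') * Q : ℕ) : ℝ))) * (1 / 2) ^ (8 * a' * Q) := by
        ring
    _ ≤ 2 ^ (14 + 2 * a' + 2 * Q) * (1 / 2) ^ (8 * a' * Q) := by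
        apply mul_le_mul_of_nonneg_right _ (by positivity)
        exact h3.trans (h6.trans_eq h7)
    _ ≤ 2 ^ (14 + 2 * a' + 2 * Q) * (1 / 2) ^ ((14 + 2 * a' + 2 * Q) + (6 * Q + 24)) := by
        gcongr ?_ * ?_
        exact half_pow_anti h8
    _ = ((1 / 2) ^ (2 * Q + 8)) ^ 3 := by
        have e : ∀ m n : ℕ, (2 : ℝ) ^ m * (1 / 2) ^ (m + n) = (1 / 2) ^ n := by
          intro m n
          rw [pow_add, ← mul_assoc, ← mul_pow]; norm_num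
        rw [e, ← pow_mul]
        congr 1; ring

theorem K_large (a' Q : ℕ) (ha : 8 ≤ a') (hQ : 1 ≤ Q) : Q + 3 ≤ 10 * (8 * a') * Q := by
  have : 8 * Q ≤ a' * Q := Nat.mul_le_mul_right _ ha
  nlinarith

theorem near_small (C₂ : ℝ) (hC₂ : 0 < C₂) (K₀ : ℕ) (hmain : MainProp C₂ K₀) (a' Q N : ℕ)
    (ha : 8 ≤ a') (haK : K₀ ≤ a') (hQ : 1 ≤ Q)
    (hN : (C₂ * (3 * (10 * ((8 * a' : ℕ) : ℝ)) ^ 5 *
      (3840 * (((8 * a' : ℕ) : ℝ) + 2) ^ 2) ^ 2) + 1) * (4 ^ Q * (Q : ℝ) ^ 9) ≤ N)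
    (μ : Measure (ι → ℝ)) [IsProbabilityMeasure μ] (hμ : MM N μ) (hN4 : 4 ≤ N)
    (lam b : ι → ℝ) (c : ℝ)
    (hV : ∑ i, (lam i ^ 2 + b i ^ 2) = 1) (hnear : |c + ∑ i, lam i| < 2 ^ Q)
    (A : Finset ι) (hA : A.card ≤ 5 * (8 * a' + 2) * Q)
    (hbig : ∃ i ∈ A, 1 ≤ 4 * (lam i ^ 2 + b i ^ 2))
    (hsmall : ∑ j ∈ Aᶜ, (lam j ^ 2 + b j ^ 2) ≤ (3 / 4 : ℝ) ^ (5 * (8 * a' + 2) * Q)) :
    μ.real {x | 0 ≤ ∑ i, (lam i * x i ^ 2 + b i * x i) + c} ≤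
      (gam ι).real {x | 0 ≤ ∑ i, (lam i * x i ^ 2 + b i * x i) + c} + (1 / 2) ^ Q := by
  obtain ⟨j, hjA, hj⟩ := hbig
  have hQ1 : (1 : ℝ) ≤ Q := by exact_mod_cast hQ
  have hd := del_pos (8 * a') Q hQ
  have hd1 := del_le_one (8 * a') Q hQ
  set K : ℕ := 10 * (8 * a') * Q with hK
  set δ : ℝ := del (8 * a') Q with hδ
  set ρ : ℝ := (1 / 2) ^ (8 * a' * Q) with hρ
  have hρpos : 0 < ρ := by positivity
  have hρ1 : ρ ≤ 1 := pow_le_one₀ (by norm_num) (by norm_num)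
  set c₂ : ℝ := c + ∑ i ∈ Aᶜ, lam i with hc₂
  set l0 : ι → ℝ := fun i => if i ∈ A then lam i else 0 with hl0
  set b0 : ι → ℝ := fun i => if i ∈ A then b i else 0 with hb0
  set s : (ι → ℝ) → ℝ := fun x => ∑ i ∈ Aᶜ, (lam i * (x i ^ 2 - 1) + b i * x i) with hs
  set P0 : (ι → ℝ) → ℝ := fun x => ∑ i, (l0 i * x i ^ 2 + b0 i * x i) + c₂ with hP0
  have hl0A : ∀ i ∈ A, l0 i = lam i := fun i hi => by simp [hl0, hi]
  have hb0A : ∀ i ∈ A, b0 i = b i := fun i hi => by simp [hb0, hi]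
  have hl0C : ∀ i ∈ Aᶜ, l0 i = 0 := fun i hi => by
    simp only [hl0]; rw [if_neg (Finset.mem_compl.1 hi)]
  have hb0C : ∀ i ∈ Aᶜ, b0 i = 0 := fun i hi => by
    simp only [hb0]; rw [if_neg (Finset.mem_compl.1 hi)]
  have hsumA : ∀ x : ι → ℝ, ∑ i ∈ A, (l0 i * x i ^ 2 + b0 i * x i) =
      ∑ i ∈ A, (lam i * x i ^ 2 + b i * x i) := fun x =>
    Finset.sum_congr rfl fun i hi => by rw [hl0A i hi, hb0A i hi]
  have hsumC : ∀ x : ι → ℝ, ∑ i ∈ Aᶜ, (l0 i * (x i ^ 2 - 1) + b0 i * x i) = 0 := fun x =>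
    Finset.sum_eq_zero fun i hi => by rw [hl0C i hi, hb0C i hi]; ring
  have hP0A : ∀ x : ι → ℝ, P0 x = ∑ i ∈ A, (lam i * x i ^ 2 + b i * x i) + c₂ := fun x => by
    simp only [hP0]
    rw [← Finset.sum_add_sum_compl A, hsumA x]
    have : ∑ i ∈ Aᶜ, (l0 i * x i ^ 2 + b0 i * x i) = 0 :=
      Finset.sum_eq_zero fun i hi => by rw [hl0C i hi, hb0C i hi]; ring
    rw [this]; ring
  have hP : ∀ x : ι → ℝ, ∑ i, (lam i * x i ^ 2 + b i * x i) + c = P0 x + s x := fun x => by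
    rw [sum_split_center A lam b c x, hP0A x]; ring
  -- tail bound
  have hdt : 2 * (∑ i ∈ Aᶜ, (lam i ^ 2 + b i ^ 2)) / ρ ^ 2 ≤ (1 / 2) ^ Q / 4 := by
    have h1 : ∑ i ∈ Aᶜ, (lam i ^ 2 + b i ^ 2) ≤ (1 / 2) ^ (2 * ((8 * a' + 2) * Q)) := by
      refine hsmall.trans ?_
      have := three_quarter_pow_le ((8 * a' + 2) * Q)
      rwa [← mul_assoc] at this
    rw [div_le_iff₀ (by positivity)]
    calc 2 * (∑ i ∈ Aᶜ, (lam i ^ 2 + b i ^ 2)) ≤ 2 * (1 / 2) ^ (2 * ((8 * a' + 2) * Q)) := by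
          gcongr
      _ = 2 * ((1 / 2) ^ (4 * Q) * ρ ^ 2) := by
          rw [hρ, ← pow_mul, ← pow_add]; congr 2; ring
      _ ≤ (1 / 2) ^ Q / 4 * ρ ^ 2 := by
          rw [← mul_assoc]
          apply mul_le_mul_of_nonneg_right _ (by positivity)
          calc 2 * ((1 : ℝ) / 2) ^ (4 * Q) ≤ 2 * (1 / 2) ^ (Q + 3) := by
                have := half_pow_anti (show Q + 3 ≤ 4 * Q by omega)
                linarith
            _ = (1 / 2) ^ Q / 4 := by rw [pow_add]; norm_num; ring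
  have htμ : μ.real {x | ρ ≤ |s x|} ≤ (1 / 2) ^ Q / 4 :=
    (tail_quad μ hμ hN4 Aᶜ lam b ρ hρpos).trans hdt
  have htγ : (gam ι).real {x | ρ ≤ |s x|} ≤ (1 / 2) ^ Q / 4 :=
    (tail_quad (gam ι) (MM_gam 4 ι) le_rfl Aᶜ lam b ρ hρpos).trans hdt
  -- application of the main lemma
  have hAK : A.card ≤ K := by
    refine hA.trans ?_
    rw [hK]; nlinarith
  have hc := const_bound (8 * a') Q (by omega) hQ A hA lam b c hV hnear
  have hNN := params_N C₂ hC₂ (8 * a') Q N (by omega) hQ hN 0 (by positivity)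
  have hKK : K₀ ≤ K := by rw [hK]; nlinarith
  have hl1 : ∀ i, |l0 i| ≤ 1 := fun i => by
    by_cases hi : i ∈ A
    · rw [hl0A i hi]; exact (abs_le_one_of_sum hV i).1
    · rw [hl0C i (Finset.mem_compl.2 hi)]; simp
  have hb1 : ∀ i, |b0 i| ≤ 1 := fun i => by
    by_cases hi : i ∈ A
    · rw [hb0A i hi]; exact (abs_le_one_of_sum hV i).2
    · rw [hb0C i (Finset.mem_compl.2 hi)]; simp
  have hρK : (1 / 2 : ℝ) ^ K ≤ ρ := by
    rw [hρ]; apply half_pow_anti; rw [hK]; nlinarith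
  have hcc : |c₂ + ρ| ≤ 2 ^ K := by
    calc |c₂ + ρ| ≤ |c₂| + |ρ| := abs_add_le _ _
      _ ≤ |c₂| + 1 := by rw [abs_of_pos hρpos]; linarith
      _ ≤ _ := hc
  have hW0 : ∑ i ∈ Aᶜ, (l0 i ^ 2 + b0 i ^ 2) ≤ 0 := by
    apply le_of_eq
    exact Finset.sum_eq_zero fun i hi => by rw [hl0C i hi, hb0C i hi]; ring
  have hm := hmain K hKK ι μ N hμ A hAK l0 b0 hl1 hb1 (c₂ + ρ) hcc δ ρ
    (del_ge_K (8 * a') Q (by omega) hQ) hd1 hρK hρ1 0 hW0 zero_le_one (by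
      rw [zero_div]; exact hNN)
  simp_rw [hsumA, hsumC] at hm
  set h : ℝ := ρ + 2 * ρ * K with hh
  have hhpos : 0 < h := by positivity
  have hl := layer l0 b0 c₂ A δ h hd.le hhpos
  -- anticoncentration along the coordinate j
  have hanti : (gam ι).real {x | |P0 x| ≤ (A.card + 1) * h} ≤ 20 * (1 / 2) ^ (2 * Q + 8) := by
    set G : (ι → ℝ) → ℝ := fun x => ∑ i ∈ Finset.univ.erase j, (l0 i * x i ^ 2 + b0 i * x i) + c₂
      with hG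
    have hPG : ∀ x, P0 x = l0 j * x j ^ 2 + b0 j * x j + G x := by
      intro x
      simp only [hP0, hG]
      rw [← Finset.add_sum_erase Finset.univ _ (Finset.mem_univ j)]
      ring
    have h1 := anti_abs j (l0 j) (b0 j) ((1 / 2) ^ (2 * Q + 8)) (by
      rw [hl0A j hjA, hb0A j hjA]; linarith) (by positivity) G (by simp only [hG]; fun_prop) (by
        intro x y hxy
        simp only [hG]
        congr 1
        apply Finset.sum_congr rfl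
        intro i hi
        rw [hxy i (Finset.ne_of_mem_erase hi)])
    refine le_trans (measureReal_mono ?_ (measure_ne_top _ _)) h1
    intro x hx
    have hxx : |l0 j * x j ^ 2 + b0 j * x j + G x| ≤ (A.card + 1) * h := by
      rw [← hPG x]; exact hx
    exact hxx.trans (small_h a' Q A.card ha hQ hA)
  -- inclusions
  have hsub1 : {x : ι → ℝ | 0 ≤ ∑ i, (lam i * x i ^ 2 + b i * x i) + c} ⊆
      {x | 0 ≤ ∑ i ∈ A, (lam i * x i ^ 2 + b i * x i) + 0 + (c₂ + ρ)} ∪ {x | ρ ≤ |s x|} := by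
    intro x hx
    by_cases h0 : ρ ≤ |s x|
    · right; exact h0
    · left
      have hx' : 0 ≤ P0 x + s x := by rw [← hP x]; exact hx
      have h1 := abs_lt.1 (not_le.1 h0)
      show 0 ≤ ∑ i ∈ A, (lam i * x i ^ 2 + b i * x i) + 0 + (c₂ + ρ)
      have h2 := hP0A x
      linarith [h1.2]
  have hsub2 : {x : ι → ℝ | 0 ≤ ∑ i ∈ A, (lam i * x i ^ 2 + b i * x i) + 0 + (c₂ + ρ) +
        ∑ i ∈ A, (2 * δ * |2 * l0 i * x i + b0 i| + 4 * δ ^ 2 * |l0 i|) + 2 * ρ * K} ⊆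
      ({x | 0 ≤ ∑ i, (lam i * x i ^ 2 + b i * x i) + c} ∪ {x | ρ ≤ |s x|}) ∪
      {x | |P0 x| ≤ ∑ i ∈ A, (2 * δ * |2 * l0 i * x i + b0 i| + 4 * δ ^ 2 * |l0 i|) + h} := by
    intro x hx
    have hx' : 0 ≤ ∑ i ∈ A, (lam i * x i ^ 2 + b i * x i) + 0 + (c₂ + ρ) +
        ∑ i ∈ A, (2 * δ * |2 * l0 i * x i + b0 i| + 4 * δ ^ 2 * |l0 i|) + 2 * ρ * K := hx
    have hPA := hP0A x
    have hgn : 0 ≤ ∑ i ∈ A, (2 * δ * |2 * l0 i * x i + b0 i| + 4 * δ ^ 2 * |l0 i|) :=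
      Finset.sum_nonneg fun i _ => by positivity
    by_cases h0 : ρ ≤ |s x|
    · left; right; exact h0
    · have h1 := abs_lt.1 (not_le.1 h0)
      by_cases h2 : ρ ≤ P0 x
      · left; left
        show 0 ≤ ∑ i, (lam i * x i ^ 2 + b i * x i) + c
        rw [hP x]; linarith [h1.1]
      · right
        show |P0 x| ≤ _
        have h3 : 0 ≤ 2 * ρ * K := by positivity
        rw [abs_le]
        constructor
        · rw [hh]; linarith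
        · rw [hh]; linarith [not_le.1 h2]
  have hls := layer_small (8 * a') Q A.card hQ hA
  have hQpos : (0 : ℝ) < (1 / 2) ^ Q := by positivity
  have hKQ : (1 / 2 : ℝ) ^ K ≤ (1 / 2) ^ Q / 8 := by
    have e1 : (1 / 2 : ℝ) ^ K ≤ (1 / 2) ^ (Q + 3) := half_pow_anti (K_large a' Q ha hQ)
    have e2 : (1 / 2 : ℝ) ^ (Q + 3) = (1 / 2) ^ Q / 8 := by rw [pow_add]; norm_num; ring
    exact e1.trans_eq e2
  have hs8 : 20 * ((1 : ℝ) / 2) ^ (2 * Q + 8) ≤ (1 / 2) ^ Q / 8 := by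
    calc 20 * ((1 : ℝ) / 2) ^ (2 * Q + 8) ≤ 20 * (1 / 2) ^ (Q + 8) := by
          have := half_pow_anti (show Q + 8 ≤ 2 * Q + 8 by omega)
          linarith
      _ = (20 / 256) * (1 / 2) ^ Q := by rw [pow_add]; norm_num; ring
      _ ≤ _ := by linarith
  calc μ.real {x | 0 ≤ ∑ i, (lam i * x i ^ 2 + b i * x i) + c}
      ≤ μ.real {x | 0 ≤ ∑ i ∈ A, (lam i * x i ^ 2 + b i * x i) + 0 + (c₂ + ρ)} +
        μ.real {x | ρ ≤ |s x|} :=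
        (measureReal_mono hsub1 (measure_ne_top _ _)).trans (measureReal_union_le _ _)
    _ ≤ ((gam ι).real {x : ι → ℝ | 0 ≤ ∑ i ∈ A, (lam i * x i ^ 2 + b i * x i) + 0 + (c₂ + ρ) +
        ∑ i ∈ A, (2 * δ * |2 * l0 i * x i + b0 i| + 4 * δ ^ 2 * |l0 i|) + 2 * ρ * K} +
        (1 / 2) ^ K) + (1 / 2) ^ Q / 4 := by
        gcongr
    _ ≤ (((gam ι).real {x | 0 ≤ ∑ i, (lam i * x i ^ 2 + b i * x i) + c} +
        (gam ι).real {x | ρ ≤ |s x|} +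
        (gam ι).real {x | |P0 x| ≤
          ∑ i ∈ A, (2 * δ * |2 * l0 i * x i + b0 i| + 4 * δ ^ 2 * |l0 i|) + h}) +
        (1 / 2) ^ K) + (1 / 2) ^ Q / 4 := by
        gcongr
        refine (measureReal_mono hsub2 (measure_ne_top _ _)).trans ?_
        refine (measureReal_union_le _ _).trans ?_
        gcongr
        exact measureReal_union_le _ _
    _ ≤ _ := by linarith

end Pool.Agent.KWI
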