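import Mathlib

/-!
Bounded independence and quadratic threshold functions: basic definitions.
-/

namespace Pool.Agent.KWI

open MeasureTheory ProbabilityTheory

/-- The standard Gaussian measure on `ι → ℝ`. -/
noncomputable def gam (ι : Type) [Fintype ι] : Measure (ι → ℝ) :=
  Measure.pi (fun _ : ι => gaussianReal 0 1)

instance (ι : Type) [Fintype ι] : IsProbabilityMeasure (gam ι) := by
  unfold gam; infer_instance

/-- `X` is a `k`-wise independent Gaussian vector: every coordinate is standard Gaussian and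
any at most `k` coordinates are mutually independent. -/
structure KWiseGaussian {Ω : Type} [MeasurableSpace Ω] (P : Measure Ω) (k n : ℕ)
    (X : Fin n → Ω → ℝ) : Prop where
  law : ∀ i, HasLaw (X i) (gaussianReal 0 1) P
  indep : ∀ s : Finset (Fin n), s.card ≤ k → iIndepFun (fun i : s => X i) P

/-- `μ` has the same moments up to degree `N` as the standard Gaussian measure. -/
def MM (N : ℕ) {ι : Type} [Fintype ι] (μ : Measure (ι → ℝ)) : Prop :=
  ∀ q : MvPolynomial ι ℝ, q.totalDegree ≤ N →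
    Integrable (fun x => MvPolynomial.eval x q) μ ∧
      ∫ x, MvPolynomial.eval x q ∂μ = ∫ x, MvPolynomial.eval x q ∂(gam ι)

/-- Complex valued polynomial functions of degree at most `N` of a real vector. -/
def PolyC (N : ℕ) {ι : Type} (F : (ι → ℝ) → ℂ) : Prop :=
  ∃ q : MvPolynomial ι ℂ, q.totalDegree ≤ N ∧
    ∀ x, F x = MvPolynomial.eval (fun i => ((x i : ℝ) : ℂ)) q

/-- Finite exponential sums of one variable with coefficients of `ℓ¹` norm at most `C` and
frequencies at most `R`. -/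
def ES (C R : ℝ) (f : ℝ → ℂ) : Prop :=
  ∃ (κ : Type) (_ : Fintype κ) (c : κ → ℂ) (w : κ → ℝ),
    (∑ l, ‖c l‖) ≤ C ∧ (∀ l, |w l| ≤ R) ∧
      ∀ x, f x = ∑ l, c l * Complex.exp (Complex.I * ((w l * x : ℝ) : ℂ))

/-- Finite exponential sums of several variables with coefficients of `ℓ¹` norm at most `C` and
frequency in direction `i` at most `R i`. -/
def MES (C : ℝ) {ι : Type} [Fintype ι] (R : ι → ℝ) (H : (ι → ℝ) → ℂ) : Prop :=
  ∃ (κ : Type) (_ : Fintype κ) (c : κ → ℂ) (w : κ → ι → ℝ),
    (∑ l, ‖c l‖) ≤ C ∧ (∀ l i, |w l i| ≤ R i) ∧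
      ∀ x, H x = ∑ l, c l * Complex.exp (Complex.I * ((∑ i, w l i * x i : ℝ) : ℂ))

/-- The Taylor polynomial `∑_{k < M} (i y)^k / k!`. -/
noncomputable def tay (M : ℕ) (y : ℝ) : ℂ :=
  ∑ k ∈ Finset.range M, (Complex.I * (y : ℂ)) ^ k / (k.factorial : ℂ)

end Pool.Agent.KWI
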