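import Pool.Agent.Lib.MP_68391b_lc.Poly

/-! Finite exponential sums. -/

namespace Pool.Agent.KWI

open MeasureTheory ProbabilityTheory

theorem ES.mono {C C' R R' : ℝ} {f : ℝ → ℂ} (h : ES C R f) (hC : C ≤ C') (hR : R ≤ R') :
    ES C' R' f := by
  obtain ⟨κ, hκ, c, w, h1, h2, h3⟩ := h
  exact ⟨κ, hκ, c, w, h1.trans hC, fun l => (h2 l).trans hR, h3⟩

theorem expsum_norm_exp (y : ℝ) : ‖Complex.exp (Complex.I * (y : ℂ))‖ = 1 := by
  rw [mul_comm, Complex.norm_exp_ofReal_mul_I]

theorem ES.nonneg {C R : ℝ} {f : ℝ → ℂ} (h : ES C R f) : 0 ≤ C := by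
  obtain ⟨κ, hκ, c, w, h1, h2, h3⟩ := h
  exact (Finset.sum_nonneg fun _ _ => norm_nonneg _).trans h1

theorem ES.norm_le {C R : ℝ} {f : ℝ → ℂ} (h : ES C R f) (x : ℝ) : ‖f x‖ ≤ C := by
  obtain ⟨κ, hκ, c, w, h1, h2, h3⟩ := h
  rw [h3]
  refine (norm_sum_le _ _).trans (le_trans (Finset.sum_le_sum fun l _ => ?_) h1)
  rw [norm_mul, expsum_norm_exp, mul_one]

theorem ES.measurable {C R : ℝ} {f : ℝ → ℂ} (h : ES C R f) : Measurable f := by
  obtain ⟨κ, hκ, c, w, h1, h2, h3⟩ := h
  have : f = fun x => ∑ l, c l * Complex.exp (Complex.I * ((w l * x : ℝ) : ℂ)) := funext h3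
  rw [this]
  fun_prop

theorem ES.const (c : ℂ) : ES ‖c‖ 0 (fun _ => c) := by
  refine ⟨Unit, inferInstance, fun _ => c, fun _ => 0, by simp, by simp, by simp⟩

theorem ES.add {C C' R : ℝ} {f g : ℝ → ℂ} (hf : ES C R f) (hg : ES C' R g) :
    ES (C + C') R (fun x => f x + g x) := by
  obtain ⟨κ, hκ, c, w, h1, h2, h3⟩ := hf
  obtain ⟨κ', hκ', c', w', h1', h2', h3'⟩ := hg
  refine ⟨κ ⊕ κ', inferInstance, Sum.elim c c', Sum.elim w w', ?_, ?_, ?_⟩
  · simp only [Fintype.sum_sum_type, Sum.elim_inl, Sum.elim_inr]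
    exact add_le_add h1 h1'
  · rintro (l | l)
    · exact h2 l
    · exact h2' l
  · intro x
    simp only [Fintype.sum_sum_type, Sum.elim_inl, Sum.elim_inr]
    rw [h3, h3']

theorem ES.smul {C R : ℝ} {f : ℝ → ℂ} (c : ℂ) (hf : ES C R f) :
    ES (‖c‖ * C) R (fun x => c * f x) := by
  obtain ⟨κ, hκ, d, w, h1, h2, h3⟩ := hf
  refine ⟨κ, hκ, fun l => c * d l, w, ?_, h2, fun x => ?_⟩
  · simp only [norm_mul, ← Finset.mul_sum]
    exact mul_le_mul_of_nonneg_left h1 (norm_nonneg _)
  · simp only
    rw [h3, Finset.mul_sum]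
    exact Finset.sum_congr rfl fun l _ => by ring

theorem ES.mul {C C' R R' : ℝ} {f g : ℝ → ℂ} (hf : ES C R f) (hg : ES C' R' g) :
    ES (C * C') (R + R') (fun x => f x * g x) := by
  have hC := hf.nonneg
  obtain ⟨κ, hκ, c, w, h1, h2, h3⟩ := hf
  obtain ⟨κ', hκ', c', w', h1', h2', h3'⟩ := hg
  refine ⟨κ × κ', inferInstance, fun l => c l.1 * c' l.2, fun l => w l.1 + w' l.2, ?_, ?_, ?_⟩
  · rw [Fintype.sum_prod_type]
    simp only [norm_mul, ← Finset.mul_sum, ← Finset.sum_mul]
    exact mul_le_mul h1 h1' (Finset.sum_nonneg fun _ _ => norm_nonneg _) hC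
  · rintro ⟨l, l'⟩
    exact (abs_add_le _ _).trans (add_le_add (h2 l) (h2' l'))
  · intro x
    simp only
    rw [h3, h3', Fintype.sum_prod_type, Finset.sum_mul]
    refine Finset.sum_congr rfl fun l _ => ?_
    rw [Finset.mul_sum]
    refine Finset.sum_congr rfl fun l' _ => ?_
    simp only
    rw [mul_mul_mul_comm, ← Complex.exp_add]
    congr 2
    push_cast
    ring

theorem ES.pow {C R : ℝ} {f : ℝ → ℂ} (hf : ES C R f) (k : ℕ) :
    ES (C ^ k) (k * R) (fun x => f x ^ k) := by
  induction k with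
  | zero =>
    have := ES.const 1
    simpa using this
  | succ k ih =>
    have := ih.mul hf
    simp only [pow_succ]
    refine this.mono le_rfl (le_of_eq ?_)
    push_cast
    ring

theorem ES.sum {κ : Type} (s : Finset κ) {C : κ → ℝ} {R : ℝ} {f : κ → ℝ → ℂ} (hR : 0 ≤ R)
    (hf : ∀ l ∈ s, ES (C l) R (f l)) : ES (∑ l ∈ s, C l) R (fun x => ∑ l ∈ s, f l x) := by
  classical
  induction s using Finset.induction_on with
  | empty =>
    have := (ES.const 0).mono le_rfl hR
    simpa using this
  | insert a s ha ih =>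
    simp only [Finset.sum_insert ha]
    exact (hf a (Finset.mem_insert_self _ _)).add
      (ih fun l hl => hf l (Finset.mem_insert_of_mem hl))

theorem ES_sin (L : ℝ) (hL : 0 < L) :
    ES 1 (1 / L) (fun x => ((Real.sin (x / L) : ℝ) : ℂ)) := by
  refine ⟨Bool, inferInstance, fun b => if b then -Complex.I / 2 else Complex.I / 2,
    fun b => if b then 1 / L else -(1 / L), ?_, ?_, ?_⟩
  · simp
    norm_num
  · rintro (_ | _)
    · simp only [Bool.false_eq_true, if_false, abs_neg, abs_of_pos (one_div_pos.2 hL), le_refl]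
    · simp only [if_true, abs_of_pos (one_div_pos.2 hL), le_refl]
  · intro x
    simp only [Fintype.sum_bool, if_true, Bool.false_eq_true, if_false]
    rw [Complex.ofReal_sin, Complex.sin]
    have e1 : Complex.I * ((1 / L * x : ℝ) : ℂ) = ((x / L : ℝ) : ℂ) * Complex.I := by
      push_cast; ring
    have e2 : Complex.I * ((-(1 / L) * x : ℝ) : ℂ) = -((x / L : ℝ) : ℂ) * Complex.I := by
      push_cast; ring
    rw [e1, e2]
    ring

/-- Translation in the index set: an exponential sum is a combination of exponentials, so it is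
stable under multiplication by a constant phase and under change of the index type. -/
theorem MES.prod {ι : Type} [Fintype ι] [DecidableEq ι] (s : Finset ι) (C R : ι → ℝ)
    (hR : ∀ i ∈ s, 0 ≤ R i) (f : ι → ℝ → ℂ) (h : ∀ i ∈ s, ES (C i) (R i) (f i)) :
    MES (∏ i ∈ s, C i) (fun i => if i ∈ s then R i else 0)
      (fun x => ∏ i ∈ s, f i (x i)) := by
  induction s using Finset.induction_on with
  | empty =>
    refine ⟨Unit, inferInstance, fun _ => 1, fun _ _ => 0, by simp, by simp, by simp⟩
  | insert a s ha ih =>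
    obtain ⟨κ, hκ, c, w, h1, h2, h3⟩ := ih (fun i hi => hR i (Finset.mem_insert_of_mem hi))
      (fun i hi => h i (Finset.mem_insert_of_mem hi))
    have hES := h a (Finset.mem_insert_self _ _)
    have hC := hES.nonneg
    obtain ⟨κ', hκ', c', w', h1', h2', h3'⟩ := hES
    refine ⟨κ' × κ, inferInstance, fun l => c' l.1 * c l.2,
      fun l i => if i = a then w' l.1 else w l.2 i, ?_, ?_, ?_⟩
    · rw [Finset.prod_insert ha, Fintype.sum_prod_type]
      simp only [norm_mul, ← Finset.mul_sum, ← Finset.sum_mul]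
      exact mul_le_mul h1' h1 (Finset.sum_nonneg fun _ _ => norm_nonneg _) hC
    · rintro ⟨l', l⟩ i
      by_cases hi : i = a
      · subst hi
        simp only [if_true, Finset.mem_insert_self]
        exact h2' l'
      · simp only [hi, if_false, Finset.mem_insert, false_or]
        exact h2 l i
    · intro x
      have h3x := h3 x
      simp only at h3x ⊢
      rw [Finset.prod_insert ha, h3x, h3', Fintype.sum_prod_type, Finset.sum_mul]
      refine Finset.sum_congr rfl fun l' _ => ?_
      rw [Finset.mul_sum]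
      refine Finset.sum_congr rfl fun l _ => ?_
      simp only
      rw [mul_mul_mul_comm, ← Complex.exp_add]
      congr 2
      rw [← mul_add]
      congr 1
      norm_cast
      have hwa : w l a = 0 := by
        have := h2 l a
        simp only [ha, if_false] at this
        exact abs_nonpos_iff.1 this
      rw [← Finset.add_sum_erase _ _ (Finset.mem_univ a), ← Finset.add_sum_erase Finset.univ
        (fun i => (if i = a then w' l' else w l i) * x i) (Finset.mem_univ a)]
      simp only [hwa, zero_mul, zero_add, if_true]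
      congr 1
      refine Finset.sum_congr rfl fun i hi => ?_
      rw [if_neg (Finset.ne_of_mem_erase hi)]

theorem MES.measurable {ι : Type} [Fintype ι] {C : ℝ} {R : ι → ℝ} {H : (ι → ℝ) → ℂ}
    (h : MES C R H) : Measurable H := by
  obtain ⟨κ, hκ, c, w, h1, h2, h3⟩ := h
  have : H = fun x => ∑ l, c l * Complex.exp (Complex.I * ((∑ i, w l i * x i : ℝ) : ℂ)) :=
    funext h3
  rw [this]
  fun_prop

theorem expsum_hasDeriv (M : ℕ) (y : ℝ) :
    HasDerivAt (fun y : ℝ => Complex.exp (Complex.I * (y : ℂ)) - tay (M + 1) y)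
      (Complex.I * (Complex.exp (Complex.I * (y : ℂ)) - tay M y)) y := by
  have hid : HasDerivAt (fun y : ℝ => Complex.I * (y : ℂ)) Complex.I y := by
    simpa using (Complex.ofRealCLM.hasDerivAt (x := y)).const_mul Complex.I
  have h1 := hid.cexp
  have h2 : HasDerivAt (fun y : ℝ => tay (M + 1) y) (Complex.I * tay M y) y := by
    unfold tay
    have h3 : ∀ k ∈ Finset.range (M + 1), HasDerivAt
        (fun y : ℝ => (Complex.I * (y : ℂ)) ^ k / (k.factorial : ℂ))
        ((k : ℂ) * (Complex.I * (y : ℂ)) ^ (k - 1) * Complex.I / (k.factorial : ℂ)) y :=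
      fun k _ => (hid.pow k).div_const _
    have h4 := HasDerivAt.fun_sum h3
    refine h4.congr_deriv ?_
    rw [Finset.sum_range_succ', Finset.mul_sum]
    simp only [Nat.cast_zero, zero_mul, zero_div, add_zero]
    refine Finset.sum_congr rfl fun k _ => ?_
    rw [Nat.factorial_succ]
    have : ((k + 1 : ℕ) : ℂ) ≠ 0 := by exact_mod_cast Nat.succ_ne_zero k
    have hf : (k.factorial : ℂ) ≠ 0 := by exact_mod_cast Nat.factorial_ne_zero k
    push_cast at this ⊢
    field_simp
  refine (h1.sub h2).congr_deriv ?_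
  ring

theorem expsum_tay_nonneg (M : ℕ) (y : ℝ) (hy : 0 ≤ y) :
    ‖Complex.exp (Complex.I * (y : ℂ)) - tay M y‖ ≤ y ^ M / (M.factorial : ℝ) := by
  induction M generalizing y with
  | zero => simp [tay]
  | succ M ih =>
    have hB : ∀ x : ℝ, HasDerivAt (fun x : ℝ => x ^ (M + 1) / ((M + 1).factorial : ℝ))
        (x ^ M / (M.factorial : ℝ)) x := by
      intro x
      have := (hasDerivAt_pow (M + 1) x).div_const ((M + 1).factorial : ℝ)
      refine this.congr_deriv ?_
      rw [Nat.factorial_succ]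
      have : ((M + 1 : ℕ) : ℝ) ≠ 0 := by exact_mod_cast Nat.succ_ne_zero M
      have hf : (M.factorial : ℝ) ≠ 0 := by exact_mod_cast Nat.factorial_ne_zero M
      push_cast at this ⊢
      field_simp
    have key := image_norm_le_of_norm_deriv_right_le_deriv_boundary (a := 0) (b := y)
      (f := fun y : ℝ => Complex.exp (Complex.I * (y : ℂ)) - tay (M + 1) y)
      (f' := fun y : ℝ => Complex.I * (Complex.exp (Complex.I * (y : ℂ)) - tay M y))
      (B := fun x : ℝ => x ^ (M + 1) / ((M + 1).factorial : ℝ))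
      (B' := fun x => x ^ M / (M.factorial : ℝ))
      (fun x _ => (expsum_hasDeriv M x).continuousAt.continuousWithinAt)
      (fun x _ => (expsum_hasDeriv M x).hasDerivWithinAt)
      (by simp [tay, Finset.sum_range_succ']) hB
      (fun x hx => by
        rw [norm_mul, Complex.norm_I, one_mul]
        exact ih x hx.1)
    exact key (Set.right_mem_Icc.2 hy)

/-- Taylor remainder for `exp (i y)`. -/
theorem tay_bound (M : ℕ) (y : ℝ) :
    ‖Complex.exp (Complex.I * (y : ℂ)) - tay M y‖ ≤ |y| ^ M / (M.factorial : ℝ) := by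
  rcases le_total 0 y with hy | hy
  · rw [abs_of_nonneg hy]
    exact expsum_tay_nonneg M y hy
  · rw [abs_of_nonpos hy]
    have h := expsum_tay_nonneg M (-y) (by linarith)
    have e : Complex.exp (Complex.I * (y : ℂ)) - tay M y =
        (starRingEnd ℂ) (Complex.exp (Complex.I * ((-y : ℝ) : ℂ)) - tay M (-y)) := by
      rw [map_sub, ← Complex.exp_conj]
      unfold tay
      rw [map_sum]
      congr 1
      · congr 1
        simp
      · refine Finset.sum_congr rfl fun k _ => ?_
        simp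
    rw [e, RCLike.norm_conj]
    exact h

/-- Taylor approximation of a finite exponential sum in several variables. -/
theorem MES.taylor {ι : Type} [Fintype ι] {C : ℝ} {R : ι → ℝ} (hR : ∀ i, 0 ≤ R i)
    {H : (ι → ℝ) → ℂ} (h : MES C R H) (N : ℕ) :
    ∃ T : (ι → ℝ) → ℂ, PolyC N T ∧
      ∀ x, ‖H x - T x‖ ≤ C * (∑ i, R i * |x i|) ^ N / (N.factorial : ℝ) := by
  obtain ⟨κ, hκ, c, w, h1, h2, h3⟩ := h
  refine ⟨fun x => ∑ l, c l * tay N (∑ i, w l i * x i), ?_, ?_⟩
  · refine PolyC.sum _ fun l _ => ?_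
    have hlin : PolyC 1 (fun x : ι → ℝ => ((∑ i, w l i * x i : ℝ) : ℂ)) := by
      have := PolyC.sum (N := 1) (Finset.univ : Finset ι)
        (F := fun i (x : ι → ℝ) => ((w l i : ℝ) : ℂ) * ((x i : ℝ) : ℂ))
        (fun i _ => by
          have := (PolyC.const (ι := ι) ((w l i : ℝ) : ℂ)).mul (PolyC.coord i)
          simpa using this)
      simpa using this
    have htay : PolyC N (fun x : ι → ℝ => tay N (∑ i, w l i * x i)) := by
      unfold tay
      refine PolyC.sum _ fun k hk => ?_
      have h4 := ((PolyC.const (ι := ι) Complex.I).mul hlin).pow k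
      have h5 := h4.mul (PolyC.const (ι := ι) (k.factorial : ℂ)⁻¹)
      have hk' : k ≤ N := (Finset.mem_range.1 hk).le
      refine PolyC.mono (M := N) (N := k * (0 + 1) + 0) ?_ (by omega)
      simpa only [div_eq_mul_inv] using h5
    have := (PolyC.const (ι := ι) (c l)).mul htay
    simpa using this
  · intro x
    have hC : 0 ≤ C := (Finset.sum_nonneg fun _ _ => norm_nonneg _).trans h1
    have hS : 0 ≤ ∑ i, R i * |x i| :=
      Finset.sum_nonneg fun i _ => mul_nonneg (hR i) (abs_nonneg _)
    rw [h3, ← Finset.sum_sub_distrib]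
    calc ‖∑ l, (c l * Complex.exp (Complex.I * ((∑ i, w l i * x i : ℝ) : ℂ)) -
          c l * tay N (∑ i, w l i * x i))‖
        ≤ ∑ l, ‖c l‖ * ((∑ i, R i * |x i|) ^ N / (N.factorial : ℝ)) := by
          refine (norm_sum_le _ _).trans (Finset.sum_le_sum fun l _ => ?_)
          rw [← mul_sub, norm_mul]
          refine mul_le_mul_of_nonneg_left ((tay_bound N _).trans ?_) (norm_nonneg _)
          refine div_le_div_of_nonneg_right (pow_le_pow_left₀ (abs_nonneg _) ?_ _) (by positivity)
          refine (Finset.abs_sum_le_sum_abs _ _).trans (Finset.sum_le_sum fun i _ => ?_)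
          rw [abs_mul]
          exact mul_le_mul_of_nonneg_right (h2 l i) (abs_nonneg _)
      _ = (∑ l, ‖c l‖) * ((∑ i, R i * |x i|) ^ N / (N.factorial : ℝ)) := by
          rw [Finset.sum_mul]
      _ ≤ C * ((∑ i, R i * |x i|) ^ N / (N.factorial : ℝ)) :=
          mul_le_mul_of_nonneg_right h1 (by positivity)
      _ = _ := by ring

end Pool.Agent.KWI
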