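import Pool.Agent.Lib.MP_68391b_lc.Poly

/-! A `k`-wise independent Gaussian vector has Gaussian moments up to degree `k`. -/

namespace Pool.Agent.KWI

open MeasureTheory ProbabilityTheory

private theorem KWISE_int_pow (m : ℕ) : Integrable (fun x : ℝ => x ^ m) (gaussianReal 0 1) := by
  rcases Nat.eq_zero_or_pos m with rfl | hm
  · simp
  have h := memLp_id_gaussianReal (μ := 0) (v := 1) (m : NNReal)
  have h' : MemLp (id : ℝ → ℝ) (m : ENNReal) (gaussianReal 0 1) := by simpa using h
  have h2 := h'.integrable_norm_pow hm.ne'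
  rw [← integrable_norm_iff (by fun_prop)]
  simpa [norm_pow] using h2

private theorem KWISE_gam {ι : Type} [Fintype ι] (d : ι → ℕ) :
    Integrable (fun x : ι → ℝ => ∏ i, x i ^ d i) (gam ι) ∧
      ∫ x, ∏ i, x i ^ d i ∂(gam ι) = ∏ i, ∫ y, y ^ d i ∂(gaussianReal 0 1) := by
  refine ⟨?_, ?_⟩
  · unfold gam
    exact Integrable.fintype_prod (f := fun i (y : ℝ) => y ^ d i) fun i => KWISE_int_pow (d i)
  · unfold gam
    exact integral_fintype_prod_eq_prod (fun i (y : ℝ) => y ^ d i)

private theorem KWISE_mono {Ω : Type} [MeasurableSpace Ω] (P : Measure Ω) [IsProbabilityMeasure P]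
    (k n : ℕ) (X : Fin n → Ω → ℝ) (h : KWiseGaussian P k n X) (d : Fin n →₀ ℕ)
    (hd : d.support.card ≤ k) :
    Integrable (fun x : Fin n → ℝ => ∏ i, x i ^ d i) (P.map (fun ω i => X i ω)) ∧
      ∫ x, ∏ i, x i ^ d i ∂(P.map (fun ω i => X i ω)) = ∫ x, ∏ i, x i ^ d i ∂(gam (Fin n)) := by
  classical
  have hae : ∀ i, AEMeasurable (X i) P := fun i => (h.law i).aemeasurable
  have hXm : AEMeasurable (fun ω i => X i ω) P := aemeasurable_pi_lambda _ hae
  have hlaw : P.map (fun ω (i : d.support) => X i ω) = gam d.support := by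
    have h1 := (iIndepFun_iff_map_fun_eq_pi_map (μ := P) (f := fun i : d.support => X i)
      (fun i => hae i)).mp (h.indep d.support hd)
    rw [h1]
    unfold gam
    congr 1
    funext i
    exact (h.law i).map_eq
  have hprod : ∀ x : Fin n → ℝ, ∏ i, x i ^ d i = ∏ i : d.support, x i ^ d i := by
    intro x
    rw [← Finset.prod_subset (Finset.subset_univ d.support), ← Finset.prod_coe_sort]
    intro i _ hi
    rw [Finsupp.notMem_support_iff.mp hi, pow_zero]
  have hmeas : Measurable fun x : Fin n → ℝ => ∏ i, x i ^ d i :=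
    Finset.measurable_fun_prod _ fun i _ => (measurable_pi_apply i).pow_const _
  have hmeas' : Measurable fun x : d.support → ℝ => ∏ i : d.support, x i ^ d i :=
    Finset.measurable_fun_prod _ fun i _ => (measurable_pi_apply i).pow_const _
  have hXm' : AEMeasurable (fun ω (i : d.support) => X i ω) P :=
    aemeasurable_pi_lambda _ fun i => hae i
  obtain ⟨g1, g2⟩ := KWISE_gam (fun i : d.support => d i)
  obtain ⟨_, g4⟩ := KWISE_gam (fun i : Fin n => d i)
  have hcomp : (fun ω => ∏ i, (fun i => X i ω) i ^ d i) =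
      (fun ω => ∏ i : d.support, (fun (i : d.support) => X i ω) i ^ d i) := by
    funext ω
    exact hprod _
  refine ⟨?_, ?_⟩
  · rw [integrable_map_measure hmeas.aestronglyMeasurable hXm]
    rw [← hlaw, integrable_map_measure hmeas'.aestronglyMeasurable hXm'] at g1
    have : (fun x : Fin n → ℝ => ∏ i, x i ^ d i) ∘ (fun ω i => X i ω) =
      (fun x : d.support → ℝ => ∏ i : d.support, x i ^ d i) ∘
        (fun ω (i : d.support) => X i ω) := hcomp
    rw [this]
    exact g1
  · rw [integral_map hXm hmeas.aestronglyMeasurable]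
    rw [← hlaw, integral_map hXm' hmeas'.aestronglyMeasurable] at g2
    have e : ∏ i : Fin n, ∫ y, y ^ d i ∂(gaussianReal 0 1) =
        ∏ i : d.support, ∫ y, y ^ d i ∂(gaussianReal 0 1) := by
      rw [Finset.prod_coe_sort d.support fun i => ∫ y, y ^ d i ∂(gaussianReal 0 1)]
      symm
      apply Finset.prod_subset (Finset.subset_univ d.support)
      intro i _ hi
      rw [Finsupp.notMem_support_iff.mp hi]
      simp
    rw [hcomp, g2, g4, e]

theorem mm_of_kwise {Ω : Type} [MeasurableSpace Ω] (P : Measure Ω) [IsProbabilityMeasure P]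
    (k n : ℕ) (X : Fin n → Ω → ℝ) (h : KWiseGaussian P k n X) :
    MM k (P.map (fun ω i => X i ω)) := by
  classical
  intro q hq
  have hev : ∀ x : Fin n → ℝ, MvPolynomial.eval x q =
      ∑ d ∈ q.support, MvPolynomial.coeff d q * ∏ i, x i ^ d i := by
    intro x
    rw [MvPolynomial.eval_eq']
  have hcard : ∀ d ∈ q.support, d.support.card ≤ k := by
    intro d hd
    have h1 : (d.sum fun _ e => e) ≤ k := (MvPolynomial.le_totalDegree hd).trans hq
    refine le_trans ?_ h1
    rw [Finsupp.sum, Finset.card_eq_sum_ones]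
    refine Finset.sum_le_sum fun i hi => ?_
    exact Nat.one_le_iff_ne_zero.mpr (Finsupp.mem_support_iff.mp hi)
  have hm := fun d hd => KWISE_mono P k n X h d (hcard d hd)
  simp only [hev]
  refine ⟨integrable_finsetSum _ fun d hd => (hm d hd).1.const_mul _, ?_⟩
  rw [integral_finsetSum _ fun d hd => (hm d hd).1.const_mul _,
    integral_finsetSum _ fun d _ => ((KWISE_gam fun i => d i).1).const_mul _]
  refine Finset.sum_congr rfl fun d hd => ?_
  rw [integral_const_mul, integral_const_mul, (hm d hd).2]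

end Pool.Agent.KWI
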