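import Pool.Agent.Lib.MP_68391b_lc.Poly

/-! Diagonalisation of a quadratic polynomial by a rotation. -/

namespace Pool.Agent.KWI

open MeasureTheory ProbabilityTheory

open scoped Matrix

/-- A monomial of degree at most two is a quadratic expression. -/
theorem rot_monomial (n : ℕ) (m : Fin n →₀ ℕ) (a : ℝ) (hm : m.degree ≤ 2) :
    ∃ (A : Matrix (Fin n) (Fin n) ℝ) (β : Fin n → ℝ) (c : ℝ),
      ∀ x : Fin n → ℝ, MvPolynomial.eval x (MvPolynomial.monomial m a) =
        x ⬝ᵥ (A *ᵥ x) + β ⬝ᵥ x + c := by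
  classical
  by_cases h0 : m = 0
  · subst h0
    exact ⟨0, 0, a, fun x => by simp⟩
  · obtain ⟨i, hi⟩ : ∃ i, m i ≠ 0 := by
      by_contra hcon
      push Not at hcon
      exact h0 (Finsupp.ext hcon)
    have hle : Finsupp.single i 1 ≤ m := by
      rw [Finsupp.single_le_iff]; omega
    obtain ⟨m', hm'⟩ : ∃ m', m = Finsupp.single i 1 + m' := ⟨m - Finsupp.single i 1, by
      rw [add_tsub_cancel_of_le hle]⟩
    have hd : m'.degree ≤ 1 := by
      rw [hm', map_add, Finsupp.degree_single] at hm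
      omega
    by_cases h1 : m' = 0
    · subst h1
      refine ⟨0, Pi.single i a, 0, fun x => ?_⟩
      rw [hm', add_zero, MvPolynomial.eval_monomial]
      simp
    · obtain ⟨j, hj⟩ : ∃ j, m' j ≠ 0 := by
        by_contra hcon
        push Not at hcon
        exact h1 (Finsupp.ext hcon)
      have hle' : Finsupp.single j 1 ≤ m' := by
        rw [Finsupp.single_le_iff]; omega
      obtain ⟨m'', hm''⟩ : ∃ m'', m' = Finsupp.single j 1 + m'' := ⟨m' - Finsupp.single j 1, by
        rw [add_tsub_cancel_of_le hle']⟩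
      have hd' : m''.degree = 0 := by
        rw [hm'', map_add, Finsupp.degree_single] at hd
        omega
      have hz : m'' = 0 := (Finsupp.degree_eq_zero_iff m'').1 hd'
      refine ⟨Matrix.single i j a, 0, 0, fun x => ?_⟩
      rw [hm', hm'', hz, add_zero, MvPolynomial.eval_monomial,
        Finsupp.prod_add_index' (by simp) (by intro a b c; rw [pow_add])]
      simp [Matrix.single_mulVec, dotProduct, Function.update_apply]
      ring

/-- Every quadratic polynomial is a quadratic expression with a symmetric matrix. -/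
theorem rot_quadratic (n : ℕ) (p : MvPolynomial (Fin n) ℝ) (hp : p.totalDegree ≤ 2) :
    ∃ (A : Matrix (Fin n) (Fin n) ℝ) (β : Fin n → ℝ) (c : ℝ), A.IsHermitian ∧
      ∀ x : Fin n → ℝ, MvPolynomial.eval x p = x ⬝ᵥ (A *ᵥ x) + β ⬝ᵥ x + c := by
  classical
  have key : ∀ s : Finset (Fin n →₀ ℕ), (∀ m ∈ s, m.degree ≤ 2) →
      ∃ (A : Matrix (Fin n) (Fin n) ℝ) (β : Fin n → ℝ) (c : ℝ),
      ∀ x : Fin n → ℝ, MvPolynomial.eval x (∑ m ∈ s, MvPolynomial.monomial m (p.coeff m)) =
        x ⬝ᵥ (A *ᵥ x) + β ⬝ᵥ x + c := by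
    intro s
    induction s using Finset.induction_on with
    | empty => intro _; exact ⟨0, 0, 0, fun x => by simp⟩
    | insert m s hms ih =>
      intro h
      obtain ⟨A, β, c, hA⟩ := ih (fun m' hm' => h m' (Finset.mem_insert_of_mem hm'))
      obtain ⟨A', β', c', hA'⟩ := rot_monomial n m (p.coeff m) (h m (Finset.mem_insert_self _ _))
      refine ⟨A' + A, β' + β, c' + c, fun x => ?_⟩
      rw [Finset.sum_insert hms, map_add, hA, hA', Matrix.add_mulVec, dotProduct_add,
        add_dotProduct]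
      ring
  obtain ⟨A, β, c, hA⟩ := key p.support (fun m hm => by
    have := MvPolynomial.le_totalDegree hm
    have h2 : m.degree = m.sum fun _ e => e := by
      rw [Finsupp.degree_apply]; rfl
    omega)
  rw [← MvPolynomial.as_sum p] at hA
  refine ⟨(1 / 2 : ℝ) • (A + Aᵀ), β, c, ?_, fun x => ?_⟩
  · refine Matrix.IsHermitian.ext fun i j => ?_
    simp [add_comm]
  · rw [hA x]
    congr 2
    rw [Matrix.smul_mulVec, dotProduct_smul, Matrix.add_mulVec, dotProduct_add]
    have : x ⬝ᵥ (Aᵀ *ᵥ x) = x ⬝ᵥ (A *ᵥ x) := by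
      rw [Matrix.mulVec_transpose, dotProduct_comm, Matrix.dotProduct_mulVec]
    rw [this]
    simp only [smul_eq_mul]
    ring

/-- Diagonalisation of the quadratic form in the basis of eigenvectors. -/
theorem rot_spectral (n : ℕ) (A : Matrix (Fin n) (Fin n) ℝ) (hA : A.IsHermitian)
    (x : Fin n → ℝ) :
    x ⬝ᵥ (A *ᵥ x) =
      ∑ i, hA.eigenvalues i * (∑ j, (hA.eigenvectorBasis i) j * x j) ^ 2 := by
  have h := hA.spectral_theorem
  rw [Unitary.conjStarAlgAut_apply] at h
  conv_lhs => rw [h]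
  rw [← Matrix.mulVec_mulVec, ← Matrix.mulVec_mulVec, Matrix.dotProduct_mulVec]
  have h1 : ∀ i, (star (hA.eigenvectorUnitary : Matrix (Fin n) (Fin n) ℝ) *ᵥ x) i =
      ∑ j, (hA.eigenvectorBasis i) j * x j := by
    intro i
    simp [Matrix.mulVec, dotProduct, Matrix.star_apply]
  have h2 : ∀ i, (x ᵥ* (hA.eigenvectorUnitary : Matrix (Fin n) (Fin n) ℝ)) i =
      ∑ j, (hA.eigenvectorBasis i) j * x j := by
    intro i
    simp [Matrix.vecMul, dotProduct, mul_comm]
  rw [dotProduct]
  refine Finset.sum_congr rfl fun i _ => ?_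
  rw [h2 i, Matrix.mulVec_diagonal]
  simp only [Function.comp]
  have h3 : ((↑(star hA.eigenvectorUnitary) : Matrix (Fin n) (Fin n) ℝ) *ᵥ x) i =
      ∑ j, (hA.eigenvectorBasis i) j * x j := by
    have := h1 i
    simpa using this
  simp only [RCLike.ofReal_real_eq_id, id_eq]
  first
    | rw [h3]
    | rw [h1 i]
  ring

/-- The rotation attached to an orthonormal basis. -/
noncomputable def rotO {n : ℕ} (b : OrthonormalBasis (Fin n) ℝ (EuclideanSpace ℝ (Fin n)))
    (x : Fin n → ℝ) : Fin n → ℝ := fun i => ∑ j, (b i) j * x j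

theorem rotO_eq {n : ℕ} (b : OrthonormalBasis (Fin n) ℝ (EuclideanSpace ℝ (Fin n)))
    (x : Fin n → ℝ) : rotO b x = WithLp.ofLp (b.repr (WithLp.toLp 2 x)) := by
  funext i
  rw [rotO, OrthonormalBasis.repr_apply_apply, PiLp.inner_apply]
  refine Finset.sum_congr rfl fun j _ => ?_
  simp [mul_comm]

theorem rotO_measurable {n : ℕ} (b : OrthonormalBasis (Fin n) ℝ (EuclideanSpace ℝ (Fin n))) :
    Measurable (rotO b) := by
  unfold rotO
  fun_prop

theorem rotO_map_gam {n : ℕ} (b : OrthonormalBasis (Fin n) ℝ (EuclideanSpace ℝ (Fin n))) :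
    (gam (Fin n)).map (rotO b) = gam (Fin n) := by
  have h0 : rotO b = WithLp.ofLp ∘ (⇑b.repr ∘ WithLp.toLp 2) := by
    funext x; exact rotO_eq b x
  have hm1 : Measurable (WithLp.toLp 2 : (Fin n → ℝ) → EuclideanSpace ℝ (Fin n)) := by
    fun_prop
  have hm2 : Measurable (⇑b.repr : EuclideanSpace ℝ (Fin n) → EuclideanSpace ℝ (Fin n)) :=
    b.repr.continuous.measurable
  have hm3 : Measurable (WithLp.ofLp : EuclideanSpace ℝ (Fin n) → (Fin n → ℝ)) := by
    fun_prop
  have hg : (gam (Fin n)).map (WithLp.toLp 2) = stdGaussian (EuclideanSpace ℝ (Fin n)) := by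
    unfold gam; exact map_pi_eq_stdGaussian
  rw [h0, ← Measure.map_map hm3 (hm2.comp hm1), ← Measure.map_map hm2 hm1, hg,
    stdGaussian_map, ← hg, Measure.map_map hm3 hm1]
  have : (WithLp.ofLp ∘ WithLp.toLp 2 : (Fin n → ℝ) → (Fin n → ℝ)) = id := by
    funext x; rfl
  rw [this, Measure.map_id]

/-- Linear substitutions do not increase the degree. -/
theorem rot_subst {n : ℕ} (M : Fin n → Fin n → ℝ) (N : ℕ) (q : MvPolynomial (Fin n) ℝ)
    (hq : q.totalDegree ≤ N) :
    ∃ q' : MvPolynomial (Fin n) ℝ, q'.totalDegree ≤ N ∧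
      ∀ x : Fin n → ℝ, MvPolynomial.eval x q' =
        MvPolynomial.eval (fun i => ∑ j, M i j * x j) q := by
  classical
  set L : Fin n → MvPolynomial (Fin n) ℝ :=
    fun i => ∑ j, MvPolynomial.C (M i j) * MvPolynomial.X j with hL
  have hLd : ∀ i, (L i).totalDegree ≤ 1 := by
    intro i
    rw [hL]
    refine (MvPolynomial.totalDegree_finsetSum _ _).trans (Finset.sup_le fun j _ => ?_)
    refine (MvPolynomial.totalDegree_mul _ _).trans ?_
    rw [MvPolynomial.totalDegree_C, zero_add]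
    exact (MvPolynomial.totalDegree_X (R := ℝ) j).le
  have hLe : ∀ i (x : Fin n → ℝ), MvPolynomial.eval x (L i) = ∑ j, M i j * x j := by
    intro i x
    simp [hL]
  refine ⟨∑ m ∈ q.support, MvPolynomial.C (q.coeff m) * ∏ i ∈ m.support, L i ^ m i, ?_, ?_⟩
  · refine (MvPolynomial.totalDegree_finsetSum _ _).trans (Finset.sup_le fun m hm => ?_)
    refine (MvPolynomial.totalDegree_mul _ _).trans ?_
    rw [MvPolynomial.totalDegree_C, zero_add]
    refine (MvPolynomial.totalDegree_finsetProd _ _).trans ?_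
    refine le_trans (Finset.sum_le_sum fun i _ => ?_) ((MvPolynomial.le_totalDegree hm).trans hq)
    refine (MvPolynomial.totalDegree_pow _ _).trans ?_
    calc m i * (L i).totalDegree ≤ m i * 1 := Nat.mul_le_mul_left _ (hLd i)
      _ = m i := mul_one _
  · intro x
    rw [map_sum]
    conv_rhs => rw [MvPolynomial.eval_eq]
    refine Finset.sum_congr rfl fun m _ => ?_
    rw [map_mul, MvPolynomial.eval_C, map_prod]
    congr 1
    refine Finset.prod_congr rfl fun i _ => ?_
    rw [map_pow, hLe]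

theorem rotO_MM {n : ℕ} (b : OrthonormalBasis (Fin n) ℝ (EuclideanSpace ℝ (Fin n)))
    (N : ℕ) (μ : Measure (Fin n → ℝ)) (hμ : MM N μ) : MM N (μ.map (rotO b)) := by
  intro q hq
  obtain ⟨q', hq', he⟩ := rot_subst (fun i j => (b i) j) N q hq
  have he' : ∀ x, MvPolynomial.eval x q' = MvPolynomial.eval (rotO b x) q := he
  have hmeas : Measurable (fun y : Fin n → ℝ => MvPolynomial.eval y q) :=
    (MvPolynomial.continuous_eval q).measurable
  obtain ⟨h1, h2⟩ := hμ q' hq'
  refine ⟨?_, ?_⟩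
  · rw [integrable_map_measure hmeas.aestronglyMeasurable (rotO_measurable b).aemeasurable]
    refine h1.congr (Filter.Eventually.of_forall fun x => ?_)
    exact he' x
  · rw [integral_map (rotO_measurable b).aemeasurable hmeas.aestronglyMeasurable]
    conv_rhs => rw [← rotO_map_gam b]
    rw [integral_map (rotO_measurable b).aemeasurable hmeas.aestronglyMeasurable]
    simp only [← he']
    exact h2

theorem rot_diag (n : ℕ) (p : MvPolynomial (Fin n) ℝ) (hp : p.totalDegree ≤ 2) :
    ∃ (O : (Fin n → ℝ) → (Fin n → ℝ)) (lam b : Fin n → ℝ) (c : ℝ), Measurable O ∧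
      (gam (Fin n)).map O = gam (Fin n) ∧
      (∀ (N : ℕ) (μ : Measure (Fin n → ℝ)), MM N μ → MM N (μ.map O)) ∧
      ∀ x, MvPolynomial.eval x p = ∑ i, (lam i * (O x i) ^ 2 + b i * O x i) + c := by
  obtain ⟨A, β, c, hA, hp'⟩ := rot_quadratic n p hp
  set e := hA.eigenvectorBasis with he
  refine ⟨rotO e, hA.eigenvalues, rotO e β, c, rotO_measurable e, rotO_map_gam e,
    fun N μ hμ => rotO_MM e N μ hμ, fun x => ?_⟩
  rw [hp' x, rot_spectral n A hA x, Finset.sum_add_distrib]
  congr 2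
  -- the linear part
  have h1 : β ⬝ᵥ x = inner ℝ (WithLp.toLp 2 x : EuclideanSpace ℝ (Fin n)) (WithLp.toLp 2 β) := by
    rw [PiLp.inner_apply, dotProduct]
    refine Finset.sum_congr rfl fun i _ => ?_
    simp
  have h2 : inner ℝ (WithLp.toLp 2 x : EuclideanSpace ℝ (Fin n)) (WithLp.toLp 2 β) =
      inner ℝ (e.repr (WithLp.toLp 2 x)) (e.repr (WithLp.toLp 2 β)) :=
    (e.repr.inner_map_map _ _).symm
  rw [h1, h2, PiLp.inner_apply]
  refine Finset.sum_congr rfl fun i _ => ?_
  rw [rotO_eq, rotO_eq]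
  simp

end Pool.Agent.KWI
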