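import Pool.Agent.Lib.MP_68391b_lc.Core
import Pool.Agent.Lib.MP_68391b_lc.KWise
import Pool.Agent.Lib.MP_68391b_lc.Rot

/-! The final theorem. -/

namespace Pool.Agent.KWI

open MeasureTheory ProbabilityTheory

section TwoSided

variable {ι : Type} [Fintype ι] [DecidableEq ι]

theorem level_null (lam b : ι → ℝ) (c : ℝ) (j : ι) (hj : lam j ≠ 0 ∨ b j ≠ 0) :
    (gam ι).real {x | ∑ i, (lam i * x i ^ 2 + b i * x i) + c = 0} = 0 := by
  set G : (ι → ℝ) → ℝ := fun x => ∑ i ∈ Finset.univ.erase j, (lam i * x i ^ 2 + b i * x i) + c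
    with hG
  have hPG : ∀ x : ι → ℝ, ∑ i, (lam i * x i ^ 2 + b i * x i) + c =
      lam j * x j ^ 2 + b j * x j + G x := by
    intro x
    simp only [hG]
    rw [← Finset.add_sum_erase Finset.univ _ (Finset.mem_univ j)]
    ring
  have h1 : ∀ η : ℝ, 0 < η →
      (gam ι).real {x | ∑ i, (lam i * x i ^ 2 + b i * x i) + c = 0} ≤ 8 * η := by
    intro η hη
    refine le_trans (measureReal_mono ?_ (measure_ne_top _ _)) (anti_pi j (lam j) (b j) η hj hη.le G
      (by simp only [hG]; fun_prop) (by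
        intro x y hxy
        simp only [hG]
        congr 1
        apply Finset.sum_congr rfl
        intro i hi
        rw [hxy i (Finset.ne_of_mem_erase hi)]))
    intro x hx
    have hx' : ∑ i, (lam i * x i ^ 2 + b i * x i) + c = 0 := hx
    show |lam j * x j ^ 2 + b j * x j + G x| ≤ _
    rw [← hPG x, hx', abs_zero]
    positivity
  have h2 : (gam ι).real {x | ∑ i, (lam i * x i ^ 2 + b i * x i) + c = 0} ≤ 0 := by
    apply le_of_forall_pos_le_add
    intro ε hε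
    have := h1 (ε / 8) (by positivity)
    linarith
  exact le_antisymm h2 measureReal_nonneg

theorem two_sided {C₃ : ℝ} {Q : ℕ} {N : ℕ} {μ : Measure (ι → ℝ)} [IsProbabilityMeasure μ]
    (h : ∀ (lam b : ι → ℝ) (c : ℝ),
      μ.real {x | 0 ≤ ∑ i, (lam i * x i ^ 2 + b i * x i) + c} ≤
      (gam ι).real {x | 0 ≤ ∑ i, (lam i * x i ^ 2 + b i * x i) + c} + (1 / 2) ^ Q)
    (lam b : ι → ℝ) (c : ℝ) :
    |μ.real {x | 0 ≤ ∑ i, (lam i * x i ^ 2 + b i * x i) + c} -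
      (gam ι).real {x | 0 ≤ ∑ i, (lam i * x i ^ 2 + b i * x i) + c}| ≤ (1 / 2) ^ Q := by
  have hQ : (0 : ℝ) ≤ (1 / 2) ^ Q := by positivity
  by_cases hz : ∀ i, lam i = 0 ∧ b i = 0
  · have hc : ∀ x : ι → ℝ, ∑ i, (lam i * x i ^ 2 + b i * x i) + c = c := by
      intro x
      rw [Finset.sum_eq_zero, zero_add]
      intro i _
      rw [(hz i).1, (hz i).2]; ring
    simp_rw [hc]
    by_cases hcc : 0 ≤ c
    · have e : {x : ι → ℝ | 0 ≤ c} = Set.univ := by ext; simp [hcc]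
      rw [e]; simp
    · have e : {x : ι → ℝ | 0 ≤ c} = ∅ := by ext; simp [hcc]
      rw [e]; simp
  push Not at hz
  obtain ⟨j, hj⟩ := hz
  have hj' : lam j ≠ 0 ∨ b j ≠ 0 := by
    by_cases hl : lam j = 0
    · right; exact hj hl
    · left; exact hl
  set q : (ι → ℝ) → ℝ := fun x => ∑ i, (lam i * x i ^ 2 + b i * x i) + c with hq
  have hqm : Measurable q := layer_measurable lam b c
  have hm0 : MeasurableSet {x | 0 ≤ q x} := measurableSet_le measurable_const hqm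
  have h1 := h lam b c
  have h2 := h (fun i => - lam i) (fun i => - b i) (-c)
  have hneg : ∀ x : ι → ℝ, ∑ i, (-lam i * x i ^ 2 + -b i * x i) + -c = - q x := by
    intro x
    simp only [hq]
    rw [neg_add, ← Finset.sum_neg_distrib]
    congr 1
    apply Finset.sum_congr rfl
    intro i _; ring
  simp_rw [hneg] at h2
  have hnull := level_null lam b c j hj'
  have e1 : μ.real {x | 0 ≤ q x}ᶜ ≤ μ.real {x | 0 ≤ - q x} := by
    apply measureReal_mono _ (measure_ne_top _ _)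
    intro x hx
    have : ¬ (0 ≤ q x) := hx
    show 0 ≤ - q x
    linarith [not_le.1 this]
  have e2 : (gam ι).real {x | 0 ≤ - q x} ≤ (gam ι).real {x | 0 ≤ q x}ᶜ := by
    have hsub : {x | 0 ≤ - q x} ⊆ {x | 0 ≤ q x}ᶜ ∪ {x | q x = 0} := by
      intro x hx
      have hx' : 0 ≤ - q x := hx
      by_cases h0 : q x = 0
      · right; exact h0
      · left
        show ¬ (0 ≤ q x)
        intro h3
        exact h0 (le_antisymm (by linarith) h3)
    calc (gam ι).real {x | 0 ≤ - q x} ≤ (gam ι).real ({x | 0 ≤ q x}ᶜ ∪ {x | q x = 0}) :=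
          measureReal_mono hsub (measure_ne_top _ _)
      _ ≤ (gam ι).real {x | 0 ≤ q x}ᶜ + (gam ι).real {x | q x = 0} := measureReal_union_le _ _
      _ = _ := by rw [hnull, add_zero]
  rw [probReal_compl_eq_one_sub hm0] at e1 e2
  rw [abs_le]
  constructor
  · linarith
  · linarith

end TwoSided

/-- `k` is large enough for accuracy `ε` and all polynomials of degree at most `d`. -/
def Fools (d : ℕ) (ε : ℝ) (k : ℕ) : Prop :=
  ∀ (n : ℕ) (p : MvPolynomial (Fin n) ℝ), p.totalDegree ≤ d →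
    ∀ (Ω : Type) (_ : MeasurableSpace Ω) (P : Measure Ω) (_ : IsProbabilityMeasure P)
      (X : Fin n → Ω → ℝ), KWiseGaussian P k n X →
      |P.real {ω | 0 ≤ MvPolynomial.eval (fun i => X i ω) p} -
        (gam (Fin n)).real {z | 0 ≤ MvPolynomial.eval z p}| ≤ ε

theorem fools_pow : ∃ C₃ : ℝ, 0 < C₃ ∧ ∀ (Q : ℕ) (_ : 1 ≤ Q) (k : ℕ)
    (_ : C₃ * (4 ^ Q * (Q : ℝ) ^ 9) ≤ k), Fools 2 ((1 / 2) ^ Q) k := by
  obtain ⟨C₃, hC₃, h⟩ := core
  refine ⟨C₃, hC₃, ?_⟩
  intro Q hQ k hk n p hp Ω _ P _ X hX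
  have hXm : AEMeasurable (fun ω i => X i ω) P :=
    aemeasurable_pi_iff.2 fun i => (hX.law i).aemeasurable
  obtain ⟨O, lam, b, c, hO, hOg, hOM, hpe⟩ := rot_diag n p hp
  set μ₀ : Measure (Fin n → ℝ) := P.map (fun ω i => X i ω) with hμ₀
  haveI : IsProbabilityMeasure μ₀ := Measure.isProbabilityMeasure_map hXm
  set μ : Measure (Fin n → ℝ) := μ₀.map O with hμ
  haveI : IsProbabilityMeasure μ := Measure.isProbabilityMeasure_map hO.aemeasurable
  have hMM : MM k μ := hOM k μ₀ (mm_of_kwise P k n X hX)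
  have h2 := two_sided (C₃ := C₃) (N := k) (μ := μ)
    (fun lam b c => h Q hQ (Fin n) μ k hMM hk lam b c) lam b c
  set q : (Fin n → ℝ) → ℝ := fun x => ∑ i, (lam i * x i ^ 2 + b i * x i) + c with hq
  have hqm : Measurable q := layer_measurable lam b c
  have hS : MeasurableSet {x | 0 ≤ q x} := measurableSet_le measurable_const hqm
  have e1 : μ.real {x | 0 ≤ q x} = P.real {ω | 0 ≤ MvPolynomial.eval (fun i => X i ω) p} := by
    rw [hμ, map_measureReal_apply hO hS, hμ₀, measureReal_def, measureReal_def,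
      Measure.map_apply_of_aemeasurable hXm (hO hS)]
    congr 2
    ext ω
    simp only [Set.mem_preimage, Set.mem_setOf_eq]
    rw [hpe]
  have e2 : (gam (Fin n)).real {x | 0 ≤ q x} =
      (gam (Fin n)).real {z | 0 ≤ MvPolynomial.eval z p} := by
    conv_lhs => rw [← hOg]
    rw [map_measureReal_apply hO hS]
    congr 1
    ext z
    simp only [Set.mem_preimage, Set.mem_setOf_eq]
    rw [hpe]
  rw [e1, e2] at h2
  exact h2

theorem fools_two : ∃ C : ℝ, 0 < C ∧ ∀ (ε : ℝ) (_ : 0 < ε) (_ : ε ≤ 1 / 2) (k : ℕ)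
    (_ : C * ((Real.log (1 / ε)) ^ 9 / ε ^ 2) ≤ k), Fools 2 ε k := by
  obtain ⟨C₃, hC₃, h⟩ := fools_pow
  refine ⟨C₃ * (4 * 3 ^ 9), by positivity, ?_⟩
  intro ε hε hε2 k hk
  set ℓ : ℝ := Real.log (1 / ε) / Real.log 2 with hℓ
  have hl2 : 0 < Real.log 2 := Real.log_pos (by norm_num)
  have h2ε : 2 ≤ 1 / ε := by rw [le_div_iff₀ hε]; linarith
  have hℓ1 : 1 ≤ ℓ := by
    rw [hℓ, le_div_iff₀ hl2, one_mul]
    exact Real.log_le_log (by norm_num) h2ε
  set Q : ℕ := ⌈ℓ⌉₊ with hQ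
  have hQ1 : 1 ≤ Q := by
    rw [hQ]; exact Nat.one_le_ceil_iff.2 (by linarith)
  have hQl : ℓ ≤ Q := Nat.le_ceil ℓ
  have hQu : (Q : ℝ) ≤ ℓ + 1 := (Nat.ceil_lt_add_one (by linarith)).le
  have hpow : (2 : ℝ) ^ ℓ = 1 / ε := by
    rw [Real.rpow_def_of_pos (by norm_num), hℓ, mul_div_cancel₀ _ hl2.ne',
      Real.exp_log (by positivity)]
  have h2Q : (2 : ℝ) ^ Q ≤ 2 * (1 / ε) := by
    have : (2 : ℝ) ^ (Q : ℝ) ≤ 2 ^ (ℓ + 1) := Real.rpow_le_rpow_of_exponent_le (by norm_num) hQu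
    rw [Real.rpow_natCast, Real.rpow_add (by norm_num), hpow, Real.rpow_one] at this
    linarith
  have h2Q' : 1 / ε ≤ (2 : ℝ) ^ Q := by
    have : (2 : ℝ) ^ ℓ ≤ 2 ^ (Q : ℝ) := Real.rpow_le_rpow_of_exponent_le (by norm_num) hQl
    rw [Real.rpow_natCast, hpow] at this
    exact this
  have hεQ : ((1 : ℝ) / 2) ^ Q ≤ ε := by
    rw [one_div, inv_pow]
    rw [inv_le_comm₀ (by positivity) hε]
    simpa using h2Q'
  have h4Q : (4 : ℝ) ^ Q ≤ 4 / ε ^ 2 := by
    have e : (4 : ℝ) ^ Q = (2 ^ Q) ^ 2 := by rw [← pow_mul, mul_comm, pow_mul]; norm_num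
    rw [e]
    calc ((2 : ℝ) ^ Q) ^ 2 ≤ (2 * (1 / ε)) ^ 2 := by gcongr
      _ = 4 / ε ^ 2 := by field_simp; norm_num
  have hQlog : (Q : ℝ) ≤ 3 * Real.log (1 / ε) := by
    have h5 : ℓ + 1 ≤ 2 * ℓ := by linarith
    have h6 : (2 : ℝ) / 3 ≤ Real.log 2 := by
      have := Real.log_two_gt_d9; linarith
    have h7 : 2 * ℓ ≤ 3 * Real.log (1 / ε) := by
      have h8 : 0 ≤ Real.log (1 / ε) := Real.log_nonneg (by linarith)
      rw [hℓ, ← mul_div_assoc, div_le_iff₀ hl2]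
      nlinarith
    linarith
  have hfin : C₃ * (4 ^ Q * (Q : ℝ) ^ 9) ≤ k := by
    refine le_trans ?_ hk
    calc C₃ * (4 ^ Q * (Q : ℝ) ^ 9) ≤ C₃ * (4 / ε ^ 2 * (3 * Real.log (1 / ε)) ^ 9) := by
          gcongr
      _ = C₃ * (4 * 3 ^ 9) * (Real.log (1 / ε) ^ 9 / ε ^ 2) := by ring
  intro n p hp Ω _ P _ X hX
  exact (h Q hQ1 k hfin n p hp Ω _ P inferInstance X hX).trans hεQ

end Pool.Agent.KWI
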