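import Pool.Agent.Lib.MP_68391b_lc.Chirp
import Pool.Agent.Lib.MP_68391b_lc.Comb

/-! The fooling lemma. -/

namespace Pool.Agent.KWI

open MeasureTheory ProbabilityTheory

/-- Telescoping estimate for products of complex numbers. -/
theorem fool_prod_sub {ι : Type} [DecidableEq ι] (s : Finset ι) (a b : ι → ℂ) (δ : ι → ℝ)
    (hδ : ∀ i ∈ s, 0 ≤ δ i) (hb : ∀ i ∈ s, ‖b i‖ ≤ 1) (hab : ∀ i ∈ s, ‖a i - b i‖ ≤ δ i) :
    ‖(∏ i ∈ s, a i) - ∏ i ∈ s, b i‖ ≤ (∏ i ∈ s, (1 + δ i)) - 1 := by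
  induction s using Finset.induction_on with
  | empty => simp
  | insert j s hj ih =>
    have ih' := ih (fun i hi => hδ i (Finset.mem_insert_of_mem hi))
      (fun i hi => hb i (Finset.mem_insert_of_mem hi))
      (fun i hi => hab i (Finset.mem_insert_of_mem hi))
    rw [Finset.prod_insert hj, Finset.prod_insert hj, Finset.prod_insert hj]
    have h1 : a j * (∏ i ∈ s, a i) - b j * ∏ i ∈ s, b i =
        a j * ((∏ i ∈ s, a i) - ∏ i ∈ s, b i) + (a j - b j) * ∏ i ∈ s, b i := by ring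
    have hbj := hb j (Finset.mem_insert_self _ _)
    have habj := hab j (Finset.mem_insert_self _ _)
    have hδj := hδ j (Finset.mem_insert_self _ _)
    have haj : ‖a j‖ ≤ 1 + δ j := by
      have : a j = b j + (a j - b j) := by ring
      rw [this]
      exact (norm_add_le _ _).trans (add_le_add hbj habj)
    have hpb : ‖∏ i ∈ s, b i‖ ≤ 1 := by
      rw [norm_prod]
      exact Finset.prod_le_one (fun i _ => norm_nonneg _)
        (fun i hi => hb i (Finset.mem_insert_of_mem hi))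
    rw [h1]
    calc ‖a j * ((∏ i ∈ s, a i) - ∏ i ∈ s, b i) + (a j - b j) * ∏ i ∈ s, b i‖
        ≤ ‖a j * ((∏ i ∈ s, a i) - ∏ i ∈ s, b i)‖ + ‖(a j - b j) * ∏ i ∈ s, b i‖ :=
          norm_add_le _ _
      _ = ‖a j‖ * ‖(∏ i ∈ s, a i) - ∏ i ∈ s, b i‖ + ‖a j - b j‖ * ‖∏ i ∈ s, b i‖ := by
          rw [norm_mul, norm_mul]
      _ ≤ (1 + δ j) * ((∏ i ∈ s, (1 + δ i)) - 1) + δ j * 1 := by
          apply add_le_add
          · exact mul_le_mul haj ih' (norm_nonneg _) (by linarith)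
          · exact mul_le_mul habj hpb (norm_nonneg _) hδj
      _ = (1 + δ j) * (∏ i ∈ s, (1 + δ i)) - 1 := by ring

theorem fool_prod_exp {ι : Type} (s : Finset ι) (δ : ι → ℝ) (hδ : ∀ i ∈ s, 0 ≤ δ i) :
    ∏ i ∈ s, (1 + δ i) ≤ Real.exp (∑ i ∈ s, δ i) := by
  rw [Real.exp_sum]
  apply Finset.prod_le_prod
  · intro i hi; have := hδ i hi; linarith
  · intro i _; have := Real.add_one_le_exp (δ i); linarith

theorem fool_exp_bound {D : ℝ} (h0 : 0 ≤ D) (h1 : D ≤ 1 / 2) : Real.exp D - 1 ≤ 2 * D := by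
  have h := Real.exp_bound' h0 (by linarith : D ≤ 1) (n := 2) (by norm_num)
  simp only [Finset.sum_range_succ, Finset.sum_range_zero, Nat.factorial] at h
  norm_num at h
  nlinarith

/-- Replacing the chirps by bounded functions. -/
theorem fool_repl {ι : Type} [Fintype ι] [DecidableEq ι]
    (ν : Measure (ι → ℝ)) [IsProbabilityMeasure ν]
    (A B : Finset ι) (h : ι → ℝ → ℂ) (hhm : ∀ i ∈ A, Measurable (h i))
    (hh : ∀ i ∈ A, ∀ x, ‖h i x‖ ≤ 1)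
    (e f : ι → ℝ → ℂ) (hem : ∀ i ∈ B, Measurable (e i)) (hfm : ∀ i ∈ B, Measurable (f i))
    (g : (ι → ℝ) → ℂ) (hgm : Measurable g) (hg : ∀ x, ‖g x‖ ≤ 1)
    (he : ∀ i ∈ B, ∀ x, ‖e i x‖ ≤ 1) (δ : ι → ℝ) (hδ : ∀ i ∈ B, 0 ≤ δ i)
    (hf : ∀ i ∈ B, ∀ x, ‖f i x‖ ≤ 1 + δ i) (r : ℝ)
    (hfe : ∀ i ∈ B, ∀ x, |x| ≤ r → ‖f i x - e i x‖ ≤ δ i)
    (hD : ∑ i ∈ B, δ i ≤ 1 / 2) (p : ℝ) (hp : ∀ i ∈ B, ν.real {x | r ≤ |x i|} ≤ p) :
    ‖(∫ x, (∏ i ∈ A, h i (x i)) * (∏ i ∈ B, e i (x i)) * g x ∂ν) -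
      ∫ x, (∏ i ∈ A, h i (x i)) * (∏ i ∈ B, f i (x i)) * g x ∂ν‖ ≤
      2 * (∑ i ∈ B, δ i) + 3 * (B.card * p) := by
  set D : ℝ := ∑ i ∈ B, δ i with hDdef
  have hD0 : 0 ≤ D := Finset.sum_nonneg hδ
  set bad : Set (ι → ℝ) := ⋃ i ∈ B, {x | r ≤ |x i|} with hbad
  have hbadm : MeasurableSet bad := by
    apply Finset.measurableSet_biUnion
    intro i _
    exact measurableSet_le measurable_const ((measurable_pi_apply i).abs)
  have hbadp : ν.real bad ≤ B.card * p := by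
    calc ν.real bad ≤ ∑ i ∈ B, ν.real {x | r ≤ |x i|} := measureReal_biUnion_finset_le _ _
      _ ≤ ∑ _i ∈ B, p := Finset.sum_le_sum hp
      _ = B.card * p := by rw [Finset.sum_const, nsmul_eq_mul]
  have hexpD : Real.exp D ≤ 2 := by
    have := fool_exp_bound hD0 hD
    linarith
  have hpe : ∀ x : ι → ℝ, ‖∏ i ∈ B, e i (x i)‖ ≤ 1 := by
    intro x
    rw [norm_prod]
    exact Finset.prod_le_one (fun i _ => norm_nonneg _) (fun i hi => he i hi _)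
  have hpf : ∀ x : ι → ℝ, ‖∏ i ∈ B, f i (x i)‖ ≤ 2 := by
    intro x
    rw [norm_prod]
    calc ∏ i ∈ B, ‖f i (x i)‖ ≤ ∏ i ∈ B, (1 + δ i) :=
          Finset.prod_le_prod (fun i _ => norm_nonneg _) (fun i hi => hf i hi _)
      _ ≤ Real.exp D := fool_prod_exp B δ hδ
      _ ≤ 2 := hexpD
  have hpA : ∀ x : ι → ℝ, ‖∏ i ∈ A, h i (x i)‖ ≤ 1 := by
    intro x
    rw [norm_prod]
    exact Finset.prod_le_one (fun i _ => norm_nonneg _) (fun i hi => hh i hi _)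
  have hmA : Measurable (fun x : ι → ℝ => ∏ i ∈ A, h i (x i)) :=
    Finset.measurable_prod _ (fun i hi => (hhm i hi).comp (measurable_pi_apply i))
  have hme : Measurable (fun x : ι → ℝ => ∏ i ∈ B, e i (x i)) :=
    Finset.measurable_prod _ (fun i hi => (hem i hi).comp (measurable_pi_apply i))
  have hmf : Measurable (fun x : ι → ℝ => ∏ i ∈ B, f i (x i)) :=
    Finset.measurable_prod _ (fun i hi => (hfm i hi).comp (measurable_pi_apply i))
  have hi1 : Integrable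
      (fun x : ι → ℝ => (∏ i ∈ A, h i (x i)) * (∏ i ∈ B, e i (x i)) * g x) ν := by
    refine Integrable.of_bound (((hmA.mul hme).mul hgm).aestronglyMeasurable (μ := ν)) 1
      (Filter.Eventually.of_forall fun x => ?_)
    change ‖(∏ i ∈ A, h i (x i)) * (∏ i ∈ B, e i (x i)) * g x‖ ≤ 1
    rw [norm_mul, norm_mul]
    calc ‖∏ i ∈ A, h i (x i)‖ * ‖∏ i ∈ B, e i (x i)‖ * ‖g x‖ ≤ 1 * 1 * 1 := by
          gcongr
          · exact hpA x
          · exact hpe x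
          · exact hg x
      _ = 1 := by norm_num
  have hi2 : Integrable
      (fun x : ι → ℝ => (∏ i ∈ A, h i (x i)) * (∏ i ∈ B, f i (x i)) * g x) ν := by
    refine Integrable.of_bound (((hmA.mul hmf).mul hgm).aestronglyMeasurable (μ := ν)) 2
      (Filter.Eventually.of_forall fun x => ?_)
    change ‖(∏ i ∈ A, h i (x i)) * (∏ i ∈ B, f i (x i)) * g x‖ ≤ 2
    rw [norm_mul, norm_mul]
    calc ‖∏ i ∈ A, h i (x i)‖ * ‖∏ i ∈ B, f i (x i)‖ * ‖g x‖ ≤ 1 * 2 * 1 := by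
          gcongr
          · exact hpA x
          · exact hpf x
          · exact hg x
      _ = 2 := by norm_num
  rw [← integral_sub hi1 hi2]
  have hptw : ∀ x : ι → ℝ, ‖(∏ i ∈ A, h i (x i)) * (∏ i ∈ B, e i (x i)) * g x -
      (∏ i ∈ A, h i (x i)) * (∏ i ∈ B, f i (x i)) * g x‖ ≤
      2 * D + bad.indicator (fun _ => (3 : ℝ)) x := by
    intro x
    have h1 : (∏ i ∈ A, h i (x i)) * (∏ i ∈ B, e i (x i)) * g x -
        (∏ i ∈ A, h i (x i)) * (∏ i ∈ B, f i (x i)) * g x =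
        (∏ i ∈ A, h i (x i)) * ((∏ i ∈ B, e i (x i)) - ∏ i ∈ B, f i (x i)) * g x := by ring
    rw [h1, norm_mul, norm_mul]
    have h2 : ‖(∏ i ∈ B, e i (x i)) - ∏ i ∈ B, f i (x i)‖ ≤
        2 * D + bad.indicator (fun _ => (3 : ℝ)) x := by
      by_cases hx : x ∈ bad
      · rw [Set.indicator_of_mem hx]
        calc ‖(∏ i ∈ B, e i (x i)) - ∏ i ∈ B, f i (x i)‖
            ≤ ‖∏ i ∈ B, e i (x i)‖ + ‖∏ i ∈ B, f i (x i)‖ := norm_sub_le _ _
          _ ≤ 1 + 2 := add_le_add (hpe x) (hpf x)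
          _ ≤ 2 * D + 3 := by linarith
      · rw [Set.indicator_of_notMem hx, add_zero, norm_sub_rev]
        have hx' : ∀ i ∈ B, |x i| ≤ r := by
          intro i hi
          by_contra hc
          apply hx
          simp only [hbad, Set.mem_iUnion, Set.mem_ofPred_eq]
          exact ⟨i, hi, by linarith [not_le.mp hc]⟩
        calc ‖(∏ i ∈ B, f i (x i)) - ∏ i ∈ B, e i (x i)‖
            ≤ (∏ i ∈ B, (1 + δ i)) - 1 :=
              fool_prod_sub B (fun i => f i (x i)) (fun i => e i (x i)) δ hδ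
                (fun i hi => he i hi _) (fun i hi => hfe i hi _ (hx' i hi))
          _ ≤ Real.exp D - 1 := by have := fool_prod_exp B δ hδ; linarith
          _ ≤ 2 * D := fool_exp_bound hD0 hD
    calc ‖∏ i ∈ A, h i (x i)‖ * ‖(∏ i ∈ B, e i (x i)) - ∏ i ∈ B, f i (x i)‖ * ‖g x‖
        ≤ 1 * ‖(∏ i ∈ B, e i (x i)) - ∏ i ∈ B, f i (x i)‖ * 1 := by
          gcongr
          · exact hpA x
          · exact hg x
      _ ≤ 2 * D + bad.indicator (fun _ => (3 : ℝ)) x := by simpa using h2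
  have hint3 : Integrable (fun x : ι → ℝ => 2 * D + bad.indicator (fun _ => (3 : ℝ)) x) ν :=
    (integrable_const _).add ((integrable_const (3 : ℝ)).indicator hbadm)
  calc ‖∫ x, ((∏ i ∈ A, h i (x i)) * (∏ i ∈ B, e i (x i)) * g x -
        (∏ i ∈ A, h i (x i)) * (∏ i ∈ B, f i (x i)) * g x) ∂ν‖
      ≤ ∫ x, ‖(∏ i ∈ A, h i (x i)) * (∏ i ∈ B, e i (x i)) * g x -
        (∏ i ∈ A, h i (x i)) * (∏ i ∈ B, f i (x i)) * g x‖ ∂ν := norm_integral_le_integral_norm _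
    _ ≤ ∫ x, (2 * D + bad.indicator (fun _ => (3 : ℝ)) x) ∂ν :=
        integral_mono (hi1.sub hi2).norm hint3 hptw
    _ = 2 * D + 3 * ν.real bad := by
        rw [integral_add (integrable_const _) ((integrable_const (3 : ℝ)).indicator hbadm),
          integral_indicator_const _ hbadm]
        simp [mul_comm]
    _ ≤ 2 * D + 3 * (B.card * p) := by linarith

/-- `a ^ k * 2 ^ n ≤ exp`. -/
theorem fool_two_pow_le (n : ℕ) : (2 : ℝ) ^ n ≤ Real.exp n := by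
  have h : (2 : ℝ) ≤ Real.exp 1 := by
    have := Real.add_one_le_exp (1 : ℝ); linarith
  calc (2 : ℝ) ^ n ≤ (Real.exp 1) ^ n := by gcongr
    _ = Real.exp n := by rw [← Real.exp_nat_mul, mul_one]

theorem fool_exp_neg_le (n : ℕ) : Real.exp (-(n : ℝ)) ≤ (1 / 2) ^ n := by
  rw [Real.exp_neg, one_div, inv_pow]
  exact inv_anti₀ (by positivity) (fool_two_pow_le n)

theorem fool_nat_le (Q : ℕ) : (Q : ℝ) ≤ 2 ^ Q := by
  exact_mod_cast (Nat.lt_two_pow_self (n := Q)).le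

theorem fool : ∃ C₀ : ℝ, 0 < C₀ ∧ ∀ (ι : Type) [Fintype ι] [DecidableEq ι]
    (μ : Measure (ι → ℝ)) [IsProbabilityMeasure μ] (N : ℕ) (_ : MM N μ) (Q : ℕ) (_ : 1 ≤ Q)
    (A : Finset ι) (_ : A.card ≤ Q) (CA RA : ℝ) (_ : CA ≤ 2 ^ Q) (_ : 0 ≤ RA)
    (h : ι → ℝ → ℂ) (_ : ∀ i ∈ A, ES CA RA (h i)) (_ : ∀ i ∈ A, ∀ x, ‖h i x‖ ≤ 1)
    (α β : ι → ℝ) (T2 : ℝ) (_ : 1 ≤ T2) (_ : T2 ≤ 2 ^ Q)
    (_ : ∑ i ∈ Aᶜ, (α i ^ 2 + β i ^ 2) ≤ T2)
    (_ : C₀ * ((Q : ℝ) ^ 4 * T2 + A.card * RA ^ 2) ≤ N),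
    ‖(∫ x, (∏ i ∈ A, h i (x i)) * Complex.exp (Complex.I *
          ((∑ i ∈ Aᶜ, (α i * (x i ^ 2 - 1) + β i * x i) : ℝ) : ℂ)) ∂μ) -
      ∫ x, (∏ i ∈ A, h i (x i)) * Complex.exp (Complex.I *
          ((∑ i ∈ Aᶜ, (α i * (x i ^ 2 - 1) + β i * x i) : ℝ) : ℂ)) ∂(gam ι)‖ ≤
      (1 / 2) ^ Q := by
  refine ⟨8 * 10 ^ 13, by norm_num, ?_⟩
  intro ι _ _ μ _ N hμ Q hQ A hAQ CA RA hCA hRA h hES hh1 α β T2 hT1 hT2 hsum hN
  have hQr : (1 : ℝ) ≤ Q := by exact_mod_cast hQ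
  have hQ0 : (0 : ℝ) < Q := by linarith
  -- the bad set of coordinates
  set B : Finset ι := Aᶜ.filter (fun i => 1 / 32 < |α i|) with hB
  set G : Finset ι := Aᶜ.filter (fun i => ¬ (1 / 32 < |α i|)) with hG
  have hBα : ∀ i ∈ B, 1 / 32 < |α i| := fun i hi => (Finset.mem_filter.mp hi).2
  have hBA : ∀ i ∈ B, i ∉ A := fun i hi => by
    have := (Finset.mem_filter.mp hi).1
    simpa using this
  have hGα : ∀ i ∈ G, |α i| ≤ 1 / 32 := fun i hi => not_lt.mp (Finset.mem_filter.mp hi).2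
  have hsplit : ∀ F : ι → ℝ, ∑ i ∈ Aᶜ, F i = ∑ i ∈ B, F i + ∑ i ∈ G, F i := fun F =>
    (Finset.sum_filter_add_sum_filter_not _ _ _).symm
  have hsB : ∑ i ∈ B, (α i ^ 2 + β i ^ 2) ≤ T2 := by
    have h1 := hsplit (fun i => α i ^ 2 + β i ^ 2)
    have h2 : 0 ≤ ∑ i ∈ G, (α i ^ 2 + β i ^ 2) := Finset.sum_nonneg (fun i _ => by positivity)
    linarith
  have hsG : ∑ i ∈ G, (α i ^ 2 + β i ^ 2) ≤ T2 := by
    have h1 := hsplit (fun i => α i ^ 2 + β i ^ 2)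
    have h2 : 0 ≤ ∑ i ∈ B, (α i ^ 2 + β i ^ 2) := Finset.sum_nonneg (fun i _ => by positivity)
    linarith
  have hBsq : ∀ i ∈ B, 1 ≤ 1024 * α i ^ 2 := fun i hi => by
    have h1 := hBα i hi
    have h2 : |α i| ^ 2 = α i ^ 2 := sq_abs _
    nlinarith [abs_nonneg (α i)]
  have hBcard : (B.card : ℝ) ≤ 1024 * T2 := by
    calc (B.card : ℝ) = ∑ _i ∈ B, (1 : ℝ) := by simp
      _ ≤ ∑ i ∈ B, 1024 * (α i ^ 2 + β i ^ 2) := by
          apply Finset.sum_le_sum; intro i hi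
          have := hBsq i hi; nlinarith [sq_nonneg (β i)]
      _ = 1024 * ∑ i ∈ B, (α i ^ 2 + β i ^ 2) := by rw [Finset.mul_sum]
      _ ≤ 1024 * T2 := by linarith
  -- parameters
  set Φ : ι → ℝ := fun i => 3 * |α i| * (24 * (Q : ℝ)) ^ 2 + 2 * |β i| * (24 * (Q : ℝ)) with hΦ
  have hΦ0 : ∀ i, 0 ≤ Φ i := fun i => by
    simp only [hΦ]; positivity
  have hΦle : ∀ i, Φ i ≤ 1728 * (Q : ℝ) ^ 2 * (|α i| + |β i|) := fun i => by
    simp only [hΦ]
    have h1 := abs_nonneg (β i)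
    have h2 : 48 * (Q : ℝ) ≤ 1728 * (Q : ℝ) ^ 2 := by nlinarith
    nlinarith
  set K : ι → ℕ := fun i => ⌈8 * Φ i⌉₊ + 20 * Q with hK
  have hKlow : ∀ i, 8 * Φ i ≤ (K i : ℝ) := fun i => by
    simp only [hK]; push_cast
    have := Nat.le_ceil (8 * Φ i); nlinarith
  have hKup : ∀ i, (K i : ℝ) ≤ 8 * Φ i + 21 * Q := fun i => by
    simp only [hK]; push_cast
    have := Nat.ceil_lt_add_one (show 0 ≤ 8 * Φ i by have := hΦ0 i; linarith)
    nlinarith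
  have hL1 : (1 : ℝ) ≤ 24 * (Q : ℝ) := by linarith
  have hch : ∀ i, ∃ f : ℝ → ℂ, ES (Real.exp (Φ i)) (4 * ((20 * Q : ℕ) : ℝ) * (K i) / (24 * Q)) f ∧
      (∀ x, ‖f x‖ ≤ 1 + Real.exp (-(K i : ℝ))) ∧
      ∀ x, |x| ≤ (24 * (Q : ℝ)) / 2 →
        ‖f x - Complex.exp (Complex.I * ((α i * x ^ 2 + β i * x : ℝ) : ℂ))‖ ≤
          Real.exp (-(K i : ℝ)) + Φ i * ((20 * Q : ℕ) : ℝ) / 4 ^ (20 * Q) := fun i =>
    chirp (α i) (β i) (24 * (Q : ℝ)) hL1 (20 * Q) (K i) (by omega) (Φ i) (le_refl _) (hKlow i)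
  choose f0 hf0ES hf0b hf0e using hch
  -- include the constant phase
  set f : ι → ℝ → ℂ := fun i x => Complex.exp (Complex.I * ((-(α i) : ℝ) : ℂ)) * f0 i x with hf
  set e : ι → ℝ → ℂ := fun i x =>
    Complex.exp (Complex.I * ((α i * (x ^ 2 - 1) + β i * x : ℝ) : ℂ)) with he
  have hphase : ∀ y : ℝ, ‖Complex.exp (Complex.I * (y : ℂ))‖ = 1 := fun y => by
    rw [mul_comm]; exact Complex.norm_exp_ofReal_mul_I y
  have hfES : ∀ i, ES (Real.exp (Φ i)) (4 * ((20 * Q : ℕ) : ℝ) * (K i) / (24 * Q)) (f i) := fun i => by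
    have := (hf0ES i).smul (Complex.exp (Complex.I * ((-(α i) : ℝ) : ℂ)))
    rw [hphase, one_mul] at this
    exact this
  set δ : ι → ℝ := fun i => Real.exp (-(K i : ℝ)) + Φ i * ((20 * Q : ℕ) : ℝ) / 4 ^ (20 * Q) with hδ
  have hδ0 : ∀ i, 0 ≤ δ i := fun i => by
    have := hΦ0 i
    simp only [hδ]; positivity
  have hfb : ∀ i, ∀ x, ‖f i x‖ ≤ 1 + Real.exp (-(K i : ℝ)) := fun i x => by
    simp only [hf]; rw [norm_mul, hphase, one_mul]; exact hf0b i x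
  have hfb' : ∀ i, ∀ x, ‖f i x‖ ≤ 1 + δ i := fun i x => by
    refine (hfb i x).trans ?_
    have h1 : 0 ≤ Φ i * ((20 * Q : ℕ) : ℝ) / 4 ^ (20 * Q) := by
      have := hΦ0 i; positivity
    simp only [hδ]; linarith
  have hfe : ∀ i, ∀ x, |x| ≤ 12 * (Q : ℝ) → ‖f i x - e i x‖ ≤ δ i := fun i x hx => by
    have h1 : f i x - e i x = Complex.exp (Complex.I * ((-(α i) : ℝ) : ℂ)) *
        (f0 i x - Complex.exp (Complex.I * ((α i * x ^ 2 + β i * x : ℝ) : ℂ))) := by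
      have key : Complex.exp (Complex.I * ((-(α i) : ℝ) : ℂ)) *
          Complex.exp (Complex.I * ((α i * x ^ 2 + β i * x : ℝ) : ℂ)) =
          Complex.exp (Complex.I * ((α i * (x ^ 2 - 1) + β i * x : ℝ) : ℂ)) := by
        rw [← Complex.exp_add]
        congr 1
        push_cast; ring
      simp only [hf, he]
      rw [← key]; ring
    rw [h1, norm_mul, hphase, one_mul]
    exact hf0e i x (by linarith)
  -- sums
  have hab : ∀ i ∈ B, |α i| + |β i| ≤ 544 * (α i ^ 2 + β i ^ 2) := fun i hi => by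
    have h1 := hBα i hi
    have h2 : |α i| ^ 2 = α i ^ 2 := sq_abs _
    have h3 : |β i| ^ 2 = β i ^ 2 := sq_abs _
    nlinarith [sq_nonneg (|β i| - 1), abs_nonneg (β i)]
  have hSΦ : ∑ i ∈ B, Φ i ≤ 10 ^ 6 * (Q : ℝ) ^ 2 * T2 := by
    calc ∑ i ∈ B, Φ i ≤ ∑ i ∈ B, 1728 * (Q : ℝ) ^ 2 * (544 * (α i ^ 2 + β i ^ 2)) := by
          apply Finset.sum_le_sum; intro i hi
          refine (hΦle i).trans ?_
          gcongr; exact hab i hi
      _ = 1728 * 544 * (Q : ℝ) ^ 2 * ∑ i ∈ B, (α i ^ 2 + β i ^ 2) := by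
          rw [Finset.mul_sum]; apply Finset.sum_congr rfl; intro i _; ring
      _ ≤ 1728 * 544 * (Q : ℝ) ^ 2 * T2 := by gcongr
      _ ≤ 10 ^ 6 * (Q : ℝ) ^ 2 * T2 := by
          have : 0 ≤ (Q : ℝ) ^ 2 * T2 := by positivity
          nlinarith
  have hT20 : (0 : ℝ) < T2 := by linarith
  have hSδ : ∑ i ∈ B, δ i ≤ (1 / 2) ^ (Q + 4) := by
    have h1 : ∑ i ∈ B, Real.exp (-(K i : ℝ)) ≤ (1 / 2) ^ (Q + 5) := by
      calc ∑ i ∈ B, Real.exp (-(K i : ℝ)) ≤ ∑ _i ∈ B, (1 / 2 : ℝ) ^ (20 * Q) := by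
            apply Finset.sum_le_sum; intro i _
            refine (fool_exp_neg_le (K i)).trans ?_
            apply pow_le_pow_of_le_one (by norm_num) (by norm_num)
            simp only [hK]; omega
        _ = B.card * (1 / 2 : ℝ) ^ (20 * Q) := by rw [Finset.sum_const, nsmul_eq_mul]
        _ ≤ (1024 * 2 ^ Q) * (1 / 2 : ℝ) ^ (20 * Q) := by
            gcongr; linarith
        _ = 2 ^ (Q + 10) * (1 / 2 : ℝ) ^ (20 * Q) := by rw [pow_add]; norm_num; ring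
        _ ≤ 2 ^ (Q + 10) * (1 / 2 : ℝ) ^ ((Q + 10) + (Q + 5)) := by
            gcongr 2 ^ (Q + 10) * ?_
            apply pow_le_pow_of_le_one (by norm_num) (by norm_num); omega
        _ = (1 / 2) ^ (Q + 5) := by
            rw [pow_add (1 / 2 : ℝ) (Q + 10), ← mul_assoc, ← mul_pow]; norm_num
    have h2 : ∑ i ∈ B, Φ i * ((20 * Q : ℕ) : ℝ) / 4 ^ (20 * Q) ≤ (1 / 2) ^ (Q + 5) := by
      rw [← Finset.sum_div, ← Finset.sum_mul]
      rw [div_le_iff₀ (by positivity)]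
      push_cast
      have hq := fool_nat_le Q
      have e1 : (1 / 2 : ℝ) ^ (Q + 5) * 4 ^ (20 * Q) = 2 ^ (40 * Q - (Q + 5)) := by
        have : (4 : ℝ) ^ (20 * Q) = 2 ^ (Q + 5) * 2 ^ (40 * Q - (Q + 5)) := by
          rw [← pow_add, show (4 : ℝ) = 2 ^ 2 by norm_num, ← pow_mul]
          congr 1; omega
        rw [this, ← mul_assoc, ← mul_pow]; norm_num
      rw [e1]
      calc (∑ i ∈ B, Φ i) * (20 * (Q : ℝ)) ≤ (10 ^ 6 * (Q : ℝ) ^ 2 * T2) * (20 * (Q : ℝ)) := by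
            gcongr
        _ ≤ (10 ^ 6 * (2 ^ Q : ℝ) ^ 2 * 2 ^ Q) * (20 * (2 : ℝ) ^ Q) := by gcongr
        _ = (2 * 10 ^ 7) * 2 ^ (4 * Q) := by rw [pow_mul']; ring
        _ ≤ 2 ^ 25 * 2 ^ (4 * Q) := by gcongr; norm_num
        _ = 2 ^ (25 + 4 * Q) := by rw [pow_add]
        _ ≤ 2 ^ (40 * Q - (Q + 5)) := by
            apply pow_le_pow_right₀ (by norm_num); omega
    calc ∑ i ∈ B, δ i = ∑ i ∈ B, Real.exp (-(K i : ℝ)) +
          ∑ i ∈ B, Φ i * ((20 * Q : ℕ) : ℝ) / 4 ^ (20 * Q) := Finset.sum_add_distrib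
      _ ≤ (1 / 2) ^ (Q + 5) + (1 / 2) ^ (Q + 5) := add_le_add h1 h2
      _ = (1 / 2) ^ (Q + 4) := by rw [show Q + 5 = (Q + 4) + 1 by ring, pow_succ]; ring
  have hSδ' : ∑ i ∈ B, δ i ≤ 1 / 2 := by
    refine hSδ.trans ?_
    calc (1 / 2 : ℝ) ^ (Q + 4) ≤ (1 / 2) ^ 1 := by
          apply pow_le_pow_of_le_one (by norm_num) (by norm_num); omega
      _ = 1 / 2 := by norm_num
  have hX : (1 : ℝ) ≤ (Q : ℝ) ^ 4 * T2 + A.card * RA ^ 2 := by
    have h1 : (1 : ℝ) ≤ (Q : ℝ) ^ 4 := one_le_pow₀ hQr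
    have h2 : (0 : ℝ) ≤ A.card * RA ^ 2 := by positivity
    nlinarith
  set X : ℝ := (Q : ℝ) ^ 4 * T2 + A.card * RA ^ 2 with hXdef
  have hQ4 : (Q : ℝ) ≤ (Q : ℝ) ^ 4 := by
    calc (Q : ℝ) = (Q : ℝ) ^ 1 := by ring
      _ ≤ (Q : ℝ) ^ 4 := pow_le_pow_right₀ hQr (by norm_num)
  have hQ24 : (Q : ℝ) ^ 2 ≤ (Q : ℝ) ^ 4 := pow_le_pow_right₀ hQr (by norm_num)
  have hQT : (Q : ℝ) ^ 4 * T2 ≤ X := by
    have h2 : (0 : ℝ) ≤ A.card * RA ^ 2 := by positivity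
    linarith
  have hRX : (A.card : ℝ) * RA ^ 2 ≤ X := by
    have h2 : (0 : ℝ) ≤ (Q : ℝ) ^ 4 * T2 := by positivity
    linarith
  have hQX : (Q : ℝ) ≤ X := by
    refine hQ4.trans (le_trans ?_ hQT)
    have : (0 : ℝ) ≤ (Q : ℝ) ^ 4 := by positivity
    nlinarith
  set N₁ : ℕ := ⌈10 ^ 13 * X⌉₊ with hN1
  have hN1low : 10 ^ 13 * X ≤ (N₁ : ℝ) := Nat.le_ceil _
  have hN1up : (N₁ : ℝ) ≤ 2 * 10 ^ 13 * X := by
    have := Nat.ceil_lt_add_one (show 0 ≤ 10 ^ 13 * X by linarith)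
    linarith
  have h4N : 4 * N₁ ≤ N := by
    have : (4 * N₁ : ℝ) ≤ N := by linarith
    exact_mod_cast this
  -- the replacement step, for any matching measure
  have hrep : ∀ (ν : Measure (ι → ℝ)) [IsProbabilityMeasure ν], MM N ν →
      ‖(∫ x, (∏ i ∈ A, h i (x i)) * Complex.exp (Complex.I *
          ((∑ i ∈ Aᶜ, (α i * (x i ^ 2 - 1) + β i * x i) : ℝ) : ℂ)) ∂ν) -
        ∫ x, ((∏ i ∈ A, h i (x i)) * (∏ i ∈ B, f i (x i))) * Complex.exp (Complex.I *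
          ((∑ i ∈ G, (α i * (x i ^ 2 - 1) + β i * x i) : ℝ) : ℂ)) ∂ν‖ ≤
        (1 / 2) ^ (Q + 2) := by
    intro ν _ hν
    have hp : ∀ i ∈ B, ν.real {x | 12 * (Q : ℝ) ≤ |x i|} ≤ 2 * (1 / 2) ^ (18 * Q) := by
      intro i _
      have ht : 2 * (18 * Q) ≤ N := by
        have h1 : (10 : ℝ) ^ 13 * Q ≤ N₁ := le_trans (by gcongr) hN1low
        have h2 : 36 * Q ≤ N₁ := by
          have : (36 * Q : ℝ) ≤ N₁ := by nlinarith
          exact_mod_cast this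
        omega
      refine (tail_coord ν hν (18 * Q) ht i (12 * (Q : ℝ)) (by positivity)).trans ?_
      have hfr : 4 * ((18 * Q : ℕ) : ℝ) / (12 * (Q : ℝ)) ^ 2 ≤ 1 / 2 := by
        rw [div_le_div_iff₀ (by positivity) (by norm_num)]
        push_cast
        nlinarith
      exact mul_le_mul_of_nonneg_left (pow_le_pow_left₀ (by positivity) hfr _) (by norm_num)
    have hmain := fool_repl ν A B h (fun i hi => (hES i hi).measurable) hh1 e f
      (fun i _ => by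
        simp only [he]
        fun_prop)
      (fun i _ => (hfES i).measurable)
      (fun x => Complex.exp (Complex.I *
          ((∑ i ∈ G, (α i * (x i ^ 2 - 1) + β i * x i) : ℝ) : ℂ)))
      (by fun_prop) (fun x => (hphase _).le)
      (fun i _ x => by simp only [he]; exact (hphase _).le) δ (fun i _ => hδ0 i)
      (fun i _ => hfb' i) (12 * (Q : ℝ)) (fun i _ => hfe i) hSδ' _ hp
    have hEq : ∀ x : ι → ℝ, (∏ i ∈ A, h i (x i)) * Complex.exp (Complex.I *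
          ((∑ i ∈ Aᶜ, (α i * (x i ^ 2 - 1) + β i * x i) : ℝ) : ℂ)) =
        (∏ i ∈ A, h i (x i)) * (∏ i ∈ B, e i (x i)) * Complex.exp (Complex.I *
          ((∑ i ∈ G, (α i * (x i ^ 2 - 1) + β i * x i) : ℝ) : ℂ)) := by
      intro x
      rw [mul_assoc]
      congr 1
      rw [hsplit (fun i => α i * (x i ^ 2 - 1) + β i * x i)]
      rw [Complex.ofReal_add, mul_add, Complex.exp_add]
      congr 1
      simp only [he]
      rw [← Complex.exp_sum, Complex.ofReal_sum, Finset.mul_sum]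
    simp_rw [hEq]
    refine hmain.trans ?_
    have h5 : 3 * ((B.card : ℝ) * (2 * (1 / 2) ^ (18 * Q))) ≤ (1 / 2) ^ (Q + 3) := by
      calc 3 * ((B.card : ℝ) * (2 * (1 / 2) ^ (18 * Q)))
          ≤ 3 * ((1024 * 2 ^ Q) * (2 * (1 / 2) ^ (18 * Q))) := by
            gcongr; linarith
        _ = 6144 * 2 ^ Q * (1 / 2) ^ (18 * Q) := by ring
        _ ≤ 2 ^ 13 * 2 ^ Q * (1 / 2) ^ (18 * Q) := by gcongr; norm_num
        _ = 2 ^ (13 + Q) * (1 / 2) ^ (18 * Q) := by rw [pow_add]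
        _ ≤ 2 ^ (13 + Q) * (1 / 2) ^ ((13 + Q) + (Q + 3)) := by
            gcongr 2 ^ (13 + Q) * ?_
            apply pow_le_pow_of_le_one (by norm_num) (by norm_num); omega
        _ = (1 / 2) ^ (Q + 3) := by
            rw [pow_add (1 / 2 : ℝ) (13 + Q), ← mul_assoc, ← mul_pow]; norm_num
    have h6 : 2 * ∑ i ∈ B, δ i ≤ (1 / 2) ^ (Q + 3) := by
      calc 2 * ∑ i ∈ B, δ i ≤ 2 * (1 / 2) ^ (Q + 4) := by linarith
        _ = (1 / 2) ^ (Q + 3) := by rw [show Q + 4 = (Q + 3) + 1 by ring, pow_succ]; ring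
    calc 2 * ∑ i ∈ B, δ i + 3 * ((B.card : ℝ) * (2 * (1 / 2) ^ (18 * Q)))
        ≤ (1 / 2) ^ (Q + 3) + (1 / 2) ^ (Q + 3) := add_le_add h6 h5
      _ = (1 / 2) ^ (Q + 2) := by rw [show Q + 3 = (Q + 2) + 1 by ring, pow_succ]; ring
  -- the main comparison
  have hcomb : ‖(∫ x, ((∏ i ∈ A, h i (x i)) * (∏ i ∈ B, f i (x i))) * Complex.exp (Complex.I *
          ((∑ i ∈ G, (α i * (x i ^ 2 - 1) + β i * x i) : ℝ) : ℂ)) ∂μ) -
        ∫ x, ((∏ i ∈ A, h i (x i)) * (∏ i ∈ B, f i (x i))) * Complex.exp (Complex.I *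
          ((∑ i ∈ G, (α i * (x i ^ 2 - 1) + β i * x i) : ℝ) : ℂ)) ∂(gam ι)‖ ≤
        2 * (Real.exp (-N₁) + 4 * (1 / 2) ^ N₁) := by
    set S : Finset ι := A ∪ B with hS
    set Cc : ι → ℝ := fun i => if i ∈ A then CA else Real.exp (Φ i) with hCc
    set Rr : ι → ℝ := fun i => if i ∈ A then RA else 4 * ((20 * Q : ℕ) : ℝ) * (K i) / (24 * Q)
      with hRr
    have hRr0 : ∀ i, 0 ≤ Rr i := fun i => by
      simp only [hRr]; split_ifs
      · exact hRA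
      · positivity
    set ff : ι → ℝ → ℂ := fun i => if i ∈ A then h i else f i with hff
    have hdisj : Disjoint A B := by
      rw [Finset.disjoint_left]; intro i hiA hiB; exact hBA i hiB hiA
    have hprod : ∀ x : ι → ℝ, (∏ i ∈ A, h i (x i)) * (∏ i ∈ B, f i (x i)) =
        ∏ i ∈ S, ff i (x i) := by
      intro x
      rw [hS, Finset.prod_union hdisj]
      congr 1
      · apply Finset.prod_congr rfl; intro i hi; simp [hff, hi]
      · apply Finset.prod_congr rfl; intro i hi; simp [hff, hBA i hi]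
    have hMES : MES (∏ i ∈ S, Cc i) (fun i => if i ∈ S then Rr i else 0)
        (fun x => ∏ i ∈ S, ff i (x i)) := by
      apply MES.prod S Cc Rr (fun i _ => hRr0 i)
      intro i hi
      by_cases hiA : i ∈ A
      · simp only [hff, hCc, hRr, if_pos hiA]; exact hES i hiA
      · simp only [hff, hCc, hRr, if_neg hiA]; exact hfES i
    have hRR0 : ∀ i, 0 ≤ (if i ∈ S then Rr i else 0) := fun i => by
      split_ifs
      · exact hRr0 i
      · exact le_refl _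
    have hHb : ∀ x : ι → ℝ, ‖∏ i ∈ S, ff i (x i)‖ ≤ 2 := by
      intro x
      rw [← hprod, norm_mul, norm_prod, norm_prod]
      have h1 : ∏ i ∈ A, ‖h i (x i)‖ ≤ 1 :=
        Finset.prod_le_one (fun i _ => norm_nonneg _) (fun i hi => hh1 i hi _)
      have h2 : ∏ i ∈ B, ‖f i (x i)‖ ≤ 2 := by
        calc ∏ i ∈ B, ‖f i (x i)‖ ≤ ∏ i ∈ B, (1 + δ i) :=
              Finset.prod_le_prod (fun i _ => norm_nonneg _) (fun i _ => hfb' i _)
          _ ≤ Real.exp (∑ i ∈ B, δ i) := fool_prod_exp B δ (fun i _ => hδ0 i)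
          _ ≤ 2 := by
              have := fool_exp_bound (Finset.sum_nonneg (fun i _ => hδ0 i)) hSδ'
              linarith
      have h3 : 0 ≤ ∏ i ∈ B, ‖f i (x i)‖ := Finset.prod_nonneg (fun i _ => norm_nonneg _)
      have h4 : 0 ≤ ∏ i ∈ A, ‖h i (x i)‖ := Finset.prod_nonneg (fun i _ => norm_nonneg _)
      nlinarith
    have hRsum : 600 * ∑ i, (if i ∈ S then Rr i else 0) ^ 2 ≤ (N₁ : ℝ) := by
      have h1 : ∑ i, (if i ∈ S then Rr i else 0) ^ 2 = ∑ i ∈ S, Rr i ^ 2 := by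
        have h0 : ∀ i, (if i ∈ S then Rr i else 0) ^ 2 = if i ∈ S then Rr i ^ 2 else 0 := by
          intro i; split_ifs <;> simp
        simp_rw [h0]
        rw [Finset.sum_ite_mem, Finset.univ_inter]
      rw [h1, hS, Finset.sum_union hdisj]
      have h2 : ∑ i ∈ A, Rr i ^ 2 = A.card * RA ^ 2 := by
        rw [Finset.sum_congr rfl (g := fun _ => RA ^ 2), Finset.sum_const, nsmul_eq_mul]
        intro i hi; simp [hRr, hi]
      have h3 : ∑ i ∈ B, Rr i ^ 2 ≤ 13 * 10 ^ 9 * ((Q : ℝ) ^ 4 * T2) := by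
        calc ∑ i ∈ B, Rr i ^ 2 ≤ ∑ i ∈ B, 13 * 10 ^ 9 * (Q : ℝ) ^ 4 * (α i ^ 2 + β i ^ 2) := by
              apply Finset.sum_le_sum; intro i hi
              have hv : Rr i ≤ 4 * (8 * Φ i + 21 * Q) := by
                simp only [hRr, if_neg (hBA i hi)]
                rw [div_le_iff₀ (by positivity)]
                push_cast
                have hk := hKup i
                have : 4 * (20 * (Q : ℝ)) * K i ≤ 4 * (20 * (Q : ℝ)) * (8 * Φ i + 21 * Q) := by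
                  gcongr
                have h0 : 0 ≤ (8 * Φ i + 21 * Q) * (Q : ℝ) := by have := hΦ0 i; positivity
                nlinarith
              have hv2 : Rr i ^ 2 ≤ 2048 * Φ i ^ 2 + 14112 * (Q : ℝ) ^ 2 := by
                have h00 := hRr0 i
                have h01 : Rr i ^ 2 ≤ (4 * (8 * Φ i + 21 * Q)) ^ 2 := by gcongr
                nlinarith [sq_nonneg (8 * Φ i - 21 * Q)]
              have hv3 : Φ i ^ 2 ≤ 5971968 * (Q : ℝ) ^ 4 * (α i ^ 2 + β i ^ 2) := by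
                have h00 := hΦ0 i
                have h01 : Φ i ^ 2 ≤ (1728 * (Q : ℝ) ^ 2 * (|α i| + |β i|)) ^ 2 := by
                  gcongr; exact hΦle i
                have h02 : (|α i| + |β i|) ^ 2 ≤ 2 * (α i ^ 2 + β i ^ 2) := by
                  have e1 : |α i| ^ 2 = α i ^ 2 := sq_abs _
                  have e2 : |β i| ^ 2 = β i ^ 2 := sq_abs _
                  nlinarith [sq_nonneg (|α i| - |β i|)]
                calc Φ i ^ 2 ≤ (1728 * (Q : ℝ) ^ 2 * (|α i| + |β i|)) ^ 2 := h01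
                  _ = 2985984 * (Q : ℝ) ^ 4 * (|α i| + |β i|) ^ 2 := by ring
                  _ ≤ 2985984 * (Q : ℝ) ^ 4 * (2 * (α i ^ 2 + β i ^ 2)) := by gcongr
                  _ = 5971968 * (Q : ℝ) ^ 4 * (α i ^ 2 + β i ^ 2) := by ring
              have hv4 : (Q : ℝ) ^ 2 ≤ 1024 * (Q : ℝ) ^ 4 * (α i ^ 2 + β i ^ 2) := by
                have hb := hBsq i hi
                have hb2 : 1 ≤ 1024 * (α i ^ 2 + β i ^ 2) := by nlinarith [sq_nonneg (β i)]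
                calc (Q : ℝ) ^ 2 ≤ (Q : ℝ) ^ 4 * 1 := by linarith
                  _ ≤ (Q : ℝ) ^ 4 * (1024 * (α i ^ 2 + β i ^ 2)) := by gcongr
                  _ = 1024 * (Q : ℝ) ^ 4 * (α i ^ 2 + β i ^ 2) := by ring
              have hnn : 0 ≤ (Q : ℝ) ^ 4 * (α i ^ 2 + β i ^ 2) := by positivity
              nlinarith
          _ = 13 * 10 ^ 9 * (Q : ℝ) ^ 4 * ∑ i ∈ B, (α i ^ 2 + β i ^ 2) := by
              rw [Finset.mul_sum]
          _ ≤ 13 * 10 ^ 9 * (Q : ℝ) ^ 4 * T2 := by gcongr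
          _ = 13 * 10 ^ 9 * ((Q : ℝ) ^ 4 * T2) := by ring
      rw [h2]
      have h4 : (0 : ℝ) ≤ A.card * RA ^ 2 := by positivity
      have h5 : (0 : ℝ) ≤ (Q : ℝ) ^ 4 * T2 := by positivity
      nlinarith
    have hCbound : (∏ i ∈ S, Cc i) ^ 2 * 2 ^ S.card ≤ Real.exp (2 * N₁) := by
      have hpA : ∏ i ∈ A, Cc i ≤ Real.exp ((Q : ℝ) ^ 2) := by
        rw [Finset.prod_congr rfl (g := fun _ => CA) (fun i hi => by simp [hCc, hi]),
          Finset.prod_const]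
        rcases Nat.eq_zero_or_pos A.card with h0 | h0
        · rw [h0, pow_zero]; exact Real.one_le_exp (by positivity)
        · obtain ⟨i, hi⟩ := Finset.card_pos.mp h0
          have hCA0 : 0 ≤ CA := (hES i hi).nonneg
          calc CA ^ A.card ≤ (2 ^ Q) ^ A.card := by gcongr
            _ ≤ (2 ^ Q) ^ Q := by
                apply pow_le_pow_right₀ _ hAQ
                exact one_le_pow₀ (by norm_num)
            _ = (2 : ℝ) ^ (Q * Q) := by rw [← pow_mul]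
            _ ≤ Real.exp ((Q * Q : ℕ) : ℝ) := fool_two_pow_le _
            _ = Real.exp ((Q : ℝ) ^ 2) := by push_cast; ring_nf
      have hpA0 : 0 ≤ ∏ i ∈ A, Cc i := by
        apply Finset.prod_nonneg; intro i hi
        simp only [hCc, if_pos hi]; exact (hES i hi).nonneg
      have hpB : ∏ i ∈ B, Cc i = Real.exp (∑ i ∈ B, Φ i) := by
        rw [Real.exp_sum]
        apply Finset.prod_congr rfl; intro i hi; simp [hCc, hBA i hi]
      have hcardS : (S.card : ℝ) ≤ Q + 1024 * T2 := by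
        have h1 : (S.card : ℝ) ≤ A.card + B.card := by
          exact_mod_cast Finset.card_union_le A B
        have h2 : (A.card : ℝ) ≤ Q := by exact_mod_cast hAQ
        linarith
      have hS1 : ∏ i ∈ S, Cc i ≤ Real.exp ((Q : ℝ) ^ 2 + 10 ^ 6 * (Q : ℝ) ^ 2 * T2) := by
        rw [hS, Finset.prod_union hdisj, hpB, Real.exp_add]
        gcongr
      have hS0 : 0 ≤ ∏ i ∈ S, Cc i := by
        rw [hS, Finset.prod_union hdisj, hpB]; positivity
      calc (∏ i ∈ S, Cc i) ^ 2 * 2 ^ S.card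
          ≤ (Real.exp ((Q : ℝ) ^ 2 + 10 ^ 6 * (Q : ℝ) ^ 2 * T2)) ^ 2 * Real.exp S.card := by
            gcongr
            exact fool_two_pow_le _
        _ = Real.exp (2 * ((Q : ℝ) ^ 2 + 10 ^ 6 * (Q : ℝ) ^ 2 * T2) + S.card) := by
            rw [← Real.exp_nat_mul, ← Real.exp_add]; norm_num
        _ ≤ Real.exp (2 * N₁) := by
            apply Real.exp_le_exp.mpr
            have h1 : (Q : ℝ) ^ 2 * T2 ≤ X := le_trans (by gcongr) hQT
            have h2 : (Q : ℝ) ^ 2 ≤ (Q : ℝ) ^ 2 * T2 := by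
              have : (0 : ℝ) ≤ (Q : ℝ) ^ 2 := by positivity
              nlinarith
            have h3 : T2 ≤ (Q : ℝ) ^ 2 * T2 := by
              have : (1 : ℝ) ≤ (Q : ℝ) ^ 2 := one_le_pow₀ hQr
              nlinarith
            nlinarith
    have hM : 128 * T2 ≤ (N₁ : ℝ) := by
      have h3 : T2 ≤ (Q : ℝ) ^ 4 * T2 := by
        have : (1 : ℝ) ≤ (Q : ℝ) ^ 4 := one_le_pow₀ hQr
        nlinarith
      nlinarith
    have := comb (N := N) (N₁ := N₁) (M := N₁) μ hμ (∏ i ∈ S, Cc i)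
      (fun i => if i ∈ S then Rr i else 0) hRR0 S (fun i hi => by simp [hi])
      (fun x => ∏ i ∈ S, ff i (x i)) hMES hHb G α β hGα T2 hsG hM (by omega) (by omega) (by omega)
      hRsum hCbound
    simp_rw [hprod]
    exact this
  have hlast : 2 * (Real.exp (-N₁) + 4 * (1 / 2 : ℝ) ^ N₁) ≤ (1 / 2) ^ (Q + 1) := by
    have h1 := fool_exp_neg_le N₁
    have h2 : Q + 5 ≤ N₁ := by
      have : ((Q + 5 : ℕ) : ℝ) ≤ N₁ := by push_cast; nlinarith
      exact_mod_cast this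
    have h3 : (1 / 2 : ℝ) ^ N₁ ≤ (1 / 2) ^ (Q + 5) :=
      pow_le_pow_of_le_one (by norm_num) (by norm_num) h2
    have h4 : (1 / 2 : ℝ) ^ (Q + 5) = (1 / 2) ^ (Q + 1) / 16 := by
      rw [show Q + 5 = (Q + 1) + 4 by ring, pow_add]; norm_num; ring
    have h5 : (0 : ℝ) ≤ (1 / 2) ^ (Q + 1) := by positivity
    linarith
  have hr1 := hrep μ hμ
  have hr2 := hrep (gam ι) (MM_gam N ι)
  set I1 := ∫ x, (∏ i ∈ A, h i (x i)) * Complex.exp (Complex.I *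
          ((∑ i ∈ Aᶜ, (α i * (x i ^ 2 - 1) + β i * x i) : ℝ) : ℂ)) ∂μ with hI1
  set I2 := ∫ x, (∏ i ∈ A, h i (x i)) * Complex.exp (Complex.I *
          ((∑ i ∈ Aᶜ, (α i * (x i ^ 2 - 1) + β i * x i) : ℝ) : ℂ)) ∂(gam ι) with hI2
  set J1 := ∫ x, ((∏ i ∈ A, h i (x i)) * (∏ i ∈ B, f i (x i))) * Complex.exp (Complex.I *
          ((∑ i ∈ G, (α i * (x i ^ 2 - 1) + β i * x i) : ℝ) : ℂ)) ∂μ with hJ1
  set J2 := ∫ x, ((∏ i ∈ A, h i (x i)) * (∏ i ∈ B, f i (x i))) * Complex.exp (Complex.I *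
          ((∑ i ∈ G, (α i * (x i ^ 2 - 1) + β i * x i) : ℝ) : ℂ)) ∂(gam ι) with hJ2
  have e1 : I1 - I2 = (I1 - J1) + (J1 - J2) - (I2 - J2) := by ring
  rw [e1]
  calc ‖(I1 - J1) + (J1 - J2) - (I2 - J2)‖ ≤ ‖I1 - J1‖ + ‖J1 - J2‖ + ‖I2 - J2‖ :=
        (norm_sub_le _ _).trans (add_le_add (norm_add_le _ _) (le_refl _))
    _ ≤ (1 / 2) ^ (Q + 2) + (1 / 2) ^ (Q + 1) + (1 / 2) ^ (Q + 2) :=
        add_le_add (add_le_add hr1 (hcomb.trans hlast)) hr2
    _ = (1 / 2) ^ Q := by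
        rw [show Q + 2 = Q + 1 + 1 by ring, pow_succ, pow_succ]; ring

end Pool.Agent.KWI
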