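import Pool.Agent.Lib.MP_68391b_lc.ExpSum

/-! Jackson type smoothing kernels on a circle of length `2 π L`. -/

namespace Pool.Agent.KWI

open MeasureTheory ProbabilityTheory

/-- The geometric exponential sum with `N` terms. -/
noncomputable def kerE (N : ℕ) (t : ℝ) : ℂ :=
  ∑ l : Fin N, Complex.exp (Complex.I * ((((l : ℕ) : ℝ) * t : ℝ) : ℂ))

/-- The frequency attached to an index of the expansion of the kernel. -/
def kerS (N r : ℕ) (κ : (Fin r → Fin N) × (Fin r → Fin N)) : ℤ :=
  ∑ j, ((κ.1 j : ℕ) : ℤ) - ∑ j, ((κ.2 j : ℕ) : ℤ)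

theorem ker_pow (N r : ℕ) (t : ℝ) :
    kerE N t ^ r = ∑ p : Fin r → Fin N,
      Complex.exp (Complex.I * (((∑ j, ((p j : ℕ) : ℝ)) * t : ℝ) : ℂ)) := by
  unfold kerE
  rw [Fintype.sum_pow]
  refine Finset.sum_congr rfl fun p _ => ?_
  rw [← Complex.exp_sum]
  congr 1
  push_cast
  rw [Finset.sum_mul, Finset.mul_sum]

theorem ker_conj (N : ℕ) (t : ℝ) : (starRingEnd ℂ) (kerE N t) = kerE N (-t) := by
  unfold kerE
  rw [map_sum]
  refine Finset.sum_congr rfl fun l _ => ?_
  rw [← Complex.exp_conj]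
  congr 1
  rw [map_mul, Complex.conj_I, Complex.conj_ofReal]
  push_cast
  ring

theorem ker_expand (N r : ℕ) (t : ℝ) :
    ((‖kerE N t‖ ^ (2 * r) : ℝ) : ℂ) = ∑ κ : (Fin r → Fin N) × (Fin r → Fin N),
      Complex.exp (Complex.I * (((kerS N r κ : ℝ) * t : ℝ) : ℂ)) := by
  have h1 : ((‖kerE N t‖ ^ (2 * r) : ℝ) : ℂ) = kerE N t ^ r * kerE N (-t) ^ r := by
    rw [← ker_conj, ← mul_pow, Complex.mul_conj, Complex.normSq_eq_norm_sq, pow_mul]
    push_cast
    rfl
  rw [h1, ker_pow, ker_pow, Finset.sum_mul_sum, Fintype.sum_prod_type]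
  refine Finset.sum_congr rfl fun p _ => Finset.sum_congr rfl fun q _ => ?_
  rw [← Complex.exp_add]
  congr 1
  unfold kerS
  push_cast
  ring

theorem ker_geom (N : ℕ) (t : ℝ) :
    kerE N t * (Complex.exp (Complex.I * (t : ℂ)) - 1)
      = Complex.exp (Complex.I * (((N : ℝ) * t : ℝ) : ℂ)) - 1 := by
  have h : kerE N t = ∑ l ∈ Finset.range N, Complex.exp (Complex.I * (t : ℂ)) ^ l := by
    unfold kerE
    rw [Finset.sum_range]
    refine Finset.sum_congr rfl fun l _ => ?_
    rw [← Complex.exp_nat_mul]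
    congr 1
    push_cast
    ring
  rw [h, geom_sum_mul, ← Complex.exp_nat_mul]
  congr 2
  push_cast
  ring

theorem ker_bound (N : ℕ) {t : ℝ} (h0 : 0 < |t|) (h1 : |t| ≤ Real.pi) :
    ‖kerE N t‖ ≤ Real.pi / |t| := by
  have hg := congrArg (fun z => ‖z‖) (ker_geom N t)
  simp only [norm_mul] at hg
  have h2 : ‖Complex.exp (Complex.I * (((N : ℝ) * t : ℝ) : ℂ)) - 1‖ ≤ 2 := by
    calc _ ≤ ‖Complex.exp (Complex.I * (((N : ℝ) * t : ℝ) : ℂ))‖ + ‖(1 : ℂ)‖ := norm_sub_le _ _
      _ = 2 := by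
          rw [mul_comm Complex.I, Complex.norm_exp_ofReal_mul_I, norm_one]; norm_num
  have h3 : 2 * |t| / Real.pi ≤ ‖Complex.exp (Complex.I * (t : ℂ)) - 1‖ := by
    rw [Complex.norm_exp_I_mul_ofReal_sub_one, norm_mul, Real.norm_eq_abs, Real.norm_eq_abs,
      abs_two]
    have h4 : |t| / Real.pi ≤ |Real.sin (t / 2)| := by
      have h5 : Real.sin (|t| / 2) = |Real.sin (t / 2)| := by
        have h6 : 0 ≤ Real.sin (|t| / 2) := by
          apply Real.sin_nonneg_of_nonneg_of_le_pi
          · positivity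
          · linarith [Real.pi_pos]
        rcases abs_cases t with h | h
        · rw [h.1] at h6 ⊢
          exact (abs_of_nonneg h6).symm
        · rw [h.1] at h6 ⊢
          rw [show -t / 2 = -(t / 2) by ring, Real.sin_neg] at h6 ⊢
          rw [abs_of_nonpos (by linarith)]
      rw [← h5]
      have h7 := Real.mul_le_sin (x := |t| / 2) (by positivity) (by linarith)
      calc |t| / Real.pi = 2 / Real.pi * (|t| / 2) := by ring
        _ ≤ _ := h7
    calc 2 * |t| / Real.pi = 2 * (|t| / Real.pi) := by ring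
      _ ≤ _ := by gcongr
  have hpi := Real.pi_pos
  have h8 : ‖kerE N t‖ * (2 * |t| / Real.pi) ≤ 2 := by
    calc _ ≤ ‖kerE N t‖ * ‖Complex.exp (Complex.I * (t : ℂ)) - 1‖ := by gcongr
      _ ≤ 2 := by rw [hg]; exact h2
  rw [le_div_iff₀ h0]
  have h9 : ‖kerE N t‖ * (2 * |t| / Real.pi) = 2 * (‖kerE N t‖ * |t|) / Real.pi := by ring
  rw [h9, div_le_iff₀ hpi] at h8
  linarith

theorem ker_cont (N : ℕ) : Continuous (kerE N) := by
  unfold kerE
  fun_prop

theorem ker_exp_int {L : ℝ} (hL : 0 < L) (m : ℤ) :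
    ∫ u in (-(Real.pi * L))..(Real.pi * L),
      Complex.exp (Complex.I * (((m : ℝ) * (u / L) : ℝ) : ℂ))
      = if m = 0 then ((2 * Real.pi * L : ℝ) : ℂ) else 0 := by
  split_ifs with h
  · subst h
    simp only [Int.cast_zero, zero_mul, Complex.ofReal_zero, mul_zero, Complex.exp_zero]
    rw [intervalIntegral.integral_const]
    simp only [Complex.real_smul, mul_one]
    congr 1
    ring
  · have hc : Complex.I * ((m : ℂ) / (L : ℂ)) ≠ 0 := by
      have : (L : ℂ) ≠ 0 := by exact_mod_cast hL.ne'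
      have hm : (m : ℂ) ≠ 0 := by exact_mod_cast h
      exact mul_ne_zero Complex.I_ne_zero (div_ne_zero hm this)
    have h1 : ∀ u : ℝ, Complex.exp (Complex.I * (((m : ℝ) * (u / L) : ℝ) : ℂ))
        = Complex.exp (Complex.I * ((m : ℂ) / (L : ℂ)) * u) := by
      intro u
      congr 1
      push_cast
      ring
    simp_rw [h1]
    rw [integral_exp_mul_complex hc]
    have hL' : (L : ℂ) ≠ 0 := by exact_mod_cast hL.ne'
    have h2 : Complex.exp (Complex.I * ((m : ℂ) / (L : ℂ)) * ((Real.pi * L : ℝ) : ℂ))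
        = Complex.exp (Complex.I * ((m : ℂ) / (L : ℂ)) * ((-(Real.pi * L) : ℝ) : ℂ)) := by
      rw [Complex.exp_eq_exp_iff_exists_int]
      refine ⟨m, ?_⟩
      push_cast
      field_simp
      ring
    rw [h2, sub_self, zero_div]

theorem ker_S_le {N r : ℕ} (κ : (Fin r → Fin N) × (Fin r → Fin N)) :
    |kerS N r κ| ≤ r * N := by
  have h : ∀ p : Fin r → Fin N, (0 : ℤ) ≤ ∑ j, ((p j : ℕ) : ℤ) ∧
      ∑ j, ((p j : ℕ) : ℤ) ≤ r * N := by
    intro p
    constructor
    · exact Finset.sum_nonneg fun j _ => by positivity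
    · calc ∑ j, ((p j : ℕ) : ℤ) ≤ ∑ _j : Fin r, (N : ℤ) :=
            Finset.sum_le_sum fun j _ => by exact_mod_cast (p j).2.le
        _ = r * N := by simp
  unfold kerS
  rw [abs_le]
  constructor
  · linarith [(h κ.1).1, (h κ.2).2]
  · linarith [(h κ.1).2, (h κ.2).1]

/-- The normalising constant of the kernel. -/
noncomputable def kerZ (N r : ℕ) (L : ℝ) : ℝ :=
  ∫ u in (-(Real.pi * L))..(Real.pi * L), ‖kerE N (u / L)‖ ^ (2 * r)

theorem ker_fun_cont (N r : ℕ) (L : ℝ) :
    Continuous fun u : ℝ => ‖kerE N (u / L)‖ ^ (2 * r) := by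
  have := ker_cont N
  fun_prop

theorem ker_fiber {N r : ℕ} {L : ℝ} (hL : 0 < L) (s : ℤ) :
    ((Finset.univ.filter fun κ : (Fin r → Fin N) × (Fin r → Fin N) => kerS N r κ = s).card : ℝ)
      * (2 * Real.pi * L) ≤ kerZ N r L := by
  have hpi := Real.pi_pos
  have h1 : ∫ u in (-(Real.pi * L))..(Real.pi * L),
      ((‖kerE N (u / L)‖ ^ (2 * r) : ℝ) : ℂ)
        * Complex.exp (Complex.I * (((-s : ℤ) : ℝ) * (u / L) : ℝ))
      = (((Finset.univ.filter fun κ : (Fin r → Fin N) × (Fin r → Fin N) =>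
          kerS N r κ = s).card : ℝ) * (2 * Real.pi * L) : ℝ) := by
    have h2 : ∀ u : ℝ, ((‖kerE N (u / L)‖ ^ (2 * r) : ℝ) : ℂ)
        * Complex.exp (Complex.I * (((-s : ℤ) : ℝ) * (u / L) : ℝ))
        = ∑ κ : (Fin r → Fin N) × (Fin r → Fin N),
          Complex.exp (Complex.I * ((((kerS N r κ - s : ℤ) : ℝ) * (u / L) : ℝ) : ℂ)) := by
      intro u
      rw [ker_expand, Finset.sum_mul]
      refine Finset.sum_congr rfl fun κ _ => ?_
      rw [← Complex.exp_add]
      congr 1
      push_cast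
      ring
    simp_rw [h2]
    rw [intervalIntegral.integral_finsetSum]
    · simp_rw [ker_exp_int hL]
      rw [← Finset.sum_filter]
      have h3 : (Finset.univ.filter fun κ : (Fin r → Fin N) × (Fin r → Fin N) =>
          kerS N r κ - s = 0) = Finset.univ.filter fun κ => kerS N r κ = s := by
        ext κ
        simp [sub_eq_zero]
      rw [h3, Finset.sum_const, nsmul_eq_mul]
      push_cast
      ring
    · intro κ _
      apply Continuous.intervalIntegrable
      fun_prop
  have h4 : ‖∫ u in (-(Real.pi * L))..(Real.pi * L),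
      ((‖kerE N (u / L)‖ ^ (2 * r) : ℝ) : ℂ)
        * Complex.exp (Complex.I * (((-s : ℤ) : ℝ) * (u / L) : ℝ))‖ ≤ kerZ N r L := by
    refine (intervalIntegral.norm_integral_le_integral_norm (by nlinarith)).trans (le_of_eq ?_)
    unfold kerZ
    refine intervalIntegral.integral_congr fun u _ => ?_
    simp only [norm_mul]
    rw [mul_comm Complex.I, Complex.norm_exp_ofReal_mul_I, mul_one, Complex.norm_real,
      Real.norm_of_nonneg (by positivity)]
  rw [h1, Complex.norm_real, Real.norm_of_nonneg (by positivity)] at h4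
  exact h4

theorem ker_card {N r : ℕ} (hN : 1 ≤ N) (hr : 1 ≤ r) {L : ℝ} (hL : 0 < L) :
    (N : ℝ) ^ (2 * r) * (2 * Real.pi * L) ≤ (3 * r * N) * kerZ N r L := by
  have h1 : (Finset.univ : Finset ((Fin r → Fin N) × (Fin r → Fin N))).card
      = ∑ s ∈ Finset.Icc (-(r * N : ℤ)) (r * N),
        (Finset.univ.filter fun κ : (Fin r → Fin N) × (Fin r → Fin N) =>
          kerS N r κ = s).card := by
    apply Finset.card_eq_sum_card_fiberwise
    intro κ _
    have := abs_le.mp (ker_S_le κ)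
    simp only [Finset.coe_Icc, Set.mem_Icc]
    exact this
  have h2 : (Finset.univ : Finset ((Fin r → Fin N) × (Fin r → Fin N))).card = N ^ (2 * r) := by
    rw [Finset.card_univ]
    simp only [Fintype.card_prod, Fintype.card_pi, Finset.prod_const, Fintype.card_fin,
      Finset.card_univ]
    ring
  rw [h2] at h1
  have h3 : ((N : ℝ) ^ (2 * r)) = ∑ s ∈ Finset.Icc (-(r * N : ℤ)) (r * N),
        ((Finset.univ.filter fun κ : (Fin r → Fin N) × (Fin r → Fin N) =>
          kerS N r κ = s).card : ℝ) := by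
    exact_mod_cast h1
  rw [h3, Finset.sum_mul]
  calc _ ≤ ∑ _s ∈ Finset.Icc (-(r * N : ℤ)) (r * N), kerZ N r L :=
        Finset.sum_le_sum fun s _ => ker_fiber hL s
    _ = ((Finset.Icc (-(r * N : ℤ)) (r * N)).card : ℝ) * kerZ N r L := by
        rw [Finset.sum_const, nsmul_eq_mul]
    _ ≤ (3 * r * N) * kerZ N r L := by
        have hZ : 0 ≤ kerZ N r L := by
          have := ker_fiber (N := N) (r := r) hL 0
          have hpi := Real.pi_pos
          exact le_trans (by positivity) this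
        gcongr
        rw [Int.card_Icc]
        have h5 : ((r * N : ℤ) + 1 - -(r * N : ℤ)).toNat = 2 * (r * N) + 1 := by
          omega
        rw [h5]
        push_cast
        have h6 : (1 : ℝ) ≤ (r : ℝ) * N := by
          have h7 : (1 : ℝ) ≤ r := by exact_mod_cast hr
          have h8 : (1 : ℝ) ≤ N := by exact_mod_cast hN
          nlinarith
        linarith

theorem ker_shift {L : ℝ} (hL : 0 < L) (s : ℤ) (g : ℝ → ℂ)
    (hper : ∀ x, g (x + 2 * Real.pi * L) = g x) (x : ℝ) :
    ∫ u in (-(Real.pi * L))..(Real.pi * L),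
      Complex.exp (Complex.I * (((s : ℝ) * (u / L) : ℝ) : ℂ)) * g (x - u)
    = (∫ v in (-(Real.pi * L))..(Real.pi * L),
      Complex.exp (Complex.I * ((-(s : ℝ) * (v / L) : ℝ) : ℂ)) * g v)
      * Complex.exp (Complex.I * (((s : ℝ) / L * x : ℝ) : ℂ)) := by
  have h1 : ∫ u in (-(Real.pi * L))..(Real.pi * L),
      Complex.exp (Complex.I * (((s : ℝ) * (u / L) : ℝ) : ℂ)) * g (x - u)
      = ∫ u in (-(Real.pi * L))..(Real.pi * L),
        (fun v => Complex.exp (Complex.I * (((s : ℝ) * ((x - v) / L) : ℝ) : ℂ)) * g v) (x - u) := by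
    refine intervalIntegral.integral_congr fun u _ => ?_
    simp only
    rw [show x - (x - u) = u by ring]
  rw [h1, intervalIntegral.integral_comp_sub_left
    (fun v => Complex.exp (Complex.I * (((s : ℝ) * ((x - v) / L) : ℝ) : ℂ)) * g v) x]
  have h2 : ∀ v : ℝ, Complex.exp (Complex.I * (((s : ℝ) * ((x - v) / L) : ℝ) : ℂ)) * g v
      = (Complex.exp (Complex.I * ((-(s : ℝ) * (v / L) : ℝ) : ℂ)) * g v)
        * Complex.exp (Complex.I * (((s : ℝ) / L * x : ℝ) : ℂ)) := by
    intro v
    rw [mul_right_comm, ← Complex.exp_add]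
    congr 2
    push_cast
    ring
  simp_rw [h2]
  rw [intervalIntegral.integral_mul_const]
  congr 1
  have hp : Function.Periodic
      (fun v : ℝ => Complex.exp (Complex.I * ((-(s : ℝ) * (v / L) : ℝ) : ℂ)) * g v)
      (2 * Real.pi * L) := by
    intro v
    simp only
    rw [hper v]
    congr 1
    rw [Complex.exp_eq_exp_iff_exists_int]
    refine ⟨-s, ?_⟩
    have : (L : ℂ) ≠ 0 := by exact_mod_cast hL.ne'
    push_cast
    field_simp
    ring
  have h3 := hp.intervalIntegral_add_eq (x - Real.pi * L) (-(Real.pi * L))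
  rw [show x - Real.pi * L + 2 * Real.pi * L = x - -(Real.pi * L) by ring,
    show -(Real.pi * L) + 2 * Real.pi * L = Real.pi * L by ring] at h3
  exact h3

theorem kernel : ∃ C₁ : ℝ, 0 < C₁ ∧ ∀ (Q : ℕ) (_ : 1 ≤ Q) (L δ : ℝ) (_ : 1 ≤ L) (_ : 0 < δ)
    (_ : δ ≤ 1) (_ : L / δ ≤ 2 ^ Q),
    ∃ ν : Measure ℝ, IsProbabilityMeasure ν ∧ ν {u | Real.pi * L < |u|} = 0 ∧
      ν.real {u | δ < |u|} ≤ (1 / 2) ^ Q ∧
      ∀ g : ℝ → ℂ, Measurable g → (∀ x, ‖g x‖ ≤ 1) → (∀ x, g (x + 2 * Real.pi * L) = g x) →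
        ES (C₁ * 4 ^ Q) (C₁ * Q / δ) (fun x => ∫ u, g (x - u) ∂ν) := by
  refine ⟨200, by norm_num, ?_⟩
  intro Q hQ L δ hL1 hδ hδ1 hLδ
  have hL : 0 < L := by linarith
  have hpi := Real.pi_pos
  have hpi4 : Real.pi < 3.5 := by linarith [Real.pi_lt_d2]
  have hQ1 : (1 : ℝ) ≤ Q := by exact_mod_cast hQ
  have hQ2 : (Q : ℝ) ≤ 2 ^ Q := by exact_mod_cast (Nat.lt_two_pow_self (n := Q)).le
  -- parameters
  set N : ℕ := ⌈2 * Real.pi * L / δ⌉₊ with hN
  set r : ℕ := 2 * Q + 6 with hr
  have hLd1 : 1 ≤ L / δ := by rw [le_div_iff₀ hδ]; linarith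
  have hN1 : 2 * Real.pi * L / δ ≤ N := Nat.le_ceil _
  have hN2 : (N : ℝ) ≤ 8 * (L / δ) := by
    have h1 : (N : ℝ) < 2 * Real.pi * L / δ + 1 := Nat.ceil_lt_add_one (by positivity)
    have h2 : 2 * Real.pi * L / δ = 2 * Real.pi * (L / δ) := by ring
    rw [h2] at h1
    nlinarith
  have hNpos : (0 : ℝ) < N := lt_of_lt_of_le (by positivity) hN1
  have hNN : 1 ≤ N := by
    have : 0 < N := by exact_mod_cast hNpos
    exact this
  have hrr : 1 ≤ r := by omega
  have hrQ : (r : ℝ) ≤ 8 * Q := by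
    rw [hr]; push_cast; linarith
  set Z := kerZ N r L with hZdef
  have hcard := ker_card hNN hrr hL
  rw [← hZdef] at hcard
  have hZ : 0 < Z := by
    have h1 : 0 < (N : ℝ) ^ (2 * r) * (2 * Real.pi * L) := by positivity
    have h2 : 0 < (3 * r * N) * Z := lt_of_lt_of_le h1 hcard
    have h3 : (0 : ℝ) < 3 * r * N := by
      have : (0 : ℝ) < r := by exact_mod_cast hrr
      positivity
    exact (mul_pos_iff_of_pos_left h3).mp h2
  -- the measure
  set ρ : ℝ → NNReal := fun u => Real.toNNReal (Z⁻¹ * ‖kerE N (u / L)‖ ^ (2 * r)) with hρ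
  have hρnn : ∀ u, 0 ≤ Z⁻¹ * ‖kerE N (u / L)‖ ^ (2 * r) := fun u => by positivity
  have hρc : Continuous ρ := by
    have := ker_fun_cont N r L
    fun_prop
  have hρm : Measurable ρ := hρc.measurable
  set I : Set ℝ := Set.Ioc (-(Real.pi * L)) (Real.pi * L) with hI
  have hab : -(Real.pi * L) ≤ Real.pi * L := by nlinarith
  set ν : Measure ℝ := (volume.restrict I).withDensity (fun u => (ρ u : ENNReal)) with hν
  have hint : IntervalIntegrable (fun u => Z⁻¹ * ‖kerE N (u / L)‖ ^ (2 * r)) volume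
      (-(Real.pi * L)) (Real.pi * L) := by
    apply Continuous.intervalIntegrable
    have := ker_fun_cont N r L
    fun_prop
  have hone : ∫ u in I, Z⁻¹ * ‖kerE N (u / L)‖ ^ (2 * r) = 1 := by
    rw [hI, ← intervalIntegral.integral_of_le hab, intervalIntegral.integral_const_mul]
    have : ∫ u in (-(Real.pi * L))..(Real.pi * L), ‖kerE N (u / L)‖ ^ (2 * r) = Z := rfl
    rw [this]
    exact inv_mul_cancel₀ hZ.ne'
  have hprob : IsProbabilityMeasure ν := by
    constructor
    rw [hν, withDensity_apply _ MeasurableSet.univ, Measure.restrict_univ]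
    have h1 : ∀ u, (ρ u : ENNReal) = ENNReal.ofReal (Z⁻¹ * ‖kerE N (u / L)‖ ^ (2 * r)) :=
      fun u => rfl
    simp_rw [h1]
    rw [← ofReal_integral_eq_lintegral_ofReal
      ((intervalIntegrable_iff_integrableOn_Ioc_of_le hab).mp hint)
      (Filter.Eventually.of_forall hρnn), hone, ENNReal.ofReal_one]
  refine ⟨ν, hprob, ?_, ?_, ?_⟩
  · -- support
    apply withDensity_absolutelyContinuous
    have hm : MeasurableSet {u : ℝ | Real.pi * L < |u|} :=
      measurableSet_lt measurable_const measurable_norm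
    rw [Measure.restrict_apply hm]
    have : {u : ℝ | Real.pi * L < |u|} ∩ I = ∅ := by
      ext u
      simp only [Set.mem_inter_iff, Set.mem_ofPred_eq, hI, Set.mem_Ioc, Set.mem_empty_iff_false,
        iff_false, not_and, not_le]
      intro h1 h2
      rcases lt_abs.mp h1 with h | h
      · exact h
      · linarith
    rw [this]
    exact measure_empty
  · -- tail
    set A : Set ℝ := {u | δ < |u|} with hA
    have hAm : MeasurableSet A := measurableSet_lt measurable_const measurable_norm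
    have h1 : ν A ≤ ENNReal.ofReal (Z⁻¹ * (Real.pi * L / δ) ^ (2 * r) * (2 * Real.pi * L)) := by
      rw [hν, withDensity_apply _ hAm]
      calc ∫⁻ u in A, (ρ u : ENNReal) ∂(volume.restrict I)
          ≤ ∫⁻ _u in A, ENNReal.ofReal (Z⁻¹ * (Real.pi * L / δ) ^ (2 * r))
              ∂(volume.restrict I) := by
            apply lintegral_mono_ae
            rw [Measure.restrict_restrict hAm]
            filter_upwards [ae_restrict_mem (hAm.inter measurableSet_Ioc)] with u hu
            obtain ⟨hu1, hu2⟩ := hu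
            change ENNReal.ofReal _ ≤ _
            apply ENNReal.ofReal_le_ofReal
            have hu1' : δ < |u| := hu1
            have hu0 : 0 < |u| := by linarith
            have hu2' : |u| ≤ Real.pi * L := abs_le.mpr ⟨hu2.1.le, hu2.2⟩
            have hul : |u / L| = |u| / L := by rw [abs_div, abs_of_pos hL]
            have h3 : ‖kerE N (u / L)‖ ≤ Real.pi * L / δ := by
              refine (ker_bound N (t := u / L) ?_ ?_).trans ?_
              · rw [hul]; positivity
              · rw [hul, div_le_iff₀ hL]; exact hu2'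
              · rw [hul, div_div_eq_mul_div]
                gcongr
            gcongr
        _ = ENNReal.ofReal (Z⁻¹ * (Real.pi * L / δ) ^ (2 * r)) * (volume.restrict I) A := by
            rw [setLIntegral_const]
        _ ≤ ENNReal.ofReal (Z⁻¹ * (Real.pi * L / δ) ^ (2 * r)) * ENNReal.ofReal (2 * Real.pi * L) := by
            gcongr
            calc (volume.restrict I) A ≤ volume I := by
                  rw [Measure.restrict_apply hAm]
                  exact measure_mono Set.inter_subset_right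
              _ = ENNReal.ofReal (2 * Real.pi * L) := by
                  rw [hI, Real.volume_Ioc]
                  congr 1
                  ring
        _ = _ := by rw [← ENNReal.ofReal_mul (by positivity)]
    have h2 : ν.real A ≤ Z⁻¹ * (Real.pi * L / δ) ^ (2 * r) * (2 * Real.pi * L) := by
      rw [Measure.real]
      refine (ENNReal.toReal_mono ENNReal.ofReal_ne_top h1).trans (le_of_eq ?_)
      exact ENNReal.toReal_ofReal (by positivity)
    refine h2.trans ?_
    have h3 : Real.pi * L / δ ≤ N / 2 := by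
      have : 2 * Real.pi * L / δ = 2 * (Real.pi * L / δ) := by ring
      linarith
    have h4 : (Real.pi * L / δ) ^ (2 * r) ≤ (N / 2 : ℝ) ^ (2 * r) := by
      gcongr
    have h5 : Z⁻¹ * (Real.pi * L / δ) ^ (2 * r) * (2 * Real.pi * L)
        ≤ (3 * r * N) * (1 / 2) ^ (2 * r) := by
      rw [inv_mul_eq_div, div_mul_eq_mul_div, div_le_iff₀ hZ]
      calc (Real.pi * L / δ) ^ (2 * r) * (2 * Real.pi * L)
          ≤ (N / 2 : ℝ) ^ (2 * r) * (2 * Real.pi * L) := by gcongr
        _ = ((N : ℝ) ^ (2 * r) * (2 * Real.pi * L)) * (1 / 2) ^ (2 * r) := by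
            rw [div_pow, one_div, inv_pow]; ring
        _ ≤ ((3 * r * N) * Z) * (1 / 2) ^ (2 * r) := by gcongr
        _ = _ := by ring
    refine h5.trans ?_
    have h6 : (N : ℝ) ≤ 8 * 2 ^ Q := hN2.trans (by gcongr)
    have h7 : (1 / 2 : ℝ) ^ (2 * r) = (1 / 2) ^ Q * ((1 / 2) ^ Q * ((1 / 2) ^ Q * (1 / 2) ^ Q))
        * (1 / 4096) := by
      rw [hr]
      have : 2 * (2 * Q + 6) = Q + (Q + (Q + Q)) + 12 := by ring
      rw [this, pow_add, pow_add, pow_add, pow_add]
      norm_num
    have h8 : (2 : ℝ) ^ Q * (1 / 2) ^ Q = 1 := by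
      rw [← mul_pow]; norm_num
    have h9 : (Q : ℝ) * (1 / 2) ^ Q ≤ 1 := by
      calc (Q : ℝ) * (1 / 2) ^ Q ≤ 2 ^ Q * (1 / 2) ^ Q := by gcongr
        _ = 1 := h8
    have h10 : (0 : ℝ) < (1 / 2) ^ Q := by positivity
    have h11 : (1 / 2 : ℝ) ^ Q ≤ 1 := pow_le_one₀ (by norm_num) (by norm_num)
    calc (3 * r * N : ℝ) * (1 / 2) ^ (2 * r)
        ≤ (3 * (8 * Q) * (8 * 2 ^ Q)) * (1 / 2) ^ (2 * r) := by gcongr
      _ = (192 / 4096) * ((Q : ℝ) * (1 / 2) ^ Q) * (2 ^ Q * (1 / 2) ^ Q) * (1 / 2) ^ Q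
            * (1 / 2) ^ Q := by rw [h7]; ring
      _ = (192 / 4096) * ((Q : ℝ) * (1 / 2) ^ Q) * (1 / 2) ^ Q * (1 / 2) ^ Q := by
            rw [h8]; ring
      _ ≤ (192 / 4096) * 1 * 1 * (1 / 2) ^ Q := by gcongr
      _ ≤ (1 / 2) ^ Q := by nlinarith
  · -- finite exponential sum
    intro g hgm hg1 hper
    refine ⟨(Fin r → Fin N) × (Fin r → Fin N), inferInstance,
      fun κ => (Z⁻¹ : ℝ) * ∫ v in (-(Real.pi * L))..(Real.pi * L),
        Complex.exp (Complex.I * ((-(kerS N r κ : ℝ) * (v / L) : ℝ) : ℂ)) * g v,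
      fun κ => (kerS N r κ : ℝ) / L, ?_, ?_, ?_⟩
    · have h1 : ∀ κ : (Fin r → Fin N) × (Fin r → Fin N),
          ‖((Z⁻¹ : ℝ) : ℂ) * ∫ v in (-(Real.pi * L))..(Real.pi * L),
            Complex.exp (Complex.I * ((-(kerS N r κ : ℝ) * (v / L) : ℝ) : ℂ)) * g v‖
          ≤ Z⁻¹ * (2 * Real.pi * L) := by
        intro κ
        rw [norm_mul, Complex.norm_real, Real.norm_of_nonneg (by positivity)]
        gcongr
        have h2 := intervalIntegral.norm_integral_le_of_norm_le_const
          (a := -(Real.pi * L)) (b := Real.pi * L) (C := 1)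
          (f := fun v => Complex.exp (Complex.I * ((-(kerS N r κ : ℝ) * (v / L) : ℝ) : ℂ)) * g v)
          (by
            intro v _
            rw [norm_mul, mul_comm Complex.I, Complex.norm_exp_ofReal_mul_I, one_mul]
            exact hg1 v)
        refine h2.trans (le_of_eq ?_)
        rw [abs_of_nonneg (by linarith)]
        ring
      calc _ ≤ ∑ _κ : (Fin r → Fin N) × (Fin r → Fin N), Z⁻¹ * (2 * Real.pi * L) :=
            Finset.sum_le_sum fun κ _ => h1 κ
        _ = (N : ℝ) ^ (2 * r) * (2 * Real.pi * L) / Z := by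
            rw [Finset.sum_const, nsmul_eq_mul, Finset.card_univ]
            simp only [Fintype.card_prod, Fintype.card_pi, Finset.prod_const, Fintype.card_fin,
              Finset.card_univ]
            push_cast
            rw [two_mul r, pow_add]
            ring
        _ ≤ 3 * r * N := by
            rw [div_le_iff₀ hZ]; exact hcard
        _ ≤ 3 * (8 * Q) * (8 * 2 ^ Q) := by
            have h6 : (N : ℝ) ≤ 8 * 2 ^ Q := hN2.trans (by gcongr)
            gcongr
        _ = 192 * (Q * 2 ^ Q) := by ring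
        _ ≤ 192 * (2 ^ Q * 2 ^ Q) := by gcongr
        _ = 192 * 4 ^ Q := by rw [← mul_pow]; norm_num
        _ ≤ 200 * 4 ^ Q := by gcongr; norm_num
    · intro κ
      have h1 : |(kerS N r κ : ℝ)| ≤ r * N := by exact_mod_cast ker_S_le κ
      calc |(kerS N r κ : ℝ) / L| = |(kerS N r κ : ℝ)| / L := by rw [abs_div, abs_of_pos hL]
        _ ≤ (r * N) / L := by gcongr
        _ ≤ (8 * Q) * (8 * (L / δ)) / L := by gcongr
        _ = 64 * Q / δ := by field_simp; ring
        _ ≤ 200 * Q / δ := by gcongr; norm_num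
    · intro x
      have h1 : ∫ u, g (x - u) ∂ν
          = ∫ u in (-(Real.pi * L))..(Real.pi * L),
            ((Z⁻¹ * ‖kerE N (u / L)‖ ^ (2 * r) : ℝ) : ℂ) * g (x - u) := by
        rw [hν, integral_withDensity_eq_integral_smul hρm, intervalIntegral.integral_of_le hab]
        refine integral_congr_ae (Filter.Eventually.of_forall fun u => ?_)
        simp only [hρ]
        rw [NNReal.smul_def, Real.coe_toNNReal _ (hρnn u), Complex.real_smul]
      change ∫ u, g (x - u) ∂ν = _
      rw [h1]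
      have h2 : ∀ u : ℝ, ((Z⁻¹ * ‖kerE N (u / L)‖ ^ (2 * r) : ℝ) : ℂ) * g (x - u)
          = ∑ κ : (Fin r → Fin N) × (Fin r → Fin N), ((Z⁻¹ : ℝ) : ℂ) *
            (Complex.exp (Complex.I * (((kerS N r κ : ℝ) * (u / L) : ℝ) : ℂ)) * g (x - u)) := by
        intro u
        rw [Complex.ofReal_mul, ker_expand, mul_assoc, Finset.sum_mul, Finset.mul_sum]
      simp_rw [h2]
      rw [intervalIntegral.integral_finsetSum]
      · refine Finset.sum_congr rfl fun κ _ => ?_
        rw [intervalIntegral.integral_const_mul, ker_shift hL _ g hper x]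
        ring
      · intro κ _
        apply IntervalIntegrable.const_mul
        refine (intervalIntegrable_const (c := (1 : ℝ))).mono_fun ?_ ?_
        · apply Measurable.aestronglyMeasurable
          fun_prop
        · refine Filter.Eventually.of_forall fun u => ?_
          simp only
          rw [norm_mul, mul_comm Complex.I, Complex.norm_exp_ofReal_mul_I, one_mul, norm_one]
          exact hg1 _

end Pool.Agent.KWI
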