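import Mathlib

/-! Gaussian smoothing: closeness of characteristic functions on `[-T, T]` gives closeness of
the probabilities of an interval. -/

namespace Pool.Agent.KWI

open MeasureTheory ProbabilityTheory

theorem smooth_tail (a : ℝ) (ha : 0 ≤ a) :
    (gaussianReal 0 1).real {g : ℝ | a < |g|} ≤ 2 * Real.exp (-a ^ 2 / 2) := by
  have h1 : (gaussianReal 0 1).real {g : ℝ | a ≤ g} ≤ Real.exp (-a ^ 2 / 2) := by
    have h := measure_ge_le_exp_mul_mgf (μ := gaussianReal 0 1) (X := id) a ha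
      (by simpa using integrable_exp_mul_gaussianReal (μ := 0) (v := 1) a)
    rw [mgf_id_gaussianReal] at h
    refine h.trans (le_of_eq ?_)
    rw [← Real.exp_add]
    congr 1
    simp
    ring
  have h2 : (gaussianReal 0 1).real {g : ℝ | g ≤ -a} ≤ Real.exp (-a ^ 2 / 2) := by
    have h := measure_le_le_exp_mul_mgf (μ := gaussianReal 0 1) (X := id) (t := -a) (-a)
      (by linarith)
      (by simpa using integrable_exp_mul_gaussianReal (μ := 0) (v := 1) (-a))
    rw [mgf_id_gaussianReal] at h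
    refine h.trans (le_of_eq ?_)
    rw [← Real.exp_add]
    congr 1
    simp
    ring
  have h3 : {g : ℝ | a < |g|} ⊆ {g : ℝ | a ≤ g} ∪ {g : ℝ | g ≤ -a} := by
    intro g hg
    rcases lt_abs.1 (show a < |g| from hg) with h | h
    · exact Or.inl h.le
    · exact Or.inr (by show g ≤ -a; linarith)
  calc (gaussianReal 0 1).real {g : ℝ | a < |g|}
      ≤ (gaussianReal 0 1).real ({g : ℝ | a ≤ g} ∪ {g : ℝ | g ≤ -a}) :=
        measureReal_mono h3
    _ ≤ _ := (measureReal_union_le _ _).trans (by linarith)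

theorem smooth_exp (s : ℝ) :
    ((Real.exp (-s ^ 2 / 2) : ℝ) : ℂ) =
      ∫ g, Complex.exp (Complex.I * ((s * g : ℝ) : ℂ)) ∂(gaussianReal 0 1) := by
  have h := charFun_gaussianReal (μ := 0) (v := 1) s
  rw [charFun_apply_real] at h
  have h2 : (∫ g, Complex.exp (Complex.I * ((s * g : ℝ) : ℂ)) ∂(gaussianReal 0 1)) =
      ∫ x, Complex.exp (↑s * ↑x * Complex.I) ∂(gaussianReal 0 1) := by
    congr 1
    ext g
    congr 1
    push_cast
    ring
  rw [h2, h]
  push_cast
  congr 1
  simp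
  ring

theorem smooth_meas_exp {Ω : Type} [MeasurableSpace Ω] {R : Ω → ℝ} (hR : Measurable R) :
    Measurable (fun ω => Complex.exp (Complex.I * ((R ω : ℝ) : ℂ))) := by
  fun_prop

/-- the section probability -/
theorem smooth_section (w B r : ℝ) (hw : 0 < w) :
    (gaussianReal 0 1) {v : ℝ | 0 ≤ r + w * v ∧ r + w * v ≤ B} =
      ENNReal.ofReal (∫ y in Set.Icc 0 B,
        (Real.sqrt (2 * Real.pi) * w)⁻¹ * Real.exp (-((y - r) / w) ^ 2 / 2)) := by
  have hm : Measurable (fun v : ℝ => r + w * v) := by fun_prop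
  have h1 : (gaussianReal 0 1).map (fun v : ℝ => r + w * v) =
      gaussianReal r (.mk (w ^ 2) (sq_nonneg _)) := by
    have e1 : (gaussianReal 0 1).map (fun v : ℝ => w * v) =
        gaussianReal 0 (.mk (w ^ 2) (sq_nonneg _)) := by
      have := gaussianReal_map_const_mul (μ := 0) (v := 1) w
      simpa using this
    have e2 : (gaussianReal 0 1).map (fun v : ℝ => r + w * v) =
        ((gaussianReal 0 1).map (fun v : ℝ => w * v)).map (fun v => r + v) := by
      rw [Measure.map_map (by fun_prop) (by fun_prop)]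
      rfl
    rw [e2, e1]
    have := gaussianReal_map_const_add (μ := 0) (v := .mk (w ^ 2) (sq_nonneg _)) r
    simpa using this
  have h2 : (gaussianReal 0 1) {v : ℝ | 0 ≤ r + w * v ∧ r + w * v ≤ B} =
      (gaussianReal r (.mk (w ^ 2) (sq_nonneg _))) (Set.Icc 0 B) := by
    rw [← h1, Measure.map_apply hm measurableSet_Icc]
    rfl
  rw [h2, gaussianReal_apply_eq_integral]
  · congr 1
    refine setIntegral_congr_fun measurableSet_Icc ?_
    intro y _
    simp only [gaussianPDFReal]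
    congr 1
    · congr 1
      simp only [NNReal.coe_mk]
      rw [Real.sqrt_mul (by positivity), Real.sqrt_sq hw.le]
    · congr 1
      simp only [NNReal.coe_mk]
      field_simp
  · intro h
    have := congrArg NNReal.toReal h
    simp at this
    exact hw.ne' this

theorem smooth_prob {Ω : Type} [MeasurableSpace Ω] (P : Measure Ω) [IsProbabilityMeasure P]
    (R : Ω → ℝ) (hR : Measurable R) (w B : ℝ) (hw : 0 < w) :
    (P.prod (gaussianReal 0 1)).real {z | 0 ≤ R z.1 + w * z.2 ∧ R z.1 + w * z.2 ≤ B} =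
      ∫ y in Set.Icc 0 B, (Real.sqrt (2 * Real.pi) * w)⁻¹ *
        ∫ ω, Real.exp (-((y - R ω) / w) ^ 2 / 2) ∂P := by
  have hc : 0 < Real.sqrt (2 * Real.pi) * w := by positivity
  have hs : MeasurableSet {z : Ω × ℝ | 0 ≤ R z.1 + w * z.2 ∧ R z.1 + w * z.2 ≤ B} := by
    have hf : Measurable (fun z : Ω × ℝ => R z.1 + w * z.2) := by fun_prop
    exact hf measurableSet_Icc
  have hint : Integrable (Function.uncurry fun (ω : Ω) (y : ℝ) =>
      (Real.sqrt (2 * Real.pi) * w)⁻¹ * Real.exp (-((y - R ω) / w) ^ 2 / 2))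
      (P.prod (volume.restrict (Set.Icc 0 B))) := by
    refine Integrable.mono' (integrable_const ((Real.sqrt (2 * Real.pi) * w)⁻¹))
      (Measurable.aestronglyMeasurable (by simp only [Function.uncurry_def]; fun_prop)) ?_
    refine Filter.Eventually.of_forall fun z => ?_
    simp only [Function.uncurry_def]
    rw [Real.norm_of_nonneg (by positivity)]
    refine mul_le_of_le_one_right (by positivity) ?_
    rw [Real.exp_le_one_iff]
    have : 0 ≤ ((z.2 - R z.1) / w) ^ 2 := sq_nonneg _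
    linarith
  rw [measureReal_def, Measure.prod_apply hs]
  have h1 : ∀ ω, (gaussianReal 0 1) (Prod.mk ω ⁻¹'
      {z : Ω × ℝ | 0 ≤ R z.1 + w * z.2 ∧ R z.1 + w * z.2 ≤ B}) =
      ENNReal.ofReal (∫ y in Set.Icc 0 B,
        (Real.sqrt (2 * Real.pi) * w)⁻¹ * Real.exp (-((y - R ω) / w) ^ 2 / 2)) :=
    fun ω => smooth_section w B (R ω) hw
  simp_rw [h1]
  rw [← ofReal_integral_eq_lintegral_ofReal, ENNReal.toReal_ofReal]
  · rw [integral_integral_swap hint]
    refine integral_congr_ae (Filter.Eventually.of_forall fun y => ?_)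
    simp only
    rw [integral_const_mul]
  · refine integral_nonneg fun ω => ?_
    refine integral_nonneg fun y => ?_
    positivity
  · exact hint.integral_prod_left
  · refine Filter.Eventually.of_forall fun ω => ?_
    refine integral_nonneg fun y => ?_
    positivity

theorem smooth_char {Ω : Type} [MeasurableSpace Ω] (P : Measure Ω) [IsProbabilityMeasure P]
    (R : Ω → ℝ) (hR : Measurable R) (w y : ℝ) :
    ((∫ ω, Real.exp (-((y - R ω) / w) ^ 2 / 2) ∂P : ℝ) : ℂ) =
      ∫ g, Complex.exp (Complex.I * ((y / w * g : ℝ) : ℂ)) *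
        (∫ ω, Complex.exp (Complex.I * (((-(g / w)) * R ω : ℝ) : ℂ)) ∂P) ∂(gaussianReal 0 1) := by
  rw [← integral_complex_ofReal]
  simp_rw [smooth_exp]
  rw [integral_integral_swap]
  · refine integral_congr_ae (Filter.Eventually.of_forall fun g => ?_)
    simp only
    rw [← integral_const_mul]
    refine integral_congr_ae (Filter.Eventually.of_forall fun ω => ?_)
    simp only
    rw [← Complex.exp_add]
    congr 1
    push_cast
    ring
  · refine Integrable.mono' (integrable_const (1 : ℝ))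
      (Measurable.aestronglyMeasurable (by simp only [Function.uncurry_def]; fun_prop)) ?_
    refine Filter.Eventually.of_forall fun z => ?_
    simp only [Function.uncurry_def]
    rw [mul_comm, Complex.norm_exp_ofReal_mul_I]

theorem smooth_diff {Ω₁ Ω₂ : Type} [MeasurableSpace Ω₁] [MeasurableSpace Ω₂] (P₁ : Measure Ω₁)
    (P₂ : Measure Ω₂) [IsProbabilityMeasure P₁] [IsProbabilityMeasure P₂] (R₁ : Ω₁ → ℝ)
    (R₂ : Ω₂ → ℝ) (hR₁ : Measurable R₁) (hR₂ : Measurable R₂) (w T η y : ℝ) (hw : 0 < w)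
    (hT : 0 ≤ T) (hη : 0 ≤ η)
    (h : ∀ τ : ℝ, |τ| ≤ T →
      ‖(∫ ω, Complex.exp (Complex.I * ((τ * R₁ ω : ℝ) : ℂ)) ∂P₁) -
        ∫ ω, Complex.exp (Complex.I * ((τ * R₂ ω : ℝ) : ℂ)) ∂P₂‖ ≤ η) :
    (∫ ω, Real.exp (-((y - R₁ ω) / w) ^ 2 / 2) ∂P₁) ≤
      (∫ ω, Real.exp (-((y - R₂ ω) / w) ^ 2 / 2) ∂P₂) +
        (η + 4 * Real.exp (-(w * T) ^ 2 / 2)) := by
  set F₁ : ℝ → ℂ := fun g => ∫ ω, Complex.exp (Complex.I * (((-(g / w)) * R₁ ω : ℝ) : ℂ)) ∂P₁
    with hF₁
  set F₂ : ℝ → ℂ := fun g => ∫ ω, Complex.exp (Complex.I * (((-(g / w)) * R₂ ω : ℝ) : ℂ)) ∂P₂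
    with hF₂
  have n1 : ∀ g, ‖F₁ g‖ ≤ 1 := fun g => by
    refine (norm_integral_le_integral_norm _).trans ?_
    simp_rw [mul_comm Complex.I, Complex.norm_exp_ofReal_mul_I]
    simp
  have n2 : ∀ g, ‖F₂ g‖ ≤ 1 := fun g => by
    refine (norm_integral_le_integral_norm _).trans ?_
    simp_rw [mul_comm Complex.I, Complex.norm_exp_ofReal_mul_I]
    simp
  have m1 : Measurable F₁ := by
    have : StronglyMeasurable (Function.uncurry fun (g : ℝ) (ω : Ω₁) =>
        Complex.exp (Complex.I * (((-(g / w)) * R₁ ω : ℝ) : ℂ))) := by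
      apply Measurable.stronglyMeasurable
      simp only [Function.uncurry_def]
      fun_prop
    exact (this.integral_prod_right' ).measurable
  have m2 : Measurable F₂ := by
    have : StronglyMeasurable (Function.uncurry fun (g : ℝ) (ω : Ω₂) =>
        Complex.exp (Complex.I * (((-(g / w)) * R₂ ω : ℝ) : ℂ))) := by
      apply Measurable.stronglyMeasurable
      simp only [Function.uncurry_def]
      fun_prop
    exact (this.integral_prod_right' ).measurable
  have i1 : Integrable (fun g => Complex.exp (Complex.I * ((y / w * g : ℝ) : ℂ)) * F₁ g)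
      (gaussianReal 0 1) := by
    refine Integrable.mono' (integrable_const (1 : ℝ))
      (Measurable.aestronglyMeasurable (by fun_prop)) ?_
    refine Filter.Eventually.of_forall fun g => ?_
    rw [norm_mul, mul_comm Complex.I, Complex.norm_exp_ofReal_mul_I, one_mul]
    exact n1 g
  have i2 : Integrable (fun g => Complex.exp (Complex.I * ((y / w * g : ℝ) : ℂ)) * F₂ g)
      (gaussianReal 0 1) := by
    refine Integrable.mono' (integrable_const (1 : ℝ))
      (Measurable.aestronglyMeasurable (by fun_prop)) ?_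
    refine Filter.Eventually.of_forall fun g => ?_
    rw [norm_mul, mul_comm Complex.I, Complex.norm_exp_ofReal_mul_I, one_mul]
    exact n2 g
  have hset : MeasurableSet {g : ℝ | w * T < |g|} :=
    measurableSet_lt (by fun_prop) (by fun_prop)
  have hb : ‖((∫ ω, Real.exp (-((y - R₁ ω) / w) ^ 2 / 2) ∂P₁ : ℝ) : ℂ) -
      ((∫ ω, Real.exp (-((y - R₂ ω) / w) ^ 2 / 2) ∂P₂ : ℝ) : ℂ)‖ ≤
      η + 4 * Real.exp (-(w * T) ^ 2 / 2) := by
    rw [smooth_char P₁ R₁ hR₁, smooth_char P₂ R₂ hR₂, ← integral_sub i1 i2]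
    calc ‖∫ g, (Complex.exp (Complex.I * ((y / w * g : ℝ) : ℂ)) * F₁ g -
            Complex.exp (Complex.I * ((y / w * g : ℝ) : ℂ)) * F₂ g) ∂(gaussianReal 0 1)‖
        ≤ ∫ g, (η + {g : ℝ | w * T < |g|}.indicator (fun _ => (2 : ℝ)) g)
            ∂(gaussianReal 0 1) := by
          refine norm_integral_le_of_norm_le ?_ ?_
          · exact (integrable_const η).add ((integrable_const (2 : ℝ)).indicator hset)
          · refine Filter.Eventually.of_forall fun g => ?_
            rw [← mul_sub, norm_mul, mul_comm Complex.I, Complex.norm_exp_ofReal_mul_I, one_mul]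
            by_cases hg : w * T < |g|
            · rw [Set.indicator_of_mem (by exact hg)]
              calc ‖F₁ g - F₂ g‖ ≤ ‖F₁ g‖ + ‖F₂ g‖ := norm_sub_le _ _
                _ ≤ 1 + 1 := add_le_add (n1 g) (n2 g)
                _ ≤ η + 2 := by linarith
            · rw [Set.indicator_of_notMem (by exact hg), add_zero]
              refine h _ ?_
              rw [abs_neg, abs_div, abs_of_pos hw, div_le_iff₀ hw]
              linarith [not_lt.1 hg]
      _ = η + 2 * (gaussianReal 0 1).real {g : ℝ | w * T < |g|} := by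
          rw [integral_add (integrable_const η) ((integrable_const (2 : ℝ)).indicator hset),
            integral_indicator hset]
          simp
          ring
      _ ≤ η + 4 * Real.exp (-(w * T) ^ 2 / 2) := by
          have := smooth_tail (w * T) (by positivity)
          linarith
  rw [← Complex.ofReal_sub, Complex.norm_real, Real.norm_eq_abs] at hb
  linarith [le_abs_self ((∫ ω, Real.exp (-((y - R₁ ω) / w) ^ 2 / 2) ∂P₁) -
    (∫ ω, Real.exp (-((y - R₂ ω) / w) ^ 2 / 2) ∂P₂))]

theorem smooth_int {Ω : Type} [MeasurableSpace Ω] (P : Measure Ω) [IsProbabilityMeasure P]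
    (R : Ω → ℝ) (hR : Measurable R) (w B : ℝ) :
    Integrable (fun y => (Real.sqrt (2 * Real.pi) * w)⁻¹ *
        ∫ ω, Real.exp (-((y - R ω) / w) ^ 2 / 2) ∂P) (volume.restrict (Set.Icc 0 B)) := by
  have m : Measurable (fun y => ∫ ω, Real.exp (-((y - R ω) / w) ^ 2 / 2) ∂P) := by
    have : StronglyMeasurable (Function.uncurry fun (y : ℝ) (ω : Ω) =>
        Real.exp (-((y - R ω) / w) ^ 2 / 2)) := by
      apply Measurable.stronglyMeasurable
      simp only [Function.uncurry_def]
      fun_prop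
    exact (this.integral_prod_right' ).measurable
  refine Integrable.const_mul ?_ _
  refine Integrable.mono' (integrable_const (1 : ℝ)) m.aestronglyMeasurable ?_
  refine Filter.Eventually.of_forall fun y => ?_
  refine (norm_integral_le_of_norm_le (integrable_const (1 : ℝ))
    (Filter.Eventually.of_forall fun ω => ?_)).trans (by simp)
  rw [Real.norm_of_nonneg (by positivity), Real.exp_le_one_iff]
  have : 0 ≤ ((y - R ω) / w) ^ 2 := sq_nonneg _
  linarith

theorem smooth {Ω₁ Ω₂ : Type} [MeasurableSpace Ω₁] [MeasurableSpace Ω₂] (P₁ : Measure Ω₁)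
    (P₂ : Measure Ω₂) [IsProbabilityMeasure P₁] [IsProbabilityMeasure P₂] (R₁ : Ω₁ → ℝ)
    (R₂ : Ω₂ → ℝ) (hR₁ : Measurable R₁) (hR₂ : Measurable R₂) (w B T η : ℝ) (hw : 0 < w)
    (hB : 0 ≤ B) (hT : 0 ≤ T) (hη : 0 ≤ η)
    (h : ∀ τ : ℝ, |τ| ≤ T →
      ‖(∫ ω, Complex.exp (Complex.I * ((τ * R₁ ω : ℝ) : ℂ)) ∂P₁) -
        ∫ ω, Complex.exp (Complex.I * ((τ * R₂ ω : ℝ) : ℂ)) ∂P₂‖ ≤ η) :
    (P₁.prod (gaussianReal 0 1)).real {z | 0 ≤ R₁ z.1 + w * z.2 ∧ R₁ z.1 + w * z.2 ≤ B} ≤
      (P₂.prod (gaussianReal 0 1)).real {z | 0 ≤ R₂ z.1 + w * z.2 ∧ R₂ z.1 + w * z.2 ≤ B} +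
        B / w * (η + 4 * Real.exp (-(w * T) ^ 2 / 2)) := by
  rw [smooth_prob P₁ R₁ hR₁ w B hw, smooth_prob P₂ R₂ hR₂ w B hw]
  set E : ℝ := η + 4 * Real.exp (-(w * T) ^ 2 / 2) with hE
  have hE0 : 0 ≤ E := by positivity
  have hc1 : (Real.sqrt (2 * Real.pi) * w)⁻¹ ≤ 1 / w := by
    rw [one_div]
    refine inv_anti₀ hw ?_
    have : 1 ≤ Real.sqrt (2 * Real.pi) := by
      rw [Real.one_le_sqrt]
      linarith [Real.pi_gt_three]
    nlinarith
  have hc0 : 0 ≤ (Real.sqrt (2 * Real.pi) * w)⁻¹ := by positivity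
  have key : (∫ y in Set.Icc 0 B, (Real.sqrt (2 * Real.pi) * w)⁻¹ *
        ∫ ω, Real.exp (-((y - R₁ ω) / w) ^ 2 / 2) ∂P₁) ≤
      ∫ y in Set.Icc 0 B, ((Real.sqrt (2 * Real.pi) * w)⁻¹ *
        (∫ ω, Real.exp (-((y - R₂ ω) / w) ^ 2 / 2) ∂P₂) + 1 / w * E) := by
    refine integral_mono (smooth_int P₁ R₁ hR₁ w B)
      ((smooth_int P₂ R₂ hR₂ w B).add (integrable_const _)) fun y => ?_
    have := smooth_diff P₁ P₂ R₁ R₂ hR₁ hR₂ w T η y hw hT hη h
    calc (Real.sqrt (2 * Real.pi) * w)⁻¹ * ∫ ω, Real.exp (-((y - R₁ ω) / w) ^ 2 / 2) ∂P₁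
        ≤ (Real.sqrt (2 * Real.pi) * w)⁻¹ *
          ((∫ ω, Real.exp (-((y - R₂ ω) / w) ^ 2 / 2) ∂P₂) + E) :=
          mul_le_mul_of_nonneg_left this hc0
      _ ≤ _ := by
          rw [mul_add]
          have := mul_le_mul_of_nonneg_right hc1 hE0
          linarith
  refine key.trans (le_of_eq ?_)
  rw [integral_add (smooth_int P₂ R₂ hR₂ w B) (integrable_const _)]
  congr 1
  simp [measureReal_def, hB]
  ring

end Pool.Agent.KWI
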