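import Pool.Agent.Lib.MP_68391b_lc.Fool
import Pool.Agent.Lib.MP_68391b_lc.Kernel
import Pool.Agent.Lib.MP_68391b_lc.Smooth

/-! The main lemma: one sided comparison with a blown up threshold. -/

namespace Pool.Agent.KWI

open MeasureTheory ProbabilityTheory

/-- The representative modulo `2 π L` in `[-π L, π L)`. -/
noncomputable def mainPer (L y : ℝ) : ℝ :=
  2 * Real.pi * L * Int.fract ((y + Real.pi * L) / (2 * Real.pi * L)) - Real.pi * L

/-- The upper envelope of `lam y^2 + b y`. -/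
noncomputable def mainUp (lam b δ y : ℝ) : ℝ :=
  lam * y ^ 2 + b * y + δ * |2 * lam * y + b| + δ ^ 2 * |lam|

theorem mainPer_measurable (L : ℝ) : Measurable (mainPer L) := by
  unfold mainPer
  have h : Measurable (fun y : ℝ => Int.fract ((y + Real.pi * L) / (2 * Real.pi * L))) :=
    Measurable.fract (by fun_prop)
  exact (h.const_mul _).sub_const _

theorem mainUp_measurable (lam b δ : ℝ) : Measurable (mainUp lam b δ) := by
  unfold mainUp
  fun_prop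

theorem mainPer_add {L : ℝ} (hL : 0 < L) (y : ℝ) :
    mainPer L (y + 2 * Real.pi * L) = mainPer L y := by
  unfold mainPer
  have hp : (2 * Real.pi * L) ≠ 0 := by positivity
  have : (y + 2 * Real.pi * L + Real.pi * L) / (2 * Real.pi * L) =
      (y + Real.pi * L) / (2 * Real.pi * L) + 1 := by
    field_simp
    ring
  rw [this, Int.fract_add_one]

theorem mainPer_abs {L : ℝ} (hL : 0 < L) (y : ℝ) : |mainPer L y| ≤ Real.pi * L := by
  unfold mainPer
  have h0 := Int.fract_nonneg ((y + Real.pi * L) / (2 * Real.pi * L))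
  have h1 := (Int.fract_lt_one ((y + Real.pi * L) / (2 * Real.pi * L))).le
  have hp : 0 < Real.pi * L := by positivity
  rw [abs_le]
  constructor
  · nlinarith
  · nlinarith

theorem mainPer_eq {L : ℝ} (hL : 0 < L) {y : ℝ} (hy : |y| < Real.pi * L) : mainPer L y = y := by
  unfold mainPer
  have hp : 0 < 2 * Real.pi * L := by positivity
  rw [abs_lt] at hy
  have h : Int.fract ((y + Real.pi * L) / (2 * Real.pi * L)) =
      (y + Real.pi * L) / (2 * Real.pi * L) := by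
    rw [Int.fract_eq_self]
    constructor
    · apply div_nonneg _ hp.le
      linarith
    · rw [div_lt_one hp]
      linarith
  rw [h]
  field_simp
  ring

theorem mainUp_lower {lam b δ u y : ℝ} (hδ : 0 ≤ δ) (hu : |u| ≤ δ) :
    lam * (y + u) ^ 2 + b * (y + u) ≤ mainUp lam b δ y := by
  unfold mainUp
  have h1 : u * (2 * lam * y + b) ≤ δ * |2 * lam * y + b| := by
    calc u * (2 * lam * y + b) ≤ |u * (2 * lam * y + b)| := le_abs_self _
      _ = |u| * |2 * lam * y + b| := abs_mul _ _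
      _ ≤ δ * |2 * lam * y + b| := by gcongr
  have h2 : lam * u ^ 2 ≤ δ ^ 2 * |lam| := by
    calc lam * u ^ 2 ≤ |lam * u ^ 2| := le_abs_self _
      _ = |u| ^ 2 * |lam| := by rw [abs_mul, abs_pow, mul_comm]
      _ ≤ δ ^ 2 * |lam| := by gcongr
  nlinarith

theorem mainUp_upper {lam b δ u x : ℝ} (hδ : 0 ≤ δ) (hu : |u| ≤ δ) :
    mainUp lam b δ (x - u) ≤
      lam * x ^ 2 + b * x + (2 * δ * |2 * lam * x + b| + 4 * δ ^ 2 * |lam|) := by
  unfold mainUp
  have h1 : -(u * (2 * lam * x + b)) ≤ δ * |2 * lam * x + b| := by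
    calc -(u * (2 * lam * x + b)) ≤ |u * (2 * lam * x + b)| := neg_le_abs _
      _ = |u| * |2 * lam * x + b| := abs_mul _ _
      _ ≤ δ * |2 * lam * x + b| := by gcongr
  have h2 : lam * u ^ 2 ≤ δ ^ 2 * |lam| := by
    calc lam * u ^ 2 ≤ |lam * u ^ 2| := le_abs_self _
      _ = |u| ^ 2 * |lam| := by rw [abs_mul, abs_pow, mul_comm]
      _ ≤ δ ^ 2 * |lam| := by gcongr
  have h3 : |2 * lam * (x - u) + b| ≤ |2 * lam * x + b| + 2 * |lam| * δ := by
    calc |2 * lam * (x - u) + b| = |(2 * lam * x + b) + (-(2 * lam * u))| := by ring_nf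
      _ ≤ |2 * lam * x + b| + |-(2 * lam * u)| := abs_add_le _ _
      _ = |2 * lam * x + b| + 2 * |lam| * |u| := by
          rw [abs_neg, abs_mul, abs_mul]; norm_num
      _ ≤ |2 * lam * x + b| + 2 * |lam| * δ := by gcongr
  have h4 : δ * |2 * lam * (x - u) + b| ≤ δ * (|2 * lam * x + b| + 2 * |lam| * δ) := by gcongr
  nlinarith

theorem mainUp_abs {lam b δ y L : ℝ} (h1 : |lam| ≤ 1) (h2 : |b| ≤ 1) (h3 : 0 ≤ δ) (h4 : δ ≤ 1)
    (hL : 1 ≤ L) (hy : |y| ≤ Real.pi * L) : |mainUp lam b δ y| ≤ 40 * L ^ 2 := by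
  have hpi : Real.pi < 4 := by linarith [Real.pi_lt_d2]
  have hy4 : |y| ≤ 4 * L := hy.trans (by gcongr)
  have a1 : |lam * y ^ 2| ≤ 16 * L ^ 2 := by
    rw [abs_mul, abs_pow]
    calc |lam| * |y| ^ 2 ≤ 1 * (4 * L) ^ 2 := by gcongr
      _ = 16 * L ^ 2 := by ring
  have a2 : |b * y| ≤ 4 * L := by
    rw [abs_mul]
    calc |b| * |y| ≤ 1 * (4 * L) := by gcongr
      _ = 4 * L := by ring
  have a3 : |2 * lam * y + b| ≤ 8 * L + 1 := by
    calc |2 * lam * y + b| ≤ |2 * lam * y| + |b| := abs_add_le _ _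
      _ = 2 * |lam| * |y| + |b| := by rw [abs_mul, abs_mul]; norm_num
      _ ≤ 2 * 1 * (4 * L) + 1 := by gcongr
      _ = 8 * L + 1 := by ring
  have a4 : abs (δ * |2 * lam * y + b|) ≤ 8 * L + 1 := by
    rw [abs_mul, abs_abs, abs_of_nonneg h3]
    calc δ * |2 * lam * y + b| ≤ 1 * (8 * L + 1) := by gcongr
      _ = 8 * L + 1 := by ring
  have a5 : abs (δ ^ 2 * |lam|) ≤ 1 := by
    rw [abs_mul, abs_abs, abs_pow, abs_of_nonneg h3]
    calc δ ^ 2 * |lam| ≤ 1 ^ 2 * 1 := by gcongr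
      _ = 1 := by ring
  unfold mainUp
  calc abs (lam * y ^ 2 + b * y + δ * |2 * lam * y + b| + δ ^ 2 * |lam|)
      ≤ |lam * y ^ 2| + |b * y| + abs (δ * |2 * lam * y + b|) + abs (δ ^ 2 * |lam|) := by
        refine (abs_add_le _ _).trans ?_
        gcongr
        refine (abs_add_le _ _).trans ?_
        gcongr
        exact abs_add_le _ _
    _ ≤ 16 * L ^ 2 + 4 * L + (8 * L + 1) + 1 := by gcongr
    _ ≤ 40 * L ^ 2 := by nlinarith

/-- Gaussian tail. -/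
theorem main_tail (K : ℝ) (hK : 0 ≤ K) :
    (gaussianReal 0 1).real {v | K < |v|} ≤ 2 * Real.exp (-K ^ 2 / 2) := by
  have hi : ∀ t : ℝ, Integrable (fun v : ℝ => Real.exp (t * id v)) (gaussianReal 0 1) := fun t =>
    integrable_exp_mul_gaussianReal t
  have e1 : (gaussianReal 0 1).real {v | K ≤ id v} ≤ Real.exp (-K ^ 2 / 2) := by
    have h := measure_ge_le_exp_mul_mgf (μ := gaussianReal 0 1) (X := id) K hK (hi K)
    rw [mgf_id_gaussianReal, ← Real.exp_add] at h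
    refine h.trans (Real.exp_le_exp.2 (le_of_eq ?_))
    simp
    ring
  have e2 : (gaussianReal 0 1).real {v | id v ≤ -K} ≤ Real.exp (-K ^ 2 / 2) := by
    have h := measure_le_le_exp_mul_mgf (μ := gaussianReal 0 1) (X := id) (-K) (t := -K)
      (by linarith) (hi (-K))
    rw [mgf_id_gaussianReal, ← Real.exp_add] at h
    refine h.trans (Real.exp_le_exp.2 (le_of_eq ?_))
    simp
    ring
  have hsub : {v : ℝ | K < |v|} ⊆ {v | K ≤ id v} ∪ {v | id v ≤ -K} := by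
    intro v hv
    have hv' : K < |v| := hv
    rcases lt_abs.1 hv' with h | h
    · left; exact h.le
    · right
      show v ≤ -K
      linarith
  calc (gaussianReal 0 1).real {v | K < |v|}
      ≤ (gaussianReal 0 1).real ({v | K ≤ id v} ∪ {v | id v ≤ -K}) := measureReal_mono hsub
    _ ≤ _ := measureReal_union_le _ _
    _ ≤ 2 * Real.exp (-K ^ 2 / 2) := by linarith

section
variable {ι : Type} [Fintype ι] [DecidableEq ι]

/-- The quadratic tail. -/
noncomputable def mainS (A : Finset ι) (lam b : ι → ℝ) (x : ι → ℝ) : ℝ :=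
  ∑ i ∈ Aᶜ, (lam i * (x i ^ 2 - 1) + b i * x i)

/-- The smoothed quadratic polynomial. -/
noncomputable def mainR (A : Finset ι) (lam b : ι → ℝ) (δ L κ : ℝ)
    (z : (ι → ℝ) × (ι → ℝ)) : ℝ :=
  ∑ i ∈ A, mainUp (lam i) (b i) δ (mainPer L (z.1 i - z.2 i)) + mainS A lam b z.1 + κ

theorem mainS_measurable (A : Finset ι) (lam b : ι → ℝ) : Measurable (mainS A lam b) := by
  unfold mainS
  fun_prop

theorem mainR_measurable (A : Finset ι) (lam b : ι → ℝ) (δ L κ : ℝ) :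
    Measurable (mainR A lam b δ L κ) := by
  unfold mainR
  have h1 : Measurable (fun z : (ι → ℝ) × (ι → ℝ) =>
      ∑ i ∈ A, mainUp (lam i) (b i) δ (mainPer L (z.1 i - z.2 i))) := by
    refine Finset.measurable_fun_sum _ (fun i _ => ?_)
    exact (mainUp_measurable _ _ _).comp ((mainPer_measurable L).comp (by fun_prop))
  have h2 : Measurable (fun z : (ι → ℝ) × (ι → ℝ) => mainS A lam b z.1) :=
    (mainS_measurable A lam b).comp measurable_fst
  exact (h1.add h2).add_const _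

theorem main_norm_exp (t : ℝ) : ‖Complex.exp (Complex.I * ((t : ℝ) : ℂ))‖ = 1 := by
  rw [mul_comm]
  exact Complex.norm_exp_ofReal_mul_I t

theorem main_char (A : Finset ι) (lam b : ι → ℝ) (δ L κ τ : ℝ) (m : Measure (ι → ℝ))
    [IsProbabilityMeasure m] (ν : Measure ℝ) [IsProbabilityMeasure ν] :
    ∫ z, Complex.exp (Complex.I * ((τ * mainR A lam b δ L κ z : ℝ) : ℂ))
        ∂(m.prod (Measure.pi fun _ : ι => ν)) =
      Complex.exp (Complex.I * ((τ * κ : ℝ) : ℂ)) *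
        ∫ x, (∏ i ∈ A, (∫ u, Complex.exp (Complex.I *
            ((τ * mainUp (lam i) (b i) δ (mainPer L (x i - u)) : ℝ) : ℂ)) ∂ν)) *
          Complex.exp (Complex.I *
            ((∑ i ∈ Aᶜ, (τ * lam i * (x i ^ 2 - 1) + τ * b i * x i) : ℝ) : ℂ)) ∂m := by
  have hmeas : Measurable (fun z => Complex.exp (Complex.I *
      ((τ * mainR A lam b δ L κ z : ℝ) : ℂ))) := by
    have := mainR_measurable A lam b δ L κ
    fun_prop
  rw [integral_prod]
  swap
  · exact Integrable.of_bound hmeas.aestronglyMeasurable 1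
      (Filter.Eventually.of_forall fun z => (main_norm_exp _).le)
  rw [← integral_const_mul]
  refine integral_congr_ae (Filter.Eventually.of_forall fun x => ?_)
  dsimp only
  obtain ⟨F, hF⟩ : ∃ F : ι → ℝ → ℂ, F = fun (i : ι) (u : ℝ) =>
      if i ∈ A then Complex.exp (Complex.I *
            ((τ * mainUp (lam i) (b i) δ (mainPer L (x i - u)) : ℝ) : ℂ)) else 1 := ⟨_, rfl⟩
  have h1 : ∀ U : ι → ℝ, Complex.exp (Complex.I * ((τ * mainR A lam b δ L κ (x, U) : ℝ) : ℂ)) =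
      (Complex.exp (Complex.I * ((τ * κ : ℝ) : ℂ)) * Complex.exp (Complex.I *
            ((∑ i ∈ Aᶜ, (τ * lam i * (x i ^ 2 - 1) + τ * b i * x i) : ℝ) : ℂ))) *
      ∏ i : ι, F i (U i) := by
    intro U
    rw [hF]
    dsimp only
    rw [Finset.prod_ite_mem, Finset.univ_inter, ← Complex.exp_add, ← Complex.exp_sum,
      ← Complex.exp_add]
    congr 1
    unfold mainR mainS
    have e1 : (τ * (∑ i ∈ A, mainUp (lam i) (b i) δ (mainPer L (x i - U i)) +
        ∑ i ∈ Aᶜ, (lam i * (x i ^ 2 - 1) + b i * x i) + κ) : ℝ) =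
        τ * κ + ∑ i ∈ Aᶜ, (τ * lam i * (x i ^ 2 - 1) + τ * b i * x i) +
        ∑ i ∈ A, τ * mainUp (lam i) (b i) δ (mainPer L (x i - U i)) := by
      rw [mul_add, mul_add, Finset.mul_sum, Finset.mul_sum]
      have : ∀ i ∈ Aᶜ, τ * (lam i * (x i ^ 2 - 1) + b i * x i) =
          τ * lam i * (x i ^ 2 - 1) + τ * b i * x i := fun i _ => by ring
      rw [Finset.sum_congr rfl this]
      ring
    dsimp only
    rw [e1]
    push_cast
    rw [mul_add, mul_add, Finset.mul_sum A]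
  have h3 : ∫ U : ι → ℝ, ∏ i : ι, F i (U i) ∂(Measure.pi fun _ : ι => ν) =
      ∏ i : ι, ∫ u, F i u ∂ν :=
    integral_fintype_prod_eq_prod (μ := fun _ : ι => ν) F
  refine (integral_congr_ae (Filter.Eventually.of_forall h1)).trans ?_
  rw [integral_const_mul, h3]
  have h2 : ∀ i : ι, (∫ u, F i u ∂ν) =
      if i ∈ A then (∫ u, Complex.exp (Complex.I *
            ((τ * mainUp (lam i) (b i) δ (mainPer L (x i - u)) : ℝ) : ℂ)) ∂ν) else 1 := by
    intro i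
    rw [hF]
    by_cases hi : i ∈ A <;> simp [hi]
  rw [Finset.prod_congr rfl fun i _ => h2 i, Finset.prod_ite_mem, Finset.univ_inter]
  ring

/-- The bad set. -/
noncomputable def mainBad (A : Finset ι) (lam b : ι → ℝ) (δ : ℝ) (K : ℕ) :
    Set (((ι → ℝ) × (ι → ℝ)) × ℝ) :=
  (((⋃ i ∈ A, {z | (2 * K : ℝ) ≤ |z.1.1 i|}) ∪ (⋃ i ∈ A, {z | δ < |z.1.2 i|})) ∪
    {z | (K : ℝ) < |z.2|}) ∪ {z | (2 : ℝ) ^ (K + 1) ≤ |mainS A lam b z.1.1|}

theorem main_exp (K : ℕ) (hK : 8 ≤ K) : Real.exp (-(K : ℝ) ^ 2 / 2) ≤ (1 / 8) ^ K := by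
  have h2 : (2 : ℝ) ≤ Real.exp 1 := by linarith [Real.add_one_le_exp (1 : ℝ)]
  have h8 : (8 : ℝ) ≤ Real.exp 4 := by
    have : Real.exp 4 = Real.exp 1 ^ 4 := by rw [← Real.exp_nat_mul]; norm_num
    rw [this]
    calc (8 : ℝ) ≤ 2 ^ 4 := by norm_num
      _ ≤ Real.exp 1 ^ 4 := by gcongr
  have hK' : (8 : ℝ) ≤ K := by exact_mod_cast hK
  calc Real.exp (-(K : ℝ) ^ 2 / 2) ≤ Real.exp (K * (-4)) := by
        apply Real.exp_le_exp.2
        nlinarith
    _ = (Real.exp 4)⁻¹ ^ K := by rw [Real.exp_nat_mul, Real.exp_neg]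
    _ ≤ (8 : ℝ)⁻¹ ^ K := by gcongr
    _ = (1 / 8) ^ K := by norm_num

theorem main_bad {N : ℕ} (m : Measure (ι → ℝ)) [IsProbabilityMeasure m] (hm : MM N m)
    (ν : Measure ℝ) [IsProbabilityMeasure ν] (A : Finset ι) (lam b : ι → ℝ) (δ : ℝ) (K : ℕ)
    (hK : 8 ≤ K) (hN : 2 * K ≤ N) (hA : A.card ≤ K)
    (hν : ν.real {u | δ < |u|} ≤ (1 / 2) ^ (2 * K))
    (hV : ∑ i ∈ Aᶜ, (lam i ^ 2 + b i ^ 2) ≤ 1) :
    ((m.prod (Measure.pi fun _ : ι => ν)).prod (gaussianReal 0 1)).real (mainBad A lam b δ K) ≤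
      (2 * K + 2) * (1 / 8) ^ K + (K + 1) * (1 / 4) ^ K := by
  have hK' : (8 : ℝ) ≤ K := by exact_mod_cast hK
  have hK0 : (0 : ℝ) < K := by linarith
  have hA' : (A.card : ℝ) ≤ K := by exact_mod_cast hA
  have mp1 : MeasurePreserving (fun z : ((ι → ℝ) × (ι → ℝ)) × ℝ => z.1.1)
      ((m.prod (Measure.pi fun _ : ι => ν)).prod (gaussianReal 0 1)) m :=
    measurePreserving_fst.comp measurePreserving_fst
  have mp2 : MeasurePreserving (fun z : ((ι → ℝ) × (ι → ℝ)) × ℝ => z.1.2)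
      ((m.prod (Measure.pi fun _ : ι => ν)).prod (gaussianReal 0 1))
      (Measure.pi fun _ : ι => ν) :=
    measurePreserving_snd.comp measurePreserving_fst
  have mp3 : ∀ i, MeasurePreserving (fun z : ((ι → ℝ) × (ι → ℝ)) × ℝ => z.1.2 i)
      ((m.prod (Measure.pi fun _ : ι => ν)).prod (gaussianReal 0 1)) ν := fun i =>
    (measurePreserving_eval (fun _ : ι => ν) i).comp mp2
  have mp4 : MeasurePreserving (fun z : ((ι → ℝ) × (ι → ℝ)) × ℝ => z.2)
      ((m.prod (Measure.pi fun _ : ι => ν)).prod (gaussianReal 0 1)) (gaussianReal 0 1) :=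
    measurePreserving_snd
  have b1 : ∀ i ∈ A, ((m.prod (Measure.pi fun _ : ι => ν)).prod (gaussianReal 0 1)).real
      {z | (2 * K : ℝ) ≤ |z.1.1 i|} ≤ 2 * (1 / 8) ^ K := by
    intro i _
    have hms : MeasurableSet {x : ι → ℝ | (2 * K : ℝ) ≤ |x i|} :=
      measurableSet_le measurable_const (by fun_prop)
    have e := mp1.measureReal_preimage hms.nullMeasurableSet
    have e' : (fun z : ((ι → ℝ) × (ι → ℝ)) × ℝ => z.1.1) ⁻¹' {x : ι → ℝ | (2 * K : ℝ) ≤ |x i|} =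
      {z | (2 * K : ℝ) ≤ |z.1.1 i|} := rfl
    rw [← e', e]
    refine (tail_coord m hm K hN i (2 * K) (by positivity)).trans ?_
    have : 4 * (K : ℝ) / (2 * K) ^ 2 ≤ 1 / 8 := by
      rw [div_le_div_iff₀ (by positivity) (by norm_num)]
      nlinarith
    gcongr
  have b2 : ∀ i ∈ A, ((m.prod (Measure.pi fun _ : ι => ν)).prod (gaussianReal 0 1)).real
      {z | δ < |z.1.2 i|} ≤ (1 / 4) ^ K := by
    intro i _
    have hms : MeasurableSet {u : ℝ | δ < |u|} :=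
      measurableSet_lt measurable_const (by fun_prop)
    have e := (mp3 i).measureReal_preimage hms.nullMeasurableSet
    have e' : (fun z : ((ι → ℝ) × (ι → ℝ)) × ℝ => z.1.2 i) ⁻¹' {u : ℝ | δ < |u|} =
      {z | δ < |z.1.2 i|} := rfl
    rw [← e', e]
    refine hν.trans (le_of_eq ?_)
    rw [pow_mul]
    norm_num
  have b3 : ((m.prod (Measure.pi fun _ : ι => ν)).prod (gaussianReal 0 1)).real
      {z | (K : ℝ) < |z.2|} ≤ 2 * (1 / 8) ^ K := by
    have hms : MeasurableSet {u : ℝ | (K : ℝ) < |u|} :=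
      measurableSet_lt measurable_const (by fun_prop)
    have e := mp4.measureReal_preimage hms.nullMeasurableSet
    have e' : (fun z : ((ι → ℝ) × (ι → ℝ)) × ℝ => z.2) ⁻¹' {u : ℝ | (K : ℝ) < |u|} =
      {z | (K : ℝ) < |z.2|} := rfl
    rw [← e', e]
    refine (main_tail K hK0.le).trans ?_
    have := main_exp K hK
    linarith
  have b4 : ((m.prod (Measure.pi fun _ : ι => ν)).prod (gaussianReal 0 1)).real
      {z | (2 : ℝ) ^ (K + 1) ≤ |mainS A lam b z.1.1|} ≤ (1 / 4) ^ K := by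
    have hms : MeasurableSet {x : ι → ℝ | (2 : ℝ) ^ (K + 1) ≤ |mainS A lam b x|} :=
      measurableSet_le measurable_const (by have := mainS_measurable A lam b; fun_prop)
    have e := mp1.measureReal_preimage hms.nullMeasurableSet
    have e' : (fun z : ((ι → ℝ) × (ι → ℝ)) × ℝ => z.1.1) ⁻¹'
      {x : ι → ℝ | (2 : ℝ) ^ (K + 1) ≤ |mainS A lam b x|} =
      {z | (2 : ℝ) ^ (K + 1) ≤ |mainS A lam b z.1.1|} := rfl
    rw [← e', e]
    refine (tail_quad m hm (by omega) Aᶜ lam b (2 ^ (K + 1)) (by positivity)).trans ?_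
    calc 2 * (∑ i ∈ Aᶜ, (lam i ^ 2 + b i ^ 2)) / (2 ^ (K + 1)) ^ 2
        ≤ 2 * 1 / (2 ^ (K + 1)) ^ 2 := by gcongr
      _ = (1 / 2) * (1 / 4) ^ K := by
        have e5 : ((2 : ℝ) ^ (K + 1)) ^ 2 = 4 * 4 ^ K := by
          rw [← pow_mul, mul_comm, pow_mul, pow_succ]; norm_num; ring
        rw [e5, one_div_pow]
        field_simp
        norm_num
      _ ≤ (1 / 4) ^ K := by
        have : (0 : ℝ) ≤ (1 / 4) ^ K := by positivity
        linarith
  have s1 : ((m.prod (Measure.pi fun _ : ι => ν)).prod (gaussianReal 0 1)).real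
      (⋃ i ∈ A, {z | (2 * K : ℝ) ≤ |z.1.1 i|}) ≤ K * (2 * (1 / 8) ^ K) := by
    refine (measureReal_biUnion_finset_le _ _).trans ?_
    refine (Finset.sum_le_sum b1).trans ?_
    rw [Finset.sum_const, nsmul_eq_mul]
    gcongr
  have s2 : ((m.prod (Measure.pi fun _ : ι => ν)).prod (gaussianReal 0 1)).real
      (⋃ i ∈ A, {z | δ < |z.1.2 i|}) ≤ K * (1 / 4) ^ K := by
    refine (measureReal_biUnion_finset_le _ _).trans ?_
    refine (Finset.sum_le_sum b2).trans ?_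
    rw [Finset.sum_const, nsmul_eq_mul]
    gcongr
  unfold mainBad
  refine (measureReal_union_le _ _).trans ?_
  have t1 := measureReal_union_le (μ := (m.prod (Measure.pi fun _ : ι => ν)).prod
    (gaussianReal 0 1)) ((⋃ i ∈ A, {z | (2 * K : ℝ) ≤ |z.1.1 i|}) ∪ (⋃ i ∈ A, {z | δ < |z.1.2 i|}))
    {z | (K : ℝ) < |z.2|}
  have t2 := measureReal_union_le (μ := (m.prod (Measure.pi fun _ : ι => ν)).prod
    (gaussianReal 0 1)) (⋃ i ∈ A, {z | (2 * K : ℝ) ≤ |z.1.1 i|}) (⋃ i ∈ A, {z | δ < |z.1.2 i|})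
  linarith

/-- Outside of the bad set the smoothed polynomial is close to the polynomial. -/
theorem main_good (A : Finset ι) (lam b : ι → ℝ) (hlam : ∀ i, |lam i| ≤ 1) (hb : ∀ i, |b i| ≤ 1)
    (c δ w : ℝ) (K : ℕ) (hK : 8 ≤ K) (hA : A.card ≤ K) (hc : |c| ≤ 2 ^ K) (hδ : 0 ≤ δ)
    (hδ1 : δ ≤ 1) (hw : 0 ≤ w) (hw1 : w ≤ 1) (z : ((ι → ℝ) × (ι → ℝ)) × ℝ)
    (hz : z ∉ mainBad A lam b δ K) :
    (∑ i ∈ A, (lam i * z.1.1 i ^ 2 + b i * z.1.1 i) + mainS A lam b z.1.1 + c ≤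
      mainR A lam b δ K (c + w * K) z.1 + w * z.2) ∧
    (mainR A lam b δ K (c + w * K) z.1 + w * z.2 ≤
      ∑ i ∈ A, (lam i * z.1.1 i ^ 2 + b i * z.1.1 i) + mainS A lam b z.1.1 + c +
        ∑ i ∈ A, (2 * δ * |2 * lam i * z.1.1 i + b i| + 4 * δ ^ 2 * |lam i|) + 2 * w * K) ∧
    mainR A lam b δ K (c + w * K) z.1 + w * z.2 ≤ 4 * 4 ^ K := by
  have hK' : (8 : ℝ) ≤ K := by exact_mod_cast hK
  have hK0 : (0 : ℝ) < K := by linarith
  unfold mainBad at hz
  simp only [Set.mem_union, Set.mem_iUnion, Set.mem_ofPred_eq, not_or, not_exists, not_le,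
    not_lt] at hz
  obtain ⟨⟨⟨h1, h2⟩, h3⟩, h4⟩ := hz
  have hper : ∀ i ∈ A, mainPer K (z.1.1 i - z.1.2 i) = z.1.1 i - z.1.2 i := by
    intro i hi
    apply mainPer_eq hK0
    have a1 := h1 i hi
    have a2 := h2 i hi
    have hpi := Real.pi_gt_three
    calc |z.1.1 i - z.1.2 i| ≤ |z.1.1 i| + |z.1.2 i| := abs_sub _ _
      _ < 2 * K + 1 := by linarith
      _ ≤ 3 * K := by linarith
      _ ≤ Real.pi * K := by gcongr
  have hv := abs_le.1 h3
  have hwv1 : -(w * K) ≤ w * z.2 := by nlinarith [hv.1]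
  have hwv2 : w * z.2 ≤ w * K := by nlinarith [hv.2]
  unfold mainR
  refine ⟨?_, ?_, ?_⟩
  · have : ∑ i ∈ A, (lam i * z.1.1 i ^ 2 + b i * z.1.1 i) ≤
        ∑ i ∈ A, mainUp (lam i) (b i) δ (mainPer K (z.1.1 i - z.1.2 i)) := by
      refine Finset.sum_le_sum fun i hi => ?_
      rw [hper i hi]
      have := mainUp_lower (lam := lam i) (b := b i) (y := z.1.1 i - z.1.2 i) hδ (h2 i hi)
      simpa using this
    linarith
  · have : ∑ i ∈ A, mainUp (lam i) (b i) δ (mainPer K (z.1.1 i - z.1.2 i)) ≤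
        ∑ i ∈ A, (lam i * z.1.1 i ^ 2 + b i * z.1.1 i) +
        ∑ i ∈ A, (2 * δ * |2 * lam i * z.1.1 i + b i| + 4 * δ ^ 2 * |lam i|) := by
      rw [← Finset.sum_add_distrib]
      refine Finset.sum_le_sum fun i hi => ?_
      rw [hper i hi]
      exact mainUp_upper hδ (h2 i hi)
    linarith
  · have : ∑ i ∈ A, mainUp (lam i) (b i) δ (mainPer K (z.1.1 i - z.1.2 i)) ≤
        K * (40 * (K : ℝ) ^ 2) := by
      calc ∑ i ∈ A, mainUp (lam i) (b i) δ (mainPer K (z.1.1 i - z.1.2 i))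
          ≤ ∑ i ∈ A, 40 * (K : ℝ) ^ 2 := by
            refine Finset.sum_le_sum fun i _ => ?_
            exact (le_abs_self _).trans (mainUp_abs (hlam i) (hb i) hδ hδ1 (by linarith)
              (mainPer_abs hK0 _))
        _ = A.card * (40 * (K : ℝ) ^ 2) := by rw [Finset.sum_const, nsmul_eq_mul]
        _ ≤ K * (40 * (K : ℝ) ^ 2) := by
            have : (A.card : ℝ) ≤ K := by exact_mod_cast hA
            gcongr
    have hs : mainS A lam b z.1.1 ≤ 2 ^ (K + 1) := (le_abs_self _).trans h4.le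
    have hc' : c ≤ 2 ^ K := (le_abs_self _).trans hc
    have hwK : w * K ≤ K := by nlinarith
    have g1 : ∀ n : ℕ, 8 ≤ n → (40 * (n : ℝ) ^ 3 ≤ 2 * 4 ^ n) := by
      intro n hn
      induction n, hn using Nat.le_induction with
      | base => norm_num
      | succ n hn ih =>
        have hn' : (8 : ℝ) ≤ n := by exact_mod_cast hn
        rw [pow_succ (4 : ℝ) n]
        push_cast
        nlinarith [sq_nonneg ((n : ℝ) - 8), mul_nonneg (sq_nonneg (n : ℝ)) (by linarith : (0 : ℝ) ≤ n - 8)]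
    have g2 := g1 K hK
    have g3 : (K : ℝ) ≤ 2 ^ K := by exact_mod_cast Nat.lt_two_pow_self.le
    have g4 : (2 : ℝ) ^ K * 8 ≤ 4 ^ K := by
      have : (4 : ℝ) ^ K = 2 ^ K * 2 ^ K := by rw [← mul_pow]; norm_num
      rw [this]
      have : (8 : ℝ) ≤ 2 ^ K := by
        calc (8 : ℝ) = 2 ^ 3 := by norm_num
          _ ≤ 2 ^ K := by gcongr <;> [norm_num; omega]
      gcongr
    rw [pow_succ] at hs
    nlinarith

end

theorem main_final (K : ℕ) (hK : 8 ≤ K) :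
    2 * ((2 * (K : ℝ) + 2) * (1 / 8) ^ K + (K + 1) * (1 / 4) ^ K) + 20 * (1 / 8) ^ K ≤
      (1 / 2) ^ K := by
  have g : ∀ n : ℕ, 8 ≤ n → (32 * (n : ℝ) ≤ 2 ^ n) := by
    intro n hn
    induction n, hn using Nat.le_induction with
    | base => norm_num
    | succ n hn ih =>
      have hn' : (8 : ℝ) ≤ n := by exact_mod_cast hn
      rw [pow_succ (2 : ℝ) n]
      push_cast
      linarith
  have g1 := g K hK
  have hK' : (8 : ℝ) ≤ K := by exact_mod_cast hK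
  set t : ℝ := (1 / 2) ^ K with ht
  have ht0 : 0 < t := by positivity
  have e8 : ((1 : ℝ) / 8) ^ K = t * t * t := by rw [ht, ← mul_pow, ← mul_pow]; norm_num
  have e4 : ((1 : ℝ) / 4) ^ K = t * t := by rw [ht, ← mul_pow]; norm_num
  have e2 : t * 2 ^ K = 1 := by rw [ht, ← mul_pow]; norm_num
  have g2 : 32 * (K * t) ≤ 1 := by nlinarith
  have g3 : 256 * t ≤ 1 := by nlinarith
  rw [e8, e4]
  have a1 : (K * t) * t ≤ (1 / 32) * t := by nlinarith
  have a2 : t * t ≤ (1 / 256) * t := by nlinarith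
  have a3 : (K * t) * t * t ≤ (1 / 32) * t * t := by nlinarith
  have a4 : t * t * t ≤ (1 / 256) * t * t := by nlinarith
  nlinarith

theorem main_cond {C₀ C₁ K a X δ : ℝ} (hC₀ : 0 < C₀) (hC₁ : 0 < C₁) (hK : 8 ≤ K) (ha : a ≤ K)
    (hX : 0 ≤ X) (hδ : 0 < δ) :
    C₀ * ((6 * K) ^ 4 * (16 * K * X + 1) + a * (C₁ * (2 * K) / δ) ^ 2) ≤
      (1 + 20736 * C₀ + 4 * C₀ * C₁ ^ 2) * (K ^ 5 * (X + 1) + K ^ 3 / δ ^ 2) := by
  have hK0 : 0 < K := by linarith
  have p1 : (6 * K) ^ 4 * (16 * K * X + 1) ≤ 20736 * (K ^ 5 * (X + 1)) := by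
    have h4 : K ^ 4 ≤ K ^ 5 := by
      calc K ^ 4 = K ^ 4 * 1 := by ring
        _ ≤ K ^ 4 * K := by gcongr; linarith
        _ = K ^ 5 := by ring
    have h5 : (0 : ℝ) ≤ K ^ 4 := by positivity
    calc (6 * K) ^ 4 * (16 * K * X + 1) = 20736 * (K ^ 5 * X) + 1296 * K ^ 4 := by ring
      _ ≤ 20736 * (K ^ 5 * X) + 20736 * K ^ 5 := by linarith
      _ = _ := by ring
  have p2 : a * (C₁ * (2 * K) / δ) ^ 2 ≤ 4 * C₁ ^ 2 * (K ^ 3 / δ ^ 2) := by
    calc a * (C₁ * (2 * K) / δ) ^ 2 ≤ K * (C₁ * (2 * K) / δ) ^ 2 := by gcongr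
      _ = 4 * C₁ ^ 2 * (K ^ 3 / δ ^ 2) := by
        field_simp
        ring
  have p3 : 0 ≤ K ^ 5 * (X + 1) := by positivity
  have p4 : 0 ≤ K ^ 3 / δ ^ 2 := by positivity
  calc C₀ * ((6 * K) ^ 4 * (16 * K * X + 1) + a * (C₁ * (2 * K) / δ) ^ 2)
      ≤ C₀ * (20736 * (K ^ 5 * (X + 1)) + 4 * C₁ ^ 2 * (K ^ 3 / δ ^ 2)) := by gcongr
    _ = 20736 * C₀ * (K ^ 5 * (X + 1)) + 4 * C₀ * C₁ ^ 2 * (K ^ 3 / δ ^ 2) := by ring
    _ ≤ (1 + 20736 * C₀ + 4 * C₀ * C₁ ^ 2) * (K ^ 5 * (X + 1)) +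
        (1 + 20736 * C₀ + 4 * C₀ * C₁ ^ 2) * (K ^ 3 / δ ^ 2) := by
      have q1 : 0 ≤ 4 * C₀ * C₁ ^ 2 := by positivity
      have q2 : 0 ≤ 20736 * C₀ := by positivity
      gcongr
      · linarith
      · linarith
    _ = _ := by ring

theorem main_T2 {X k Y : ℝ} (hX : 256 ≤ X) (hk : k ≤ X) (hk0 : 0 ≤ k) (hY : Y ≤ X * X) :
    16 * k * Y + 1 ≤ X * X * X * X * X * X := by
  have hX0 : 0 < X := by linarith
  calc 16 * k * Y + 1 ≤ 16 * k * (X * X) + 1 := by gcongr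
    _ ≤ 16 * X * (X * X) + 1 := by gcongr
    _ ≤ 17 * (X * X * X) := by
      have : 1 ≤ X * X * X := by
        have h1 : 1 ≤ X := by linarith
        calc (1 : ℝ) = 1 * 1 * 1 := by norm_num
          _ ≤ X * X * X := by gcongr
      linarith
    _ ≤ X * (X * X * X) := by gcongr; linarith
    _ = X * X * X * X * 1 * 1 := by ring
    _ ≤ X * X * X * X * X * X := by
      have h1 : 1 ≤ X := by linarith
      gcongr

theorem main_lemma : ∃ C₂ : ℝ, 0 < C₂ ∧ ∃ K₀ : ℕ, ∀ (K : ℕ) (_ : K₀ ≤ K)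
    (ι : Type) [Fintype ι] [DecidableEq ι] (μ : Measure (ι → ℝ)) [IsProbabilityMeasure μ]
    (N : ℕ) (_ : MM N μ) (A : Finset ι) (_ : A.card ≤ K) (lam b : ι → ℝ)
    (_ : ∀ i, |lam i| ≤ 1) (_ : ∀ i, |b i| ≤ 1) (c : ℝ) (_ : |c| ≤ 2 ^ K) (δ w : ℝ)
    (_ : (1 / 2) ^ K ≤ δ) (_ : δ ≤ 1) (_ : (1 / 2) ^ K ≤ w) (_ : w ≤ 1) (W : ℝ)
    (_ : ∑ i ∈ Aᶜ, (lam i ^ 2 + b i ^ 2) ≤ W) (_ : W ≤ 1)
    (_ : C₂ * ((K : ℝ) ^ 5 * (W / w ^ 2 + 1) + (K : ℝ) ^ 3 / δ ^ 2) ≤ N),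
    μ.real {x | 0 ≤ ∑ i ∈ A, (lam i * x i ^ 2 + b i * x i) +
        ∑ i ∈ Aᶜ, (lam i * (x i ^ 2 - 1) + b i * x i) + c} ≤
      (gam ι).real {x | 0 ≤ ∑ i ∈ A, (lam i * x i ^ 2 + b i * x i) +
        ∑ i ∈ Aᶜ, (lam i * (x i ^ 2 - 1) + b i * x i) + c +
        ∑ i ∈ A, (2 * δ * |2 * lam i * x i + b i| + 4 * δ ^ 2 * |lam i|) + 2 * w * K} +
      (1 / 2) ^ K := by
  obtain ⟨C₀, hC₀, hfool⟩ := fool
  obtain ⟨C₁, hC₁, hker⟩ := kernel
  refine ⟨1 + 20736 * C₀ + 4 * C₀ * C₁ ^ 2, by positivity, max 8 ⌈C₁⌉₊, ?_⟩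
  intro K hK ι _ _ μ _ N hμ A hA lam b hlam hb c hc δ w hδ0 hδ1 hw0 hw1 W hW hW1 hN
  have hK8 : 8 ≤ K := (le_max_left _ _).trans hK
  have hKC : C₁ ≤ K := (Nat.le_ceil C₁).trans (by exact_mod_cast (le_max_right _ _).trans hK)
  have hK' : (8 : ℝ) ≤ K := by exact_mod_cast hK8
  have hK0 : (0 : ℝ) < K := by linarith
  have hp : (0 : ℝ) < (1 / 2) ^ K := by positivity
  have hδ : 0 < δ := hp.trans_le hδ0
  have hw : 0 < w := hp.trans_le hw0
  have hA' : (A.card : ℝ) ≤ K := by exact_mod_cast hA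
  have hK2 : (K : ℝ) ≤ 2 ^ K := by exact_mod_cast Nat.lt_two_pow_self.le
  have hinv : ∀ t : ℝ, 0 < t → (1 / 2) ^ K ≤ t → 1 / t ≤ 2 ^ K := by
    intro t ht h
    rw [div_le_iff₀ ht]
    calc (1 : ℝ) = 2 ^ K * (1 / 2) ^ K := by rw [← mul_pow]; norm_num
      _ ≤ 2 ^ K * t := by gcongr
  have hδi := hinv δ hδ hδ0
  have hwi := hinv w hw hw0
  have hW0 : 0 ≤ W := (Finset.sum_nonneg fun i _ => by positivity).trans hW
  have hpow : (2 : ℝ) ^ (2 * K) = 2 ^ K * 2 ^ K := by rw [two_mul, pow_add]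
  -- the number N is large
  have hK5 : (K : ℝ) ^ 5 ≤ N := by
    refine le_trans ?_ hN
    have h1 : 0 ≤ W / w ^ 2 := by positivity
    have h2 : 0 ≤ (K : ℝ) ^ 3 / δ ^ 2 := by positivity
    calc (K : ℝ) ^ 5 = 1 * ((K : ℝ) ^ 5 * (0 + 1) + 0) := by ring
      _ ≤ (1 + 20736 * C₀ + 4 * C₀ * C₁ ^ 2) *
          ((K : ℝ) ^ 5 * (W / w ^ 2 + 1) + (K : ℝ) ^ 3 / δ ^ 2) := by
        gcongr
        have : 0 ≤ 20736 * C₀ + 4 * C₀ * C₁ ^ 2 := by positivity
        linarith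
  have hNK : 2 * K ≤ N := by
    have h1 : (2 * K : ℝ) ≤ K ^ 5 := by
      calc (2 * K : ℝ) ≤ 8 ^ 4 * K := by nlinarith
        _ ≤ (K : ℝ) ^ 4 * K := by gcongr
        _ = K ^ 5 := by ring
    exact_mod_cast h1.trans hK5
  -- the kernel
  obtain ⟨ν, hν1, -, hν2, hν3⟩ := hker (2 * K) (by omega) K δ (by linarith) hδ hδ1 (by
    calc (K : ℝ) / δ = K * (1 / δ) := by ring
      _ ≤ 2 ^ K * 2 ^ K := by gcongr
      _ = 2 ^ (2 * K) := hpow.symm)
  -- smoothing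
  have hsm := smooth (μ.prod (Measure.pi fun _ : ι => ν)) ((gam ι).prod (Measure.pi fun _ : ι => ν))
    (mainR A lam b δ K (c + w * K)) (mainR A lam b δ K (c + w * K))
    (mainR_measurable _ _ _ _ _ _) (mainR_measurable _ _ _ _ _ _) w (4 * 4 ^ K)
    (4 * Real.sqrt K / w) ((1 / 2) ^ (6 * K)) hw (by positivity) (by positivity) (by positivity)
    (by
      intro τ hτ
      rw [main_char, main_char, ← mul_sub, norm_mul, main_norm_exp, one_mul]
      have hτ2 : τ ^ 2 ≤ 16 * K / w ^ 2 := by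
        calc τ ^ 2 = |τ| ^ 2 := (sq_abs τ).symm
          _ ≤ (4 * Real.sqrt K / w) ^ 2 := by gcongr
          _ = 16 * K / w ^ 2 := by
            rw [div_pow, mul_pow, Real.sq_sqrt hK0.le]; norm_num
      have hT2 : ∑ i ∈ Aᶜ, ((τ * lam i) ^ 2 + (τ * b i) ^ 2) ≤ 16 * K * (W / w ^ 2) + 1 := by
        calc ∑ i ∈ Aᶜ, ((τ * lam i) ^ 2 + (τ * b i) ^ 2)
            = τ ^ 2 * ∑ i ∈ Aᶜ, (lam i ^ 2 + b i ^ 2) := by
              rw [Finset.mul_sum]
              exact Finset.sum_congr rfl fun i _ => by ring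
          _ ≤ (16 * K / w ^ 2) * W := by gcongr
          _ = 16 * K * (W / w ^ 2) := by ring
          _ ≤ 16 * K * (W / w ^ 2) + 1 := by linarith
      have hiw2 : W / w ^ 2 ≤ 2 ^ K * 2 ^ K := by
        calc W / w ^ 2 ≤ 1 / w ^ 2 := by gcongr
          _ = (1 / w) * (1 / w) := by rw [div_mul_div_comm]; ring_nf
          _ ≤ 2 ^ K * 2 ^ K := by gcongr
      have h64 : (2 : ℝ) ^ (6 * K) = 2 ^ K * 2 ^ K * 2 ^ K * 2 ^ K * 2 ^ K * 2 ^ K := by
        rw [← pow_add, ← pow_add, ← pow_add, ← pow_add, ← pow_add]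
        congr 1
        ring
      have h256 : (256 : ℝ) ≤ 2 ^ K := by
        calc (256 : ℝ) = 2 ^ 8 := by norm_num
          _ ≤ 2 ^ K := by gcongr; norm_num
      refine hfool ι μ N hμ (6 * K) (by omega) A (by omega) (C₁ * 4 ^ (2 * K))
        (C₁ * ((2 * K : ℕ) : ℝ) / δ) ?_ (by positivity)
        (fun i y => ∫ u, Complex.exp (Complex.I *
            ((τ * mainUp (lam i) (b i) δ (mainPer K (y - u)) : ℝ) : ℂ)) ∂ν) ?_ ?_
        (fun i => τ * lam i) (fun i => τ * b i) (16 * K * (W / w ^ 2) + 1) ?_ ?_ hT2 ?_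
      · have e : (4 : ℝ) ^ (2 * K) = 2 ^ K * 2 ^ K * 2 ^ K * 2 ^ K := by
          rw [← mul_pow, ← mul_pow, ← mul_pow, pow_mul]; norm_num
        rw [e, h64]
        have : C₁ ≤ 2 ^ K * 2 ^ K := by nlinarith
        calc C₁ * (2 ^ K * 2 ^ K * 2 ^ K * 2 ^ K) ≤
            (2 ^ K * 2 ^ K) * (2 ^ K * 2 ^ K * 2 ^ K * 2 ^ K) := by gcongr
          _ = _ := by ring
      · intro i _
        refine hν3 (fun v => Complex.exp (Complex.I *
            ((τ * mainUp (lam i) (b i) δ (mainPer K v) : ℝ) : ℂ))) ?_ ?_ ?_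
        · have := (mainUp_measurable (lam i) (b i) δ).comp (mainPer_measurable K)
          have h2 : Measurable (fun v => mainUp (lam i) (b i) δ (mainPer K v)) := this
          fun_prop
        · intro x
          exact (main_norm_exp _).le
        · intro x
          rw [mainPer_add hK0]
      · intro i _ x
        refine (norm_integral_le_integral_norm _).trans ?_
        simp_rw [main_norm_exp]
        simp
      · have : 0 ≤ 16 * K * (W / w ^ 2) := by positivity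
        linarith
      · rw [h64]
        exact main_T2 h256 hK2 hK0.le hiw2
      · refine le_trans ?_ hN
        have hcast : (((6 * K : ℕ) : ℝ)) = 6 * K := by push_cast; ring
        have hcast2 : (((2 * K : ℕ) : ℝ)) = 2 * K := by push_cast; ring
        rw [hcast, hcast2]
        exact main_cond hC₀ hC₁ hK' hA' (by positivity) hδ)
  have hbad1 := main_bad μ hμ ν A lam b δ K hK8 hNK hA hν2 (hW.trans hW1)
  have hbad2 := main_bad (gam ι) (MM_gam N ι) ν A lam b δ K hK8 hNK hA hν2 (hW.trans hW1)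
  have hgood := main_good A lam b hlam hb c δ w K hK8 hA hc hδ.le hδ1 hw.le hw1
  set P1 := (μ.prod (Measure.pi fun _ : ι => ν)).prod (gaussianReal 0 1) with hP1
  set P2 := ((gam ι).prod (Measure.pi fun _ : ι => ν)).prod (gaussianReal 0 1) with hP2
  have mp1 : MeasurePreserving (fun z : ((ι → ℝ) × (ι → ℝ)) × ℝ => z.1.1) P1 μ :=
    measurePreserving_fst.comp measurePreserving_fst
  have mp2 : MeasurePreserving (fun z : ((ι → ℝ) × (ι → ℝ)) × ℝ => z.1.1) P2 (gam ι) :=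
    measurePreserving_fst.comp measurePreserving_fst
  have hm1 : MeasurableSet {x : ι → ℝ | 0 ≤ ∑ i ∈ A, (lam i * x i ^ 2 + b i * x i) +
        ∑ i ∈ Aᶜ, (lam i * (x i ^ 2 - 1) + b i * x i) + c} :=
    measurableSet_le measurable_const (by fun_prop)
  have hm2 : MeasurableSet {x : ι → ℝ | 0 ≤ ∑ i ∈ A, (lam i * x i ^ 2 + b i * x i) +
        ∑ i ∈ Aᶜ, (lam i * (x i ^ 2 - 1) + b i * x i) + c +
        ∑ i ∈ A, (2 * δ * |2 * lam i * x i + b i| + 4 * δ ^ 2 * |lam i|) + 2 * w * K} :=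
    measurableSet_le measurable_const (by fun_prop)
  rw [← mp1.measureReal_preimage hm1.nullMeasurableSet,
    ← mp2.measureReal_preimage hm2.nullMeasurableSet]
  have i1 : P1.real ((fun z : ((ι → ℝ) × (ι → ℝ)) × ℝ => z.1.1) ⁻¹'
      {x : ι → ℝ | 0 ≤ ∑ i ∈ A, (lam i * x i ^ 2 + b i * x i) +
        ∑ i ∈ Aᶜ, (lam i * (x i ^ 2 - 1) + b i * x i) + c}) ≤
      P1.real {z | 0 ≤ mainR A lam b δ K (c + w * K) z.1 + w * z.2 ∧
        mainR A lam b δ K (c + w * K) z.1 + w * z.2 ≤ 4 * 4 ^ K} +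
      P1.real (mainBad A lam b δ K) := by
    refine (measureReal_mono ?_).trans (measureReal_union_le _ _)
    intro z hz
    by_cases hzb : z ∈ mainBad A lam b δ K
    · exact Or.inr hzb
    · left
      obtain ⟨g1, g2, g3⟩ := hgood z hzb
      have hz' : 0 ≤ ∑ i ∈ A, (lam i * z.1.1 i ^ 2 + b i * z.1.1 i) +
        ∑ i ∈ Aᶜ, (lam i * (z.1.1 i ^ 2 - 1) + b i * z.1.1 i) + c := hz
      exact ⟨hz'.trans g1, g3⟩
  have i2 : P2.real {z | 0 ≤ mainR A lam b δ K (c + w * K) z.1 + w * z.2 ∧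
        mainR A lam b δ K (c + w * K) z.1 + w * z.2 ≤ 4 * 4 ^ K} ≤
      P2.real ((fun z : ((ι → ℝ) × (ι → ℝ)) × ℝ => z.1.1) ⁻¹'
      {x : ι → ℝ | 0 ≤ ∑ i ∈ A, (lam i * x i ^ 2 + b i * x i) +
        ∑ i ∈ Aᶜ, (lam i * (x i ^ 2 - 1) + b i * x i) + c +
        ∑ i ∈ A, (2 * δ * |2 * lam i * x i + b i| + 4 * δ ^ 2 * |lam i|) + 2 * w * K}) +
      P2.real (mainBad A lam b δ K) := by
    refine (measureReal_mono ?_).trans (measureReal_union_le _ _)
    intro z hz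
    by_cases hzb : z ∈ mainBad A lam b δ K
    · exact Or.inr hzb
    · left
      obtain ⟨g1, g2, g3⟩ := hgood z hzb
      have hz1 : 0 ≤ mainR A lam b δ K (c + w * K) z.1 + w * z.2 := hz.1
      exact hz1.trans g2
  have herr : 4 * 4 ^ K / w * ((1 / 2) ^ (6 * K) +
      4 * Real.exp (-(w * (4 * Real.sqrt K / w)) ^ 2 / 2)) ≤ 20 * (1 / 8) ^ K := by
    have e1 : -(w * (4 * Real.sqrt K / w)) ^ 2 / 2 = -(8 * (K : ℝ)) := by
      have : w * (4 * Real.sqrt K / w) = 4 * Real.sqrt K := by field_simp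
      rw [this, mul_pow, Real.sq_sqrt hK0.le]
      ring
    have e2 : Real.exp (-(8 * (K : ℝ))) ≤ (1 / 64) ^ K := by
      have h2 : (2 : ℝ) ≤ Real.exp 1 := by linarith [Real.add_one_le_exp (1 : ℝ)]
      have h8 : (64 : ℝ) ≤ Real.exp 8 := by
        have : Real.exp 8 = Real.exp 1 ^ 8 := by rw [← Real.exp_nat_mul]; norm_num
        rw [this]
        calc (64 : ℝ) ≤ 2 ^ 8 := by norm_num
          _ ≤ Real.exp 1 ^ 8 := by gcongr
      calc Real.exp (-(8 * (K : ℝ))) = Real.exp (K * (-8)) := by ring_nf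
        _ = (Real.exp 8)⁻¹ ^ K := by rw [Real.exp_nat_mul, Real.exp_neg]
        _ ≤ (64 : ℝ)⁻¹ ^ K := by gcongr
        _ = (1 / 64) ^ K := by norm_num
    have e3 : ((1 : ℝ) / 2) ^ (6 * K) = (1 / 64) ^ K := by rw [pow_mul]; norm_num
    rw [e1, e3]
    calc 4 * 4 ^ K / w * ((1 / 64) ^ K + 4 * Real.exp (-(8 * (K : ℝ))))
        = 4 * 4 ^ K * (1 / w) * ((1 / 64) ^ K + 4 * Real.exp (-(8 * (K : ℝ)))) := by ring
      _ ≤ 4 * 4 ^ K * 2 ^ K * ((1 / 64) ^ K + 4 * (1 / 64) ^ K) := by gcongr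
      _ = 20 * (4 ^ K * 2 ^ K * (1 / 64) ^ K) := by ring
      _ = 20 * (1 / 8) ^ K := by rw [← mul_pow, ← mul_pow]; norm_num
  have hfin := main_final K hK8
  linarith

end Pool.Agent.KWI
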