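import Pool.Agent.Lib.MP_68391b_lc.Defs

/-! Closure properties of polynomial functions; transfer of integrals. -/

namespace Pool.Agent.KWI

open MeasureTheory ProbabilityTheory

variable {ι : Type}

theorem PolyC.mono {N M : ℕ} {F : (ι → ℝ) → ℂ} (hF : PolyC N F) (h : N ≤ M) : PolyC M F := by
  obtain ⟨q, hq, hF⟩ := hF
  exact ⟨q, hq.trans h, hF⟩

theorem PolyC.const (c : ℂ) : PolyC 0 (fun _ : ι → ℝ => c) := by
  exact ⟨MvPolynomial.C c, by simp, fun x => by simp⟩

theorem PolyC.coord (i : ι) : PolyC 1 (fun x : ι → ℝ => ((x i : ℝ) : ℂ)) := by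
  exact ⟨MvPolynomial.X i, by simp, fun x => by simp⟩

theorem PolyC.add {N : ℕ} {F G : (ι → ℝ) → ℂ} (hF : PolyC N F) (hG : PolyC N G) :
    PolyC N (fun x => F x + G x) := by
  obtain ⟨q, hq, hF⟩ := hF
  obtain ⟨r, hr, hG⟩ := hG
  exact ⟨q + r, (MvPolynomial.totalDegree_add q r).trans (max_le hq hr),
    fun x => by beta_reduce; rw [hF, hG, map_add]⟩

theorem PolyC.mul {N M : ℕ} {F G : (ι → ℝ) → ℂ} (hF : PolyC N F) (hG : PolyC M G) :
    PolyC (N + M) (fun x => F x * G x) := by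
  obtain ⟨q, hq, hF⟩ := hF
  obtain ⟨r, hr, hG⟩ := hG
  exact ⟨q * r, (MvPolynomial.totalDegree_mul q r).trans (add_le_add hq hr),
    fun x => by beta_reduce; rw [hF, hG, map_mul]⟩

theorem PolyC.pow {N : ℕ} {F : (ι → ℝ) → ℂ} (hF : PolyC N F) (k : ℕ) :
    PolyC (k * N) (fun x => F x ^ k) := by
  obtain ⟨q, hq, hF⟩ := hF
  exact ⟨q ^ k, (MvPolynomial.totalDegree_pow q k).trans (Nat.mul_le_mul_left k hq),
    fun x => by beta_reduce; rw [hF, map_pow]⟩

theorem PolyC.sum {κ : Type} {N : ℕ} (s : Finset κ) {F : κ → (ι → ℝ) → ℂ}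
    (hF : ∀ l ∈ s, PolyC N (F l)) : PolyC N (fun x => ∑ l ∈ s, F l x) := by
  classical
  induction s using Finset.induction_on with
  | empty =>
    simpa using (PolyC.const (ι := ι) 0).mono (Nat.zero_le N)
  | insert a s ha ih =>
    have h1 := (hF a (Finset.mem_insert_self a s)).add
      (ih fun l hl => hF l (Finset.mem_insert_of_mem hl))
    simpa only [Finset.sum_insert ha] using h1

theorem PolyC.conj {N : ℕ} {F : (ι → ℝ) → ℂ} (hF : PolyC N F) :
    PolyC N (fun x => (starRingEnd ℂ) (F x)) := by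
  obtain ⟨q, hq, hF⟩ := hF
  refine ⟨MvPolynomial.map (starRingEnd ℂ) q, ?_, fun x => ?_⟩
  · refine le_trans ?_ hq
    refine MvPolynomial.totalDegree_le_of_support_subset ?_
    exact MvPolynomial.support_map_subset _ _
  · beta_reduce
    rw [hF, MvPolynomial.eval_map, MvPolynomial.eval, MvPolynomial.coe_eval₂Hom,
      MvPolynomial.hom_eval₂]
    simp only [RingHom.comp_id]
    congr 1
    funext i
    simp

/-- `x ↦ ‖F x‖ ^ 2` is a polynomial function. -/
theorem PolyC.normSq {N : ℕ} {F : (ι → ℝ) → ℂ} (hF : PolyC N F) :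
    PolyC (2 * N) (fun x => ((‖F x‖ ^ 2 : ℝ) : ℂ)) := by
  have h := hF.mul hF.conj
  have e : (fun x => F x * (starRingEnd ℂ) (F x)) = fun x => ((‖F x‖ ^ 2 : ℝ) : ℂ) := by
    funext x
    rw [Complex.mul_conj, Complex.normSq_eq_norm_sq]
  rw [e] at h
  rw [two_mul]
  exact h

theorem PolyC.measurable {N : ℕ} {F : (ι → ℝ) → ℂ} (hF : PolyC N F) : Measurable F := by
  obtain ⟨q, hq, hF⟩ := hF
  have e : F = fun x => ∑ d ∈ q.support, q.coeff d * ∏ i ∈ d.support, ((x i : ℝ) : ℂ) ^ d i := by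
    funext x
    rw [hF, MvPolynomial.eval_eq]
  rw [e]
  refine Finset.measurable_fun_sum _ fun d _ => ?_
  refine Measurable.const_mul ?_ _
  refine Finset.measurable_fun_prod _ fun i _ => ?_
  exact (Complex.measurable_ofReal.comp (measurable_pi_apply i)).pow_const _

/-- A complex polynomial function of a real vector is a combination of two real ones. -/
theorem poly_split {N : ℕ} {F : (ι → ℝ) → ℂ} (hF : PolyC N F) :
    ∃ p r : MvPolynomial ι ℝ, p.totalDegree ≤ N ∧ r.totalDegree ≤ N ∧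
      ∀ x, F x = ((MvPolynomial.eval x p : ℝ) : ℂ) + ((MvPolynomial.eval x r : ℝ) : ℂ) * Complex.I := by
  obtain ⟨q, hq, hF⟩ := hF
  have hdeg : ∀ f : ℂ → ℝ,
      (∑ m ∈ q.support, MvPolynomial.monomial m (f (q.coeff m))).totalDegree ≤ N := by
    intro f
    refine MvPolynomial.totalDegree_finsetSum_le fun m hm => ?_
    exact (MvPolynomial.totalDegree_monomial_le m _).trans
      ((MvPolynomial.le_totalDegree hm).trans hq)
  refine ⟨∑ m ∈ q.support, MvPolynomial.monomial m (q.coeff m).re,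
    ∑ m ∈ q.support, MvPolynomial.monomial m (q.coeff m).im, hdeg Complex.re, hdeg Complex.im,
    fun x => ?_⟩
  rw [hF, MvPolynomial.eval_eq]
  simp only [map_sum, MvPolynomial.eval_monomial, Finsupp.prod]
  push_cast
  rw [Finset.sum_mul, ← Finset.sum_add_distrib]
  refine Finset.sum_congr rfl fun m _ => ?_
  conv_lhs => rw [← Complex.re_add_im (q.coeff m)]
  ring

variable [Fintype ι]

theorem MM.mono {N M : ℕ} {μ : Measure (ι → ℝ)} (hμ : MM N μ) (h : M ≤ N) : MM M μ :=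
  fun q hq => hμ q (hq.trans h)

theorem MM.integrable {N : ℕ} {μ : Measure (ι → ℝ)} (hμ : MM N μ) {F : (ι → ℝ) → ℂ}
    (hF : PolyC N F) : Integrable F μ := by
  obtain ⟨p, r, hp, hr, h⟩ := poly_split hF
  have e : F = fun x => ((MvPolynomial.eval x p : ℝ) : ℂ) +
      ((MvPolynomial.eval x r : ℝ) : ℂ) * Complex.I := funext h
  rw [e]
  exact (hμ p hp).1.ofReal.add ((hμ r hr).1.ofReal.mul_const _)

theorem MM_gam (N : ℕ) (ι : Type) [Fintype ι] : MM N (gam ι) := by
  intro q _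
  refine ⟨?_, rfl⟩
  have e : (fun x : ι → ℝ => MvPolynomial.eval x q) =
      fun x => ∑ d ∈ q.support, q.coeff d * ∏ i, x i ^ d i := by
    funext x
    rw [MvPolynomial.eval_eq']
  rw [e]
  refine integrable_finsetSum _ fun d _ => ?_
  refine Integrable.const_mul ?_ _
  unfold gam
  refine Integrable.fintype_prod (f := fun i (v : ℝ) => v ^ d i) fun i => ?_
  have h1 : MemLp (id : ℝ → ℝ) (d i : ℕ) (gaussianReal 0 1) :=
    memLp_id_gaussianReal' _ (ENNReal.natCast_ne_top _)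
  have h2 := h1.integrable_norm_pow'
  refine (integrable_norm_iff ?_).1 ?_
  · exact (measurable_id.pow_const _).aestronglyMeasurable
  · simpa using h2

theorem MM.integral_eq {N : ℕ} {μ : Measure (ι → ℝ)} (hμ : MM N μ) {F : (ι → ℝ) → ℂ}
    (hF : PolyC N F) : ∫ x, F x ∂μ = ∫ x, F x ∂(gam ι) := by
  obtain ⟨p, r, hp, hr, h⟩ := poly_split hF
  have key : ∀ ν : Measure (ι → ℝ), MM N ν → ∫ x, F x ∂ν =
      ((∫ x, MvPolynomial.eval x p ∂(gam ι) : ℝ) : ℂ) +
        ((∫ x, MvPolynomial.eval x r ∂(gam ι) : ℝ) : ℂ) * Complex.I := by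
    intro ν hν
    have e : F = fun x => ((MvPolynomial.eval x p : ℝ) : ℂ) +
        ((MvPolynomial.eval x r : ℝ) : ℂ) * Complex.I := funext h
    rw [e, integral_add (hν p hp).1.ofReal ((hν r hr).1.ofReal.mul_const _),
      integral_mul_const, integral_complex_ofReal, integral_complex_ofReal,
      (hν p hp).2, (hν r hr).2]
  rw [key μ hμ, key (gam ι) (MM_gam N ι)]

/-- Real valued version. -/
theorem MM.integrable_real {N : ℕ} {μ : Measure (ι → ℝ)} (hμ : MM N μ) {F : (ι → ℝ) → ℝ}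
    (hF : PolyC N (fun x => ((F x : ℝ) : ℂ))) : Integrable F μ := by
  have h := (hμ.integrable hF).re
  simpa using h

theorem MM.integral_eq_real {N : ℕ} {μ : Measure (ι → ℝ)} (hμ : MM N μ) {F : (ι → ℝ) → ℝ}
    (hF : PolyC N (fun x => ((F x : ℝ) : ℂ))) : ∫ x, F x ∂μ = ∫ x, F x ∂(gam ι) := by
  have h := hμ.integral_eq hF
  rw [integral_complex_ofReal, integral_complex_ofReal] at h
  exact_mod_cast h

end Pool.Agent.KWI
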